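import Pool.Agent.H743.JL.Stm

/-!
# JL: the sums over the cosets
-/

set_option autoImplicit false
set_option linter.all false

open scoped Classical

namespace Pool.Agent.H295.JLT3

open Finset Module
open Pool.Agent.H743.JL Pool.Agent.N916.MO

theorem sgn_add (a b : ZMod 2) : sgn (a + b) = sgn a * sgn b := by
  have h1 : (1 : ZMod 2) + 1 = 0 := rfl
  have h2 : (1 : ZMod 2) ≠ 0 := by decide
  unfold sgn
  rcases zz a with h | h <;> rcases zz b with h' | h' <;> rw [h, h'] <;> simp [h1, h2]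

theorem sgn_sum {ι : Type} (s : Finset ι) (f : ι → ZMod 2) :
    sgn (∑ i ∈ s, f i) = ∏ i ∈ s, sgn (f i) := by
  induction s using Finset.induction_on with
  | empty => simp [sgn]
  | insert a s ha ih => rw [sum_insert ha, prod_insert ha, sgn_add, ih]

theorem pinv {E F : Type} [AddCommGroup E] [Module (ZMod 2) E] [AddCommGroup F]
    [Module (ZMod 2) F] (L : E →ₗ[ZMod 2] F) :
    ∃ g : F →ₗ[ZMod 2] E, ∀ y ∈ LinearMap.range L, L (g y) = y := by
  obtain ⟨g0, hg0⟩ := L.rangeRestrict.exists_rightInverse_of_surjective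
    (LinearMap.range_rangeRestrict L)
  obtain ⟨g, hg⟩ := LinearMap.exists_extend g0
  refine ⟨g, fun y hy => ?_⟩
  have h1 := LinearMap.congr_fun hg ⟨y, hy⟩
  have h2 := LinearMap.congr_fun hg0 ⟨y, hy⟩
  have h3 : g y = g0 ⟨y, hy⟩ := h1
  have h4 := congrArg Subtype.val h2
  rw [h3]
  exact h4

theorem rng {E : Type} [AddCommGroup E] [Module (ZMod 2) E] [Finite E]
    {b : E →ₗ[ZMod 2] E →ₗ[ZMod 2] ZMod 2} (hb : ∀ z w, b z w = b w z)
    (φ : E →ₗ[ZMod 2] ZMod 2) (h : ∀ z ∈ Rad b ⊤, φ z = 0) : φ ∈ LinearMap.range b := by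
  have h1 : φ ∈ (LinearMap.ker b).dualAnnihilator := by
    rw [Submodule.mem_dualAnnihilator]
    intro z hz
    refine h z ⟨Submodule.mem_top, fun w _ => ?_⟩
    rw [LinearMap.mem_ker.1 hz, LinearMap.zero_apply]
  rw [← LinearMap.range_dualMap_eq_dualAnnihilator_ker] at h1
  obtain ⟨ψ, hψ⟩ := h1
  obtain ⟨w, hw⟩ := (Module.evalEquiv (ZMod 2) E).surjective ψ
  refine ⟨w, LinearMap.ext fun z => ?_⟩
  have h2 := LinearMap.congr_fun hψ z
  rw [LinearMap.dualMap_apply, ← hw] at h2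
  have h3 : (Module.evalEquiv (ZMod 2) E) w (b z) = b z w := rfl
  rw [h3] at h2
  rw [hb]
  exact h2

section
variable {I : Type} [Fintype I] [DecidableEq I]

/-- the scalar product as a bilinear map -/
def dL (I : Type) [Fintype I] : (I → ZMod 2) →ₗ[ZMod 2] (I → ZMod 2) →ₗ[ZMod 2] ZMod 2 :=
  LinearMap.mk₂ (ZMod 2) dt
    (by
      intro a b x
      unfold dt
      rw [← sum_add_distrib]
      exact sum_congr rfl fun k _ => by rw [Pi.add_apply, add_mul])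
    (by
      intro c a x
      unfold dt
      rw [smul_eq_mul, mul_sum]
      exact sum_congr rfl fun k _ => by rw [Pi.smul_apply, smul_eq_mul, mul_assoc])
    (by
      intro a x y
      unfold dt
      rw [← sum_add_distrib]
      exact sum_congr rfl fun k _ => by rw [Pi.add_apply, mul_add])
    (by
      intro c a x
      unfold dt
      rw [smul_eq_mul, mul_sum]
      exact sum_congr rfl fun k _ => by rw [Pi.smul_apply, smul_eq_mul, mul_left_comm])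

theorem dt_add_left (a b x : I → ZMod 2) : dt (a + b) x = dt a x + dt b x := (dL I).map_add₂ a b x

theorem dt_add_right (a x y : I → ZMod 2) : dt a (x + y) = dt a x + dt a y := (dL I a).map_add x y

theorem dt_sum_right {ι : Type} (s : Finset ι) (a : I → ZMod 2) (f : ι → I → ZMod 2) :
    dt a (∑ i ∈ s, f i) = ∑ i ∈ s, dt a (f i) := map_sum (dL I a) f s

/-- the functionals of the first kind -/
def Xf (E0 I : Type) [AddCommGroup E0] [Module (ZMod 2) E0] [Fintype I] :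
    (I → ZMod 2) →ₗ[ZMod 2] (EE E0 I →ₗ[ZMod 2] ZMod 2) :=
  (LinearMap.lcomp (ZMod 2) (ZMod 2)
    (LinearMap.fst (ZMod 2) (I → ZMod 2) (I → ZMod 2) ∘ₗ
      LinearMap.snd (ZMod 2) E0 ((I → ZMod 2) × (I → ZMod 2)))) ∘ₗ dL I

/-- the functionals of the second kind -/
def Yf (E0 I : Type) [AddCommGroup E0] [Module (ZMod 2) E0] [Fintype I] :
    (I → ZMod 2) →ₗ[ZMod 2] (EE E0 I →ₗ[ZMod 2] ZMod 2) :=
  (LinearMap.lcomp (ZMod 2) (ZMod 2)
    (LinearMap.snd (ZMod 2) (I → ZMod 2) (I → ZMod 2) ∘ₗ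
      LinearMap.snd (ZMod 2) E0 ((I → ZMod 2) × (I → ZMod 2)))) ∘ₗ dL I

theorem Xf_apply (E0 : Type) [AddCommGroup E0] [Module (ZMod 2) E0] (v : I → ZMod 2)
    (z : EE E0 I) : Xf E0 I v z = dt v z.2.1 := rfl

theorem Yf_apply (E0 : Type) [AddCommGroup E0] [Module (ZMod 2) E0] (v : I → ZMod 2)
    (z : EE E0 I) : Yf E0 I v z = dt v z.2.2 := rfl

variable {n : ℕ} {E0 : Fin n → Type} [∀ i, AddCommGroup (E0 i)] [∀ i, Module (ZMod 2) (E0 i)]
  [∀ i, Fintype (E0 i)]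

theorem mem_Rd {E : Type} [AddCommGroup E] [Module (ZMod 2) E]
    {B : EE E I →ₗ[ZMod 2] EE E I →ₗ[ZMod 2] ZMod 2} {s : Sy I} {z : EE E I} :
    z ∈ Rd B s ↔ ∀ w, (B + sB s.1 : EE E I →ₗ[ZMod 2] EE E I →ₗ[ZMod 2] ZMod 2) z w = 0 := by
  unfold Rd
  rw [EA_univ, mem_Rad]
  exact ⟨fun h w => h.2 w Submodule.mem_top, fun h => ⟨Submodule.mem_top, fun w _ => h w⟩⟩

theorem mem_Vn {B : ∀ i, EE (E0 i) I →ₗ[ZMod 2] EE (E0 i) I →ₗ[ZMod 2] ZMod 2} {s : Sy I}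
    {W : Finset (Fin n)} {v : I → ZMod 2} :
    v ∈ Vn B s W ↔ ∀ i ∈ W, ∀ z ∈ Rd (B i) s, dt v z.2.1 = 0 ∧ dt v z.2.2 = 0 := Iff.rfl

/-- a vector orthogonal to `Vn B s univ` is a sum of coordinate vectors of the radicals -/
theorem orth {B : ∀ i, EE (E0 i) I →ₗ[ZMod 2] EE (E0 i) I →ₗ[ZMod 2] ZMod 2} {s : Sy I}
    (x : I → ZMod 2) (hx : ∀ v ∈ Vn B s univ, dt v x = 0) :
    ∃ ρ ρ' : ∀ i, EE (E0 i) I, (∀ i, ρ i ∈ Rd (B i) s) ∧ (∀ i, ρ' i ∈ Rd (B i) s) ∧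
      ∑ i, ((ρ i).2.2 + (ρ' i).2.1) = x := by
  let U : Submodule (ZMod 2) (I → ZMod 2) :=
    { carrier := {y | ∃ ρ ρ' : ∀ i, EE (E0 i) I, (∀ i, ρ i ∈ Rd (B i) s) ∧
        (∀ i, ρ' i ∈ Rd (B i) s) ∧ ∑ i, ((ρ i).2.2 + (ρ' i).2.1) = y}
      add_mem' := by
        rintro _ _ ⟨r, r', h1, h2, rfl⟩ ⟨t, t', h3, h4, rfl⟩
        refine ⟨fun i => r i + t i, fun i => r' i + t' i, fun i => (Rd (B i) s).add_mem (h1 i) (h3 i),
          fun i => (Rd (B i) s).add_mem (h2 i) (h4 i), ?_⟩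
        rw [← sum_add_distrib]
        refine sum_congr rfl fun i _ => ?_
        simp only [Prod.snd_add, Prod.fst_add]
        abel
      zero_mem' := by
        refine ⟨fun i => 0, fun i => 0, fun i => (Rd (B i) s).zero_mem,
          fun i => (Rd (B i) s).zero_mem, ?_⟩
        exact sum_eq_zero fun i _ => by simp
      smul_mem' := by
        rintro c _ ⟨r, r', h1, h2, rfl⟩
        refine ⟨fun i => c • r i, fun i => c • r' i, fun i => (Rd (B i) s).smul_mem c (h1 i),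
          fun i => (Rd (B i) s).smul_mem c (h2 i), ?_⟩
        rw [smul_sum]
        refine sum_congr rfl fun i _ => ?_
        simp only [Prod.smul_snd, Prod.smul_fst, smul_add] }
  have h1 : x ∈ U := by
    rw [← Subspace.forall_mem_dualAnnihilator_apply_eq_zero_iff U x]
    intro φ hφ
    rw [Submodule.mem_dualAnnihilator] at hφ
    have h2 : ∀ y, φ y = dt (fun k => φ (Pi.single k 1)) y := by
      intro y
      have e1 : y = ∑ k, y k • (Pi.single k (1 : ZMod 2) : I → ZMod 2) := by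
        conv_lhs => rw [← Finset.univ_sum_single y]
        refine sum_congr rfl fun k _ => ?_
        rw [← Pi.single_smul, smul_eq_mul, mul_one]
      conv_lhs => rw [e1, map_sum]
      unfold dt
      exact sum_congr rfl fun k _ => by rw [map_smul, smul_eq_mul, mul_comm]
    rw [h2]
    refine hx _ ?_
    rw [mem_Vn]
    intro i _ z hz
    rw [← h2, ← h2]
    constructor
    · refine hφ _ ⟨fun j => 0, Function.update (fun j => 0) i z, fun j => (Rd (B j) s).zero_mem, ?_, ?_⟩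
      · intro j
        by_cases hj : j = i
        · subst hj
          rw [Function.update_self]
          exact hz
        · rw [Function.update_of_ne hj]
          exact (Rd (B j) s).zero_mem
      · rw [Finset.sum_eq_single i]
        · rw [Function.update_self]
          simp
        · intro j _ hj
          rw [Function.update_of_ne hj]
          simp
        · intro h
          exact absurd (mem_univ i) h
    · refine hφ _ ⟨Function.update (fun j => 0) i z, fun j => 0, ?_, fun j => (Rd (B j) s).zero_mem, ?_⟩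
      · intro j
        by_cases hj : j = i
        · subst hj
          rw [Function.update_self]
          exact hz
        · rw [Function.update_of_ne hj]
          exact (Rd (B j) s).zero_mem
      · rw [Finset.sum_eq_single i]
        · rw [Function.update_self]
          simp
        · intro j _ hj
          rw [Function.update_of_ne hj]
          simp
        · intro h
          exact absurd (mem_univ i) h
  exact h1

end

/-- linear representing vectors -/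
theorem repX {E : Type} [AddCommGroup E] [Module (ZMod 2) E] [Fintype E] {I : Type} [Fintype I]
    [DecidableEq I] (B : EE E I →ₗ[ZMod 2] EE E I →ₗ[ZMod 2] ZMod 2) (s : Sy I)
    (hB : ∀ z, B z z = 0) : ∃ wx wy : (I → ZMod 2) →ₗ[ZMod 2] EE E I,
      ∀ v : I → ZMod 2, (∀ z ∈ Rd B s, dt v z.2.1 = 0 ∧ dt v z.2.2 = 0) →
      (∀ z, (B + sB s.1 : EE E I →ₗ[ZMod 2] EE E I →ₗ[ZMod 2] ZMod 2) z (wx v) = dt v z.2.1) ∧
      ∀ z, (B + sB s.1 : EE E I →ₗ[ZMod 2] EE E I →ₗ[ZMod 2] ZMod 2) z (wy v) = dt v z.2.2 := by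
  have hsym : ∀ z w, (B + sB s.1 : EE E I →ₗ[ZMod 2] EE E I →ₗ[ZMod 2] ZMod 2) z w =
      (B + sB s.1 : EE E I →ₗ[ZMod 2] EE E I →ₗ[ZMod 2] ZMod 2) w z :=
    fun z w => symB (alt_s hB s) z w
  obtain ⟨g, hg⟩ := pinv (B + sB s.1 : EE E I →ₗ[ZMod 2] EE E I →ₗ[ZMod 2] ZMod 2)
  refine ⟨g ∘ₗ Xf E I, g ∘ₗ Yf E I, fun v hv => ⟨fun z => ?_, fun z => ?_⟩⟩
  · have h1 := hg (Xf E I v) (rng hsym _ fun z hz =>
      (hv z (by unfold Rd; rw [EA_univ]; exact hz)).1)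
    have h2 := LinearMap.congr_fun h1 z
    rw [hsym, LinearMap.comp_apply, h2, Xf_apply]
  · have h1 := hg (Yf E I v) (rng hsym _ fun z hz =>
      (hv z (by unfold Rd; rw [EA_univ]; exact hz)).2)
    have h2 := LinearMap.congr_fun h1 z
    rw [hsym, LinearMap.comp_apply, h2, Yf_apply]

theorem exgg {n : ℕ} {E0 : Fin n → Type} [∀ i, AddCommGroup (E0 i)]
    [∀ i, Module (ZMod 2) (E0 i)] {I : Type} (W : Finset (Fin n))
    (wx wy : ∀ i, (I → ZMod 2) →ₗ[ZMod 2] EE (E0 i) I) :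
    ∃ gg : (I → ZMod 2) →ₗ[ZMod 2] (I → ZMod 2),
      ∀ v, gg v = ∑ i ∈ W, ((wy i v).2.1 + (wx i v).2.2) := by
  refine ⟨{ toFun := fun v => ∑ i ∈ W, ((wy i v).2.1 + (wx i v).2.2)
            map_add' := ?_
            map_smul' := ?_ }, fun v => rfl⟩
  · intro a b
    rw [← sum_add_distrib]
    refine sum_congr rfl fun i _ => ?_
    rw [map_add, map_add]
    simp only [Prod.snd_add, Prod.fst_add]
    abel
  · intro c a
    rw [RingHom.id_apply, smul_sum]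
    refine sum_congr rfl fun i _ => ?_
    rw [map_smul, map_smul]
    simp only [Prod.smul_snd, Prod.smul_fst, smul_add]

theorem exβ {I : Type} [Fintype I] (V : Submodule (ZMod 2) (I → ZMod 2))
    (gg : (I → ZMod 2) →ₗ[ZMod 2] (I → ZMod 2)) :
    ∃ β : V →ₗ[ZMod 2] V →ₗ[ZMod 2] ZMod 2, ∀ v w, β v w = dt v.1 (gg w.1) :=
  ⟨((dL I).compl₂ gg).domRestrict₁₂ V V, fun v w => rfl⟩

theorem qq_eq {E : Type} [AddCommGroup E] [Module (ZMod 2) E] [Fintype E] {I : Type} [Fintype I]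
    [DecidableEq I] (B : EE E I →ₗ[ZMod 2] EE E I →ₗ[ZMod 2] ZMod 2) (s : Sy I)
    (hB : ∀ z, B z z = 0) (v : I → ZMod 2)
    (hv : ∀ z ∈ Rd B s, dt v z.2.1 = 0 ∧ dt v z.2.2 = 0) (w : EE E I)
    (hw : ∀ z, (B + sB s.1 : EE E I →ₗ[ZMod 2] EE E I →ₗ[ZMod 2] ZMod 2) z w = dt v z.2.1) :
    qq B s v = dt v w.2.2 := by
  have hsym : ∀ z w, (B + sB s.1 : EE E I →ₗ[ZMod 2] EE E I →ₗ[ZMod 2] ZMod 2) z w =
      (B + sB s.1 : EE E I →ₗ[ZMod 2] EE E I →ₗ[ZMod 2] ZMod 2) w z :=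
    fun z w => symB (alt_s hB s) z w
  have hex : ∃ w : EE E I, ∀ z, (B + sB s.1 :
    EE E I →ₗ[ZMod 2] EE E I →ₗ[ZMod 2] ZMod 2) z w = dt v z.2.1 := ⟨w, hw⟩
  unfold qq
  rw [dif_pos hex]
  obtain ⟨c, hc⟩ : ∃ c, c = hex.choose := ⟨_, rfl⟩
  have h1 := hex.choose_spec
  rw [← hc] at h1 ⊢
  have h2 : c - w ∈ Rd B s := by
    rw [mem_Rd]
    intro z
    rw [hsym, map_sub, h1, hw, sub_self]
  have h3 := (hv _ h2).2
  have h4 : c = (c - w) + w := (sub_add_cancel _ _).symm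
  rw [h4]
  have h5 : ((c - w) + w).2.2 = (c - w).2.2 + w.2.2 := rfl
  rw [h5, dt_add_right, h3, zero_add]

section
variable {n : ℕ} {E0 : Fin n → Type} [∀ i, AddCommGroup (E0 i)]
  [∀ i, Module (ZMod 2) (E0 i)] [∀ i, Fintype (E0 i)] {I : Type} [Fintype I] [DecidableEq I]
  {B : ∀ i, EE (E0 i) I →ₗ[ZMod 2] EE (E0 i) I →ₗ[ZMod 2] ZMod 2} {s : Sy I}
  {W : Finset (Fin n)} {wx wy : ∀ i, (I → ZMod 2) →ₗ[ZMod 2] EE (E0 i) I}

theorem hsymm (hB : ∀ i z, B i z z = 0) (i : Fin n) (z w : EE (E0 i) I) :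
    (B i + sB s.1 : EE (E0 i) I →ₗ[ZMod 2] EE (E0 i) I →ₗ[ZMod 2] ZMod 2) z w =
      (B i + sB s.1 : EE (E0 i) I →ₗ[ZMod 2] EE (E0 i) I →ₗ[ZMod 2] ZMod 2) w z :=
  symB (alt_s (hB i) s) z w

theorem hpol (hB : ∀ i z, B i z z = 0)
    (hwx : ∀ i, ∀ v : I → ZMod 2, (∀ z ∈ Rd (B i) s, dt v z.2.1 = 0 ∧ dt v z.2.2 = 0) →
      (∀ z, (B i + sB s.1 : EE (E0 i) I →ₗ[ZMod 2] EE (E0 i) I →ₗ[ZMod 2] ZMod 2) z (wx i v) =
        dt v z.2.1) ∧
      ∀ z, (B i + sB s.1 : EE (E0 i) I →ₗ[ZMod 2] EE (E0 i) I →ₗ[ZMod 2] ZMod 2) z (wy i v) =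
        dt v z.2.2)
    {gg : (I → ZMod 2) →ₗ[ZMod 2] (I → ZMod 2)}
    (hgg : ∀ v, gg v = ∑ i ∈ W, ((wy i v).2.1 + (wx i v).2.2))
    {v w : I → ZMod 2} (hv : v ∈ Vn B s W) (hw : w ∈ Vn B s W) :
    ∑ i ∈ W, dt (v + w) (wx i (v + w)).2.2 =
      ∑ i ∈ W, dt v (wx i v).2.2 + ∑ i ∈ W, dt w (wx i w).2.2 + dt v (gg w) := by
  rw [hgg, dt_sum_right, ← sum_add_distrib, ← sum_add_distrib]
  refine sum_congr rfl fun i hi => ?_
  rw [map_add]
  have e2 : (wx i v + wx i w).2.2 = (wx i v).2.2 + (wx i w).2.2 := rfl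
  rw [e2, dt_add_left, dt_add_right, dt_add_right, dt_add_right]
  have e3 : dt w (wx i v).2.2 = dt v (wy i w).2.1 := by
    rw [← (hwx i w (hw i hi)).2, hsymm hB, (hwx i v (hv i hi)).1]
  rw [e3]
  ring

theorem hsol (hB : ∀ i z, B i z z = 0)
    (hwx : ∀ i, ∀ v : I → ZMod 2, (∀ z ∈ Rd (B i) s, dt v z.2.1 = 0 ∧ dt v z.2.2 = 0) →
      (∀ z, (B i + sB s.1 : EE (E0 i) I →ₗ[ZMod 2] EE (E0 i) I →ₗ[ZMod 2] ZMod 2) z (wx i v) =
        dt v z.2.1) ∧
      ∀ z, (B i + sB s.1 : EE (E0 i) I →ₗ[ZMod 2] EE (E0 i) I →ₗ[ZMod 2] ZMod 2) z (wy i v) =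
        dt v z.2.2)
    {gg : (I → ZMod 2) →ₗ[ZMod 2] (I → ZMod 2)}
    (hgg : ∀ v, gg v = ∑ i ∈ W, ((wy i v).2.1 + (wx i v).2.2))
    {h : I → ZMod 2} (hh : h ∈ Vn B s W) (h0 : ∀ v ∈ Vn B s univ, dt v (gg h) = 0) :
    ∃ z z', Cw B s W h z z' := by
  obtain ⟨ρ, ρ', h1, h2, h3⟩ := orth (B := B) (s := s) (gg h) h0
  have hbρ : ∀ i w, (B i + sB s.1 : EE (E0 i) I →ₗ[ZMod 2] EE (E0 i) I →ₗ[ZMod 2] ZMod 2) w
      (ρ i) = 0 := fun i w => by rw [hsymm hB]; exact mem_Rd.1 (h1 i) w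
  have hbρ' : ∀ i w, (B i + sB s.1 : EE (E0 i) I →ₗ[ZMod 2] EE (E0 i) I →ₗ[ZMod 2] ZMod 2) w
      (ρ' i) = 0 := fun i w => by rw [hsymm hB]; exact mem_Rd.1 (h2 i) w
  refine ⟨fun i => (if i ∈ W then wx i h else 0) + ρ i,
    fun i => (if i ∈ W then wy i h else 0) + ρ' i, ?_, ?_, ?_⟩
  · intro i w
    rw [map_add, hbρ, add_zero]
    split_ifs with hi
    · rw [(hwx i h (hh i hi)).1, one_mul]
    · rw [map_zero, zero_mul]
  · intro i w
    rw [map_add, hbρ', add_zero]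
    split_ifs with hi
    · rw [(hwx i h (hh i hi)).2, one_mul]
    · rw [map_zero, zero_mul]
  · intro k
    have h4 := congrFun h3 k
    rw [hgg] at h4
    simp only [Finset.sum_apply, Pi.add_apply] at h4
    have h5 : ∀ i, ((((if i ∈ W then wx i h else 0) + ρ i).2.2 k +
        ((if i ∈ W then wy i h else 0) + ρ' i).2.1 k) : ZMod 2) =
        (if i ∈ W then (wy i h).2.1 k + (wx i h).2.2 k else 0) +
          ((ρ i).2.2 k + (ρ' i).2.1 k) := by
      intro i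
      split_ifs with hi
      · have e1 : (wx i h + ρ i).2.2 k = (wx i h).2.2 k + (ρ i).2.2 k := rfl
        have e2 : (wy i h + ρ' i).2.1 k = (wy i h).2.1 k + (ρ' i).2.1 k := rfl
        rw [e1, e2]
        ring
      · rw [zero_add, zero_add, zero_add]
    rw [sum_congr rfl fun i _ => h5 i, sum_add_distrib, h4, Finset.sum_ite_mem, univ_inter, MO_aa]
where
  MO_aa {a : ZMod 2} : a + a = 0 := aa a

end

theorem t_T3 (hQ : S_QS) : S_T3 := by
  intro n E0 _ _ _ I _ _ B s W a hB hW ha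
  choose wx wy hwx using fun i => repX (B i) s (hB i)
  obtain ⟨gg, hgg⟩ := exgg W wx wy
  obtain ⟨β, hβ⟩ := exβ (Vn B s W) gg
  have hle : Vn B s univ ≤ Vn B s W := fun v hv i _ z hz => hv i (mem_univ i) z hz
  have hqq : ∀ v ∈ Vn B s W, ∏ i ∈ W, sgn (qq (B i) s v) = sgn (∑ i ∈ W, dt v (wx i v).2.2) := by
    intro v hv
    rw [sgn_sum]
    refine prod_congr rfl fun i hi => ?_
    rw [qq_eq (B i) s (hB i) v (hv i hi) (wx i v) (hwx i v (hv i hi)).1]
  obtain ⟨V1, hV1⟩ : ∃ V1 : Submodule (ZMod 2) (Vn B s W), ∀ h : Vn B s W,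
      h ∈ V1 ↔ h.1 ∈ Vn B s univ := ⟨(Vn B s univ).comap (Vn B s W).subtype, fun h =>
    Submodule.mem_comap⟩
  have hmain := hQ (Vn B s W) (fun v => ∑ i ∈ W, dt v.1 (wx i v.1).2.2) β
    (fun v w => (hpol hB hwx hgg v.2 w.2).trans (by rw [hβ])) V1 ⟨a, ha⟩
  obtain ⟨e, he⟩ : ∃ e : V1 ≃ Vn B s univ, ∀ h : V1, (e h).1 = h.1.1 :=
    ⟨{ toFun := fun h => ⟨h.1.1, (hV1 h.1).1 h.2⟩
       invFun := fun h => ⟨⟨h.1, hle h.2⟩, (hV1 ⟨h.1, hle h.2⟩).2 h.2⟩
       left_inv := fun h => Subtype.ext (Subtype.ext rfl)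
       right_inv := fun h => Subtype.ext rfl }, fun h => rfl⟩
  have hsum : ∑ h : V1,
      sgn ((fun v : Vn B s W => ∑ i ∈ W, dt v.1 (wx i v.1).2.2) (⟨a, ha⟩ + h)) =
      ∑ h : Vn B s univ, ∏ i ∈ W, sgn (qq (B i) s (a + h)) := by
    refine Fintype.sum_equiv e _ _ fun h => ?_
    rw [he]
    rw [hqq (a + h.1.1) ((Vn B s W).add_mem ha h.1.2)]
    simp only [Submodule.coe_add]
  have hcard : Fintype.card V1 = Fintype.card (Vn B s univ) := Fintype.card_congr e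
  rw [hsum, hcard] at hmain
  refine hmain.trans ?_
  refine mul_le_mul_of_nonneg_left ?_ (Nat.cast_nonneg _)
  rw [Nat.cast_le]
  have hinj : Function.Injective (fun h : V1 => (h.1.1 : I → ZMod 2)) := by
    intro x y hxy
    exact Subtype.ext (Subtype.ext hxy)
  rw [← Finset.card_image_of_injective _ hinj]
  unfold NW
  refine le_trans (Finset.card_le_card ?_) (Finset.card_image_le (f := Prod.fst))
  intro v hv
  obtain ⟨h, hh, rfl⟩ := Finset.mem_image.1 hv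
  have hh2 := (Finset.mem_filter.1 hh).2
  obtain ⟨z, z', hz⟩ := hsol hB hwx hgg h.1.2 fun v hv => by
    have := hh2 ⟨⟨v, hle hv⟩, (hV1 _).2 hv⟩
    rw [hβ] at this
    exact this
  exact Finset.mem_image.2 ⟨(h.1.1, z, z'), Finset.mem_filter.2 ⟨mem_univ _, hz⟩, rfl⟩

end Pool.Agent.H295.JLT3
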