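import Pool.Agent.H743.JL.Stm

/-!
# Project JL (helper743), task ST
-/

set_option autoImplicit false

set_option linter.all false

open scoped Classical

namespace Pool.Agent.H17.JL

open Finset

section
variable {V : Type} [AddCommGroup V] [Module (ZMod 2) V] [Fintype V] {n : ℕ} {P : Fin n → Type}
  [∀ i, Fintype (P i)]

theorem fibre (V1 : Submodule (ZMod 2) V) [Fintype V1] (Φ : V → ∀ i, P i)
    (hk : ∀ a v, Φ v = Φ a ↔ v - a ∈ V1) (a : V) (F : V → ℝ) :
    ∑ v ∈ univ.filter (fun v => Φ v = Φ a), F v = ∑ h : V1, F (a + h) := by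
  symm
  refine sum_bij (fun h _ => a + (h : V)) ?_ ?_ ?_ ?_
  · intro h _
    rw [mem_filter]
    refine ⟨mem_univ _, (hk a _).2 ?_⟩
    rw [add_sub_cancel_left]
    exact h.2
  · intro h _ h' _ e
    exact Subtype.ext (add_left_cancel e)
  · intro v hv
    rw [mem_filter] at hv
    refine ⟨⟨v - a, (hk a v).1 hv.2⟩, mem_univ _, ?_⟩
    show a + (v - a) = v
    rw [add_sub_cancel]
  · intro h _
    rfl

/-- the sum over the fibres -/
theorem fibres (V1 : Submodule (ZMod 2) V) [Fintype V1] (Φ : V → ∀ i, P i)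
    (hk : ∀ a v, Φ v = Φ a ↔ v - a ∈ V1) (ch : (∀ i, P i) → V) (hch : ∀ φ, Φ (ch φ) = φ)
    (F : V → ℝ) : ∑ v, F v = ∑ φ : ∀ i, P i, ∑ h : V1, F (ch φ + h) := by
  rw [← sum_fiberwise univ Φ F]
  refine sum_congr rfl fun φ _ => ?_
  rw [← fibre V1 Φ hk (ch φ) F, hch]

theorem card_V (V1 : Submodule (ZMod 2) V) [Fintype V1] (Φ : V → ∀ i, P i)
    (hk : ∀ a v, Φ v = Φ a ↔ v - a ∈ V1) (hs : Function.Surjective Φ) :
    (Fintype.card V : ℝ) = (∏ i, (Fintype.card (P i) : ℝ)) * Fintype.card V1 := by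
  choose ch hch using hs
  have h := fibres V1 Φ hk ch hch (fun _ => 1)
  rw [sum_const, card_univ, nsmul_eq_mul, mul_one] at h
  rw [h]
  rw [sum_congr rfl fun φ _ => by rw [sum_const, card_univ, nsmul_eq_mul, mul_one]]
  rw [sum_const, card_univ, nsmul_eq_mul, Fintype.card_pi]
  push_cast
  rfl

theorem one_fibre (V1 : Submodule (ZMod 2) V) [Fintype V1]
    (m e : Fin n → ℝ) (z : Fin n → Prop) (σ : Fin n → V1 → ℝ) (κ : ℝ) (hκ : 0 ≤ κ)
    (hm : ∀ i, |m i| ≤ 1) (he : ∀ i, |e i| ≤ 1)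
    (hb : ∀ W : Finset (Fin n), W.Nonempty → (∀ i ∈ W, z i) → |∑ h, ∏ i ∈ W, σ i h| ≤ κ) :
    |∑ h : V1, ∏ i, (m i + if z i then σ i h * e i else 0) - Fintype.card V1 * ∏ i, m i| ≤
      2 ^ n * κ := by
  have h1 : ∀ h : V1, ∏ i, (m i + if z i then σ i h * e i else 0) =
      ∑ t ∈ (univ : Finset (Fin n)).powerset,
        (∏ i ∈ t, (if z i then σ i h * e i else 0)) * ∏ i ∈ univ \ t, m i := by
    intro h
    rw [← prod_add]
    exact prod_congr rfl fun i _ => add_comm _ _
  rw [sum_congr rfl fun h _ => h1 h, sum_comm]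
  have h2 : (∅ : Finset (Fin n)) ∈ (univ : Finset (Fin n)).powerset := empty_mem_powerset _
  rw [← add_sum_erase _ _ h2]
  have h3 : ∑ h : V1, (∏ i ∈ (∅ : Finset (Fin n)), (if z i then σ i h * e i else 0)) *
      ∏ i ∈ univ \ (∅ : Finset (Fin n)), m i = Fintype.card V1 * ∏ i, m i := by
    rw [sdiff_empty]
    rw [sum_congr rfl fun h _ => by rw [prod_empty, one_mul]]
    rw [sum_const, card_univ, nsmul_eq_mul]
  rw [h3, add_sub_cancel_left]
  refine (abs_sum_le_sum_abs _ _).trans ?_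
  have h4 : ∀ t ∈ (univ : Finset (Fin n)).powerset.erase ∅,
      |∑ h : V1, (∏ i ∈ t, (if z i then σ i h * e i else 0)) * ∏ i ∈ univ \ t, m i| ≤ κ := by
    intro t ht
    rw [mem_erase] at ht
    have htn : t.Nonempty := nonempty_iff_ne_empty.2 ht.1
    by_cases hz : ∀ i ∈ t, z i
    · have e1 : ∀ h : V1, (∏ i ∈ t, (if z i then σ i h * e i else 0)) * ∏ i ∈ univ \ t, m i =
          (∏ i ∈ t, σ i h) * ((∏ i ∈ t, e i) * ∏ i ∈ univ \ t, m i) := by
        intro h
        rw [prod_congr rfl fun i hi => if_pos (hz i hi), prod_mul_distrib, mul_assoc]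
      rw [sum_congr rfl fun h _ => e1 h, ← sum_mul, abs_mul]
      have e2 : |(∏ i ∈ t, e i) * ∏ i ∈ univ \ t, m i| ≤ 1 := by
        rw [abs_mul, abs_prod, abs_prod]
        refine mul_le_one₀ (prod_le_one (fun i _ => abs_nonneg _) fun i _ => he i)
          (prod_nonneg fun i _ => abs_nonneg _) (prod_le_one (fun i _ => abs_nonneg _) fun i _ => hm i)
      calc |∑ h : V1, ∏ i ∈ t, σ i h| * |(∏ i ∈ t, e i) * ∏ i ∈ univ \ t, m i|
          ≤ κ * 1 := mul_le_mul (hb t htn hz) e2 (abs_nonneg _) hκ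
        _ = κ := mul_one κ
    · push Not at hz
      obtain ⟨i, hi, hzi⟩ := hz
      have e1 : ∀ h : V1, (∏ i ∈ t, (if z i then σ i h * e i else 0)) * ∏ i ∈ univ \ t, m i = 0 := by
        intro h
        rw [prod_eq_zero hi (if_neg hzi), zero_mul]
      rw [sum_congr rfl fun h _ => e1 h, sum_const_zero, abs_zero]
      exact hκ
  refine (sum_le_card_nsmul _ _ _ h4).trans ?_
  rw [nsmul_eq_mul]
  refine mul_le_mul_of_nonneg_right ?_ hκ
  have h5 : ((univ : Finset (Fin n)).powerset.erase ∅).card ≤ 2 ^ n := by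
    refine (card_erase_le).trans ?_
    rw [card_powerset, card_univ, Fintype.card_fin]
  exact_mod_cast h5

/-- the abstract step -/
theorem step (V1 : Submodule (ZMod 2) V) [Fintype V1] (Φ : V → ∀ i, P i)
    (hk : ∀ a v, Φ v = Φ a ↔ v - a ∈ V1) (hs : Function.Surjective Φ)
    (T : Fin n → V → ℝ) (m : ∀ i, P i → ℝ) (e : Fin n → ℝ) (Z : ∀ i, P i → Prop)
    (σ : Fin n → V → ℝ) (κ : ℝ) (hκ : 0 ≤ κ) (hm : ∀ i p, |m i p| ≤ 1) (he : ∀ i, |e i| ≤ 1)
    (hT1 : ∀ i v, Z i (Φ v i) → T i v = m i (Φ v i) + σ i v * e i)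
    (hT2 : ∀ i v, ¬ Z i (Φ v i) → T i v = m i (Φ v i))
    (hb : ∀ (a : V) (W : Finset (Fin n)), W.Nonempty → (∀ i ∈ W, Z i (Φ a i)) →
      |∑ h : V1, ∏ i ∈ W, σ i (a + h)| ≤ κ) :
    |∑ v, ∏ i, T i v - Fintype.card V1 * ∏ i, ∑ p : P i, m i p| ≤
      (∏ i, (Fintype.card (P i) : ℝ)) * (2 ^ n * κ) := by
  have hT : ∀ i v, T i v = m i (Φ v i) + if Z i (Φ v i) then σ i v * e i else 0 := by
    intro i v
    split_ifs with h
    · exact hT1 i v h
    · rw [add_zero]
      exact hT2 i v h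
  choose ch hch using hs
  rw [fibres V1 Φ hk ch hch]
  have h1 : ∏ i, ∑ p : P i, m i p = ∑ φ : ∀ i, P i, ∏ i, m i (φ i) := by
    rw [prod_univ_sum, Fintype.piFinset_univ]
  rw [h1, mul_sum, ← sum_sub_distrib]
  refine (abs_sum_le_sum_abs _ _).trans ?_
  have h2 : ∀ φ ∈ (univ : Finset (∀ i, P i)),
      |∑ h : V1, ∏ i, T i (ch φ + h) - Fintype.card V1 * ∏ i, m i (φ i)| ≤ 2 ^ n * κ := by
    intro φ _
    have hΦ : ∀ h : V1, Φ (ch φ + h) = φ := by
      intro h
      rw [← hch φ]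
      conv_rhs => rw [← hch φ]
      rw [hch φ, hch φ]
      exact ((hk (ch φ) _).2 (by rw [add_sub_cancel_left]; exact h.2)).trans (hch φ)
    have h3 : ∀ h : V1, ∏ i, T i (ch φ + h) =
        ∏ i, (m i (φ i) + if Z i (φ i) then σ i (ch φ + h) * e i else 0) := by
      intro h
      refine prod_congr rfl fun i _ => ?_
      rw [hT, hΦ]
    rw [sum_congr rfl fun h _ => h3 h]
    refine one_fibre V1 (fun i => m i (φ i)) e (fun i => Z i (φ i)) (fun i h => σ i (ch φ + h)) κ hκ
      (fun i => hm i _) he ?_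
    intro W hW hz
    refine hb (ch φ) W hW ?_
    intro i hi
    rw [hch]
    exact hz i hi
  refine (sum_le_card_nsmul _ _ _ h2).trans ?_
  rw [nsmul_eq_mul, card_univ, Fintype.card_pi]
  push_cast
  exact le_rfl

end

open Module
open Pool.Agent.H743.JL Pool.Agent.N916.MO

section
variable {I : Type} [Fintype I] [DecidableEq I]

theorem dt_addr (v x y : I → ZMod 2) : dt v (x + y) = dt v x + dt v y := by
  unfold dt
  rw [← sum_add_distrib]
  exact sum_congr rfl fun k _ => by rw [Pi.add_apply, mul_add]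

theorem dt_smulr (v : I → ZMod 2) (c : ZMod 2) (x : I → ZMod 2) : dt v (c • x) = c * dt v x := by
  unfold dt
  rw [mul_sum]
  exact sum_congr rfl fun k _ => by rw [Pi.smul_apply, smul_eq_mul, mul_left_comm]

theorem dt_subl (v w x : I → ZMod 2) : dt (v - w) x = dt v x - dt w x := by
  unfold dt
  rw [← sum_sub_distrib]
  exact sum_congr rfl fun k _ => by rw [Pi.sub_apply, sub_mul]

variable {E0 : Type} [AddCommGroup E0] [Module (ZMod 2) E0]

/-- the first functional on the radical -/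
def fX (R : Submodule (ZMod 2) (EE E0 I)) (v : I → ZMod 2) : Module.Dual (ZMod 2) R where
  toFun z := dt v z.1.2.1
  map_add' z w := dt_addr v z.1.2.1 w.1.2.1
  map_smul' c z := dt_smulr v c z.1.2.1

/-- the second functional on the radical -/
def fY (R : Submodule (ZMod 2) (EE E0 I)) (v : I → ZMod 2) : Module.Dual (ZMod 2) R where
  toFun z := dt v z.1.2.2
  map_add' z w := dt_addr v z.1.2.2 w.1.2.2
  map_smul' c z := dt_smulr v c z.1.2.2

theorem fX_apply (R : Submodule (ZMod 2) (EE E0 I)) (v : I → ZMod 2) (z : R) :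
    fX R v z = dt v z.1.2.1 := rfl

theorem fY_apply (R : Submodule (ZMod 2) (EE E0 I)) (v : I → ZMod 2) (z : R) :
    fY R v z = dt v z.1.2.2 := rfl

end

/-- the main part -/
noncomputable def mm (t r : ℕ) {D : Type} [Zero D] (p : D × D) : ℝ :=
  if p.1 = 0 ∧ p.2 = 0 then (hh t r + hh t (r + 1)) / 2 else
    if p.1 = 0 ∨ p.2 = 0 ∨ p.1 = p.2 then hh t r else hh t (r - 1)

theorem mm_abs (t r : ℕ) {D : Type} [Zero D] (p : D × D) : |mm t r p| ≤ 1 := by
  have h := fun r => hh_nonneg t r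
  have h' := fun r => hh_le1 t r
  unfold mm
  rw [abs_le]
  split_ifs
  · constructor <;> linarith [h r, h (r + 1), h' r, h' (r + 1)]
  · constructor <;> linarith [h r, h' r]
  · constructor <;> linarith [h (r - 1), h' (r - 1)]

theorem card_dual {R : Type} [AddCommGroup R] [Module (ZMod 2) R] [Finite R]
    [Fintype (Module.Dual (ZMod 2) R)] (r : ℕ) (h : finrank (ZMod 2) R = 2 * r) :
    (Fintype.card (Module.Dual (ZMod 2) R × Module.Dual (ZMod 2) R) : ℝ) = 16 ^ r := by
  have h1 := Module.card_eq_pow_finrank (K := ZMod 2) (V := Module.Dual (ZMod 2) R)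
  rw [Subspace.dual_finrank_eq, h, ZMod.card] at h1
  rw [Fintype.card_prod, h1]
  push_cast
  rw [← mul_pow, pow_mul]
  norm_num

theorem t_ST (h1 : S_T1) (h2 : S_T2) (h3 : S_T3) (h4 : S_AV) : S_ST := by
  intro n E0 _ _ _ I _ _ B s t η halt heven hJG hη hNW
  haveI : ∀ i, Finite (EE (E0 i) I) := fun i => inferInstance
  haveI : ∀ i, Fintype (Module.Dual (ZMod 2) (Rd (B i) s)) := fun i => by
    haveI : Finite (Module.Dual (ZMod 2) (Rd (B i) s)) :=
      Finite.of_injective (fun f : Module.Dual (ZMod 2) (Rd (B i) s) =>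
        (f : Rd (B i) s → ZMod 2)) DFunLike.coe_injective
    exact Fintype.ofFinite _
  let P : Fin n → Type := fun i => Module.Dual (ZMod 2) (Rd (B i) s) × Module.Dual (ZMod 2) (Rd (B i) s)
  let Φ : (I → ZMod 2) → ∀ i, P i := fun v i => (fX (Rd (B i) s) v, fY (Rd (B i) s) v)
  have hΦ : ∀ v i, Φ v i = (fX (Rd (B i) s) v, fY (Rd (B i) s) v) := fun v i => rfl
  have hfr : ∀ i, finrank (ZMod 2) (Rd (B i) s) = 2 * rr B s i := fun i => heven i
  -- the fibres are the cosets
  have hk : ∀ a v, Φ v = Φ a ↔ v - a ∈ Vn B s univ := by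
    intro a v
    constructor
    · intro h i _ z hz
      have e := congrFun h i
      rw [hΦ, hΦ, Prod.mk.injEq] at e
      have e1 := LinearMap.congr_fun e.1 ⟨z, hz⟩
      have e2 := LinearMap.congr_fun e.2 ⟨z, hz⟩
      rw [fX_apply, fX_apply] at e1
      rw [fY_apply, fY_apply] at e2
      rw [dt_subl, dt_subl]
      exact ⟨sub_eq_zero.2 e1, sub_eq_zero.2 e2⟩
    · intro h
      funext i
      rw [hΦ, hΦ, Prod.mk.injEq]
      constructor
      · refine LinearMap.ext fun z => ?_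
        have e := (h i (mem_univ i) z.1 z.2).1
        rw [dt_subl, sub_eq_zero] at e
        exact e
      · refine LinearMap.ext fun z => ?_
        have e := (h i (mem_univ i) z.1 z.2).2
        rw [dt_subl, sub_eq_zero] at e
        exact e
  have hs : Function.Surjective Φ := by
    intro φ
    obtain ⟨v, hv⟩ := h2 n E0 I B s hJG (fun i => (φ i).1) (fun i => (φ i).2)
    refine ⟨v, ?_⟩
    funext i
    rw [hΦ]
    refine Prod.ext ?_ ?_
    · exact LinearMap.ext fun z => ((hv i z).1).symm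
    · exact LinearMap.ext fun z => ((hv i z).2).symm
  have hcard := card_V (Vn B s univ) Φ hk hs
  have hcP : ∀ i, (Fintype.card (P i) : ℝ) = 16 ^ (rr B s i) := fun i => card_dual _ (hfr i)
  rw [prod_congr rfl fun i _ => hcP i, prod_pow_eq_pow_sum] at hcard
  have hcI : (Fintype.card (I → ZMod 2) : ℝ) = 2 ^ Fintype.card I := by
    rw [Fintype.card_fun, ZMod.card]
    push_cast
    rfl
  rw [hcI] at hcard
  -- the sums over the cosets
  have hκ : 0 ≤ η * (Fintype.card (Vn B s univ) : ℝ) := mul_nonneg hη (Nat.cast_nonneg _)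
  have hb : ∀ (a : I → ZMod 2) (W : Finset (Fin n)), W.Nonempty →
      (∀ i ∈ W, (Φ a i).1 = 0 ∧ (Φ a i).2 = 0) →
      |∑ h : Vn B s univ, ∏ i ∈ W, sgn (qq (B i) s (a + h))| ≤
        η * (Fintype.card (Vn B s univ) : ℝ) := by
    intro a W hW hz
    have ha : a ∈ Vn B s W := by
      intro i hi z hz'
      obtain ⟨e1, e2⟩ := hz i hi
      have e1' := LinearMap.congr_fun e1 ⟨z, hz'⟩
      have e2' := LinearMap.congr_fun e2 ⟨z, hz'⟩
      exact ⟨e1', e2'⟩
    have e := h3 n E0 I B s W a halt hW ha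
    refine abs_le_of_sq_le_sq ?_ hκ
    refine e.trans ?_
    have e2 := hNW W hW
    rw [hcard] at e2
    have hpos : (0 : ℝ) < 16 ^ (∑ i, rr B s i) := by positivity
    have e3 : (NW B s W : ℝ) ≤ η ^ 2 * Fintype.card (Vn B s univ) := by
      refine le_of_mul_le_mul_right ?_ hpos
      calc (NW B s W : ℝ) * 16 ^ (∑ i, rr B s i) ≤
            η ^ 2 * (16 ^ (∑ i, rr B s i) * Fintype.card (Vn B s univ)) := e2
        _ = η ^ 2 * Fintype.card (Vn B s univ) * 16 ^ (∑ i, rr B s i) := by ring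
    calc (Fintype.card (Vn B s univ) : ℝ) * NW B s W ≤
          (Fintype.card (Vn B s univ) : ℝ) * (η ^ 2 * Fintype.card (Vn B s univ)) :=
          mul_le_mul_of_nonneg_left e3 (Nat.cast_nonneg _)
      _ = (η * Fintype.card (Vn B s univ)) ^ 2 := by ring
  -- the transitions
  have hT : ∀ i v, ((Φ v i).1 = 0 ∧ (Φ v i).2 = 0 →
      hh t (rr B (s + vv v) i) = mm t (rr B s i) (Φ v i) +
        sgn (qq (B i) s v) * ((hh t (rr B s i) - hh t (rr B s i + 1)) / 2)) ∧
      (¬ ((Φ v i).1 = 0 ∧ (Φ v i).2 = 0) →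
        hh t (rr B (s + vv v) i) = mm t (rr B s i) (Φ v i)) := by
    intro i v
    obtain ⟨a1, a2, a3⟩ := h1 (E0 i) I (B i) s v (halt i)
    have hX : (Φ v i).1 = 0 ↔ ∀ z ∈ Rd (B i) s, dt v z.2.1 = 0 := by
      constructor
      · intro h z hz
        exact LinearMap.congr_fun h ⟨z, hz⟩
      · intro h
        exact LinearMap.ext fun z => h z.1 z.2
    have hY : (Φ v i).2 = 0 ↔ ∀ z ∈ Rd (B i) s, dt v z.2.2 = 0 := by
      constructor
      · intro h z hz
        exact LinearMap.congr_fun h ⟨z, hz⟩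
      · intro h
        exact LinearMap.ext fun z => h z.1 z.2
    have hXY : (Φ v i).1 = (Φ v i).2 ↔ ∀ z ∈ Rd (B i) s, dt v z.2.1 = dt v z.2.2 := by
      constructor
      · intro h z hz
        exact LinearMap.congr_fun h ⟨z, hz⟩
      · intro h
        exact LinearMap.ext fun z => h z.1 z.2
    have hdef : rr B (s + vv v) i = dR (B i) (s + vv v) univ / 2 := rfl
    refine ⟨fun hz => ?_, fun hz => ?_⟩
    · have e := a1 (fun z hz' => ⟨hX.1 hz.1 z hz', hY.1 hz.2 z hz'⟩)
      unfold mm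
      rw [if_pos hz, hdef, e, heven i]
      unfold sgn
      split_ifs with hq
      · have : (2 * rr B s i + 0) / 2 = rr B s i := by omega
        rw [this]
        ring
      · have : (2 * rr B s i + 2) / 2 = rr B s i + 1 := by omega
        rw [this]
        ring
    · unfold mm
      rw [if_neg hz]
      have hne : ∃ z ∈ Rd (B i) s, dt v z.2.1 ≠ 0 ∨ dt v z.2.2 ≠ 0 := by
        by_contra hcon
        push Not at hcon
        exact hz ⟨hX.2 fun z hz' => (hcon z hz').1, hY.2 fun z hz' => (hcon z hz').2⟩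
      split_ifs with hd
      · have e := a2 hne (by
          rcases hd with hd | hd | hd
          · exact Or.inl (hX.1 hd)
          · exact Or.inr (Or.inl (hY.1 hd))
          · exact Or.inr (Or.inr (hXY.1 hd)))
        rw [hdef, e]
        rfl
      · push Not at hd
        obtain ⟨d1, d2, d3⟩ := hd
        have e := a3 (by
          by_contra hcon
          push Not at hcon
          exact d1 (hX.2 hcon)) (by
          by_contra hcon
          push Not at hcon
          exact d2 (hY.2 hcon)) (by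
          by_contra hcon
          push Not at hcon
          exact d3 (hXY.2 hcon))
        have : rr B (s + vv v) i = rr B s i - 1 := by
          rw [hdef]
          have h5 := heven i
          omega
        rw [this]
  have hstep := step (Vn B s univ) Φ hk hs (fun i v => hh t (rr B (s + vv v) i))
    (fun i p => mm t (rr B s i) p) (fun i => (hh t (rr B s i) - hh t (rr B s i + 1)) / 2)
    (fun i p => p.1 = 0 ∧ p.2 = 0) (fun i v => sgn (qq (B i) s v))
    (η * (Fintype.card (Vn B s univ) : ℝ)) hκ (fun i p => mm_abs _ _ _)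
    (fun i => by
      rw [abs_le]
      have k1 := hh_nonneg t (rr B s i)
      have k2 := hh_nonneg t (rr B s i + 1)
      have k3 := hh_le1 t (rr B s i)
      have k4 := hh_le1 t (rr B s i + 1)
      constructor <;> linarith) (fun i v => (hT i v).1) (fun i v => (hT i v).2) hb
  rw [prod_congr rfl fun i _ => hcP i, prod_pow_eq_pow_sum] at hstep
  have hav : ∀ i, ∑ p : P i, mm t (rr B s i) p = (16 : ℝ) ^ (rr B s i) * hh (t + 1) (rr B s i) := by
    intro i
    rw [← h4 (Rd (B i) s) (rr B s i) t (hfr i)]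
    exact Fintype.sum_prod_type _
  rw [prod_congr rfl fun i _ => hav i, prod_mul_distrib, prod_pow_eq_pow_sum] at hstep
  have e1 : (Fintype.card (Vn B s univ) : ℝ) *
      (16 ^ (∑ i, rr B s i) * ∏ i, hh (t + 1) (rr B s i)) =
      2 ^ Fintype.card I * ∏ i, hh (t + 1) (rr B s i) := by
    rw [hcard]
    ring
  have e2 : (16 : ℝ) ^ (∑ i, rr B s i) * (2 ^ n * (η * (Fintype.card (Vn B s univ) : ℝ))) =
      2 ^ n * η * 2 ^ Fintype.card I := by
    rw [hcard]
    ring
  rw [e1, e2] at hstep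
  exact hstep

end Pool.Agent.H17.JL

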