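import Pool.Agent.H743.JL.StmZ

/-!
# JZ-CV (helper721, for helper743): all the integral equations
-/

set_option autoImplicit false
set_option linter.all false

open scoped Classical

namespace Pool.Agent.H721.JZ

open Pool.Agent.H743.JL
open Pool.Agent.H743.X17 (FinSha)
open Pool.Agent.H743.X17.RK (IsI)

theorem of_data (h1 : S_IN) (h2 : S_SF) (α β m a b : ℤ) (g : ℚ) (hD : Data α β m) (hg : g ≠ 0)
    (ha : (a : ℚ) = -27 * (α : ℚ) * (g ^ 2 * m) ^ 2)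
    (hb : (b : ℚ) = -54 * (β : ℚ) * (g ^ 2 * m) ^ 3) :
    (TR a b ↔ H4 m) ∧ ∃ F : ℂ → ℂ, IsI a b F ∧ (H4 m → F 1 ≠ 0) := by
  obtain ⟨W, Λ, N, hIs, hN, hΔ, hc4, hc6, h3, h12, hcnt, hSha, hΛ⟩ := hD
  obtain ⟨u, hu, ha', hb'⟩ : ∃ u : ℚ, u ≠ 0 ∧ (a : ℚ) = -27 * (W.c₄ : ℚ) * u ^ 4 ∧
      (b : ℚ) = -54 * (W.c₆ : ℚ) * u ^ 6 := by
    rcases hN with hN | hN
    · refine ⟨g, hg, ?_, ?_⟩
      · rw [ha, hc4, hN]
        push_cast
        ring
      · rw [hb, hc6, hN]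
        push_cast
        ring
    · refine ⟨g / 2, div_ne_zero hg (by norm_num), ?_, ?_⟩
      · rw [ha, hc4, hN]
        push_cast
        ring
      · rw [hb, hc6, hN]
        push_cast
        ring
  refine ⟨(h2 W a b u hu hΔ ha' hb').trans hSha, ?_⟩
  obtain ⟨F, hF, hF1⟩ := h1 W Λ a b u hIs hu hΔ h3 h12 ha' hb' hcnt
  exact ⟨F, hF, fun h4 h0 => hΛ h4 (hF1.1 h0)⟩

/-- (CV) -/
theorem t_CV (h1 : S_IN) (h2 : S_SF) (h3 : S_D15) (h4 : S_D21) (h5 : S_D24) : S_CV := by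
  intro j m a b g hsq hfam hg ha hb
  fin_cases j
  · exact of_data h1 h2 481 4879 m a b g (h3 m hsq hfam) hg ha hb
  · exact of_data h1 h2 193 575 m a b g (h4 m hsq hfam) hg ha hb
  · exact of_data h1 h2 13 (-35) m a b g (h5 m hsq hfam) hg ha hb

end Pool.Agent.H721.JZ
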