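import Pool.Agent.H743.JL.StmZ
import Pool.Agent.H345.X24.Bsd
import Pool.Graph.R_pool_sql_team_seeded_63374d34.N877.P24.Tor

/-!
# JZ-D24 (helper701 for helper743): the data of the twists of `X_0(24)`

The lemmas `good_iff`, `fin_iff`, `qc_iff`, `value` are copied from the hand-in
`MP_9c97e9_nt/TwistsOfX024.lean` (helper345).
-/

set_option autoImplicit false
set_option linter.all false

open scoped Classical

namespace Pool.Agent.H701.JZ24

open Filter Topology MeasureTheory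
open Pool.Agent.H743.JL
open Pool.Agent.H743.X17 (FinSha)
open Pool.Agent.Y700 (IsL VR)
open Pool.Agent.W97.MT (affCount)
open Pool.Agent.TH841.SH.D (Sha)
open Pool.Agent.H345.X24 (Twn)
open Pool.Agent.H464.XB (nx_eq card_red card_two law)

/-- the equation `y² = x (x + n) (x - 3 n)` -/
def W (n : ℕ) : WeierstrassCurve ℤ := ⟨0, -(2 * n), 0, -(3 * n ^ 2), 0⟩

/-- the curve `E_n` over `ℚ` -/
abbrev E (n : ℕ) : WeierstrassCurve ℚ := (W n).map (Int.castRingHom ℚ)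

/-- the family -/
def Family (n : ℕ) : Prop := Squarefree n ∧ n % 24 = 11

/-- the criterion -/
def Good (n : ℕ) : Prop := ∀ d : ℕ, Redei n d → d = 1 ∨ d = n

lemma twn_of {n : ℕ} (hn : Family n) : Twn n := ⟨hn.1, hn.2⟩

lemma good_iff {n : ℕ} (hn : Family n) :
    Good n ↔ Pool.Agent.NH4.XG.nx n.primeFactors = 2 := by
  have h2 := hn.2
  rw [nx_eq hn.1 (by omega), ← card_red hn.1 (by omega)]
  exact (card_two hn.1 (by omega)).symm

lemma fin_iff {n : ℕ} (hn : Family n) : FinSha (E n) ↔ Good n := by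
  rw [good_iff hn]
  exact Pool.Agent.H345.X24.finSha_iff (twn_of hn)

lemma qc_iff {n : ℕ} (hn : Family n) : Pool.Agent.N877.P24.Qc n ↔ Good n := by
  have hs := hn.1
  have hn0 : n ≠ 0 := hs.ne_zero
  constructor
  · rintro h d ⟨hd, h1, h2⟩
    obtain ⟨e, rfl⟩ := hd
    have hd0 : 0 < d := Nat.pos_of_ne_zero (left_ne_zero_of_mul hn0)
    have he0 : e ≠ 0 := right_ne_zero_of_mul hn0
    rw [Nat.mul_div_cancel_left _ hd0] at h2
    have hco : Nat.Coprime d e := (Nat.squarefree_mul_iff.1 hs).1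
    have k1 : ∀ p ∈ e.primeFactors, jacobiSym d p = 1 := by
      intro p hp
      have hpp := Nat.prime_of_mem_primeFactors hp
      have hpe := Nat.dvd_of_mem_primeFactors hp
      refine h1 p hpp (Dvd.dvd.mul_left hpe d) fun hpd => ?_
      exact hpp.one_lt.ne' (Nat.dvd_one.1 (hco ▸ Nat.dvd_gcd hpd hpe))
    have k2 : ∀ p ∈ d.primeFactors, jacobiSym e p = 1 := by
      intro p hp
      exact h2 p (Nat.prime_of_mem_primeFactors hp) (Nat.dvd_of_mem_primeFactors hp)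
    rcases h d e rfl k1 k2 with h3 | h3
    · exact Or.inl h3
    · right
      rw [h3, mul_one]
  · intro h b c hbc h1 h2
    have hbc0 : b * c ≠ 0 := by rw [hbc]; exact hn0
    have hb0 : 0 < b := Nat.pos_of_ne_zero (left_ne_zero_of_mul hbc0)
    have hc0 : c ≠ 0 := right_ne_zero_of_mul hbc0
    have hR : Redei n b := by
      refine ⟨⟨c, hbc.symm⟩, fun p hp hpn hpb => ?_, fun p hp hpb => ?_⟩
      · refine h1 p (Nat.mem_primeFactors.2 ⟨hp, ?_, hc0⟩)
        rw [← hbc] at hpn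
        exact ((hp.dvd_mul).1 hpn).resolve_left hpb
      · rw [← hbc, Nat.mul_div_cancel_left _ hb0]
        exact h2 p (Nat.mem_primeFactors.2 ⟨hp, hpb, hb0.ne'⟩)
    rcases h b hR with h3 | h3
    · exact Or.inl h3
    · right
      rw [h3] at hbc
      exact Nat.eq_of_mul_eq_mul_left (Nat.pos_of_ne_zero hn0) (by rw [hbc, mul_one])

/-- the value at `1` -/
lemma value {n : ℕ} (hn : Family n) : ∃ Λ : ℂ → ℂ, IsL (W n) Λ ∧ (Good n → Λ 1 ≠ 0) := by
  obtain ⟨f, hf, -, h1, h2, h3⟩ := Pool.Agent.N877.P24.value24 hn.1 hn.2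
  obtain ⟨y, hy, hodd⟩ := Pool.Agent.N878.P24.t_PAR Pool.Agent.N877.P24.t_R n ⟨hn.1, hn.2⟩
  refine ⟨f, ⟨hf, fun s hs => Pool.Agent.N877.P24.euler_W hn.2 (h3 s hs)⟩, fun hg => ?_⟩
  have hy1 : Odd y := hodd.2 ((qc_iff hn).2 hg)
  have hy0 : y ≠ 0 := by
    rintro rfl
    exact absurd hy1 (by decide)
  have hc : (Pool.Agent.N877.P24.cc n : ℤ) ≠ 0 := by
    rw [hy]
    exact mul_ne_zero (mul_ne_zero (by norm_num) (pow_ne_zero _ (by norm_num))) hy0
  have hc' : (Pool.Agent.N877.P24.cc n : ℝ) ≠ 0 := by exact_mod_cast hc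
  have h576 : (576 : ℝ) ≠ 0 := by norm_num
  rw [h1, Ne, Complex.ofReal_eq_zero]
  exact mul_ne_zero (div_ne_zero (pow_ne_zero 2 hc') h576) (mul_pos two_pos h2).ne'

lemma delta (n : ℕ) : (W n).Δ = 2304 * (n : ℤ) ^ 6 := by
  simp only [WeierstrassCurve.Δ, WeierstrassCurve.b₂, WeierstrassCurve.b₄, WeierstrassCurve.b₆,
    WeierstrassCurve.b₈, W]
  ring

lemma c4 (n : ℕ) : (W n).c₄ = 208 * (n : ℤ) ^ 2 := by
  simp only [WeierstrassCurve.c₄, WeierstrassCurve.b₂, WeierstrassCurve.b₄, W]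
  ring

lemma c6 (n : ℕ) : (W n).c₆ = 2240 * (n : ℤ) ^ 3 := by
  simp only [WeierstrassCurve.c₆, WeierstrassCurve.b₂, WeierstrassCurve.b₄, WeierstrassCurve.b₆, W]
  ring

lemma not_pow {n : ℕ} (hn : Family n) {p : ℕ} (hp : p.Prime) (h2 : p ≠ 2) :
    ¬ (p : ℤ) ^ 12 ∣ (W n).Δ := by
  rw [delta]
  intro h
  have h' : p ^ 12 ∣ 2304 * n ^ 6 := by exact_mod_cast h
  have hc2 : Nat.Coprime (p ^ 12) (2 ^ 8) :=
    Nat.Coprime.pow _ _ ((Nat.coprime_primes hp Nat.prime_two).2 h2)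
  have h3 : p ^ 12 ∣ 9 * n ^ 6 := by
    refine hc2.dvd_of_dvd_mul_left ?_
    have : 2 ^ 8 * (9 * n ^ 6) = 2304 * n ^ 6 := by ring
    rwa [this]
  by_cases hp3 : p = 3
  · subst hp3
    have hn3 : Nat.Coprime (3 ^ 12) (n ^ 6) := by
      refine Nat.Coprime.pow _ _ ((Nat.Prime.coprime_iff_not_dvd Nat.prime_three).2 ?_)
      have := hn.2
      omega
    have h4 := hn3.dvd_of_dvd_mul_right h3
    norm_num at h4
  · have hc3 : Nat.Coprime (p ^ 12) (3 ^ 2) :=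
      Nat.Coprime.pow _ _ ((Nat.coprime_primes hp Nat.prime_three).2 hp3)
    have h4 : p ^ 12 ∣ n ^ 6 := by
      refine hc3.dvd_of_dvd_mul_left ?_
      have : 3 ^ 2 * n ^ 6 = 9 * n ^ 6 := by ring
      rwa [this]
    have h5 : (p ^ 2) ^ 6 ∣ n ^ 6 := by rwa [← pow_mul]
    have h6 : p ^ 2 ∣ n := (Nat.pow_dvd_pow_iff (by norm_num)).1 h5
    have h7 := hn.1 p (by rwa [← pow_two])
    exact hp.one_lt.ne' (Nat.isUnit_iff.1 h7)

lemma aff_pos (n : ℕ) {p : ℕ} (hp : p.Prime) : 0 < affCount (W n) p := by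
  haveI := Fact.mk hp
  haveI : NeZero p := ⟨hp.ne_zero⟩
  unfold affCount
  haveI : Nonempty {P : ZMod p × ZMod p //
      ((W n).map (Int.castRingHom (ZMod p))).toAffine.Equation P.1 P.2} := by
    refine ⟨⟨(0, 0), ?_⟩⟩
    rw [WeierstrassCurve.Affine.equation_iff]
    simp [W]
  exact Nat.card_pos

theorem t_D24 (h1 : S_GM) (h2 : S_RD) : S_D24 := by
  intro m hm hF
  obtain ⟨hneg, h24⟩ : m < 0 ∧ m % 24 = 13 := hF
  have hm' : ((m.natAbs : ℕ) : ℤ) = -m := by omega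
  have hn : Family m.natAbs := ⟨Int.squarefree_natAbs.2 hm, by omega⟩
  have hG : Good m.natAbs ↔ H4 m := by
    rw [← h1 m hneg (by omega) hm]
    have := h2 m.natAbs hn.1 (by omega)
    rw [hm', neg_neg] at this
    exact this
  obtain ⟨Λ, hL, hv⟩ := value hn
  refine ⟨W m.natAbs, Λ, 4 * m, hL, Or.inr rfl, ?_, ?_, ?_, ?_, fun p hp hp2 => not_pow hn hp hp2,
    fun p hp => aff_pos _ hp, ?_, ?_⟩
  · rw [delta]
    have : ((m.natAbs : ℕ) : ℤ) ≠ 0 := by omega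
    exact mul_ne_zero (by norm_num) (pow_ne_zero _ this)
  · rw [c4, hm']
    ring
  · rw [c6, hm']
    ring
  · rw [delta]
    exact Dvd.intro (768 * ((m.natAbs : ℕ) : ℤ) ^ 6) (by ring)
  · rw [← hG]
    exact fin_iff hn
  · intro h
    exact hv (hG.2 h)

end Pool.Agent.H701.JZ24
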