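import Pool.Agent.H743.JL.StmZ
import Pool.Agent.H114.X21.P.VF
import Pool.Agent.H114.X21.P.VB

/-!
# JZ-GM: the criterion of helper114 and the kernel of the matrix of Rédei
-/

set_option autoImplicit false
set_option linter.all false

open scoped Classical

namespace Pool.Agent.H738.JZGM

open Pool.Agent.H743.X17 (up lam ind h2 RS pd lS LL al Kn)
open Pool.Agent.H743.X17.QSYSF
open Pool.Agent.H468.X15 (ps ps_unit pI)
open Pool.Agent.H114.X21
open Pool.Agent.N969.P15 (Qc Qe)
open Pool.Agent.H189.X21.VF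
open Pool.Agent.H743.JL

/-- the decompositions of the second kind from the kernel -/
theorem vd_of {m : ℤ} (hm : Squarefree m)
    (hside : ∀ y : ℕ → ZMod 2, (∀ p ∈ RS m, ∑ q ∈ RS m, LL m p q * y q = 0) →
      (∀ p ∈ RS m, y p = 0) ∨ (∀ p ∈ RS m, y p = 1)) (v : ℤ) (hv : Squarefree v) (hD : VD m v) :
    v = 1 ∨ v = m := by
  have hm0 := hm.ne_zero
  have hv0 := hv.ne_zero
  obtain ⟨c, hc⟩ : ∃ c : ZMod 2, m % 4 ≠ 1 →
      A4 v = c * A4 m ∧ A8 v = c * A8 m ∧ V 2 v = c * V 2 m := by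
    by_cases h1 : m % 4 = 1
    · exact ⟨0, fun h2 => absurd h1 h2⟩
    · obtain ⟨c, hc⟩ := at2 hm hv (hD.e2 h1)
      exact ⟨c, fun _ => hc⟩
  have supp : ∀ q : ℕ, q.Prime → q ∉ RS m → V q v = 0 := by
    intro q hq hqS
    rw [mem_RS hm0] at hqS
    have hqm : ¬ (q : ℤ) ∣ m := fun h' => hqS ⟨hq, Or.inl h'⟩
    apply V_zero hq
    by_cases h2 : q = 2
    · subst h2
      have h1 : m % 4 = 1 := by
        by_contra h1
        exact hqS ⟨hq, Or.inr ⟨rfl, h1⟩⟩
      have h3 := hD.o2 h1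
      have h4 : ¬ (2 : ℤ) ∣ v := by omega
      exact_mod_cast h4
    · exact hD.dvd q hq h2 hqm
  set y : ℕ → ZMod 2 := fun q => if q = 2 then c else V q v with hy
  have y2 : y 2 = c := by rw [hy]; simp
  have yo : ∀ q : ℕ, q ≠ 2 → y q = V q v := by
    intro q hq
    rw [hy]; simp [hq]
  have hyV : ∀ q ∈ RS m, y q * V q m = V q v := by
    intro q hq
    by_cases h2 : q = 2
    · subst h2
      rw [y2]
      exact (hc ((two_RS hm).1 hq)).2.2.symm
    · rw [yo q h2, V_RS hm hq h2, mul_one]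
  have Fv : ∀ F : ℤ → ZMod 2, AddH F → F v = sg v * F (-1) + ∑ q ∈ RS m, V q v * F q := by
    intro F hF
    rw [F_abs hF hv0, expand hF (abs_pos.2 hv0) (RS m) (fun q hq => RS_prime hq)]
    · congr 1
      refine Finset.sum_congr rfl fun q hq => ?_
      rw [V_abs (RS_prime hq) hv0]
    · intro q hq hqS
      rw [V_abs hq hv0]
      exact supp q hq hqS
  have hyw : ∀ F : ℤ → ZMod 2, ∑ q ∈ RS m, y q * V q m * F q = ∑ q ∈ RS m, V q v * F q := by
    intro F
    refine Finset.sum_congr rfl fun q hq => ?_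
    rw [hyV q hq]
  have hsgn : ∑ q ∈ RS m, y q * al m q = sg v := by
    rw [sum_y_al hm y, hyw A4, y2]
    have h1 := Fv A4 A4_addH
    rw [A4_neg_one, mul_one] at h1
    by_cases h4 : m % 4 = 1
    · rw [A4_zero (hD.o2 h4)] at h1
      rw [A4_zero h4, mul_zero, add_zero]
      exact (add0 h1.symm).symm
    · rw [(hc h4).1] at h1
      rw [h1]
      have h3 : ∀ a b : ZMod 2, b + (a + b) = a := by decide
      exact h3 _ _
  have Fw : ∀ F : ℤ → ZMod 2, AddH F → ∑ q ∈ RS m, y q * F (pd m q) = F v := by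
    intro F hF
    rw [sum_w hF hm y, hsgn, hyw F, ← Fv F hF]
  rcases hside y (by
    intro p hp
    have hpp := RS_prime hp
    rw [row hm y hp, Fw _ (G_addH hpp)]
    by_cases h2 : p = 2
    · subst h2
      rw [G_two, y2, (hc ((two_RS hm).1 hp)).2.1, z2]
    · have : Fact p.Prime := ⟨hpp⟩
      have h3 := hD.odd p hpp h2 (dvd_of_RS hm hp h2)
      rw [sf_lam hv, sf_ind hv, sf_lam hm] at h3
      rw [G_odd h2, yo p h2, h3, z2]) with h | h
  · left
    refine eq_of_sq hv squarefree_one fun F hF => ?_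
    rw [← Fw F hF, hF.one]
    exact Finset.sum_eq_zero fun q hq => by rw [h q hq, zero_mul]
  · right
    refine eq_of_sq hv hm fun F hF => ?_
    rw [← Fw F hF, ← sum_pd hF hm]
    exact Finset.sum_congr rfl fun q hq => by rw [h q hq, one_mul]



theorem t_GM : S_GM := by
  intro m h0 h1 hm
  constructor
  · intro hG y hy p hp q hq
    rcases vside hm h0 hG y hy with h | h
    · rw [h p hp, h q hq]
    · rw [h p hp, h q hq]
  · intro hH
    refine Pool.Agent.H551.X21.t_VB m h0 h1 hm fun v hv hD => vd_of hm ?_ v hv hD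
    intro y hy
    obtain ⟨p, hp⟩ := RS_ne hm h0
    rcases c01 (y p) with h | h
    · exact Or.inl fun q hq => by rw [hH y hy q hq p hp, h]
    · exact Or.inr fun q hq => by rw [hH y hy q hq p hp, h]

end Pool.Agent.H738.JZGM
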