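import Pool.Agent.H743.JL.StmZ

/-!
# JI: equations with a given j-invariant are twists
-/

set_option autoImplicit false
set_option linter.all false

namespace Pool.Agent.H694.JZ

open Pool.Agent.H743.JL (S_JI)
open Pool.Agent.H743.X17.RK (cA cB cA_ne cA_sqf split_k)

theorem t_JI : S_JI := by
  intro A B a b hA hB hD h
  have ha : a ≠ 0 := by
    rintro rfl
    have h1 : A ^ 3 * b ^ 2 = 0 := by rw [← h]; ring
    have h2 := (mul_eq_zero.1 h1).resolve_left (pow_ne_zero 3 hA)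
    apply hD
    rw [h2]
    ring
  have hb : b ≠ 0 := by
    rintro rfl
    have h1 : a ^ 3 * B ^ 2 = 0 := by rw [h]; ring
    exact ha (pow_eq_zero_iff (by norm_num) |>.1 ((mul_eq_zero.1 h1).resolve_right (pow_ne_zero 2 hB)))
  have hA' : (A : ℚ) ≠ 0 := by exact_mod_cast hA
  have hB' : (B : ℚ) ≠ 0 := by exact_mod_cast hB
  have ha' : (a : ℚ) ≠ 0 := by exact_mod_cast ha
  have hb' : (b : ℚ) ≠ 0 := by exact_mod_cast hb
  have h' : (a : ℚ) ^ 3 * B ^ 2 = A ^ 3 * b ^ 2 := by exact_mod_cast h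
  obtain ⟨κ, hκ⟩ : ∃ κ : ℚ, κ = b * A / (a * B) := ⟨_, rfl⟩
  have k1 : (a : ℚ) = A * κ ^ 2 := by
    rw [hκ]
    field_simp
    linear_combination h'
  have k2 : (b : ℚ) = B * κ ^ 3 := by
    have : (b : ℚ) * A = κ * (a * B) := by
      rw [hκ]
      field_simp
    have h3 : (b : ℚ) * A = B * κ ^ 3 * A := by
      rw [this]
      nth_rewrite 1 [k1]
      ring
    exact mul_right_cancel₀ hA' h3
  have hκ0 : κ ≠ 0 := by
    rw [hκ]
    exact div_ne_zero (mul_ne_zero hb' hA') (mul_ne_zero ha' hB')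
  have hden : (κ.den : ℤ) ≠ 0 := by exact_mod_cast κ.den_ne_zero
  have hdenq : (κ.den : ℚ) ≠ 0 := by exact_mod_cast κ.den_ne_zero
  obtain ⟨g, m, hg, hm, hgm⟩ := split_k (mul_ne_zero (Rat.num_ne_zero.2 hκ0) hden)
  have hg' : (g : ℚ) ≠ 0 := by exact_mod_cast hg
  have hκg : κ = ((g : ℚ) / κ.den) ^ 2 * m := by
    have h4 : (κ.num : ℚ) * κ.den = (g : ℚ) ^ 2 * m := by exact_mod_cast hgm
    have h5 : κ * κ.den = κ.num := Rat.mul_den_eq_num κ
    have h6 : κ * (κ.den : ℚ) ^ 2 = (g : ℚ) ^ 2 * m := by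
      rw [← h4, ← h5]
      ring
    rw [div_pow, div_mul_eq_mul_div, eq_div_iff (pow_ne_zero 2 hdenq)]
    exact h6
  refine ⟨m, (g : ℚ) / κ.den, hm, div_ne_zero hg' hdenq, ?_, ?_⟩
  · rw [← hκg]
    exact k1
  · rw [← hκg]
    exact k2

end Pool.Agent.H694.JZ
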