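import Pool.Agent.H743.JL.StmZ
import Pool.Agent.H114.X21.Clg

/-!
# JZ-NF: no ideal class of order four
-/

set_option autoImplicit false
set_option linter.all false

open scoped Classical

namespace Pool.Agent.H743.JL.NF

open Polynomial NumberField

theorem exists_K {m : ℤ} (hm : m < 0) : ∃ (K : Type) (_ : Field K) (_ : NumberField K),
    Module.finrank ℚ K = 2 ∧ ∃ s : K, s ^ 2 = (m : K) := by
  have hirr : Irreducible (X ^ 2 - C (m : ℚ) : ℚ[X]) := by
    refine X_pow_sub_C_irreducible_of_prime Nat.prime_two fun b hb => ?_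
    have h1 : (0 : ℚ) ≤ b ^ 2 := sq_nonneg b
    rw [hb] at h1
    have : (m : ℚ) < 0 := by exact_mod_cast hm
    linarith
  haveI : Fact (Irreducible (X ^ 2 - C (m : ℚ) : ℚ[X])) := ⟨hirr⟩
  have hne : (X ^ 2 - C (m : ℚ) : ℚ[X]) ≠ 0 := hirr.ne_zero
  have hdeg : (X ^ 2 - C (m : ℚ) : ℚ[X]).natDegree = 2 := natDegree_X_pow_sub_C
  let pb := AdjoinRoot.powerBasis hne
  haveI hfd : FiniteDimensional ℚ (AdjoinRoot (X ^ 2 - C (m : ℚ) : ℚ[X])) := pb.finite
  haveI hc : CharZero (AdjoinRoot (X ^ 2 - C (m : ℚ) : ℚ[X])) :=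
    charZero_of_injective_algebraMap (algebraMap ℚ _).injective
  refine ⟨AdjoinRoot (X ^ 2 - C (m : ℚ) : ℚ[X]), inferInstance, NumberField.mk, ?_,
    AdjoinRoot.root _, ?_⟩
  · rw [pb.finrank]
    exact (AdjoinRoot.powerBasis_dim hne).trans hdeg
  · have h1 := AdjoinRoot.eval₂_root (X ^ 2 - C (m : ℚ) : ℚ[X])
    rw [eval₂_sub, eval₂_X_pow, eval₂_C, sub_eq_zero] at h1
    rw [h1]
    simp

theorem t_NF (h : S_GM) : S_NF := by
  intro m hneg h1 hs
  rw [← h m hneg h1 hs]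
  constructor
  · intro hN
    obtain ⟨K, _, _, hK, hsq⟩ := exists_K hneg
    exact (Pool.Agent.H114.X21.gm_cl hneg hs h1 K hK hsq).2 (hN K hK hsq)
  · intro hG K _ _ hK hsq
    exact (Pool.Agent.H114.X21.gm_cl hneg hs h1 K hK hsq).1 hG

end Pool.Agent.H743.JL.NF
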