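import Pool.Agent.H743.JL.StmZ

/-!
# SL: the scaling factors for the conductor 17 are integral
-/

set_option autoImplicit false
set_option linter.all false

namespace Pool.Agent.H694.JZ

open Pool.Agent.H743.JL (S_SL)
open Pool.Agent.H743.X17.RK (cA cB cA_ne cA_sqf split_k)

theorem t_SL : S_SL := by
  intro j m a b g hm hg h1 h2
  have hA := cA_ne j
  have hm0 : m ≠ 0 := hm.ne_zero
  have hm' : (m : ℚ) ≠ 0 := by exact_mod_cast hm0
  obtain ⟨κ, hκ⟩ : ∃ κ : ℚ, κ = g ^ 2 * m := ⟨_, rfl⟩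
  rw [← hκ] at h1 h2
  have hden : (κ.den : ℤ) ^ 2 ∣ cA j := by
    have h3 : (a : ℚ) * κ.den ^ 2 = cA j * κ.num ^ 2 := by
      rw [h1]
      have : (κ.num : ℚ) = κ * κ.den := (Rat.mul_den_eq_num κ).symm
      rw [this]
      ring
    have h4 : a * (κ.den : ℤ) ^ 2 = cA j * κ.num ^ 2 := by exact_mod_cast h3
    have h5 : IsCoprime ((κ.den : ℤ) ^ 2) (κ.num ^ 2) := by
      refine IsCoprime.pow ?_
      rw [Int.isCoprime_iff_gcd_eq_one, Int.gcd_comm]
      exact κ.reduced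
    exact h5.dvd_of_dvd_mul_right (Dvd.intro_left a h4)
  have hone : κ.den = 1 := by
    have h3 := cA_sqf j hden
    have h4 := Int.isUnit_iff.1 h3
    have := κ.den_pos
    omega
  have hκk : κ = (κ.num : ℚ) := by
    rw [← Rat.mul_den_eq_num κ, hone]
    simp
  have hgden : (g.den : ℤ) * (g.den : ℤ) ∣ m := by
    have h3 : (κ.num : ℚ) * g.den ^ 2 = g.num ^ 2 * m := by
      rw [← hκk, hκ]
      have : (g.num : ℚ) = g * g.den := (Rat.mul_den_eq_num g).symm
      rw [this]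
      ring
    have h4 : κ.num * (g.den : ℤ) ^ 2 = g.num ^ 2 * m := by exact_mod_cast h3
    have h5 : IsCoprime ((g.den : ℤ) ^ 2) (g.num ^ 2) := by
      refine IsCoprime.pow ?_
      rw [Int.isCoprime_iff_gcd_eq_one, Int.gcd_comm]
      exact g.reduced
    rw [← sq]
    exact h5.dvd_of_dvd_mul_left (Dvd.intro_left κ.num h4)
  have hgone : g.den = 1 := by
    have h4 := Int.isUnit_iff.1 (hm _ hgden)
    have := g.den_pos
    omega
  have hgk : g = (g.num : ℚ) := by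
    rw [← Rat.mul_den_eq_num g, hgone]
    simp
  have hκm : κ.num = g.num ^ 2 * m := by
    have h3 : (κ.num : ℚ) = (g.num : ℚ) ^ 2 * m := by
      rw [← hκk, ← hgk]
      exact hκ
    exact_mod_cast h3
  have habs : ((g.num.natAbs : ℕ) : ℤ) ^ 2 = g.num ^ 2 := by
    rw [Int.natCast_natAbs, sq_abs]
  refine ⟨g.num.natAbs, ?_, ?_, ?_⟩
  · rw [Int.natAbs_ne_zero]
    exact Rat.num_ne_zero.2 hg
  · rw [habs, ← hκm]
    have h3 : (a : ℚ) = cA j * (κ.num : ℚ) ^ 2 := by rw [← hκk]; exact h1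
    exact_mod_cast h3
  · rw [habs, ← hκm]
    have h3 : (b : ℚ) = cB j * (κ.num : ℚ) ^ 3 := by rw [← hκk]; exact h2
    exact_mod_cast h3

end Pool.Agent.H694.JZ
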