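import Pool.Agent.H743.JL.All
import Pool.Agent.H743.JL.GM
import Pool.Agent.H743.JL.RD
import Pool.Agent.H743.JL.NF
import Pool.Agent.H743.JL.IN
import Pool.Agent.H743.JL.SF
import Pool.Agent.H743.JL.D15
import Pool.Agent.H743.JL.D21
import Pool.Agent.H743.JL.D24
import Pool.Agent.H743.JL.CV
import Pool.Agent.H743.JL.SL
import Pool.Agent.H743.JL.JI
import Pool.Agent.H743.JL.TF
import Pool.Agent.H743.JL.HU

/-!
# JZ: all the parts together

Parts by helper199, 227, 628, 694, 701, 721, 734, 738.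
-/

set_option autoImplicit false

namespace Pool.Agent.H743.JL

theorem gm : S_GM := Pool.Agent.H738.JZGM.t_GM

theorem nf : S_NF := NF.t_NF gm

theorem cv : S_CV := Pool.Agent.H721.JZ.t_CV Pool.Agent.H628.JZ.IN.t_IN Pool.Agent.H227.JZ.t_SF
  (Pool.Agent.H199.JZ.t_D15 gm Pool.Agent.H628.JZ.RD.t_RD) (Pool.Agent.H734.D21.t_D21 gm)
  (Pool.Agent.H701.JZ24.t_D24 gm Pool.Agent.H628.JZ.RD.t_RD)

theorem sl : S_SL := Pool.Agent.H694.JZ.t_SL

theorem ji : S_JI := Pool.Agent.H694.JZ.t_JI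

theorem tf : S_TF := Pool.Agent.H628.JZ.TF.t_TF fi2

theorem hu : S_HU := Pool.Agent.H628.JZ.HU.t_HU fi

end Pool.Agent.H743.JL
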