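import Pool.Agent.H743.JL.StmX

/-!
# JX (A2): the average over the pairs of functionals, for the split forms
-/

set_option autoImplicit false
set_option linter.all false

open scoped Classical

namespace Pool.Agent.H738.JXA2

open Finset Module
open Pool.Agent.H743.JL Pool.Agent.N916.MO

theorem sum_av {D D' : Type} [Fintype D] [Zero D] [Fintype D'] [Zero D'] (A B C : ℝ) :
    ∑ f : D, ∑ g : D', (if f = 0 ∧ g = 0 then A else if f = 0 ∨ g = 0 then B else C) =
      A + ((Fintype.card D : ℝ) - 1) * B + ((Fintype.card D' : ℝ) - 1) * B +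
        ((Fintype.card D : ℝ) - 1) * ((Fintype.card D' : ℝ) - 1) * C := by
  have h1 : ∀ f : D, ∑ g : D', (if f = 0 ∧ g = 0 then A else if f = 0 ∨ g = 0 then B else C) =
      (B + ((Fintype.card D' : ℝ) - 1) * C) + if f = 0 then (A + ((Fintype.card D' : ℝ) - 1) * B -
        (B + ((Fintype.card D' : ℝ) - 1) * C)) else 0 := by
    intro f
    by_cases hf : f = 0
    · rw [if_pos hf]
      have h2 : ∀ g : D', (if f = 0 ∧ g = 0 then A else if f = 0 ∨ g = 0 then B else C) =
          B + if g = 0 then A - B else 0 := by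
        intro g
        by_cases hg : g = 0
        · rw [if_pos ⟨hf, hg⟩, if_pos hg]
          ring
        · rw [if_neg (fun h => hg h.2), if_pos (Or.inl hf), if_neg hg, add_zero]
      rw [sum_congr rfl fun g _ => h2 g, sum_add_distrib, sum_const, card_univ, nsmul_eq_mul,
        sum_ite_eq' univ (0 : D') fun _ => A - B, if_pos (mem_univ _)]
      ring
    · rw [if_neg hf, add_zero]
      have h2 : ∀ g : D', (if f = 0 ∧ g = 0 then A else if f = 0 ∨ g = 0 then B else C) =
          C + if g = 0 then B - C else 0 := by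
        intro g
        by_cases hg : g = 0
        · rw [if_neg (fun h => hf h.1), if_pos (Or.inr hg), if_pos hg]
          ring
        · rw [if_neg (fun h => hf h.1), if_neg (fun h => h.elim hf hg), if_neg hg, add_zero]
      rw [sum_congr rfl fun g _ => h2 g, sum_add_distrib, sum_const, card_univ, nsmul_eq_mul,
        sum_ite_eq' univ (0 : D') fun _ => B - C, if_pos (mem_univ _)]
      ring
  rw [sum_congr rfl fun f _ => h1 f, sum_add_distrib, sum_const, card_univ, nsmul_eq_mul,
    sum_ite_eq' univ (0 : D) fun _ => (A + ((Fintype.card D' : ℝ) - 1) * B -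
        (B + ((Fintype.card D' : ℝ) - 1) * C)), if_pos (mem_univ _)]
  ring

theorem card_dual (R : Type) [AddCommGroup R] [Module (ZMod 2) R] [Finite R]
    [Fintype (Module.Dual (ZMod 2) R)] {r : ℕ} (hr : finrank (ZMod 2) R = r) :
    (Fintype.card (Module.Dual (ZMod 2) R) : ℝ) = 2 ^ r := by
  have h1 : Fintype.card (Module.Dual (ZMod 2) R) = 2 ^ r := by
    rw [Module.card_eq_pow_finrank (K := ZMod 2) (V := Module.Dual (ZMod 2) R),
      Subspace.dual_finrank_eq, hr, ZMod.card]
  rw [h1]
  norm_num

theorem t_A2 (h : S_HE) : S_A2 := by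
  intro R R' _ _ _ _ _ _ _ _ r t hr hr'
  rw [sum_av, card_dual R hr, card_dual R' hr']
  cases r with
  | zero =>
    rw [h.2.2.2.2.1 t]
    norm_num
  | succ r =>
    have h1 := h.2.2.2.2.2 t r
    have h4 : (4 : ℝ) ^ (r + 1) = (2 ^ (r + 1)) ^ 2 := by
      rw [← pow_mul, mul_comm, pow_mul]
      norm_num
    rw [Nat.add_sub_cancel, h4, h1]
    ring

end Pool.Agent.H738.JXA2
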