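import Pool.Agent.H743.JL.Stm

/-!
# JL (AV): the average over the pairs of functionals
-/

set_option autoImplicit false
set_option linter.all false

open scoped Classical

namespace Pool.Agent.H721.JLAV

open Finset Module
open Pool.Agent.H743.JL Pool.Agent.N916.MO

theorem sum_av {D : Type} [Fintype D] [Zero D] (A B C : ℝ) :
    ∑ f : D, ∑ g : D, (if f = 0 ∧ g = 0 then A else if f = 0 ∨ g = 0 ∨ f = g then B else C) =
      (Fintype.card D : ℝ) ^ 2 * C + 3 * Fintype.card D * (B - C) + (A - 3 * B + 2 * C) := by
  have h1 : ∀ f : D, ∑ g : D,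
      (if f = 0 ∧ g = 0 then A else if f = 0 ∨ g = 0 ∨ f = g then B else C) =
      (Fintype.card D * C + 2 * (B - C)) +
        if f = 0 then (Fintype.card D * B + (A - B) - (Fintype.card D * C + 2 * (B - C))) else 0 := by
    intro f
    by_cases hf : f = 0
    · rw [if_pos hf]
      have h2 : ∀ g : D, (if f = 0 ∧ g = 0 then A else if f = 0 ∨ g = 0 ∨ f = g then B else C) =
          B + if g = 0 then A - B else 0 := by
        intro g
        by_cases hg : g = 0
        · rw [if_pos ⟨hf, hg⟩, if_pos hg]
          ring
        · rw [if_neg (fun h => hg h.2), if_pos (Or.inl hf), if_neg hg, add_zero]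
      rw [sum_congr rfl fun g _ => h2 g, sum_add_distrib, sum_const, card_univ, nsmul_eq_mul,
        sum_ite_eq' univ (0 : D) fun _ => A - B, if_pos (mem_univ _)]
      ring
    · rw [if_neg hf, add_zero]
      have h2 : ∀ g : D, (if f = 0 ∧ g = 0 then A else if f = 0 ∨ g = 0 ∨ f = g then B else C) =
          C + (if g = 0 then B - C else 0) + (if g = f then B - C else 0) := by
        intro g
        by_cases hg : g = 0
        · rw [if_neg (fun h => hf h.1), if_pos (Or.inr (Or.inl hg)), if_pos hg,
            if_neg (fun h => hf (by rw [← h, hg]))]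
          ring
        · by_cases hg' : g = f
          · rw [if_neg (fun h => hf h.1), if_pos (Or.inr (Or.inr hg'.symm)), if_neg hg, if_pos hg']
            ring
          · rw [if_neg (fun h => hf h.1), if_neg, if_neg hg, if_neg hg']
            · ring
            · rintro (h | h | h)
              · exact hf h
              · exact hg h
              · exact hg' h.symm
      rw [sum_congr rfl fun g _ => h2 g, sum_add_distrib, sum_add_distrib, sum_const, card_univ,
        nsmul_eq_mul, sum_ite_eq' univ (0 : D) fun _ => B - C,
        sum_ite_eq' univ f fun _ => B - C, if_pos (mem_univ _), if_pos (mem_univ _)]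
      ring
  rw [sum_congr rfl fun f _ => h1 f, sum_add_distrib, sum_const, card_univ, nsmul_eq_mul,
    sum_ite_eq' univ (0 : D) fun _ => (Fintype.card D * B + (A - B) -
      (Fintype.card D * C + 2 * (B - C))), if_pos (mem_univ _)]
  ring

theorem t_AV : S_AV := by
  intro R _ _ _ _ r t hr
  have hc : (Fintype.card (Module.Dual (ZMod 2) R) : ℝ) = 4 ^ r := by
    have h1 : Fintype.card (Module.Dual (ZMod 2) R) = 2 ^ (2 * r) := by
      rw [Module.card_eq_pow_finrank (K := ZMod 2) (V := Module.Dual (ZMod 2) R),
        Subspace.dual_finrank_eq, hr, ZMod.card]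
    rw [h1, pow_mul]
    norm_num
  rw [sum_av, hc]
  cases r with
  | zero =>
    rw [step0, pow_zero, pow_zero]
    ring
  | succ r =>
    rw [Nat.add_sub_cancel, step1]
    have h16 : (16 : ℝ) ^ (r + 1) = (4 ^ (r + 1)) ^ 2 := by
      rw [← pow_mul, mul_comm, pow_mul]
      norm_num
    rw [h16]
    have h0 : (4 : ℝ) ^ (r + 1) ≠ 0 := by positivity
    set N : ℝ := 4 ^ (r + 1) with hN
    field_simp
    ring

end Pool.Agent.H721.JLAV
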