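import Pool.Agent.H743.JL.StmX
import Pool.Agent.H743.JL.CH

/-!
# JX, part CH2: the chain for forms of two kinds
-/

set_option autoImplicit false
set_option linter.all false

open scoped Classical

namespace Pool.Agent.H167.JX

open Finset Module
open Pool.Agent.H743.JL Pool.Agent.N916.MO
open Pool.Agent.N916.GB (eta)
open Pool.Agent.Y703.CQ (c2)
open Pool.Agent.H218.JL (c2_mem prod_dist rr_even rr_zero)

theorem hk_mem (h1 : S_HE) (sp : Prop) (t r : ℕ) : 0 ≤ hk sp t r ∧ hk sp t r ≤ 1 := by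
  unfold hk
  by_cases h : sp
  · rw [if_pos h]
    exact h1.1 t r
  · rw [if_neg h]
    exact ⟨hh_nonneg _ _, hh_le1 _ _⟩

theorem ck_mem (h1 : S_HE) (sp : Prop) : 0 ≤ ck sp ∧ ck sp ≤ 1 := by
  unfold ck
  by_cases h : sp
  · rw [if_pos h]
    exact h1.2.2.2.1
  · rw [if_neg h]
    exact c2_mem

theorem hk_zero (h1 : S_HE) (sp : Prop) (r : ℕ) : hk sp 0 r = if r = 0 then 1 else 0 := by
  unfold hk
  by_cases h : sp
  · rw [if_pos h]
    exact h1.2.1 r
  · rw [if_neg h]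
    exact hh_zero r

theorem hk_ck (h1 : S_HE) (sp : Prop) (t r : ℕ) : |hk sp t r - ck sp| ≤ ((2 : ℝ) ^ r + 1) / 2 ^ t := by
  unfold hk ck
  by_cases h : sp
  · rw [if_pos h, if_pos h]
    exact h1.2.2.1 t r
  · rw [if_neg h, if_neg h]
    have a1 := hh_c2 t r
    have a2 : |hh t r - c2| ≤ 1 := by
      rw [abs_le]
      have b1 := hh_nonneg t r
      have b2 := hh_le1 t r
      have b3 := c2_mem
      constructor <;> linarith [b3.1, b3.2]
    set x : ℝ := ((2 : ℝ) ^ r + 1) / 2 ^ t with hx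
    have hx0 : 0 ≤ x := by rw [hx]; positivity
    have a3 : ((4 : ℝ) ^ r + 1) / 4 ^ t ≤ x ^ 2 := by
      rw [hx, div_pow]
      have e1 : ((2 : ℝ) ^ t) ^ 2 = 4 ^ t := by
        rw [← pow_mul, mul_comm, pow_mul]; norm_num
      have e2 : ((2 : ℝ) ^ r) ^ 2 = 4 ^ r := by
        rw [← pow_mul, mul_comm, pow_mul]; norm_num
      rw [e1]
      refine div_le_div_of_nonneg_right ?_ (by positivity)
      have e3 : ((2 : ℝ) ^ r + 1) ^ 2 = ((2 : ℝ) ^ r) ^ 2 + 2 * 2 ^ r + 1 := by ring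
      rw [e3, e2]
      have : (0 : ℝ) ≤ 2 ^ r := by positivity
      linarith
    rcases le_total x 1 with hx1 | hx1
    · refine a1.trans (a3.trans ?_)
      nlinarith
    · exact a2.trans hx1

section

variable {n : ℕ} {E0 : Fin n → Type} [∀ i, AddCommGroup (E0 i)] [∀ i, Module (ZMod 2) (E0 i)]
  [∀ i, Fintype (E0 i)] {I : Type} [Fintype I] [DecidableEq I]
  {B : ∀ i, EE (E0 i) I →ₗ[ZMod 2] EE (E0 i) I →ₗ[ZMod 2] ZMod 2} {sp : Fin n → Prop}
  {AX AY : ∀ i, Submodule (ZMod 2) (E0 i)}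

/-- the sums -/
noncomputable def PT (B : ∀ i, EE (E0 i) I →ₗ[ZMod 2] EE (E0 i) I →ₗ[ZMod 2] ZMod 2)
    (sp : Fin n → Prop) (t : ℕ) : ℝ :=
  ∑ s : Sy I, ∏ i, hk (sp i) t (rr B s i)

theorem pt_zero (h1 : S_HE) (hB : ∀ i z, B i z z = 0) (hE : ∀ i, Even (finrank (ZMod 2) (E0 i))) :
    PT B sp 0 = ((univ.filter fun s : Sy I => ∀ i, Nde (B i) s).card : ℝ) := by
  unfold PT
  rw [card_filter, Nat.cast_sum]
  refine sum_congr rfl fun s _ => ?_
  by_cases h : ∀ i, Nde (B i) s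
  · rw [if_pos h, Nat.cast_one]
    refine prod_eq_one fun i _ => ?_
    rw [hk_zero h1, if_pos ((rr_zero hB hE s i).2 (h i))]
  · rw [if_neg h, Nat.cast_zero]
    push Not at h
    obtain ⟨i, hi⟩ := h
    refine prod_eq_zero (mem_univ i) ?_
    rw [hk_zero h1, if_neg fun h0 => hi ((rr_zero hB hE s i).1 h0)]

/-- the good systems -/
def Good (B : ∀ i, EE (E0 i) I →ₗ[ZMod 2] EE (E0 i) I →ₗ[ZMod 2] ZMod 2) (sp : Fin n → Prop)
    (AX AY : ∀ i, Submodule (ZMod 2) (E0 i)) (m : ℕ) (η : ℝ) (s : Sy I) : Prop :=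
  JG2 B s sp AX AY ∧ (∀ i, rr B s i ≤ m) ∧ ∀ W : Finset (Fin n), W.Nonempty →
    (NW2 B s sp AX AY W : ℝ) * 16 ^ (n * m) ≤ η ^ 2 * 2 ^ Fintype.card I

theorem prod_mem (h1 : S_HE) (sp : Fin n → Prop) (t : ℕ) (f : Fin n → ℕ) :
    0 ≤ ∏ i, hk (sp i) t (f i) ∧ ∏ i, hk (sp i) t (f i) ≤ 1 :=
  ⟨prod_nonneg fun i _ => (hk_mem h1 _ _ _).1, prod_le_one (fun i _ => (hk_mem h1 _ _ _).1)
    fun i _ => (hk_mem h1 _ _ _).2⟩

theorem step_le (hST : S_ST2) (hHE : S_HE) (hB : ∀ i z, B i z z = 0)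
    (hS : ∀ i, sp i → Spl (B i) (AX i) (AY i))
    (hE : ∀ i, Even (finrank (ZMod 2) (E0 i))) (m : ℕ) {η : ℝ} (hη : 0 ≤ η) (t : ℕ) :
    |PT B sp t - PT B sp (t + 1)| ≤ 2 ^ n * η * Fintype.card (Sy I) +
      ((univ.filter fun s : Sy I => ¬ Good B sp AX AY m η s).card : ℝ) := by
  set M : ℝ := 2 ^ Fintype.card I with hM
  have hMpos : 0 < M := by rw [hM]; positivity
  have hcard : ∑ v : I → ZMod 2, (1 : ℝ) = M := by
    rw [sum_const, Finset.card_univ, Fintype.card_fun, ZMod.card, nsmul_eq_mul, mul_one, hM]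
    push_cast
    rfl
  have h1 : M * PT B sp t =
      ∑ s : Sy I, ∑ v : I → ZMod 2, ∏ i, hk (sp i) t (rr B (s + vv v) i) := by
    rw [sum_comm]
    have e : ∀ v : I → ZMod 2, ∑ s : Sy I, ∏ i, hk (sp i) t (rr B (s + vv v) i) = PT B sp t :=
      fun v => Equiv.sum_comp (Equiv.addRight (vv v)) fun s => ∏ i, hk (sp i) t (rr B s i)
    rw [sum_congr rfl fun v _ => e v, ← hcard, sum_mul]
    exact sum_congr rfl fun v _ => by rw [one_mul]
  have h2 : M * (PT B sp t - PT B sp (t + 1)) = ∑ s : Sy I,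
      ((∑ v : I → ZMod 2, ∏ i, hk (sp i) t (rr B (s + vv v) i)) -
        M * ∏ i, hk (sp i) (t + 1) (rr B s i)) := by
    rw [mul_sub, h1, sum_sub_distrib]
    unfold PT
    rw [mul_sum]
  have h3 : ∀ s : Sy I, |(∑ v : I → ZMod 2, ∏ i, hk (sp i) t (rr B (s + vv v) i)) -
      M * ∏ i, hk (sp i) (t + 1) (rr B s i)| ≤
        2 ^ n * η * M + if ¬ Good B sp AX AY m η s then M else 0 := by
    intro s
    have hp : 0 ≤ 2 ^ n * η * M := by positivity
    by_cases hg : Good B sp AX AY m η s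
    · rw [if_neg (not_not.2 hg), add_zero]
      refine hST n E0 I B s sp AX AY t η hB hS (fun i => rr_even hB hE s i) hg.1 hη fun W hW => ?_
      refine le_trans (mul_le_mul_of_nonneg_left ?_ (Nat.cast_nonneg _)) (hg.2.2 W hW)
      refine pow_le_pow_right₀ (by norm_num) ?_
      calc ∑ i, rr B s i ≤ ∑ i : Fin n, m := sum_le_sum fun i _ => hg.2.1 i
        _ = n * m := by rw [sum_const, Finset.card_univ, Fintype.card_fin, smul_eq_mul]
    · rw [if_pos hg]
      have a1 : 0 ≤ ∑ v : I → ZMod 2, ∏ i, hk (sp i) t (rr B (s + vv v) i) :=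
        sum_nonneg fun v _ => (prod_mem hHE sp t _).1
      have a2 : ∑ v : I → ZMod 2, ∏ i, hk (sp i) t (rr B (s + vv v) i) ≤ M := by
        rw [← hcard]
        exact sum_le_sum fun v _ => (prod_mem hHE sp t _).2
      have a3 : 0 ≤ M * ∏ i, hk (sp i) (t + 1) (rr B s i) :=
        mul_nonneg hMpos.le (prod_mem hHE sp _ _).1
      have a4 : M * ∏ i, hk (sp i) (t + 1) (rr B s i) ≤ M :=
        mul_le_of_le_one_right hMpos.le (prod_mem hHE sp _ _).2
      rw [abs_le]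
      constructor <;> linarith
  have h4 : |M * (PT B sp t - PT B sp (t + 1))| ≤
      M * (2 ^ n * η * Fintype.card (Sy I) +
        ((univ.filter fun s : Sy I => ¬ Good B sp AX AY m η s).card : ℝ)) := by
    rw [h2]
    refine (abs_sum_le_sum_abs _ _).trans ((sum_le_sum fun s _ => h3 s).trans ?_)
    rw [sum_add_distrib, sum_const, Finset.card_univ, nsmul_eq_mul, ← sum_filter, sum_const,
      nsmul_eq_mul]
    apply le_of_eq
    ring
  rw [abs_mul, abs_of_pos hMpos] at h4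
  exact le_of_mul_le_mul_left h4 hMpos

theorem steps_le (hST : S_ST2) (hHE : S_HE) (hB : ∀ i z, B i z z = 0)
    (hS : ∀ i, sp i → Spl (B i) (AX i) (AY i))
    (hE : ∀ i, Even (finrank (ZMod 2) (E0 i))) (m : ℕ) {η : ℝ} (hη : 0 ≤ η) (N : ℕ) :
    |PT B sp 0 - PT B sp N| ≤ N * (2 ^ n * η * Fintype.card (Sy I) +
      ((univ.filter fun s : Sy I => ¬ Good B sp AX AY m η s).card : ℝ)) := by
  induction N with
  | zero => simp
  | succ N ih =>
    have h := step_le hST hHE hB hS hE m hη N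
    have e : PT B sp 0 - PT B sp (N + 1) =
        (PT B sp 0 - PT B sp N) + (PT B sp N - PT B sp (N + 1)) := by ring
    rw [e]
    refine (abs_add_le _ _).trans ?_
    push_cast
    linarith

/-- the systems which are not generic -/
theorem jg_le (hB : ∀ i z, B i z z = 0) {δ : ℝ}
    (h0 : ∑ s : Sy I, (NW2 B s sp AX AY ∅ : ℝ) ≤
      (1 + δ) * 2 ^ Fintype.card I * Fintype.card (Sy I)) :
    ((univ.filter fun s : Sy I => ¬ JG2 B s sp AX AY).card : ℝ) ≤ δ * Fintype.card (Sy I) := by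
  have hcw : ∀ (s : Sy I) (h : I → ZMod 2) (z z' : ∀ i, EE (E0 i) I),
      (∀ i, z i ∈ KY (B i) s (sp i) (AY i)) →
      (∀ i, z' i ∈ KX (B i) s (sp i) (AX i)) → (∀ k, ∑ i, ((z i).2.2 k + (z' i).2.1 k) = 0) →
      Cw2 B s sp AX AY ∅ h z z' := by
    intro s h z z' hz hz' hs
    refine ⟨⟨fun i w => ?_, fun i w => ?_, hs⟩, fun i => (hz i).2, fun i => (hz' i).2⟩
    · rw [if_neg (notMem_empty i), zero_mul, symB (alt_s (hB i) s)]
      refine (hz i).1.2 w ?_
      rw [EA_univ]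
      exact Submodule.mem_top
    · rw [if_neg (notMem_empty i), zero_mul, symB (alt_s (hB i) s)]
      refine (hz' i).1.2 w ?_
      rw [EA_univ]
      exact Submodule.mem_top
  have hcard : Fintype.card (I → ZMod 2) = 2 ^ Fintype.card I := by
    rw [Fintype.card_fun, ZMod.card]
  have h1 : ∀ s : Sy I, (2 : ℝ) ^ Fintype.card I * (1 + if ¬ JG2 B s sp AX AY then 1 else 0) ≤
      (NW2 B s sp AX AY ∅ : ℝ) := by
    intro s
    by_cases hg : JG2 B s sp AX AY
    · rw [if_neg (not_not.2 hg), add_zero, mul_one]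
      have h2 : 2 ^ Fintype.card I ≤ NW2 B s sp AX AY ∅ := by
        rw [← hcard, ← Finset.card_univ]
        unfold NW2
        refine Finset.card_le_card_of_injOn (fun h : I → ZMod 2 =>
          ((h, 0, 0) : (I → ZMod 2) × (∀ i, EE (E0 i) I) × (∀ i, EE (E0 i) I))) ?_ ?_
        · intro h _
          refine mem_coe.2 (mem_filter.2 ⟨mem_univ _, ?_⟩)
          exact hcw s h 0 0 (fun i => Submodule.zero_mem _) (fun i => Submodule.zero_mem _)
            (fun k => sum_eq_zero fun i _ => add_zero _)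
        · intro h _ h' _ hh
          exact congrArg Prod.fst hh
      exact_mod_cast h2
    · rw [if_pos hg]
      unfold JG2 at hg
      push Not at hg
      obtain ⟨z, z', hz, hz', hs, hne⟩ := hg
      have h2 : 2 ^ Fintype.card I * 2 ≤ NW2 B s sp AX AY ∅ := by
        have e : 2 ^ Fintype.card I * 2 = (univ : Finset ((I → ZMod 2) × Bool)).card := by
          rw [Finset.card_univ, Fintype.card_prod, hcard, Fintype.card_bool]
        rw [e]
        unfold NW2
        refine Finset.card_le_card_of_injOn (fun q : (I → ZMod 2) × Bool =>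
          ((q.1, (if q.2 then z else 0), (if q.2 then z' else 0)) :
            (I → ZMod 2) × (∀ i, EE (E0 i) I) × (∀ i, EE (E0 i) I))) ?_ ?_
        · rintro ⟨h, b⟩ _
          refine mem_coe.2 (mem_filter.2 ⟨mem_univ _, ?_⟩)
          cases b
          · exact hcw s h 0 0 (fun i => Submodule.zero_mem _) (fun i => Submodule.zero_mem _)
              (fun k => sum_eq_zero fun i _ => add_zero _)
          · exact hcw s h z z' hz hz' hs
        · rintro ⟨h, b⟩ _ ⟨h', b'⟩ _ hh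
          have e1 : h = h' := congrArg Prod.fst hh
          have e2 : (if b then z else 0) = (if b' then z else 0) :=
            congrArg (fun q => q.2.1) hh
          have e3 : (if b then z' else 0) = (if b' then z' else 0) :=
            congrArg (fun q => q.2.2) hh
          have hzz : ¬ (z = 0 ∧ z' = 0) := by
            rintro ⟨g1, g2⟩
            obtain ⟨i, hi⟩ := hne (fun i => by rw [g1]; rfl)
            exact hi (by rw [g2]; rfl)
          have e4 : b = b' := by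
            cases b <;> cases b'
            · rfl
            · exact absurd ⟨e2.symm, e3.symm⟩ hzz
            · exact absurd ⟨e2, e3⟩ hzz
            · rfl
          rw [e1, e4]
      have h3 : ((2 ^ Fintype.card I * 2 : ℕ) : ℝ) ≤ NW2 B s sp AX AY ∅ := by exact_mod_cast h2
      push_cast at h3
      norm_num
      exact h3
  have h2 := sum_le_sum fun s (_ : s ∈ (univ : Finset (Sy I))) => h1 s
  rw [← mul_sum, sum_add_distrib, sum_const, Finset.card_univ, nsmul_eq_mul, mul_one,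
    ← sum_filter, sum_const, nsmul_eq_mul, mul_one] at h2
  have h3 := h2.trans h0
  have hM : (0 : ℝ) < 2 ^ Fintype.card I := by positivity
  have h4 : (2 : ℝ) ^ Fintype.card I * ((Fintype.card (Sy I) : ℝ) +
      ((univ.filter fun s : Sy I => ¬ JG2 B s sp AX AY).card : ℝ)) ≤
      2 ^ Fintype.card I * ((1 + δ) * Fintype.card (Sy I)) := by
    refine h3.trans (le_of_eq ?_)
    ring
  have h5 := le_of_mul_le_mul_left h4 hM
  linarith

/-- the systems with a large radical -/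
theorem rr_le (hb : ∀ i, ∑ s : Sy I, (2 : ℝ) ^ rr B s i ≤ 30 * Fintype.card (Sy I)) (m : ℕ)
    (i : Fin n) :
    ((univ.filter fun s : Sy I => ¬ rr B s i ≤ m).card : ℝ) ≤ 31 / 2 ^ m * Fintype.card (Sy I) := by
  have h1 := hb i
  have h2 : ∑ s : Sy I, (if ¬ rr B s i ≤ m then (2 : ℝ) ^ m else 0) ≤
      ∑ s : Sy I, (2 : ℝ) ^ rr B s i := by
    refine sum_le_sum fun s _ => ?_
    by_cases h : rr B s i ≤ m
    · rw [if_neg (not_not.2 h)]
      positivity
    · rw [if_pos h]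
      exact pow_le_pow_right₀ (by norm_num) (by omega)
  rw [← sum_filter, sum_const, nsmul_eq_mul] at h2
  have h3 : (30 : ℝ) * Fintype.card (Sy I) ≤ 31 * Fintype.card (Sy I) :=
    mul_le_mul_of_nonneg_right (by norm_num) (Nat.cast_nonneg _)
  have h4 := (h2.trans h1).trans h3
  rw [div_mul_eq_mul_div, le_div_iff₀ (by positivity)]
  exact h4

/-- the systems with many solutions -/
theorem nw_le {δ η : ℝ} (hη : 0 < η) (m : ℕ) (W : Finset (Fin n))
    (h : ∑ s : Sy I, (NW2 B s sp AX AY W : ℝ) ≤ δ * 2 ^ Fintype.card I * Fintype.card (Sy I)) :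
    ((univ.filter fun s : Sy I => ¬ (NW2 B s sp AX AY W : ℝ) * 16 ^ (n * m) ≤
      η ^ 2 * 2 ^ Fintype.card I).card : ℝ) ≤
      δ * 16 ^ (n * m) / η ^ 2 * Fintype.card (Sy I) := by
  have hM : (0 : ℝ) < 2 ^ Fintype.card I := by positivity
  have h2 : ∑ s : Sy I, (if ¬ (NW2 B s sp AX AY W : ℝ) * 16 ^ (n * m) ≤
      η ^ 2 * 2 ^ Fintype.card I then
      η ^ 2 * 2 ^ Fintype.card I else 0) ≤ ∑ s : Sy I, (NW2 B s sp AX AY W : ℝ) * 16 ^ (n * m) := by
    refine sum_le_sum fun s _ => ?_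
    by_cases h : (NW2 B s sp AX AY W : ℝ) * 16 ^ (n * m) ≤ η ^ 2 * 2 ^ Fintype.card I
    · rw [if_neg (not_not.2 h)]
      positivity
    · rw [if_pos h]
      exact (not_le.1 h).le
  rw [← sum_filter, sum_const, nsmul_eq_mul, ← sum_mul] at h2
  have h3 := h2.trans (mul_le_mul_of_nonneg_right h (by positivity))
  have h4 : (2 : ℝ) ^ Fintype.card I * (((univ.filter fun s : Sy I =>
      ¬ (NW2 B s sp AX AY W : ℝ) * 16 ^ (n * m) ≤ η ^ 2 * 2 ^ Fintype.card I).card : ℝ) * η ^ 2) ≤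
      2 ^ Fintype.card I * (δ * 16 ^ (n * m) * Fintype.card (Sy I)) := by
    refine le_trans (le_of_eq ?_) (h3.trans (le_of_eq ?_)) <;> ring
  have h5 := le_of_mul_le_mul_left h4 hM
  rw [div_mul_eq_mul_div, le_div_iff₀ (by positivity)]
  exact h5

theorem bad_le' {δ η : ℝ} (hB : ∀ i z, B i z z = 0)
    (hb : ∀ i, ∑ s : Sy I, (2 : ℝ) ^ rr B s i ≤ 30 * Fintype.card (Sy I)) (hη : 0 < η) (m : ℕ)
    (h0 : ∑ s : Sy I, (NW2 B s sp AX AY ∅ : ℝ) ≤
      (1 + δ) * 2 ^ Fintype.card I * Fintype.card (Sy I))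
    (hW : ∀ W : Finset (Fin n), W.Nonempty →
      ∑ s : Sy I, (NW2 B s sp AX AY W : ℝ) ≤ δ * 2 ^ Fintype.card I * Fintype.card (Sy I)) 
    (hδ0 : 0 ≤ δ) :
    ((univ.filter fun s : Sy I => ¬ Good B sp AX AY m η s).card : ℝ) ≤
      (δ + n * (31 / 2 ^ m) + 2 ^ n * (δ * 16 ^ (n * m) / η ^ 2)) * Fintype.card (Sy I) := by
  have hsub : (univ.filter fun s : Sy I => ¬ Good B sp AX AY m η s) ⊆
      (univ.filter fun s : Sy I => ¬ JG2 B s sp AX AY) ∪
      (univ.biUnion fun i : Fin n => univ.filter fun s : Sy I => ¬ rr B s i ≤ m) ∪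
      ((univ.filter fun W : Finset (Fin n) => W.Nonempty).biUnion fun W =>
        univ.filter fun s : Sy I => ¬ (NW2 B s sp AX AY W : ℝ) * 16 ^ (n * m) ≤
          η ^ 2 * 2 ^ Fintype.card I) := by
    intro s hs
    have hs' := (mem_filter.1 hs).2
    by_cases a1 : JG2 B s sp AX AY
    · by_cases a2 : ∀ i, rr B s i ≤ m
      · have a3 : ∃ W : Finset (Fin n), W.Nonempty ∧ ¬ (NW2 B s sp AX AY W : ℝ) * 16 ^ (n * m) ≤
            η ^ 2 * 2 ^ Fintype.card I := by
          by_contra hc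
          push Not at hc
          exact hs' ⟨a1, a2, hc⟩
        obtain ⟨W, w1, w2⟩ := a3
        refine mem_union_right _ (mem_biUnion.2 ⟨W, mem_filter.2 ⟨mem_univ _, w1⟩, ?_⟩)
        exact mem_filter.2 ⟨mem_univ _, w2⟩
      · rw [not_forall] at a2
        obtain ⟨i, hi⟩ := a2
        refine mem_union_left _ (mem_union_right _ (mem_biUnion.2 ⟨i, mem_univ _, ?_⟩))
        exact mem_filter.2 ⟨mem_univ _, hi⟩
    · exact mem_union_left _ (mem_union_left _ (mem_filter.2 ⟨mem_univ _, a1⟩))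
  have h1 := (card_le_card hsub).trans ((card_union_le _ _).trans
    (add_le_add ((card_union_le _ _).trans (Nat.add_le_add_left card_biUnion_le _))
      card_biUnion_le))
  have h2 := (Nat.cast_le (α := ℝ)).2 h1
  push_cast at h2
  have b1 := jg_le hB h0
  have b2 : ∑ i : Fin n, ((univ.filter fun s : Sy I => ¬ rr B s i ≤ m).card : ℝ) ≤
      n * (31 / 2 ^ m) * Fintype.card (Sy I) := by
    refine (sum_le_sum fun i _ => rr_le hb m i).trans (le_of_eq ?_)
    rw [sum_const, Finset.card_univ, Fintype.card_fin, nsmul_eq_mul]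
    ring
  have b3 : ∑ W ∈ univ.filter (fun W : Finset (Fin n) => W.Nonempty),
      ((univ.filter fun s : Sy I => ¬ (NW2 B s sp AX AY W : ℝ) * 16 ^ (n * m) ≤
          η ^ 2 * 2 ^ Fintype.card I).card : ℝ) ≤
      2 ^ n * (δ * 16 ^ (n * m) / η ^ 2) * Fintype.card (Sy I) := by
    refine (sum_le_sum fun W hW' => nw_le hη m W (hW W (mem_filter.1 hW').2)).trans ?_
    rw [sum_const, nsmul_eq_mul, mul_assoc]
    refine mul_le_mul_of_nonneg_right ?_ (by positivity)
    have : (univ.filter fun W : Finset (Fin n) => W.Nonempty).card ≤ 2 ^ n := by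
      refine (card_le_univ _).trans (le_of_eq ?_)
      rw [Fintype.card_finset, Fintype.card_fin]
    exact_mod_cast this
  linarith

/-- the end of the chain -/
theorem pt_near (hHE : S_HE)
    (hb : ∀ i, ∑ s : Sy I, (2 : ℝ) ^ rr B s i ≤ 30 * Fintype.card (Sy I)) (N : ℕ) :
    |PT B sp N - (∏ i, ck (sp i)) * Fintype.card (Sy I)| ≤
      n * (31 / 2 ^ N) * Fintype.card (Sy I) := by
  have h1 : PT B sp N - (∏ i, ck (sp i)) * Fintype.card (Sy I) =
      ∑ s : Sy I, (∏ i, hk (sp i) N (rr B s i) - ∏ i : Fin n, ck (sp i)) := by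
    rw [sum_sub_distrib, sum_const, Finset.card_univ, nsmul_eq_mul, mul_comm (∏ i, ck (sp i))]
    rfl
  rw [h1]
  refine (abs_sum_le_sum_abs _ _).trans ?_
  have h2 : ∀ s : Sy I, |∏ i, hk (sp i) N (rr B s i) - ∏ i : Fin n, ck (sp i)| ≤
      ∑ i, ((2 : ℝ) ^ rr B s i + 1) / 2 ^ N := by
    intro s
    refine (prod_dist univ _ _ (fun i => hk_mem hHE _ _ _) fun i => ck_mem hHE _).trans ?_
    exact sum_le_sum fun i _ => hk_ck hHE _ _ _
  refine (sum_le_sum fun s _ => h2 s).trans ?_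
  rw [sum_comm]
  have h3 : ∀ i : Fin n, ∑ s : Sy I, ((2 : ℝ) ^ rr B s i + 1) / 2 ^ N ≤
      31 / 2 ^ N * Fintype.card (Sy I) := by
    intro i
    rw [← sum_div, sum_add_distrib, sum_const, Finset.card_univ, nsmul_eq_mul, mul_one,
      div_mul_eq_mul_div]
    refine div_le_div_of_nonneg_right ?_ (by positivity)
    have h4 := hb i
    linarith
  refine (sum_le_sum fun i _ => h3 i).trans (le_of_eq ?_)
  rw [sum_const, Finset.card_univ, Fintype.card_fin, nsmul_eq_mul]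
  ring

end

theorem small_pow (n : ℕ) (x : ℝ) (hx : 0 < x) : ∃ N : ℕ, (n : ℝ) * (31 / 2 ^ N) ≤ x := by
  obtain ⟨T, hT⟩ := exists_pow_lt_of_lt_one (show (0 : ℝ) < x / (31 * (n + 1)) by positivity)
    (show (1 / 2 : ℝ) < 1 by norm_num)
  refine ⟨T, ?_⟩
  rw [lt_div_iff₀ (by positivity)] at hT
  have h1 : (31 : ℝ) / 2 ^ T = 31 * (1 / 2) ^ T := by
    rw [one_div_pow]; ring
  rw [h1]
  have h2 : (0 : ℝ) < (1 / 2) ^ T := by positivity
  nlinarith

/-- **the chain** -/
theorem t_CH2 (h : S_ST2) (hHE : S_HE) : S_CH2 := by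
  intro n ε hε
  obtain ⟨N, hN⟩ := small_pow n (ε / 5) (by positivity)
  obtain ⟨m, hm⟩ := small_pow n (ε / (5 * (N + 1))) (by positivity)
  set η : ℝ := ε / (5 * (N + 1) * 2 ^ n) with hη
  have hη0 : 0 < η := by rw [hη]; positivity
  set δ : ℝ := min 1 (min (ε / (5 * (N + 1))) (ε * η ^ 2 / (5 * (N + 1) * 2 ^ n * 16 ^ (n * m))))
    with hδ
  have hδ0 : 0 < δ := lt_min one_pos (lt_min (by positivity) (by positivity))
  have hδ2 : δ ≤ ε / (5 * (N + 1)) := (min_le_right _ _).trans (min_le_left _ _)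
  have hδ3 : δ ≤ ε * η ^ 2 / (5 * (N + 1) * 2 ^ n * 16 ^ (n * m)) :=
    (min_le_right _ _).trans (min_le_right _ _)
  refine ⟨δ, hδ0, ?_⟩
  intro E0 _ _ _ I _ _ B sp AX AY hB hSp hE hb h0 hW
  have hcard : (0 : ℝ) < Fintype.card (Sy I) := by exact_mod_cast Fintype.card_pos
  set S : ℝ := ((Fintype.card (Sy I) : ℕ) : ℝ) with hS
  have h1 := steps_le h hHE hB hSp hE m hη0.le N
  have h2 := bad_le' hB hb hη0 m h0 hW hδ0.le
  have h3 := pt_near (sp := sp) hHE hb N
  rw [pt_zero hHE hB hE, ← hS] at h1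
  rw [← hS] at h2 h3
  set c : ℝ := ∏ i, ck (sp i) with hc
  set bad : ℝ := ((univ.filter fun s : Sy I => ¬ Good B sp AX AY m η s).card : ℝ) with hbad
  have hN1 : (0 : ℝ) < 5 * (N + 1) := by positivity
  have hNn : (0 : ℝ) ≤ N := Nat.cast_nonneg _
  have k1 : (N : ℝ) * (2 ^ n * η) ≤ ε / 5 := by
    have e : (N : ℝ) * (2 ^ n * η) = N / (N + 1) * (ε / 5) := by
      rw [hη]; field_simp
    rw [e]
    refine mul_le_of_le_one_left (by positivity) ?_
    rw [div_le_one (by positivity)]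
    linarith
  have k2 : (N : ℝ) * δ ≤ ε / 5 := by
    have : (N : ℝ) * δ ≤ N * (ε / (5 * (N + 1))) := mul_le_mul_of_nonneg_left hδ2 hNn
    refine this.trans ?_
    have e : (N : ℝ) * (ε / (5 * (N + 1))) = N / (N + 1) * (ε / 5) := by field_simp
    rw [e]
    refine mul_le_of_le_one_left (by positivity) ?_
    rw [div_le_one (by positivity)]
    linarith
  have k3 : (N : ℝ) * (n * (31 / 2 ^ m)) ≤ ε / 5 := by
    have : (N : ℝ) * (n * (31 / 2 ^ m)) ≤ N * (ε / (5 * (N + 1))) :=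
      mul_le_mul_of_nonneg_left hm hNn
    refine this.trans ?_
    have e : (N : ℝ) * (ε / (5 * (N + 1))) = N / (N + 1) * (ε / 5) := by field_simp
    rw [e]
    refine mul_le_of_le_one_left (by positivity) ?_
    rw [div_le_one (by positivity)]
    linarith
  have k4 : (N : ℝ) * (2 ^ n * (δ * 16 ^ (n * m) / η ^ 2)) ≤ ε / 5 := by
    have g1 : (2 : ℝ) ^ n * (δ * 16 ^ (n * m) / η ^ 2) ≤ ε / (5 * (N + 1)) := by
      have g2 : (2 : ℝ) ^ n * (δ * 16 ^ (n * m) / η ^ 2) =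
          δ * (2 ^ n * 16 ^ (n * m) / η ^ 2) := by ring
      rw [g2]
      have g3 : δ * (2 ^ n * 16 ^ (n * m) / η ^ 2) ≤
          ε * η ^ 2 / (5 * (N + 1) * 2 ^ n * 16 ^ (n * m)) * (2 ^ n * 16 ^ (n * m) / η ^ 2) :=
        mul_le_mul_of_nonneg_right hδ3 (by positivity)
      refine g3.trans (le_of_eq ?_)
      have p1 : (16 : ℝ) ^ (n * m) ≠ 0 := by positivity
      have p2 : (2 : ℝ) ^ n ≠ 0 := by positivity
      have p3 : η ≠ 0 := hη0.ne'
      field_simp
    refine (mul_le_mul_of_nonneg_left g1 hNn).trans ?_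
    have e : (N : ℝ) * (ε / (5 * (N + 1))) = N / (N + 1) * (ε / 5) := by field_simp
    rw [e]
    refine mul_le_of_le_one_left (by positivity) ?_
    rw [div_le_one (by positivity)]
    linarith
  have h4 : |((univ.filter fun s : Sy I => ∀ i, Nde (B i) s).card : ℝ) - c * S| ≤ ε * S := by
    have e : ((univ.filter fun s : Sy I => ∀ i, Nde (B i) s).card : ℝ) - c * S =
        (((univ.filter fun s : Sy I => ∀ i, Nde (B i) s).card : ℝ) - PT B sp N) +
          (PT B sp N - c * S) := by ring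
    rw [e]
    refine (abs_add_le _ _).trans ((add_le_add h1 h3).trans ?_)
    have g1 : (N : ℝ) * (2 ^ n * η * S + bad) ≤
        N * (2 ^ n * η * S + (δ + n * (31 / 2 ^ m) + 2 ^ n * (δ * 16 ^ (n * m) / η ^ 2)) * S) :=
      mul_le_mul_of_nonneg_left (by linarith) hNn
    have g2 : (N : ℝ) * (2 ^ n * η * S + (δ + n * (31 / 2 ^ m) +
        2 ^ n * (δ * 16 ^ (n * m) / η ^ 2)) * S) =
        (N * (2 ^ n * η) + N * δ + N * (n * (31 / 2 ^ m)) +
          N * (2 ^ n * (δ * 16 ^ (n * m) / η ^ 2))) * S := by ring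
    have g3 : (N * (2 ^ n * η) + N * δ + N * (n * (31 / 2 ^ m)) +
          N * (2 ^ n * (δ * 16 ^ (n * m) / η ^ 2))) * S ≤ (4 * (ε / 5)) * S :=
      mul_le_mul_of_nonneg_right (by linarith) hcard.le
    have g4 : (n : ℝ) * (31 / 2 ^ N) * S ≤ ε / 5 * S := mul_le_mul_of_nonneg_right hN hcard.le
    rw [g2] at g1
    calc _ ≤ (4 * (ε / 5)) * S + ε / 5 * S := add_le_add (g1.trans g3) g4
      _ = ε * S := by ring
  have h5 : ((univ.filter fun s : Sy I => ∀ i, Nde (B i) s).card : ℝ) / S - c =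
      (((univ.filter fun s : Sy I => ∀ i, Nde (B i) s).card : ℝ) - c * S) / S := by
    field_simp
  rw [h5, abs_div, abs_of_pos hcard, div_le_iff₀ hcard]
  exact h4

end Pool.Agent.H167.JX
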