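import Pool.Agent.H743.JL.StmC
import Pool.Agent.H743.X17.SYSB

/-!
# JL-CP: the data for two systems of large primes with the same labels
-/

set_option autoImplicit false
set_option linter.all false

open scoped Classical

namespace Pool.Agent.H980.JL.CP

open Finset
open Pool.Agent.H743.JL Pool.Agent.N916.MO
open Pool.Agent.N916.GB (pt ps sx Po)
open Pool.Agent.Y703.CQ (nr)
open Pool.Agent.H743.X17 (Sys Rt RS LL lS al nu pd lam)
open Pool.Agent.H743.X17.QSYSB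

/-! ### symbols -/

theorem nr_eq {p : ℕ} (hp : p.Prime) {n : ℕ} (h : ¬ (p : ℤ) ∣ (n : ℤ)) : nr p n = aj p n := by
  haveI := Fact.mk hp
  unfold nr aj
  rw [← jacobiSym.legendreSym.to_jacobiSym]
  have hn : ((n : ℤ) : ZMod p) ≠ 0 := by
    intro h0
    exact h ((ZMod.intCast_zmod_eq_zero_iff_dvd _ _).1 h0)
  have := legendreSym.eq_one_iff p hn
  rw [Int.cast_natCast] at this
  by_cases hs : IsSquare ((n : ℕ) : ZMod p)
  · rw [if_pos hs, if_pos (this.2 hs)]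
  · rw [if_neg hs, if_neg fun h1 => hs (this.1 h1)]

theorem pd_congr {m m' : ℤ} (h : m' % 8 = m % 8) (q : ℕ) : pd m' q = pd m q := by
  have h4 : m' % 4 = m % 4 := by omega
  unfold pd
  rw [h, h4]

theorem vq_congr {m m' : ℤ} (h : m' % 8 = m % 8) (q : ℕ) : vq m' q = vq m q := by
  have h4 : m' % 4 = m % 4 := by omega
  unfold vq
  rw [h, h4]

theorem lS_congr {m m' : ℤ} (h : m' % 8 = m % 8) (q p : ℕ) : lS m' q p = lS m q p := by
  unfold lS
  rw [pd_congr h]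

theorem al_congr {m m' : ℤ} (h : m' % 8 = m % 8) (q : ℕ) : al m' q = al m q := by
  unfold al
  rw [pd_congr h]

theorem f4_congr {a b : ℕ} (h : a % 8 = b % 8) : f4 (a : ℤ) = f4 (b : ℤ) := by
  have : (a : ℤ) % 4 = (b : ℤ) % 4 := by omega
  unfold f4
  rw [this]

theorem f8_congr {a b : ℕ} (h : a % 8 = b % 8) : f8 (a : ℤ) = f8 (b : ℤ) := by
  have : (a : ℤ) % 8 = (b : ℤ) % 8 := by omega
  unfold f8
  rw [this]

/-- the symbol of a small prime at two large primes with the same labels -/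
theorem aj_small {P Q u : ℕ} (hP : P.Prime) (hP2 : P ≠ 2) (hQ : Q.Prime) (hQ2 : Q ≠ 2)
    (h8 : Q % 8 = P % 8) (hu : u.Prime) (hPu : P ≠ u) (hQu : Q ≠ u)
    (hn : u ≠ 2 → nr Q u = nr P u) : aj Q u = aj P u := by
  by_cases h2 : u = 2
  · subst h2
    have e1 := aj_two hQ hQ2
    have e2 := aj_two hP hP2
    push_cast
    rw [e1, e2, f8_congr h8]
  · rw [← nr_eq hQ (nd_prime hQ hu hQu), ← nr_eq hP (nd_prime hP hu hPu), hn h2]

theorem aj_vq {P Q u : ℕ} (hP : P.Prime) (hP2 : P ≠ 2) (hQ : Q.Prime) (hQ2 : Q ≠ 2)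
    (h8 : Q % 8 = P % 8) (hu : u.Prime) (hPu : P ≠ u) (hQu : Q ≠ u)
    (hn : u ≠ 2 → nr Q u = nr P u) (m : ℤ) : aj Q (vq m u) = aj P (vq m u) := by
  have hm1 : aj Q (-1) = aj P (-1) := by
    rw [aj_neg_one hQ hQ2, aj_neg_one hP hP2, f4_congr h8]
  have hu' := aj_small hP hP2 hQ hQ2 h8 hu hPu hQu hn
  by_cases h2 : u = 2
  · subst h2
    have h2' : aj Q 2 = aj P 2 := by
      have := hu'
      push_cast at this
      exact this
    have d1 : ¬ (Q : ℤ) ∣ 2 := by exact_mod_cast nd_prime hQ Nat.prime_two hQ2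
    have d2 : ¬ (P : ℤ) ∣ 2 := by exact_mod_cast nd_prime hP Nat.prime_two hP2
    unfold vq
    rw [if_pos rfl]
    split_ifs
    · exact hm1
    · exact h2'
    · rw [show (-2 : ℤ) = -1 * 2 by norm_num, aj_mul hQ (nd_neg (nd_one hQ)) d1,
        aj_mul hP (nd_neg (nd_one hP)) d2, hm1, h2']
  · rw [vq_odd h2, aj_mul hQ (nd_ep hQ u) (nd_prime hQ hu hQu),
      aj_mul hP (nd_ep hP u) (nd_prime hP hu hPu), hu']
    have hu1 : u % 2 = 1 := Nat.odd_iff.1 (odd_of_prime hu h2)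
    rw [aj_ep hQ hQ2 hu1, aj_ep hP hP2 hu1, f4_congr h8]

/-! ### the matrix -/

theorem Lm_congr {V : Type} [Fintype V] [DecidableEq V] {N N' : V → V → ZMod 2}
    (h : ∀ i j, i ≠ j → N i j = N' i j) : Lm N = Lm N' := by
  funext i j
  unfold Lm
  by_cases hij : i = j
  · rw [if_pos hij, if_pos hij]
    refine sum_congr rfl fun k _ => ?_
    by_cases hk : k = i
    · rw [if_pos hk, if_pos hk]
    · rw [if_neg hk, if_neg hk, h i k (Ne.symm hk)]
  · rw [if_neg hij, if_neg hij, h i j hij]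

theorem LA_eq (m : ℤ) {V : Type} [Fintype V] [DecidableEq V] (π : V → ℕ)
    (hinj : Function.Injective π) (hran : ∀ x, x ∈ RS m ↔ ∃ v, π v = x) :
    LA m π = Lm (fun v v' => lS m (π v') (π v)) := by
  have hRS : RS m = univ.image π := by
    ext x
    rw [hran, mem_image]
    constructor
    · rintro ⟨v, hv⟩
      exact ⟨v, mem_univ _, hv⟩
    · rintro ⟨v, -, hv⟩
      exact ⟨v, hv⟩
  funext v v'
  unfold LA Lm
  by_cases h : v = v'
  · subst h
    rw [if_pos rfl, LL_diag, hRS, ← image_erase hinj, sum_image (fun a _ b _ hab => hinj hab)]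
    rw [← sum_erase_add univ _ (mem_univ v), if_pos rfl, add_zero]
    refine sum_congr rfl fun k hk => ?_
    rw [if_neg (mem_erase.1 hk).1]
  · rw [if_neg h, LL_off fun h' => h (hinj h')]

/-! ### the integers -/

theorem prod_mod8 {ι : Type} [Fintype ι] (p q : ι → ℕ) (h : ∀ k, q k % 8 = p k % 8) (t₀ : ℤ) :
    (t₀ * ∏ k, (q k : ℤ)) % 8 = (t₀ * ∏ k, (p k : ℤ)) % 8 := by
  have : ((t₀ * ∏ k, (q k : ℤ) : ℤ) : ZMod 8) = ((t₀ * ∏ k, (p k : ℤ) : ℤ) : ZMod 8) := by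
    push_cast
    congr 1
    refine prod_congr rfl fun k _ => ?_
    exact (ZMod.natCast_eq_natCast_iff' _ _ _).2 (h k)
  exact (ZMod.intCast_eq_intCast_iff' _ _ 8).1 this

theorem sqf_prod {ι : Type} [Fintype ι] (t₀ : ℤ) (q : ι → ℕ) (ht : Squarefree t₀) (hq : Lg t₀ q) :
    Squarefree (t₀ * ∏ k, (q k : ℤ)) := by
  have hpr : ∀ k, Prime (q k : ℤ) := fun k => Nat.prime_iff_prime_int.1 (hq.1 k).1
  rw [squarefree_mul_iff]
  refine ⟨?_, ht, ?_⟩
  · refine IsRelPrime.prod_right fun k _ => ?_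
    exact (((hpr k).irreducible.isRelPrime_iff_not_dvd).2 (hq.1 k).2.2.2).symm
  · refine Finset.squarefree_prod_of_pairwise_isCoprime (fun k _ l _ hkl => ?_)
      fun k _ => (hpr k).irreducible.squarefree
    refine ((hpr k).irreducible.isRelPrime_iff_not_dvd).2 fun hd => ?_
    exact hkl (hq.2 ((Nat.prime_dvd_prime_iff_eq (hq.1 k).1 (hq.1 l).1).1
      (Int.natCast_dvd_natCast.1 hd)))

theorem mem_UF {m t₀ : ℤ} {u : ℕ} : u ∈ UF m t₀ ↔ u ∈ RS m ∧ (u = 2 ∨ (u : ℤ) ∣ t₀) := by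
  unfold UF
  rw [mem_filter]

theorem piU_inj {ι : Type} [Fintype ι] (m t₀ : ℤ) (q : ι → ℕ) (hq : Lg t₀ q) :
    Function.Injective (piU m t₀ q) := by
  intro v v' h
  have key : ∀ (u : UF m t₀) (k : ι), (u : ℕ) ≠ q k := by
    intro u k hu
    rcases (mem_UF.1 u.2).2 with h2 | h2
    · exact (hq.1 k).2.1 (hu ▸ h2)
    · exact (hq.1 k).2.2.2 (hu ▸ h2)
  rcases v with u | k <;> rcases v' with u' | k'
  · exact congrArg Sum.inl (Subtype.ext h)
  · exact absurd h (key u k')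
  · exact absurd h.symm (key u' k)
  · exact congrArg Sum.inr (hq.2 h)

theorem piU_range {ι : Type} [Fintype ι] (t₀ : ℤ) (p q : ι → ℕ) (ht : Squarefree t₀)
    (hp : Lg t₀ p) (hq : Lg t₀ q) (h8 : ∀ k, q k % 8 = p k % 8) (x : ℕ) :
    x ∈ RS (t₀ * ∏ k, (q k : ℤ)) ↔ ∃ v, piU (t₀ * ∏ k, (p k : ℤ)) t₀ q v = x := by
  have hm' := sqf_prod t₀ q ht hq
  have hm := sqf_prod t₀ p ht hp
  have h8' := prod_mod8 p q h8 t₀
  rw [mem_RS hm']
  constructor
  · rintro ⟨hx, h⟩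
    rcases h with h | ⟨h2, h4⟩
    · have hx' : Prime (x : ℤ) := Nat.prime_iff_prime_int.1 hx
      rcases hx'.dvd_or_dvd h with h | h
      · exact ⟨Sum.inl ⟨x, mem_UF.2 ⟨(mem_RS hm).2 ⟨hx, Or.inl (Dvd.dvd.mul_right h _)⟩,
          Or.inr h⟩⟩, rfl⟩
      · obtain ⟨k, -, hk⟩ := (hx'.dvd_finset_prod_iff _).1 h
        exact ⟨Sum.inr k, ((Nat.prime_dvd_prime_iff_eq hx (hq.1 k).1).1
          (Int.natCast_dvd_natCast.1 hk)).symm⟩
    · refine ⟨Sum.inl ⟨x, mem_UF.2 ⟨?_, Or.inl h2⟩⟩, rfl⟩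
      rw [h2, two_mem_RS hm]
      omega
  · rintro ⟨v, rfl⟩
    rcases v with u | k
    · have hu := mem_UF.1 u.2
      have hup := ((mem_RS hm).1 hu.1).1
      refine ⟨hup, ?_⟩
      rcases hu.2 with h2 | h2
      · right
        refine ⟨h2, ?_⟩
        have : 2 ∈ RS (t₀ * ∏ k, (p k : ℤ)) := by rw [← h2]; exact hu.1
        rw [two_mem_RS hm] at this
        omega
      · left
        exact Dvd.dvd.mul_right h2 _
    · exact ⟨(hq.1 k).1, Or.inl (Dvd.dvd.mul_left (dvd_prod_of_mem _ (mem_univ k)) _)⟩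

theorem t_CP : S_CP := by
  intro ι _ _ t₀ p q ht hp hq hlab
  have h8 : ∀ k, q k % 8 = p k % 8 := fun k => (hlab k).1
  have hm' := sqf_prod t₀ q ht hq
  have hm := sqf_prod t₀ p ht hp
  have hmm := prod_mod8 p q h8 t₀
  have hinj := piU_inj (t₀ * ∏ k, (p k : ℤ)) t₀ q hq
  have hinjp := piU_inj (t₀ * ∏ k, (p k : ℤ)) t₀ p hp
  have hran := piU_range t₀ p q ht hp hq h8
  have hranp := piU_range t₀ p p ht hp hp (fun _ => rfl)
  -- the small primes
  have hU : ∀ u : UF (t₀ * ∏ k, (p k : ℤ)) t₀, (u : ℕ).Prime ∧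
      ((u : ℕ) ≠ 2 → ((u : ℕ) : ℤ) ∣ t₀) := by
    intro u
    have hu := mem_UF.1 u.2
    refine ⟨((mem_RS hm).1 hu.1).1, fun h2 => ?_⟩
    rcases hu.2 with h | h
    · exact absurd h h2
    · exact h
  have hne : ∀ (r : ι → ℕ), Lg t₀ r → ∀ (u : UF (t₀ * ∏ k, (p k : ℤ)) t₀) (k : ι),
      r k ≠ (u : ℕ) := by
    intro r hr u k h
    rcases (mem_UF.1 u.2).2 with h2 | h2
    · exact (hr.1 k).2.1 (h.trans h2)
    · exact (hr.1 k).2.2.2 (h ▸ h2)
  have hlabu : ∀ (u : UF (t₀ * ∏ k, (p k : ℤ)) t₀) (k : ι), (u : ℕ) ≠ 2 →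
      nr (q k) u = nr (p k) u := fun u k h2 => (hlab k).2.2 u (hU u).1 h2 ((hU u).2 h2)
  refine ⟨hm', hran, hinj, ?_, ?_, ?_, ?_, ?_⟩
  · funext v
    rcases v with u | k
    · rfl
    · show (if q k = 17 then (1 : ZMod 2) else 0) = if p k = 17 then 1 else 0
      rw [if_neg (hq.1 k).2.2.1, if_neg (hp.1 k).2.2.1]
  · funext v
    rcases v with u | k
    · rfl
    · show nu (q k) = nu (p k)
      rw [nu_odd (hq.1 k).2.1, nu_odd (hp.1 k).2.1]
      have e1 := nr_eq (hq.1 k).1 (nd_prime (hq.1 k).1 Pool.Agent.H743.X17.QSYSB.p17 (hq.1 k).2.2.1)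
      have e2 := nr_eq (hp.1 k).1 (nd_prime (hp.1 k).1 Pool.Agent.H743.X17.QSYSB.p17 (hp.1 k).2.2.1)
      push_cast at e1 e2
      rw [← e1, ← e2]
      exact (hlab k).2.1
  · funext v
    rcases v with u | k
    · show wt (t₀ * ∏ k, (q k : ℤ)) u = wt (t₀ * ∏ k, (p k : ℤ)) u
      have h4 : (t₀ * ∏ k, (q k : ℤ)) % 4 = (t₀ * ∏ k, (p k : ℤ)) % 4 := by omega
      unfold wt
      rw [h4]
    · show wt (t₀ * ∏ k, (q k : ℤ)) (q k) = wt (t₀ * ∏ k, (p k : ℤ)) (p k)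
      unfold wt
      rw [if_neg fun h => (hq.1 k).2.1 h.1, if_neg fun h => (hp.1 k).2.1 h.1]
  · funext v
    rcases v with u | k
    · exact al_congr hmm u
    · show al (t₀ * ∏ k, (q k : ℤ)) (q k) = al (t₀ * ∏ k, (p k : ℤ)) (p k)
      rw [al_odd (hq.1 k).1 (hq.1 k).2.1, al_odd (hp.1 k).1 (hp.1 k).2.1, f4_congr (h8 k)]
  · rw [LA_eq _ _ hinj hran, LA_eq _ _ hinjp hranp, ← Lm_pt]
    refine Lm_congr fun i j hij => ?_
    rcases i with u | k <;> rcases j with u' | l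
    · exact lS_congr hmm _ _
    · show lS (t₀ * ∏ k, (q k : ℤ)) (q l) u = lS (t₀ * ∏ k, (p k : ℤ)) (p l) u
      rw [lS_rec (hq.1 l).1 (hq.1 l).2.1 (hU u).1 (hne q hq u l),
        lS_rec (hp.1 l).1 (hp.1 l).2.1 (hU u).1 (hne p hp u l)]
      exact aj_small (hp.1 l).1 (hp.1 l).2.1 (hq.1 l).1 (hq.1 l).2.1 (h8 l) (hU u).1
        (hne p hp u l) (hne q hq u l) (hlabu u l)
    · show lS (t₀ * ∏ k, (q k : ℤ)) u' (q k) = lS (t₀ * ∏ k, (p k : ℤ)) u' (p k)
      rw [lS_odd (hq.1 k).1 (hq.1 k).2.1 (hU u').1 (hne q hq u' k),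
        lS_odd (hp.1 k).1 (hp.1 k).2.1 (hU u').1 (hne p hp u' k), vq_congr hmm]
      exact aj_vq (hp.1 k).1 (hp.1 k).2.1 (hq.1 k).1 (hq.1 k).2.1 (h8 k) (hU u').1
        (hne p hp u' k) (hne q hq u' k) (hlabu u' k) _
    · have hkl : k ≠ l := fun h => hij (congrArg Sum.inr h)
      show lS (t₀ * ∏ k, (q k : ℤ)) (q l) (q k) = lS (t₀ * ∏ k, (p k : ℤ)) (p l) (p k) +
        sx (fun e : ps ι => nr (q e.1.1) (q e.1.2) + nr (p e.1.1) (p e.1.2)) k l
      have hqkl : q k ≠ q l := fun h => hkl (hq.2 h)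
      have hpkl : p k ≠ p l := fun h => hkl (hp.2 h)
      rw [lS_rec (hq.1 l).1 (hq.1 l).2.1 (hq.1 k).1 (Ne.symm hqkl),
        lS_rec (hp.1 l).1 (hp.1 l).2.1 (hp.1 k).1 (Ne.symm hpkl)]
      rcases lt_or_gt_of_ne hkl with hlt | hlt
      · -- k < l
        have hmem : (k, l) ∈ ps ι := by
          unfold ps
          rw [mem_filter]
          exact ⟨mem_univ _, hlt⟩
        have hsx : sx (fun e : ps ι => nr (q e.1.1) (q e.1.2) + nr (p e.1.1) (p e.1.2)) k l =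
            nr (q k) (q l) + nr (p k) (p l) := by
          unfold sx
          rw [dif_pos hmem]
        rw [hsx, nr_eq (hq.1 k).1 (nd_prime (hq.1 k).1 (hq.1 l).1 hqkl),
          nr_eq (hp.1 k).1 (nd_prime (hp.1 k).1 (hp.1 l).1 hpkl),
          ← aj_rec (hq.1 k).1 (hq.1 l).1 (hq.1 k).2.1 (hq.1 l).2.1 hqkl,
          ← aj_rec (hp.1 k).1 (hp.1 l).1 (hp.1 k).2.1 (hp.1 l).2.1 hpkl,
          aj_mul (hq.1 k).1 (nd_ep (hq.1 k).1 _) (nd_prime (hq.1 k).1 (hq.1 l).1 hqkl),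
          aj_mul (hp.1 k).1 (nd_ep (hp.1 k).1 _) (nd_prime (hp.1 k).1 (hp.1 l).1 hpkl),
          aj_ep (hq.1 k).1 (hq.1 k).2.1 (Nat.odd_iff.1 (odd_of_prime (hq.1 l).1 (hq.1 l).2.1)),
          aj_ep (hp.1 k).1 (hp.1 k).2.1 (Nat.odd_iff.1 (odd_of_prime (hp.1 l).1 (hp.1 l).2.1)),
          f4_congr (h8 k), f4_congr (h8 l)]
        have := z2_add_self (aj (p k) (p l))
        linear_combination -this
      · -- l < k
        have hmem : (l, k) ∈ ps ι := by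
          unfold ps
          rw [mem_filter]
          exact ⟨mem_univ _, hlt⟩
        have hmem2 : (k, l) ∉ ps ι := by
          unfold ps
          rw [mem_filter]
          exact fun h => lt_asymm h.2 hlt
        have hsx : sx (fun e : ps ι => nr (q e.1.1) (q e.1.2) + nr (p e.1.1) (p e.1.2)) k l =
            nr (q l) (q k) + nr (p l) (p k) := by
          unfold sx
          rw [dif_neg hmem2, dif_pos hmem]
        rw [hsx, nr_eq (hq.1 l).1 (nd_prime (hq.1 l).1 (hq.1 k).1 (Ne.symm hqkl)),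
          nr_eq (hp.1 l).1 (nd_prime (hp.1 l).1 (hp.1 k).1 (Ne.symm hpkl))]
        have := z2_add_self (aj (p l) (p k))
        linear_combination -this

end Pool.Agent.H980.JL.CP
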