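import Pool.Agent.H743.JL.StmC

/-!
# JL (helper743): the relations are stable
-/

set_option autoImplicit false
set_option linter.all false

open scoped Classical

namespace Pool.Agent.H199.JL

open Finset Module
open Pool.Agent.N916.MO
open Pool.Agent.N916.GB (pt ps sx Po)
open Pool.Agent.H743.JL

theorem two_zero (x : ZMod 2) : x + x = 0 := by
  have : ∀ y : ZMod 2, y + y = 0 := by decide
  exact this x

theorem t_DP : S_DP := by
  intro U J _ _ _ _ r w ν α L a σ hw h
  have hD1 : ∀ k, ∑ l, Lm (sx σ) k l = 0 := fun k => Lm_row (sx σ) k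
  have hD2 : ∀ k l, Lm (sx σ) k l = Lm (sx σ) l k := fun k l => Lsx_symm σ k l
  have e1 : ∀ u j, pt L (Lm (sx σ)) (Sum.inl u) j = L (Sum.inl u) j := by
    rintro u (v | l) <;> rfl
  have e2 : ∀ u j, pt L (Lm (sx σ)) j (Sum.inl u) = L j (Sum.inl u) := by
    rintro u (v | l) <;> rfl
  have e3 : ∀ k l, pt L (Lm (sx σ)) (Sum.inr k) (Sum.inr l) =
      L (Sum.inr k) (Sum.inr l) + Lm (sx σ) k l := fun k l => rfl
  refine ⟨?_, ?_, h.sa, h.nw, h.r0, ?_⟩
  · rintro (u | k)
    · rw [Finset.sum_congr rfl fun j _ => e1 u j]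
      exact h.row _
    · rw [Fintype.sum_sum_type]
      rw [Finset.sum_congr rfl fun j (_ : j ∈ univ) => e2 j (Sum.inr k),
        Finset.sum_congr rfl fun l (_ : l ∈ univ) => e3 k l, Finset.sum_add_distrib, hD1, add_zero,
        ← Fintype.sum_sum_type (fun j => L (Sum.inr k) j)]
      exact h.row _
  · rintro (u | k) (v | l) hij
    · exact h.rc _ _ hij
    · exact h.rc _ _ hij
    · exact h.rc _ _ hij
    · rw [e3, e3, ← h.rc _ _ hij, (hw k).1, (hw l).1, hD2 l k, one_mul, one_mul, one_mul, one_mul]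
      have := two_zero (Lm (sx σ) k l)
      calc _ = L (Sum.inr k) (Sum.inr l) + L (Sum.inr l) (Sum.inr k) +
            (Lm (sx σ) k l + Lm (sx σ) k l) := by ring
        _ = _ := by rw [this, add_zero]
  · rintro (v | k) hi
    · obtain ⟨h1, h2, h3, h4⟩ := h.r1 _ hi
      refine ⟨h1, h2, h3, fun j hj => ?_⟩
      rw [e2]
      exact h4 j hj
    · rw [(hw k).2] at hi
      exact absurd hi (by decide)

end Pool.Agent.H199.JL
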