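import Pool.Agent.H743.JL.StmY
import Pool.Agent.H743.JL.PT
import Pool.Agent.H743.JL.FI

/-!
# JX-FI2: the joint law (helper225 for helper743)
-/

set_option autoImplicit false
set_option linter.all false

open scoped Classical

namespace Pool.Agent.H225.JX

open Finset Filter Topology
open Pool.Agent.Y703.CQ (c2)
open Pool.Agent.N916.GB (eta)
open Pool.Agent.H743.X17 (Sys Rt)
open Pool.Agent.N855.GF.Lc17 (Lc Loc lc_Loc lc_and low_P close_NS)
open Pool.Agent.N919.BS (NN NS HG ratio)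
open Pool.Agent.H743.JL
open Pool.Agent.H307.JLPT (HG_congr HG_sub)
open Pool.Agent.H181.JL (Loc_self NS_congr)

/-- the kind of an index -/
def kd (x : ℤ ⊕ ℤ) : Prop := x.isRight = true

/-- the twist of an index -/
def tv (x : ℤ ⊕ ℤ) : ℤ := Sum.elim id id x

theorem tv_inj {x y : ℤ ⊕ ℤ} (h : tv x = tv y) (hk : kd x ↔ kd y) : x = y := by
  unfold tv at h
  unfold kd at hk
  rcases x with x | x <;> rcases y with y | y <;> simp_all

theorem Kd_inl (t m : ℤ) : Kd (kd (Sum.inl t)) m ↔ Sys m := by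
  unfold Kd kd
  simp

theorem Kd_inr (t m : ℤ) : Kd (kd (Sum.inr t)) m ↔ H4 m := by
  unfold Kd kd
  simp

theorem Ro_inl (t m : ℤ) : Ro (kd (Sum.inl t)) m ↔ Rt m := by
  unfold Ro kd
  simp

theorem Ro_inr (t m : ℤ) : Ro (kd (Sum.inr t)) m ↔ m < 0 := by
  unfold Ro kd
  simp

theorem ck_inl (t : ℤ) : ck (kd (Sum.inl t)) = c2 := by
  unfold ck kd
  simp

theorem ck_inr (t : ℤ) : ck (kd (Sum.inr t)) = eta := by
  unfold ck kd
  simp

/-- a pattern -/
def Pt2 (A B : Finset (ℤ ⊕ ℤ)) (d : ℤ) : Prop :=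
  (∀ x ∈ A, Kd (kd x) (tw (tv x) d)) ∧ ∀ x ∈ B, ¬ Kd (kd x) (tw (tv x) d)

theorem base2 (h : S_HJ2) (A : Finset (ℤ ⊕ ℤ)) (m : ℕ) (Q : ℤ → Prop) (hm : 136 ∣ m)
    (hm0 : 0 < m) (hA : ∀ x ∈ A, Squarefree (tv x) ∧ tv x ∣ m) (hQ : Lc m Q)
    (hR : ∀ d, Squarefree d → Q d → ∀ x ∈ A, Ro (kd x) (tw (tv x) d)) :
    HG Q (Pt2 A ∅) (∏ x ∈ A, ck (kd x)) := by
  have h1 := h A.card (fun i => kd (A.equivFin.symm i : ℤ ⊕ ℤ))
    (fun i => tv (A.equivFin.symm i : ℤ ⊕ ℤ)) m Q hm hm0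
    (fun i => hA _ (A.equivFin.symm i).2)
    (fun i j hij hk => A.equivFin.symm.injective (Subtype.ext (tv_inj hij hk))) hQ
    (fun d hd hQd i => hR d hd hQd _ (A.equivFin.symm i).2)
  refine HG_congr h1 (fun d _ => ?_) ?_
  · constructor
    · intro h2
      refine ⟨fun t ht => ?_, fun t ht => absurd ht (Finset.notMem_empty t)⟩
      have h3 := h2 (A.equivFin ⟨t, ht⟩)
      simpa using h3
    · intro h2 i
      exact h2.1 _ (A.equivFin.symm i).2
  · rw [← Finset.prod_coe_sort A]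
    exact Fintype.prod_equiv A.equivFin.symm _ _ fun i => rfl

theorem key2 (h : S_HJ2) (T : Finset (ℤ ⊕ ℤ)) (m : ℕ) (Q : ℤ → Prop) (hm : 136 ∣ m)
    (hm0 : 0 < m) (hT : ∀ x ∈ T, Squarefree (tv x) ∧ tv x ∣ m) (hQ : Lc m Q)
    (hR : ∀ d, Squarefree d → Q d → ∀ x ∈ T, Ro (kd x) (tw (tv x) d)) :
    ∀ B : Finset (ℤ ⊕ ℤ), B ⊆ T → ∀ A : Finset (ℤ ⊕ ℤ), A ⊆ T → Disjoint A B →
      HG Q (Pt2 A B) ((∏ x ∈ A, ck (kd x)) * ∏ x ∈ B, (1 - ck (kd x))) := by
  intro B
  induction B using Finset.induction_on with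
  | empty =>
    intro _ A hA _
    refine HG_congr (base2 h A m Q hm hm0 (fun t ht => hT t (hA ht)) hQ
      (fun d hd hQd t ht => hR d hd hQd t (hA ht))) (fun d _ => Iff.rfl) ?_
    simp
  | insert b B hb ih =>
    intro hB A hA hAB
    have hbT : b ∈ T := hB (Finset.mem_insert_self _ _)
    have hBT : B ⊆ T := fun x hx => hB (Finset.mem_insert_of_mem hx)
    have hbA : b ∉ A := fun hx => Finset.disjoint_left.1 hAB hx (Finset.mem_insert_self _ _)
    have hd1 : Disjoint A B := Finset.disjoint_left.2 fun x hx hx' =>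
      Finset.disjoint_left.1 hAB hx (Finset.mem_insert_of_mem hx')
    have hd2 : Disjoint (insert b A) B := by
      rw [Finset.disjoint_left]
      intro x hx hx'
      rcases Finset.mem_insert.1 hx with rfl | hx
      · exact hb hx'
      · exact Finset.disjoint_left.1 hd1 hx hx'
    have i1 := ih hBT A hA hd1
    have i2 := ih hBT (insert b A) (Finset.insert_subset hbT hA) hd2
    refine HG_congr (HG_sub (G := Pt2 A (insert b B)) i1 i2 (fun d _ => ?_) (fun d _ => ?_))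
      (fun d _ => Iff.rfl) ?_
    · unfold Pt2
      constructor
      · rintro ⟨a1, a2⟩
        exact ⟨⟨a1, fun t ht => a2 t (Finset.mem_insert_of_mem ht)⟩, fun ⟨a3, _⟩ =>
          a2 b (Finset.mem_insert_self _ _) (a3 b (Finset.mem_insert_self _ _))⟩
      · rintro ⟨⟨a1, a2⟩, a3⟩
        refine ⟨a1, fun t ht => ?_⟩
        rcases Finset.mem_insert.1 ht with rfl | ht
        · intro h4
          refine a3 ⟨fun t' ht' => ?_, a2⟩
          rcases Finset.mem_insert.1 ht' with rfl | ht'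
          · exact h4
          · exact a1 t' ht'
        · exact a2 t ht
    · rintro ⟨a1, a2⟩
      exact ⟨fun t ht => a1 t (Finset.mem_insert_of_mem ht), a2⟩
    · rw [Finset.prod_insert hbA, Finset.prod_insert hb]
      ring

theorem tw_lt {t d : ℤ} (ht : t ≠ 0) : tw t d < 0 ↔ t * d < 0 := by
  have hg : 0 < ((Int.gcd t d : ℤ)) ^ 2 := by
    have : 0 < Int.gcd t d := Int.gcd_pos_of_ne_zero_left _ ht
    positivity
  unfold tw
  constructor
  · intro h
    by_contra hc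
    exact absurd (Int.ediv_nonneg (not_lt.1 hc) hg.le) (not_le.2 h)
  · intro h
    exact Int.ediv_neg_of_neg_of_pos h hg

theorem lc_sign {t : ℤ} (ht : t ≠ 0) (m : ℕ) : Lc m (fun d => tw t d < 0) := by
  intro s k M N hs hk hM hN h1 h2 h3
  have hM0 : 0 < M := Nat.pos_of_ne_zero hM.ne_zero
  have hN0 : 0 < N := Nat.pos_of_ne_zero hN.ne_zero
  have hk0 : 0 < k := by omega
  have e : ∀ x : ℕ, 0 < x → (tw t (s * ((k * x : ℕ) : ℤ)) < 0 ↔ t * s < 0) := by
    intro x hx
    rw [tw_lt ht, ← mul_assoc]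
    have h4 : (0 : ℤ) < ((k * x : ℕ) : ℤ) := by exact_mod_cast Nat.mul_pos hk0 hx
    constructor
    · intro h5
      by_contra h6
      exact absurd (mul_nonneg (not_lt.1 h6) h4.le) (not_le.2 h5)
    · intro h5
      exact mul_neg_of_neg_of_pos h5 h4
  show (tw t (s * ((k * M : ℕ) : ℤ)) < 0) ↔ (tw t (s * ((k * N : ℕ) : ℤ)) < 0)
  rw [e M hM0, e N hN0]

theorem t_FI2 (h : S_HJ2) (h1 : S_LR) (hp : Pool.Agent.H743.X17.S_PARITY) (h2 : S_TT) :
    S_FI2 := by
  intro T T' inf S d₀ hT hT' hS hd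
  obtain ⟨m₀, h136, hm₀, hL⟩ := lc_Loc inf S hS d₀
  obtain ⟨m, hm⟩ : ∃ m : ℕ, m = m₀ * ((∏ t ∈ T, t.natAbs) * ∏ t ∈ T', t.natAbs) := ⟨_, rfl⟩
  have hmpos : 0 < m := by
    rw [hm]
    refine Nat.mul_pos hm₀ (Nat.mul_pos (prod_pos fun t ht => ?_) (prod_pos fun t ht => ?_))
    · exact Int.natAbs_pos.2 (hT t ht).ne_zero
    · exact Int.natAbs_pos.2 (hT' t ht).1.ne_zero
  have hm1 : m₀ ∣ m := by
    rw [hm]
    exact Dvd.intro _ rfl
  have h136m : 136 ∣ m := h136.trans hm1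
  have hnat : ∀ (F : Finset ℤ), ∀ t ∈ F, t ∣ ((∏ t ∈ F, t.natAbs : ℕ) : ℤ) := by
    intro F t ht
    have h3 : t ∣ ((t.natAbs : ℕ) : ℤ) := Int.dvd_natAbs.2 dvd_rfl
    have h4 : t.natAbs ∣ ∏ t ∈ F, t.natAbs := dvd_prod_of_mem _ ht
    exact h3.trans (by exact_mod_cast h4)
  have hdvd : ∀ t ∈ T, 136 * t ∣ (m : ℤ) := by
    intro t ht
    have e : (m : ℤ) = (m₀ : ℤ) * (((∏ t ∈ T, t.natAbs : ℕ) : ℤ) *
        ((∏ t ∈ T', t.natAbs : ℕ) : ℤ)) := by
      rw [hm]
      norm_cast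
    rw [e]
    refine mul_dvd_mul (by exact_mod_cast h136) ((hnat T t ht).trans (Dvd.intro _ rfl))
  have hdvd' : ∀ t ∈ T', t ∣ (m : ℤ) := by
    intro t ht
    have e : (m : ℤ) = (m₀ : ℤ) * (((∏ t ∈ T, t.natAbs : ℕ) : ℤ) *
        ((∏ t ∈ T', t.natAbs : ℕ) : ℤ)) := by
      rw [hm]
      norm_cast
    rw [e]
    exact ((hnat T' t ht).trans (Dvd.intro_left _ rfl)).trans (Dvd.intro_left _ rfl)
  have hQ : Lc m (Qc2 T T' inf S d₀) := by
    intro s k M N hs hk hM hN e1 e2 e3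
    unfold Qc2
    refine and_congr (and_congr ?_ ?_)
      (Pool.Agent.H181.JL.Lc.of_dvd hm1 hL s k M N hs hk hM hN e1 e2 e3)
    · refine forall_congr' fun t => forall_congr' fun ht => ?_
      exact iff_congr (h1 t m (hT t ht) (hdvd t ht) s k M N hs hk hM hN e1 e2 e3) Iff.rfl
    · refine forall_congr' fun t => forall_congr' fun ht => ?_
      exact iff_congr (lc_sign (hT' t ht).1.ne_zero m s k M N hs hk hM hN e1 e2 e3) Iff.rfl
  have hQ0 : Qc2 T T' inf S d₀ d₀ :=
    ⟨⟨fun _ _ => Iff.rfl, fun _ _ => Iff.rfl⟩, Loc_self inf S hd⟩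
  obtain ⟨c, X₀, hc, hlow⟩ := low_P (Dvd.dvd.trans (by norm_num) h136m) hmpos hQ hd hQ0
  refine ⟨⟨c, X₀, hc, fun X hX => (hlow X hX).2⟩, fun A hA A' hA' => ?_⟩
  obtain ⟨Tp, hTp⟩ : ∃ Tp : Finset ℤ, Tp = T.filter (fun t => Rt (tw t d₀)) := ⟨_, rfl⟩
  rw [← hTp] at hA ⊢
  have hG := key2 h (Tp.disjSum T') m (Qc2 T T' inf S d₀) h136m hmpos (fun x hx => by
      rcases x with t | t
      · rw [Finset.inl_mem_disjSum, hTp, mem_filter] at hx
        exact ⟨hT t hx.1, (Dvd.intro_left _ rfl).trans (hdvd t hx.1)⟩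
      · rw [Finset.inr_mem_disjSum] at hx
        exact ⟨(hT' t hx).1, hdvd' t hx⟩) hQ
    (fun d hd' hq x hx => by
      rcases x with t | t
      · rw [Finset.inl_mem_disjSum, hTp, mem_filter] at hx
        rw [Ro_inl]
        exact (hq.1.1 t hx.1).2 hx.2
      · rw [Finset.inr_mem_disjSum] at hx
        rw [Ro_inr]
        exact (hq.1.2 t hx).2 (hT' t hx).2)
    ((Tp \ A).disjSum (T' \ A')) (Finset.disjSum_mono Finset.sdiff_subset Finset.sdiff_subset)
    (A.disjSum A') (Finset.disjSum_mono hA hA') (by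
      rw [Finset.disjoint_left]
      intro x hx hx'
      rcases x with t | t
      · rw [Finset.inl_mem_disjSum] at hx hx'
        exact (Finset.mem_sdiff.1 hx').2 hx
      · rw [Finset.inr_mem_disjSum] at hx hx'
        exact (Finset.mem_sdiff.1 hx').2 hx)
  have hval : (∏ x ∈ A.disjSum A', ck (kd x)) *
      ∏ x ∈ (Tp \ A).disjSum (T' \ A'), (1 - ck (kd x)) =
      c2 ^ A.card * (1 - c2) ^ (Tp \ A).card * (eta ^ A'.card * (1 - eta) ^ (T' \ A').card) := by
    rw [Finset.prod_disjSum, Finset.prod_disjSum]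
    simp only [ck_inl, ck_inr, Finset.prod_const]
    ring
  rw [hval] at hG
  have hlim := ratio hc (fun X hX => (hlow X hX).2) (close_NS hG)
  have heq : ∀ X : ℕ, NS (fun d => Qc2 T T' inf S d₀ d ∧ (∀ t ∈ T, (Sys (tw t d) ↔ t ∈ A)) ∧
        ∀ t ∈ T', (H4 (tw t d) ↔ t ∈ A')) X =
      NS (fun d => Qc2 T T' inf S d₀ d ∧
        Pt2 (A.disjSum A') ((Tp \ A).disjSum (T' \ A')) d) X := by
    intro X
    refine NS_congr (fun d hsq => ?_) X
    refine and_congr_right fun hq => ?_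
    constructor
    · rintro ⟨h3, h4⟩
      refine ⟨fun x hx => ?_, fun x hx => ?_⟩
      · rcases x with t | t
        · rw [Finset.inl_mem_disjSum] at hx
          rw [Kd_inl]
          have h5 := hA hx
          rw [hTp, mem_filter] at h5
          exact (h3 t h5.1).2 hx
        · rw [Finset.inr_mem_disjSum] at hx
          rw [Kd_inr]
          exact (h4 t (hA' hx)).2 hx
      · rcases x with t | t
        · rw [Finset.inl_mem_disjSum, Finset.mem_sdiff, hTp, mem_filter] at hx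
          rw [Kd_inl]
          exact fun h5 => hx.2 ((h3 t hx.1.1).1 h5)
        · rw [Finset.inr_mem_disjSum, Finset.mem_sdiff] at hx
          rw [Kd_inr]
          exact fun h5 => hx.2 ((h4 t hx.1).1 h5)
    · rintro ⟨h3, h4⟩
      refine ⟨fun t ht => ?_, fun t ht => ?_⟩
      · by_cases hR : Rt (tw t d₀)
        · have htp : t ∈ Tp := by
            rw [hTp, mem_filter]
            exact ⟨ht, hR⟩
          constructor
          · intro h5
            by_contra h6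
            have h7 := h4 (Sum.inl t) (Finset.inl_mem_disjSum.2 (Finset.mem_sdiff.2 ⟨htp, h6⟩))
            rw [Kd_inl] at h7
            exact h7 h5
          · intro h5
            have h7 := h3 (Sum.inl t) (Finset.inl_mem_disjSum.2 h5)
            rw [Kd_inl] at h7
            exact h7
        · have h5 : ¬ Rt (tw t d) := fun h5 => hR ((hq.1.1 t ht).1 h5)
          have h6 : ¬ Sys (tw t d) := hp _ (Pool.Agent.N855.GF.Tw.tw_sqf (hT t ht) hsq) h5
          have h7 : t ∉ A := fun h7 => by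
            have h8 := hA h7
            rw [hTp, mem_filter] at h8
            exact hR h8.2
          exact ⟨fun h8 => absurd h8 h6, fun h8 => absurd h8 h7⟩
      · constructor
        · intro h5
          by_contra h6
          have h7 := h4 (Sum.inr t) (Finset.inr_mem_disjSum.2 (Finset.mem_sdiff.2 ⟨ht, h6⟩))
          rw [Kd_inr] at h7
          exact h7 h5
        · intro h5
          have h7 := h3 (Sum.inr t) (Finset.inr_mem_disjSum.2 h5)
          rw [Kd_inr] at h7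
          exact h7
  simp only [heq]
  exact hlim

end Pool.Agent.H225.JX
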