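import Pool.Agent.H743.JL.StmX

/-!
# JX-FM2 (for helper743): the first moment, forms of two kinds
-/

set_option autoImplicit false
set_option linter.all false

open scoped Classical

namespace Pool.Agent.H17.JX

open Finset Module
open Pool.Agent.H743.JL Pool.Agent.N916.MO

theorem finSub (n : ℕ) : Finite (Submodule (ZMod 2) (Lb n → ZMod 2)) :=
  Finite.of_injective (fun S => (S : Set (Lb n → ZMod 2))) SetLike.coe_injective

attribute [local instance] finSub

/-- the submodules are finite in number -/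
@[instance_reducible] noncomputable def ftSub (n : ℕ) : Fintype (Submodule (ZMod 2) (Lb n → ZMod 2)) :=
  Fintype.ofFinite _

attribute [local instance] ftSub

section
variable {I : Type} [Fintype I] [DecidableEq I]
variable {n : ℕ} {E0 : Fin n → Type} [∀ i, AddCommGroup (E0 i)] [∀ i, Module (ZMod 2) (E0 i)]
  [∀ i, Fintype (E0 i)]
  {B : ∀ i, EE (E0 i) I →ₗ[ZMod 2] EE (E0 i) I →ₗ[ZMod 2] ZMod 2} {sp : Fin n → Prop}
  {AX AY : ∀ i, Submodule (ZMod 2) (E0 i)}

/-- the relation given by the third condition -/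
theorem r0_mem {s : Sy I} {W : Finset (Fin n)} {h : I → ZMod 2} {z z' : ∀ i, EE (E0 i) I}
    (hc : Cw B s W h z z') :
    (fun p : Lb n => if p.2 = 1 ∨ p.2 = 2 then (1 : ZMod 2) else 0) ∈ Rl z z' := by
  intro k
  rw [Fintype.sum_prod_type]
  refine Eq.trans ?_ (hc.2.2 k)
  refine sum_congr rfl fun i _ => ?_
  rw [Fin.sum_univ_four]
  simp [vec]

/-- the trivial relations -/
theorem s0_mem {s : Sy I} {W : Finset (Fin n)} {h : I → ZMod 2} {z z' : ∀ i, EE (E0 i) I}
    (hc : Cw2 B s sp AX AY W h z z') (i : Fin n) (hi : sp i) :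
    (Pi.single (i, 0) 1 : Lb n → ZMod 2) ∈ Rl z z' := by
  intro k
  rw [sum_eq_single (i, 0)]
  · rw [Pi.single_eq_same, one_mul]
    exact congrFun (hc.2.1 i hi).2 k
  · intro b _ hb
    rw [Pi.single_eq_of_ne hb, zero_mul]
  · intro hp
    exact absurd (mem_univ _) hp

theorem s3_mem {s : Sy I} {W : Finset (Fin n)} {h : I → ZMod 2} {z z' : ∀ i, EE (E0 i) I}
    (hc : Cw2 B s sp AX AY W h z z') (i : Fin n) (hi : sp i) :
    (Pi.single (i, 3) 1 : Lb n → ZMod 2) ∈ Rl z z' := by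
  intro k
  rw [sum_eq_single (i, 3)]
  · rw [Pi.single_eq_same, one_mul]
    exact congrFun (hc.2.2 i hi).2 k
  · intro b _ hb
    rw [Pi.single_eq_of_ne hb, zero_mul]
  · intro hp
    exact absurd (mem_univ _) hp

/-- vectors with trivial coordinates which are in the radical -/
theorem z_zero {ν u : I → ZMod 2} {τ : Fin n → I → ZMod 2} {m : I → I → ZMod 2} {C C' : Type}
    {F : ∀ i, EE (E0 i) I → C} {G : (I → ZMod 2) → C'} {Φ Ψ : ∀ i, I → E0 i → C → ZMod 2}
    {Θ : I → C' → ZMod 2} (hS : Shp2 B sp AX AY ν u τ m F G Φ Ψ Θ) (s : Sy I) (i : Fin n)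
    (z : EE (E0 i) I) (h1 : z.2.1 = 0) (h2 : z.2.2 = 0)
    (h : ∀ w, (B i + sB s.1 : EE (E0 i) I →ₗ[ZMod 2] EE (E0 i) I →ₗ[ZMod 2] ZMod 2) w z = 0) :
    z = 0 := by
  have halt : ∀ w, (B i + sB s.1 : EE (E0 i) I →ₗ[ZMod 2] EE (E0 i) I →ₗ[ZMod 2] ZMod 2) w w = 0 := by
    intro w
    rw [LinearMap.add_apply, LinearMap.add_apply, hS.alt, sB_alt, add_zero]
  have h3 : ∀ w, (B i + sB s.1 : EE (E0 i) I →ₗ[ZMod 2] EE (E0 i) I →ₗ[ZMod 2] ZMod 2) z w = 0 := by
    intro w
    rw [symB halt]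
    exact h w
  have hz : z = (z.1, 0, 0) := Prod.ext rfl (Prod.ext h1 h2)
  have hx : ∀ k, B i z (fx k) = 0 := by
    intro k
    have h4 := h3 (fx k)
    rw [LinearMap.add_apply, LinearMap.add_apply, sB_fx, h2] at h4
    simpa using h4
  have hy : ∀ k, B i z (fy k) = 0 := by
    intro k
    have h4 := h3 (fy k)
    rw [LinearMap.add_apply, LinearMap.add_apply, sB_fy s.2, h1] at h4
    simpa using h4
  have hw : ∀ w : E0 i, B i z (w, 0, 0) = 0 := by
    intro w
    have h4 := h3 (w, 0, 0)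
    rw [LinearMap.add_apply, LinearMap.add_apply, sB_apply] at h4
    simpa using h4
  have he : z.1 = 0 := by
    refine hS.na i z.1 (fun w => ?_) fun k => ?_
    · rw [← hz]
      exact hw w
    · rw [← hz]
      exact ⟨hx k, hy k⟩
  rw [hz, he]
  rfl

/-- the trivial solutions -/
theorem triv {ν u : I → ZMod 2} {τ : Fin n → I → ZMod 2} {m : I → I → ZMod 2} {C C' : Type}
    {F : ∀ i, EE (E0 i) I → C} {G : (I → ZMod 2) → C'} {Φ Ψ : ∀ i, I → E0 i → C → ZMod 2}
    {Θ : I → C' → ZMod 2} (hS : Shp2 B sp AX AY ν u τ m F G Φ Ψ Θ) (s : Sy I) :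
    (univ.filter fun q : (I → ZMod 2) × (∀ i, EE (E0 i) I) × (∀ i, EE (E0 i) I) =>
      Cw2 B s sp AX AY ∅ q.1 q.2.1 q.2.2 ∧ Rl q.2.1 q.2.2 = ⊤).card ≤ 2 ^ Fintype.card I := by
  have hz : ∀ q : (I → ZMod 2) × (∀ i, EE (E0 i) I) × (∀ i, EE (E0 i) I),
      (Cw2 B s sp AX AY ∅ q.1 q.2.1 q.2.2 ∧ Rl q.2.1 q.2.2 = ⊤) → q.2 = 0 := by
    rintro ⟨h, z, z'⟩ ⟨⟨⟨c1, c2, -⟩, -⟩, hR⟩
    have hv : ∀ p, vec z z' p = 0 := by
      intro p
      funext k
      have h1 : (Pi.single p 1 : Lb n → ZMod 2) ∈ Rl z z' := by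
        rw [hR]
        exact Submodule.mem_top
      have h2 := h1 k
      rw [sum_eq_single p] at h2
      · rw [Pi.single_eq_same, one_mul] at h2
        exact h2
      · intro b _ hb
        rw [Pi.single_eq_of_ne hb, zero_mul]
      · intro hp
        exact absurd (mem_univ _) hp
    have hz1 : z = 0 := by
      funext i
      refine z_zero hS s i (z i) (hv (i, 0)) (hv (i, 1)) fun w => ?_
      rw [c1 i w, if_neg (notMem_empty i), zero_mul]
    have hz2 : z' = 0 := by
      funext i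
      refine z_zero hS s i (z' i) (hv (i, 2)) (hv (i, 3)) fun w => ?_
      rw [c2 i w, if_neg (notMem_empty i), zero_mul]
    rw [hz1, hz2]
    rfl
  have hcard : (univ : Finset (I → ZMod 2)).card = 2 ^ Fintype.card I := by
    rw [card_univ, Fintype.card_fun, ZMod.card]
  rw [← hcard]
  refine card_le_card_of_injOn (fun q => q.1) (fun _ _ => mem_univ _) ?_
  intro q hq q' hq' hqq
  have e1 := hz q (mem_filter.1 hq).2
  have e2 := hz q' (mem_filter.1 hq').2
  exact Prod.ext hqq (e1.trans e2.symm)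

/-- splitting with respect to the relation space -/
theorem split (s : Sy I) (W : Finset (Fin n)) : (NW2 B s sp AX AY W : ℝ) =
    ∑ R : Submodule (ZMod 2) (Lb n → ZMod 2),
      ((univ.filter fun q : (I → ZMod 2) × (∀ i, EE (E0 i) I) × (∀ i, EE (E0 i) I) =>
        Cw2 B s sp AX AY W q.1 q.2.1 q.2.2 ∧ Rl q.2.1 q.2.2 = R).card : ℝ) := by
  unfold NW2
  rw [card_eq_sum_card_fiberwise (f := fun q : (I → ZMod 2) × (∀ i, EE (E0 i) I) ×
    (∀ i, EE (E0 i) I) => Rl q.2.1 q.2.2) (t := univ) (fun _ _ => mem_univ _)]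
  push_cast
  refine sum_congr rfl fun R _ => ?_
  rw [filter_filter]

end

theorem t_FM2 (h1 : S_IV2) (h2 : S_FR2) : S_FM2 := by
  intro n
  refine ⟨2 ^ (16 * n ^ 2) * Fintype.card (Submodule (ZMod 2) (Lb n → ZMod 2)) + 1,
    by positivity, ?_⟩
  intro E0 _ _ _ I _ _ B sp AX AY ν u τ m C C' _ _ F G Φ Ψ Θ hS Γ V hΓ hV W
  obtain ⟨M, hM⟩ : ∃ M : ℝ, M = 2 ^ (16 * n ^ 2) * (∏ i, (Fintype.card (E0 i) : ℝ)) ^ 2 *
    (Fintype.card C : ℝ) ^ (2 * n) * Fintype.card C' / 2 ^ V * 2 ^ Fintype.card I *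
      Fintype.card (Sy I) := ⟨_, rfl⟩
  have hM0 : 0 ≤ M := by
    rw [hM]
    positivity
  obtain ⟨T, hT⟩ : ∃ T : ℝ, T = (if W = ∅ then 1 else 0) * 2 ^ Fintype.card I *
    Fintype.card (Sy I) := ⟨_, rfl⟩
  have hT0 : 0 ≤ T := by
    rw [hT]
    split_ifs <;> positivity
  have hterm : ∀ R : Submodule (ZMod 2) (Lb n → ZMod 2),
      ∑ s : Sy I, ((univ.filter fun q : (I → ZMod 2) × (∀ i, EE (E0 i) I) × (∀ i, EE (E0 i) I) =>
        Cw2 B s sp AX AY W q.1 q.2.1 q.2.2 ∧ Rl q.2.1 q.2.2 = R).card : ℝ) ≤ M + if R = ⊤ then T else 0 := by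
    intro R
    have hge : 0 ≤ (if R = ⊤ then T else 0) := by
      split_ifs
      · exact hT0
      · exact le_rfl
    by_cases hr0 : (fun p : Lb n => if p.2 = 1 ∨ p.2 = 2 then (1 : ZMod 2) else 0) ∈ R
    · by_cases hR : R = ⊤
      · rcases W.eq_empty_or_nonempty with hW | ⟨i, hi⟩
        · rw [if_pos hR, hT, if_pos hW, one_mul]
          have : ∑ s : Sy I, ((univ.filter fun q : (I → ZMod 2) × (∀ i, EE (E0 i) I) ×
              (∀ i, EE (E0 i) I) => Cw2 B s sp AX AY W q.1 q.2.1 q.2.2 ∧ Rl q.2.1 q.2.2 = R).card : ℝ) ≤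
              ∑ _s : Sy I, (2 : ℝ) ^ Fintype.card I := by
            refine sum_le_sum fun s _ => ?_
            rw [hR, hW]
            exact_mod_cast triv hS s
          refine this.trans ?_
          rw [sum_const, card_univ, nsmul_eq_mul, mul_comm]
          linarith
        · obtain ⟨κ, hκ⟩ : ∃ κ, κ ∈ Γ := by
            obtain ⟨κ, hκ, -⟩ := hΓ.2.1
            exact ⟨κ, hκ⟩
          have h3 := h2 n E0 I B sp AX AY ν u τ m C C' F G Φ Ψ Θ hS W R κ (Pi.single (i, 1) 1) V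
            (hV κ hκ) (by rw [hR]; exact Submodule.mem_top) (Or.inr (by
              have e : vc W (Pi.single (i, 1) 1 : Lb n → ZMod 2) = 1 := by
                unfold vc
                rw [sum_eq_single i]
                · rw [Pi.single_eq_same, Pi.single_eq_of_ne, add_zero]
                  intro h
                  have h5 : (2 : Fin 4) = 1 := congrArg Prod.snd h
                  exact absurd h5 (by decide)
                · intro j _ hj
                  rw [Pi.single_eq_of_ne, Pi.single_eq_of_ne, add_zero]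
                  · intro h
                    exact hj (congrArg Prod.fst h)
                  · intro h
                    exact hj (congrArg Prod.fst h)
                · intro h
                  exact absurd hi h
              rw [e]
              exact one_ne_zero))
          rw [← hM] at h3
          linarith
      · by_cases hsg : ∀ i, sp i → (Pi.single (i, 0) 1 : Lb n → ZMod 2) ∈ R ∧
          (Pi.single (i, 3) 1 : Lb n → ZMod 2) ∈ R
        swap
        · have h3 : ∑ s : Sy I, ((univ.filter fun q : (I → ZMod 2) × (∀ i, EE (E0 i) I) ×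
              (∀ i, EE (E0 i) I) => Cw2 B s sp AX AY W q.1 q.2.1 q.2.2 ∧ Rl q.2.1 q.2.2 = R).card :
              ℝ) = 0 := by
            refine sum_eq_zero fun s _ => ?_
            rw [Nat.cast_eq_zero, card_eq_zero, filter_eq_empty_iff]
            rintro q - ⟨hc, hq⟩
            exact hsg fun i hi => ⟨hq ▸ s0_mem hc i hi, hq ▸ s3_mem hc i hi⟩
          rw [h3]
          linarith
        have h3 : ∃ κ ∈ Γ, ∃ r ∈ R, TT2 sp κ r ∉ R := by
          by_contra hcon
          push Not at hcon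
          exact hR (h1 n sp Γ hΓ R hsg hcon hr0)
        obtain ⟨κ, hκ, r, hr, hrn⟩ := h3
        have h4 := h2 n E0 I B sp AX AY ν u τ m C C' F G Φ Ψ Θ hS W R κ r V (hV κ hκ) hr (Or.inl hrn)
        rw [← hM] at h4
        linarith
    · have h3 : ∑ s : Sy I, ((univ.filter fun q : (I → ZMod 2) × (∀ i, EE (E0 i) I) ×
          (∀ i, EE (E0 i) I) => Cw2 B s sp AX AY W q.1 q.2.1 q.2.2 ∧ Rl q.2.1 q.2.2 = R).card : ℝ) = 0 := by
        refine sum_eq_zero fun s _ => ?_
        rw [Nat.cast_eq_zero, card_eq_zero, filter_eq_empty_iff]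
        rintro q - ⟨hc, hq⟩
        exact hr0 (hq ▸ r0_mem hc.1)
      rw [h3]
      linarith
  have hsum : ∑ s : Sy I, (NW2 B s sp AX AY W : ℝ) ≤
      Fintype.card (Submodule (ZMod 2) (Lb n → ZMod 2)) * M + T := by
    rw [sum_congr rfl fun s _ => split (B := B) (sp := sp) (AX := AX) (AY := AY) s W, sum_comm]
    refine (sum_le_sum fun R _ => hterm R).trans ?_
    rw [sum_add_distrib, sum_const, card_univ, nsmul_eq_mul, sum_ite_eq' univ ⊤,
      if_pos (mem_univ _)]
  refine hsum.trans ?_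
  obtain ⟨P, hP⟩ : ∃ P : ℝ, P = (∏ i, (Fintype.card (E0 i) : ℝ)) ^ 2 *
    (Fintype.card C : ℝ) ^ (2 * n) * Fintype.card C' / 2 ^ V * 2 ^ Fintype.card I *
      Fintype.card (Sy I) := ⟨_, rfl⟩
  have hP0 : 0 ≤ P := by
    rw [hP]
    positivity
  have e1 : M = 2 ^ (16 * n ^ 2) * P := by
    rw [hM, hP]
    ring
  have e2 : ((if W = ∅ then 1 else 0) + (2 ^ (16 * n ^ 2) *
      (Fintype.card (Submodule (ZMod 2) (Lb n → ZMod 2)) : ℝ) + 1) *
        (∏ i, (Fintype.card (E0 i) : ℝ)) ^ 2 * (Fintype.card C : ℝ) ^ (2 * n) *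
          Fintype.card C' / 2 ^ V) * 2 ^ Fintype.card I * Fintype.card (Sy I) =
      T + (2 ^ (16 * n ^ 2) *
        (Fintype.card (Submodule (ZMod 2) (Lb n → ZMod 2)) : ℝ) + 1) * P := by
    rw [hT, hP]
    ring
  rw [e2, e1]
  nlinarith

end Pool.Agent.H17.JX
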