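import Pool.Agent.H743.JL.Stm

/-!
# JL-FR: the first moment for a given relation space (helper627)
-/

set_option autoImplicit false
set_option linter.all false

open scoped Classical

namespace Pool.Agent.H627.JLFR

open Finset Module
open Pool.Agent.H743.JL Pool.Agent.N916.MO

section
variable {I : Type} [Fintype I] [DecidableEq I] {n : ℕ} {E0 : Fin n → Type}
  [∀ i, AddCommGroup (E0 i)] [∀ i, Module (ZMod 2) (E0 i)] [∀ i, Fintype (E0 i)]

theorem dt_single (h : I → ZMod 2) (k : I) : dt h (Pi.single k 1) = h k := by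
  unfold dt
  simp [Pi.single_apply]

theorem dt_zero (h : I → ZMod 2) : dt h 0 = 0 := by
  unfold dt
  simp

theorem add_eq2 {a b c : ZMod 2} (h : a + b = c) : b = a + c := by
  rw [← h, ← add_assoc, aa, zero_add]

/-- the products of the rows of `s` with the vectors -/
noncomputable def gg (B : ∀ i, EE (E0 i) I →ₗ[ZMod 2] EE (E0 i) I →ₗ[ZMod 2] ZMod 2)
    (W : Finset (Fin n)) (h : I → ZMod 2) (z z' : ∀ i, EE (E0 i) I) (p : Lb n) (k : I) : ZMod 2 :=
  ![B p.1 (z p.1) (fy k), B p.1 (z p.1) (fx k) + (if p.1 ∈ W then 1 else 0) * h k,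
    B p.1 (z' p.1) (fy k) + (if p.1 ∈ W then 1 else 0) * h k, B p.1 (z' p.1) (fx k)] p.2

theorem cw_prod {B : ∀ i, EE (E0 i) I →ₗ[ZMod 2] EE (E0 i) I →ₗ[ZMod 2] ZMod 2}
    (hB : ∀ i z, B i z z = 0) {s : Sy I} {W : Finset (Fin n)} {h : I → ZMod 2}
    {z z' : ∀ i, EE (E0 i) I} (hc : Cw B s W h z z') (p : Lb n) (k : I) :
    ∑ l, s.1 k l * vec z z' p l = gg B W h z z' p k := by
  obtain ⟨i, j⟩ := p
  have key : ∀ (a w : EE (E0 i) I) (c : ZMod 2), (B i + sB s.1 : EE (E0 i) I →ₗ[ZMod 2]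
      EE (E0 i) I →ₗ[ZMod 2] ZMod 2) w a = c → sB s.1 a w = B i a w + c := by
    intro a w c h1
    rw [LinearMap.add_apply, LinearMap.add_apply, symB (hB i) w a, symB (sB_alt s.1) w a] at h1
    exact add_eq2 h1
  obtain ⟨h1, h2, -⟩ := hc
  have a0 : (fx k : EE (E0 i) I).2.1 = Pi.single k 1 := rfl
  have a1 : (fx k : EE (E0 i) I).2.2 = 0 := rfl
  have a2 : (fy k : EE (E0 i) I).2.1 = 0 := rfl
  have a3 : (fy k : EE (E0 i) I).2.2 = Pi.single k 1 := rfl
  have b1 := key _ _ _ (h1 i (fx k))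
  have b2 := key _ _ _ (h1 i (fy k))
  have b3 := key _ _ _ (h2 i (fx k))
  have b4 := key _ _ _ (h2 i (fy k))
  rw [sB_fx, a0, dt_single] at b1
  rw [sB_fy s.2, a2, dt_zero, mul_zero, add_zero] at b2
  rw [sB_fx, a1, dt_zero, mul_zero, add_zero] at b3
  rw [sB_fy s.2, a3, dt_single] at b4
  fin_cases j
  · exact b2
  · exact b1
  · exact b4
  · exact b3

theorem rel_sum {z z' : ∀ i, EE (E0 i) I} {r : Lb n → ZMod 2} (hr : r ∈ Rl z z')
    (s : I → I → ZMod 2) (g : Lb n → I → ZMod 2)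
    (hg : ∀ p k, ∑ l, s k l * vec z z' p l = g p k) (k : I) : ∑ p, r p * g p k = 0 := by
  have h1 : ∑ p, r p * g p k = ∑ l, s k l * ∑ p, r p * vec z z' p l := by
    rw [sum_congr rfl fun p _ => by rw [← hg p k, mul_sum], sum_comm]
    refine sum_congr rfl fun l _ => ?_
    rw [mul_sum]
    refine sum_congr rfl fun p _ => ?_
    ring
  rw [h1]
  exact sum_eq_zero fun l _ => by rw [hr l, mul_zero]

theorem sum4 (f : Lb n → ZMod 2) :
    ∑ p, f p = ∑ i, (f (i, 0) + f (i, 1) + f (i, 2) + f (i, 3)) := by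
  rw [Fintype.sum_prod_type]
  refine sum_congr rfl fun i _ => ?_
  rw [Fin.sum_univ_four]

/-- the vector `H` -/
def HH (r : Lb n → ZMod 2) (z z' : ∀ i, EE (E0 i) I) (k : I) : ZMod 2 :=
  ∑ i, (r (i, 0) * (z i).2.1 k + r (i, 2) * (z' i).2.1 k)

/-- the right hand sides -/
def cc {C C' : Type} (Φ Ψ : ∀ i, I → E0 i → C → ZMod 2) (Θ : I → C' → ZMod 2)
    (r : Lb n → ZMod 2)
    (d : (∀ i, E0 i) × (∀ i, E0 i) × (Fin n → C) × (Fin n → C) × C') (k : I) : ZMod 2 :=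
  Θ k d.2.2.2.2 + ∑ i, (r (i, 0) * Ψ i k (d.1 i) (d.2.2.1 i) + r (i, 1) * Φ i k (d.1 i) (d.2.2.1 i) +
    r (i, 2) * Ψ i k (d.2.1 i) (d.2.2.2.1 i) + r (i, 3) * Φ i k (d.2.1 i) (d.2.2.2.1 i))

theorem loc {B : ∀ i, EE (E0 i) I →ₗ[ZMod 2] EE (E0 i) I →ₗ[ZMod 2] ZMod 2}
    {ν u : I → ZMod 2} {τ : Fin n → I → ZMod 2} {m : I → I → ZMod 2} {C C' : Type}
    {F : ∀ i, EE (E0 i) I → C} {G : (I → ZMod 2) → C'}
    {Φ Ψ : ∀ i, I → E0 i → C → ZMod 2} {Θ : I → C' → ZMod 2} (hS : Shp B ν u τ m F G Φ Ψ Θ)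
    {s : Sy I} {W : Finset (Fin n)} {h : I → ZMod 2}
    {z z' : ∀ i, EE (E0 i) I} (hc : Cw B s W h z z') {r : Lb n → ZMod 2} (hr : r ∈ Rl z z')
    (k : I) :
    ∑ p, TT (u k, ν k, fun i => τ i k) r p * vec z z' p k + vc W r * h k =
      cc Φ Ψ Θ r (fun i => (z i).1, fun i => (z' i).1, fun i => F i (z i), fun i => F i (z' i),
        G (HH r z z')) k := by
  have h1 := rel_sum hr s.1 _ (cw_prod hS.alt hc) k
  have h0 : ∀ l, HH r z z' l = ∑ i, (r (i, 1) * (z i).2.2 l + r (i, 3) * (z' i).2.2 l) := by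
    intro l
    have h2 := hr l
    rw [sum4] at h2
    have h3 : HH r z z' l + ∑ i, (r (i, 1) * (z i).2.2 l + r (i, 3) * (z' i).2.2 l) = 0 := by
      rw [← h2, HH, ← sum_add_distrib]
      refine sum_congr rfl fun i _ => ?_
      show _ = r (i, 0) * (z i).2.1 l + r (i, 1) * (z i).2.2 l + r (i, 2) * (z' i).2.1 l +
        r (i, 3) * (z' i).2.2 l
      ring
    have h4 := add_eq2 h3
    rw [add_zero] at h4
    exact h4.symm
  have hm := hS.hm (HH r z z') k
  have e1 : ∑ l, m l k * HH r z z' l = ∑ i, (r (i, 0) * ∑ l, m l k * (z i).2.1 l +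
      r (i, 2) * ∑ l, m l k * (z' i).2.1 l) := by
    have : ∀ l, m l k * HH r z z' l = ∑ i, (r (i, 0) * (m l k * (z i).2.1 l) +
        r (i, 2) * (m l k * (z' i).2.1 l)) := by
      intro l
      rw [HH, mul_sum]
      exact sum_congr rfl fun i _ => by ring
    rw [sum_congr rfl fun l _ => this l, sum_comm]
    refine sum_congr rfl fun i _ => ?_
    rw [sum_add_distrib, mul_sum, mul_sum]
  have e2 : ∑ l, m k l * HH r z z' l = ∑ i, (r (i, 1) * ∑ l, m k l * (z i).2.2 l +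
      r (i, 3) * ∑ l, m k l * (z' i).2.2 l) := by
    have : ∀ l, m k l * HH r z z' l = ∑ i, (r (i, 1) * (m k l * (z i).2.2 l) +
        r (i, 3) * (m k l * (z' i).2.2 l)) := by
      intro l
      rw [h0, mul_sum]
      exact sum_congr rfl fun i _ => by ring
    rw [sum_congr rfl fun l _ => this l, sum_comm]
    refine sum_congr rfl fun i _ => ?_
    rw [sum_add_distrib, mul_sum, mul_sum]
  have e3 : vc W r * h k = ∑ i, (if i ∈ W then 1 else 0) * (r (i, 1) + r (i, 2)) * h k := by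
    unfold vc
    rw [← sum_filter_add_sum_filter_not univ (fun i => i ∈ W), sum_mul]
    have h5 : ∑ x with x ∉ W, (if x ∈ W then (1 : ZMod 2) else 0) * (r (x, 1) + r (x, 2)) * h k =
        0 := by
      refine sum_eq_zero fun i hi => ?_
      rw [if_neg (mem_filter.1 hi).2, zero_mul, zero_mul]
    rw [h5, add_zero]
    refine sum_congr (by ext i; simp) fun i hi => ?_
    rw [if_pos (by simpa using hi), one_mul]
  rw [sum4] at h1 ⊢
  have e4 : ∑ i, (r (i, 0) * gg B W h z z' (i, 0) k + r (i, 1) * gg B W h z z' (i, 1) k +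
        r (i, 2) * gg B W h z z' (i, 2) k + r (i, 3) * gg B W h z z' (i, 3) k) =
      ∑ i, (TT (u k, ν k, fun i => τ i k) r (i, 0) * vec z z' (i, 0) k +
        TT (u k, ν k, fun i => τ i k) r (i, 1) * vec z z' (i, 1) k +
        TT (u k, ν k, fun i => τ i k) r (i, 2) * vec z z' (i, 2) k +
        TT (u k, ν k, fun i => τ i k) r (i, 3) * vec z z' (i, 3) k) + vc W r * h k +
      (∑ l, m k l * HH r z z' l + ∑ l, m l k * HH r z z' l + u k * HH r z z' k) +
      ∑ i, (r (i, 0) * Ψ i k (z i).1 (F i (z i)) + r (i, 1) * Φ i k (z i).1 (F i (z i)) +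
        r (i, 2) * Ψ i k (z' i).1 (F i (z' i)) + r (i, 3) * Φ i k (z' i).1 (F i (z' i))) := by
    rw [e1, e2, e3, HH, mul_sum, ← sum_add_distrib, ← sum_add_distrib, ← sum_add_distrib,
      ← sum_add_distrib, ← sum_add_distrib]
    refine sum_congr rfl fun i _ => ?_
    have g0 : gg B W h z z' (i, 0) k = B i (z i) (fy k) := rfl
    have g1 : gg B W h z z' (i, 1) k = B i (z i) (fx k) + (if i ∈ W then 1 else 0) * h k := rfl
    have g2 : gg B W h z z' (i, 2) k = B i (z' i) (fy k) + (if i ∈ W then 1 else 0) * h k := rfl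
    have g3 : gg B W h z z' (i, 3) k = B i (z' i) (fx k) := rfl
    have t0 : TT (u k, ν k, fun i => τ i k) r (i, 0) = (u k + τ i k) * r (i, 0) + ν k * r (i, 1) :=
      rfl
    have t1 : TT (u k, ν k, fun i => τ i k) r (i, 1) = u k * r (i, 0) + τ i k * r (i, 1) := rfl
    have t2 : TT (u k, ν k, fun i => τ i k) r (i, 2) = (u k + τ i k) * r (i, 2) + ν k * r (i, 3) :=
      rfl
    have t3 : TT (u k, ν k, fun i => τ i k) r (i, 3) = u k * r (i, 2) + τ i k * r (i, 3) := rfl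
    have v0 : vec z z' (i, 0) k = (z i).2.1 k := rfl
    have v1 : vec z z' (i, 1) k = (z i).2.2 k := rfl
    have v2 : vec z z' (i, 2) k = (z' i).2.1 k := rfl
    have v3 : vec z z' (i, 3) k = (z' i).2.2 k := rfl
    rw [g0, g1, g2, g3, t0, t1, t2, t3, v0, v1, v2, v3, hS.hx, hS.hx, hS.hy, hS.hy]
    have w1 := aa (u k * r (i, 0) * (z i).2.1 k)
    have w2 := aa (u k * r (i, 2) * (z' i).2.1 k)
    linear_combination (-1 : ZMod 2) * w1 - w2
  rw [e4, hm] at h1
  have h5 : u k * HH r z z' k + Θ k (G (HH r z z')) + u k * HH r z z' k =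
      Θ k (G (HH r z z')) := by
    have := aa (u k * HH r z z' k)
    linear_combination this
  rw [h5, add_assoc] at h1
  have h6 := add_eq2 h1
  rw [add_zero] at h6
  exact h6.symm

/-- the number of the systems for given `q` -/
theorem cnt_s (h1 : S_CS) {B : ∀ i, EE (E0 i) I →ₗ[ZMod 2] EE (E0 i) I →ₗ[ZMod 2] ZMod 2}
    (hB : ∀ i z, B i z z = 0) (W : Finset (Fin n)) (h : I → ZMod 2) (z z' : ∀ i, EE (E0 i) I)
    (R : Submodule (ZMod 2) (Lb n → ZMod 2)) (hR : Rl z z' = R) :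
    (univ.filter fun s : Sy I => Cw B s W h z z').card * 2 ^ (4 * n * Fintype.card I) ≤
      2 ^ (16 * n ^ 2) * 2 ^ (finrank (ZMod 2) R * Fintype.card I) * Fintype.card (Sy I) := by
  have h2 := h1 (Lb n) I (vec z z') (gg B W h z z') R (by
    intro r
    rw [← hR]
    exact Iff.rfl)
  have h3 : Fintype.card (Lb n) = 4 * n := by
    rw [Fintype.card_prod, Fintype.card_fin, Fintype.card_fin, mul_comm]
  rw [h3] at h2
  have h4 : 4 * n * (4 * n) = 16 * n ^ 2 := by ring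
  rw [h4] at h2
  refine le_trans (Nat.mul_le_mul_right _ (card_le_card ?_)) h2
  intro s hs
  exact mem_filter.2 ⟨mem_univ _, cw_prod hB (mem_filter.1 hs).2⟩

omit [DecidableEq I] in
/-- the local count for a set -/
theorem lc_card (h2 : S_LC) {Λ : Type} [Fintype Λ] [DecidableEq I]
    (R : Submodule (ZMod 2) (Λ → ZMod 2)) (ρ : Λ → ZMod 2) (γ : ZMod 2) (K : Finset I)
    (c : I → ZMod 2) (hor : ρ ∉ R ∨ γ ≠ 0) {α : Type} (S : Finset α) (f : α → Λ → I → ZMod 2)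
    (g : α → I → ZMod 2) (hi : ∀ a ∈ S, ∀ b ∈ S, f a = f b → g a = g b → a = b)
    (hf : ∀ a ∈ S, (∀ r ∈ R, ∀ k, ∑ p, r p * f a p k = 0) ∧
      ∀ k ∈ K, ∑ p, ρ p * f a p k + γ * g a k = c k) :
    S.card * (2 ^ K.card * 2 ^ (finrank (ZMod 2) R * Fintype.card I)) ≤
      2 ^ ((Fintype.card Λ + 1) * Fintype.card I) := by
  have h5 := h2 Λ I R ρ γ K c hor
  rw [mul_assoc] at h5
  refine le_trans (Nat.mul_le_mul_right _ ?_) h5
  refine card_le_card_of_injOn (fun q => (f q, g q)) ?_ ?_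
  · intro q hq
    exact mem_coe.2 (mem_filter.2 ⟨mem_univ _, hf q hq⟩)
  · intro a ha b hb he
    exact hi a ha b hb (congrArg Prod.fst he) (congrArg Prod.snd he)

/-- the data -/
abbrev DD (E0 : Fin n → Type) (C C' : Type) : Type :=
  (∀ i, E0 i) × (∀ i, E0 i) × (Fin n → C) × (Fin n → C) × C'

/-- the number of the possible `q` -/
theorem cnt_q (h2 : S_LC) {B : ∀ i, EE (E0 i) I →ₗ[ZMod 2] EE (E0 i) I →ₗ[ZMod 2] ZMod 2}
    {ν u : I → ZMod 2} {τ : Fin n → I → ZMod 2} {m : I → I → ZMod 2} {C C' : Type} [Fintype C]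
    [Fintype C'] {F : ∀ i, EE (E0 i) I → C} {G : (I → ZMod 2) → C'}
    {Φ Ψ : ∀ i, I → E0 i → C → ZMod 2} {Θ : I → C' → ZMod 2} (hS : Shp B ν u τ m F G Φ Ψ Θ)
    (W : Finset (Fin n)) (R : Submodule (ZMod 2) (Lb n → ZMod 2)) (κ : Ty n) (r : Lb n → ZMod 2)
    (hr : r ∈ R) (hor : TT κ r ∉ R ∨ vc W r ≠ 0) :
    (univ.filter fun q : (I → ZMod 2) × (∀ i, EE (E0 i) I) × (∀ i, EE (E0 i) I) =>
      Rl q.2.1 q.2.2 = R ∧ ∃ s, Cw B s W q.1 q.2.1 q.2.2).card *
      (2 ^ (univ.filter fun k => (u k, ν k, fun i => τ i k) = κ).card *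
      2 ^ (finrank (ZMod 2) R * Fintype.card I)) ≤
      Fintype.card (DD E0 C C') * 2 ^ ((4 * n + 1) * Fintype.card I) := by
  have h3 : Fintype.card (Lb n) = 4 * n := by
    rw [Fintype.card_prod, Fintype.card_fin, Fintype.card_fin, mul_comm]
  let dat : (I → ZMod 2) × (∀ i, EE (E0 i) I) × (∀ i, EE (E0 i) I) → DD E0 C C' := fun q =>
    (fun i => (q.2.1 i).1, fun i => (q.2.2 i).1, fun i => F i (q.2.1 i), fun i => F i (q.2.2 i),
      G (HH r q.2.1 q.2.2))
  rw [card_eq_sum_card_fiberwise (f := dat) (t := univ) (fun _ _ => mem_coe.2 (mem_univ _)),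
    sum_mul]
  have h4 : ∀ d : DD E0 C C', ((univ.filter fun q : (I → ZMod 2) × (∀ i, EE (E0 i) I) ×
      (∀ i, EE (E0 i) I) => Rl q.2.1 q.2.2 = R ∧ ∃ s, Cw B s W q.1 q.2.1 q.2.2).filter
        fun q => dat q = d).card * (2 ^ (univ.filter fun k => (u k, ν k, fun i => τ i k) = κ).card *
      2 ^ (finrank (ZMod 2) R * Fintype.card I)) ≤ 2 ^ ((4 * n + 1) * Fintype.card I) := by
    intro d
    rw [← h3]
    refine lc_card h2 R (TT κ r) (vc W r)
      (univ.filter fun k => (u k, ν k, fun i => τ i k) = κ) (cc Φ Ψ Θ r d) hor _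
      (fun q => vec q.2.1 q.2.2) (fun q => q.1) ?_ ?_
    · rintro ⟨h, z, z'⟩ hq ⟨g, w, w'⟩ hq' e1 e2
      have hq2 : dat (h, z, z') = d := (mem_filter.1 hq).2
      have hq2' : dat (g, w, w') = d := (mem_filter.1 hq').2
      have e1' : vec z z' = vec w w' := e1
      have e2' : h = g := e2
      have e3 := hq2.trans hq2'.symm
      have e4 : (fun i => (z i).1) = fun i => (w i).1 := congrArg Prod.fst e3
      have e5 : (fun i => (z' i).1) = fun i => (w' i).1 :=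
        congrArg (fun x => x.2.1) e3
      have e6 : z = w := by
        funext i
        have f0 : (z i).2.1 = (w i).2.1 := congrFun e1' (i, 0)
        have f1 : (z i).2.2 = (w i).2.2 := congrFun e1' (i, 1)
        exact Prod.ext (congrFun e4 i) (Prod.ext f0 f1)
      have e7 : z' = w' := by
        funext i
        have f0 : (z' i).2.1 = (w' i).2.1 := congrFun e1' (i, 2)
        have f1 : (z' i).2.2 = (w' i).2.2 := congrFun e1' (i, 3)
        exact Prod.ext (congrFun e5 i) (Prod.ext f0 f1)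
      rw [e2', e6, e7]
    · intro q hq
      obtain ⟨hq1, hq2⟩ := mem_filter.1 hq
      obtain ⟨-, hq3, s, hq4⟩ := mem_filter.1 hq1
      refine ⟨?_, ?_⟩
      · intro r' hr' k
        rw [← hq3] at hr'
        exact hr' k
      · intro k hk
        have h6 := loc hS hq4 (r := r) (by rw [hq3]; exact hr) k
        have h7 := (mem_filter.1 hk).2
        rw [h7] at h6
        rw [← hq2]
        exact h6
  refine (sum_le_sum fun d _ => h4 d).trans ?_
  rw [sum_const, smul_eq_mul, card_univ]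

theorem card_DD (C C' : Type) [Fintype C] [Fintype C'] :
    (Fintype.card (DD E0 C C') : ℝ) = (∏ i, (Fintype.card (E0 i) : ℝ)) ^ 2 *
      (Fintype.card C : ℝ) ^ (2 * n) * Fintype.card C' := by
  rw [Fintype.card_prod, Fintype.card_prod, Fintype.card_prod, Fintype.card_prod,
    Fintype.card_pi, Fintype.card_fun, Fintype.card_fin]
  push_cast
  ring

end

theorem t_FR (h1 : S_CS) (h2 : S_LC) : S_FR := by
  intro n E0 _ _ _ I _ _ B ν u τ m C C' _ _ F G Φ Ψ Θ hS W R κ r V hV hr hor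
  set K : Finset I := univ.filter fun k => (u k, ν k, fun i => τ i k) = κ with hK
  set Q : Finset ((I → ZMod 2) × (∀ i, EE (E0 i) I) × (∀ i, EE (E0 i) I)) :=
    univ.filter fun q => Rl q.2.1 q.2.2 = R ∧ ∃ s, Cw B s W q.1 q.2.1 q.2.2 with hQ
  have hq : (Q.card : ℝ) * (2 ^ V * 2 ^ (finrank (ZMod 2) R * Fintype.card I)) ≤
      Fintype.card (DD E0 C C') * 2 ^ ((4 * n + 1) * Fintype.card I) := by
    have h3 := cnt_q h2 hS W R κ r hr hor
    have h4 : Q.card * (2 ^ V * 2 ^ (finrank (ZMod 2) R * Fintype.card I)) ≤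
        Q.card * (2 ^ K.card * 2 ^ (finrank (ZMod 2) R * Fintype.card I)) :=
      Nat.mul_le_mul_left _ (Nat.mul_le_mul_right _ (Nat.pow_le_pow_right (by norm_num) hV))
    exact_mod_cast h4.trans h3
  have hs : ∀ q ∈ Q, (((univ.filter fun s : Sy I => Cw B s W q.1 q.2.1 q.2.2).card : ℕ) : ℝ) *
      2 ^ (4 * n * Fintype.card I) ≤
      2 ^ (16 * n ^ 2) * 2 ^ (finrank (ZMod 2) R * Fintype.card I) * Fintype.card (Sy I) := by
    intro q hq
    exact_mod_cast cnt_s h1 hS.alt W q.1 q.2.1 q.2.2 R (mem_filter.1 hq).2.1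
  have hex : ∑ s : Sy I, ((univ.filter fun q : (I → ZMod 2) × (∀ i, EE (E0 i) I) ×
      (∀ i, EE (E0 i) I) => Cw B s W q.1 q.2.1 q.2.2 ∧ Rl q.2.1 q.2.2 = R).card : ℝ) =
      ∑ q ∈ Q, (((univ.filter fun s : Sy I => Cw B s W q.1 q.2.1 q.2.2).card : ℕ) : ℝ) := by
    have h3 : ∀ s : Sy I, ((univ.filter fun q : (I → ZMod 2) × (∀ i, EE (E0 i) I) ×
        (∀ i, EE (E0 i) I) => Cw B s W q.1 q.2.1 q.2.2 ∧ Rl q.2.1 q.2.2 = R).card : ℝ) =
        ∑ q ∈ Q, if Cw B s W q.1 q.2.1 q.2.2 then (1 : ℝ) else 0 := by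
      intro s
      rw [sum_boole, hQ, filter_filter]
      congr 2
      ext q
      rw [mem_filter, mem_filter]
      constructor
      · rintro ⟨-, h4, h5⟩
        exact ⟨mem_univ _, ⟨h5, s, h4⟩, h4⟩
      · rintro ⟨-, ⟨h5, -⟩, h4⟩
        exact ⟨mem_univ _, h4, h5⟩
    rw [sum_congr rfl fun s _ => h3 s, sum_comm]
    refine sum_congr rfl fun q _ => ?_
    rw [sum_boole]
  rw [hex]
  obtain ⟨S, hS'⟩ : ∃ S : ℝ, S = ∑ q ∈ Q, (((univ.filter fun s : Sy I =>
    Cw B s W q.1 q.2.1 q.2.2).card : ℕ) : ℝ) := ⟨_, rfl⟩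
  rw [← hS']
  have h5 : S * 2 ^ (4 * n * Fintype.card I) ≤ Q.card *
      (2 ^ (16 * n ^ 2) * 2 ^ (finrank (ZMod 2) R * Fintype.card I) * Fintype.card (Sy I)) := by
    rw [hS', sum_mul, ← nsmul_eq_mul]
    exact sum_le_card_nsmul _ _ _ hs
  have h6 : S * 2 ^ (4 * n * Fintype.card I) * 2 ^ V ≤
      Fintype.card (DD E0 C C') * 2 ^ ((4 * n + 1) * Fintype.card I) *
        (2 ^ (16 * n ^ 2) * Fintype.card (Sy I)) := by
    calc S * 2 ^ (4 * n * Fintype.card I) * 2 ^ V ≤ Q.card *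
        (2 ^ (16 * n ^ 2) * 2 ^ (finrank (ZMod 2) R * Fintype.card I) * Fintype.card (Sy I)) *
          2 ^ V := mul_le_mul_of_nonneg_right h5 (by positivity)
      _ = (Q.card : ℝ) * (2 ^ V * 2 ^ (finrank (ZMod 2) R * Fintype.card I)) *
          (2 ^ (16 * n ^ 2) * Fintype.card (Sy I)) := by ring
      _ ≤ _ := mul_le_mul_of_nonneg_right hq (by positivity)
  have h7 : (2 : ℝ) ^ ((4 * n + 1) * Fintype.card I) =
      2 ^ (4 * n * Fintype.card I) * 2 ^ Fintype.card I := by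
    rw [← pow_add]
    congr 1
    ring
  rw [h7, card_DD] at h6
  have h8 : (0 : ℝ) < 2 ^ (4 * n * Fintype.card I) := by positivity
  have h9 : S * 2 ^ V ≤ (∏ i, (Fintype.card (E0 i) : ℝ)) ^ 2 *
      (Fintype.card C : ℝ) ^ (2 * n) * Fintype.card C' * 2 ^ Fintype.card I *
        (2 ^ (16 * n ^ 2) * Fintype.card (Sy I)) := by
    refine le_of_mul_le_mul_left ?_ h8
    refine le_trans (le_of_eq ?_) (h6.trans (le_of_eq ?_)) <;> ring
  have h10 : S ≤ ((∏ i, (Fintype.card (E0 i) : ℝ)) ^ 2 *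
      (Fintype.card C : ℝ) ^ (2 * n) * Fintype.card C' * 2 ^ Fintype.card I *
        (2 ^ (16 * n ^ 2) * Fintype.card (Sy I))) / 2 ^ V := by
    rw [le_div_iff₀ (by positivity)]
    exact h9
  refine h10.trans (le_of_eq ?_)
  ring

end Pool.Agent.H627.JLFR
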