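import Pool.Agent.H743.JL.StmX
import Pool.Agent.H743.JL.FR
import Pool.Agent.H743.JL.CS
import Pool.Agent.H743.JL.LC

/-!
# JX-FR2: the first moment for a given relation space, forms of two kinds (helper696 for helper743)

Adaptation of `JL/FR.lean` (helper627).
-/

set_option autoImplicit false
set_option linter.all false

open scoped Classical

namespace Pool.Agent.H696.JXFR2

open Finset Module
open Pool.Agent.H743.JL Pool.Agent.N916.MO
open Pool.Agent.H627.JLFR

section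
variable {I : Type} [Fintype I] [DecidableEq I] {n : ℕ} {E0 : Fin n → Type}
  [∀ i, AddCommGroup (E0 i)] [∀ i, Module (ZMod 2) (E0 i)] [∀ i, Fintype (E0 i)]

theorem loc2 {B : ∀ i, EE (E0 i) I →ₗ[ZMod 2] EE (E0 i) I →ₗ[ZMod 2] ZMod 2}
    {sp : Fin n → Prop} {AX AY : ∀ i, Submodule (ZMod 2) (E0 i)}
    {ν u : I → ZMod 2} {τ : Fin n → I → ZMod 2} {m : I → I → ZMod 2} {C C' : Type}
    {F : ∀ i, EE (E0 i) I → C} {G : (I → ZMod 2) → C'}
    {Φ Ψ : ∀ i, I → E0 i → C → ZMod 2} {Θ : I → C' → ZMod 2}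
    (hS : Shp2 B sp AX AY ν u τ m F G Φ Ψ Θ)
    {s : Sy I} {W : Finset (Fin n)} {h : I → ZMod 2}
    {z z' : ∀ i, EE (E0 i) I} (hc : Cw2 B s sp AX AY W h z z') {r : Lb n → ZMod 2}
    (hr : r ∈ Rl z z') (k : I) :
    ∑ p, TT2 sp (u k, ν k, fun i => τ i k) r p * vec z z' p k + vc W r * h k =
      cc Φ Ψ Θ r (fun i => (z i).1, fun i => (z' i).1, fun i => F i (z i), fun i => F i (z' i),
        G (HH r z z')) k := by
  have h1 := rel_sum hr s.1 _ (cw_prod hS.alt hc.1) k
  have h0 : ∀ l, HH r z z' l = ∑ i, (r (i, 1) * (z i).2.2 l + r (i, 3) * (z' i).2.2 l) := by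
    intro l
    have h2 := hr l
    rw [sum4] at h2
    have h3 : HH r z z' l + ∑ i, (r (i, 1) * (z i).2.2 l + r (i, 3) * (z' i).2.2 l) = 0 := by
      rw [← h2, HH, ← sum_add_distrib]
      refine sum_congr rfl fun i _ => ?_
      show _ = r (i, 0) * (z i).2.1 l + r (i, 1) * (z i).2.2 l + r (i, 2) * (z' i).2.1 l +
        r (i, 3) * (z' i).2.2 l
      ring
    have h4 := add_eq2 h3
    rw [add_zero] at h4
    exact h4.symm
  have hm := hS.hm (HH r z z') k
  have e1 : ∑ l, m l k * HH r z z' l = ∑ i, (r (i, 0) * ∑ l, m l k * (z i).2.1 l +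
      r (i, 2) * ∑ l, m l k * (z' i).2.1 l) := by
    have : ∀ l, m l k * HH r z z' l = ∑ i, (r (i, 0) * (m l k * (z i).2.1 l) +
        r (i, 2) * (m l k * (z' i).2.1 l)) := by
      intro l
      rw [HH, mul_sum]
      exact sum_congr rfl fun i _ => by ring
    rw [sum_congr rfl fun l _ => this l, sum_comm]
    refine sum_congr rfl fun i _ => ?_
    rw [sum_add_distrib, mul_sum, mul_sum]
  have e2 : ∑ l, m k l * HH r z z' l = ∑ i, (r (i, 1) * ∑ l, m k l * (z i).2.2 l +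
      r (i, 3) * ∑ l, m k l * (z' i).2.2 l) := by
    have : ∀ l, m k l * HH r z z' l = ∑ i, (r (i, 1) * (m k l * (z i).2.2 l) +
        r (i, 3) * (m k l * (z' i).2.2 l)) := by
      intro l
      rw [h0, mul_sum]
      exact sum_congr rfl fun i _ => by ring
    rw [sum_congr rfl fun l _ => this l, sum_comm]
    refine sum_congr rfl fun i _ => ?_
    rw [sum_add_distrib, mul_sum, mul_sum]
  have e3 : vc W r * h k = ∑ i, (if i ∈ W then 1 else 0) * (r (i, 1) + r (i, 2)) * h k := by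
    unfold vc
    rw [← sum_filter_add_sum_filter_not univ (fun i => i ∈ W), sum_mul]
    have h5 : ∑ x with x ∉ W, (if x ∈ W then (1 : ZMod 2) else 0) * (r (x, 1) + r (x, 2)) * h k =
        0 := by
      refine sum_eq_zero fun i hi => ?_
      rw [if_neg (mem_filter.1 hi).2, zero_mul, zero_mul]
    rw [h5, add_zero]
    refine sum_congr (by ext i; simp) fun i hi => ?_
    rw [if_pos (by simpa using hi), one_mul]
  rw [sum4] at h1 ⊢
  have e4 : ∑ i, (r (i, 0) * gg B W h z z' (i, 0) k + r (i, 1) * gg B W h z z' (i, 1) k +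
        r (i, 2) * gg B W h z z' (i, 2) k + r (i, 3) * gg B W h z z' (i, 3) k) =
      ∑ i, (TT2 sp (u k, ν k, fun i => τ i k) r (i, 0) * vec z z' (i, 0) k +
        TT2 sp (u k, ν k, fun i => τ i k) r (i, 1) * vec z z' (i, 1) k +
        TT2 sp (u k, ν k, fun i => τ i k) r (i, 2) * vec z z' (i, 2) k +
        TT2 sp (u k, ν k, fun i => τ i k) r (i, 3) * vec z z' (i, 3) k) + vc W r * h k +
      (∑ l, m k l * HH r z z' l + ∑ l, m l k * HH r z z' l + u k * HH r z z' k) +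
      ∑ i, (r (i, 0) * Ψ i k (z i).1 (F i (z i)) + r (i, 1) * Φ i k (z i).1 (F i (z i)) +
        r (i, 2) * Ψ i k (z' i).1 (F i (z' i)) + r (i, 3) * Φ i k (z' i).1 (F i (z' i))) := by
    rw [e1, e2, e3, HH, mul_sum, ← sum_add_distrib, ← sum_add_distrib, ← sum_add_distrib,
      ← sum_add_distrib, ← sum_add_distrib]
    refine sum_congr rfl fun i _ => ?_
    have g0 : gg B W h z z' (i, 0) k = B i (z i) (fy k) := rfl
    have g1 : gg B W h z z' (i, 1) k = B i (z i) (fx k) + (if i ∈ W then 1 else 0) * h k := rfl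
    have g2 : gg B W h z z' (i, 2) k = B i (z' i) (fy k) + (if i ∈ W then 1 else 0) * h k := rfl
    have g3 : gg B W h z z' (i, 3) k = B i (z' i) (fx k) := rfl
    have v0 : vec z z' (i, 0) k = (z i).2.1 k := rfl
    have v1 : vec z z' (i, 1) k = (z i).2.2 k := rfl
    have v2 : vec z z' (i, 2) k = (z' i).2.1 k := rfl
    have v3 : vec z z' (i, 3) k = (z' i).2.2 k := rfl
    by_cases hi : sp i
    · have t0 : TT2 sp (u k, ν k, fun i => τ i k) r (i, 0) = 0 := by
        unfold TT2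
        rw [if_pos hi]
        rfl
      have t1 : TT2 sp (u k, ν k, fun i => τ i k) r (i, 1) = τ i k * r (i, 1) := by
        unfold TT2
        rw [if_pos hi]
        rfl
      have t2 : TT2 sp (u k, ν k, fun i => τ i k) r (i, 2) = (u k + τ i k) * r (i, 2) := by
        unfold TT2
        rw [if_pos hi]
        rfl
      have t3 : TT2 sp (u k, ν k, fun i => τ i k) r (i, 3) = 0 := by
        unfold TT2
        rw [if_pos hi]
        rfl
      have y1 : (z i).2.1 = 0 := (hc.2.1 i hi).2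
      have y2 : (z' i).2.2 = 0 := (hc.2.2 i hi).2
      have y3 : ∑ l, m l k * (z i).2.1 l = 0 :=
        sum_eq_zero fun l _ => by rw [y1, Pi.zero_apply, mul_zero]
      have y4 : ∑ l, m k l * (z' i).2.2 l = 0 :=
        sum_eq_zero fun l _ => by rw [y2, Pi.zero_apply, mul_zero]
      rw [g0, g1, g2, g3, t0, t1, t2, t3, v0, v1, v2, v3, hS.hx, hS.hx, hS.hy, hS.hy, if_pos hi,
        if_pos hi, y3, y4, y1, y2]
      have y5 : ∀ k : I, (0 : I → ZMod 2) k = 0 := fun _ => rfl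
      simp only [y5]
      have w2 := aa (u k * r (i, 2) * (z' i).2.1 k)
      linear_combination (-1 : ZMod 2) * w2
    · have t0 : TT2 sp (u k, ν k, fun i => τ i k) r (i, 0) =
          (u k + τ i k) * r (i, 0) + ν k * r (i, 1) := by
        unfold TT2
        rw [if_neg hi]
        rfl
      have t1 : TT2 sp (u k, ν k, fun i => τ i k) r (i, 1) =
          u k * r (i, 0) + τ i k * r (i, 1) := by
        unfold TT2
        rw [if_neg hi]
        rfl
      have t2 : TT2 sp (u k, ν k, fun i => τ i k) r (i, 2) =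
          (u k + τ i k) * r (i, 2) + ν k * r (i, 3) := by
        unfold TT2
        rw [if_neg hi]
        rfl
      have t3 : TT2 sp (u k, ν k, fun i => τ i k) r (i, 3) =
          u k * r (i, 2) + τ i k * r (i, 3) := by
        unfold TT2
        rw [if_neg hi]
        rfl
      rw [g0, g1, g2, g3, t0, t1, t2, t3, v0, v1, v2, v3, hS.hx, hS.hx, hS.hy, hS.hy, if_neg hi,
        if_neg hi]
      have w1 := aa (u k * r (i, 0) * (z i).2.1 k)
      have w2 := aa (u k * r (i, 2) * (z' i).2.1 k)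
      linear_combination (-1 : ZMod 2) * w1 - w2
  rw [e4, hm] at h1
  have h5 : u k * HH r z z' k + Θ k (G (HH r z z')) + u k * HH r z z' k =
      Θ k (G (HH r z z')) := by
    have := aa (u k * HH r z z' k)
    linear_combination this
  rw [h5, add_assoc] at h1
  have h6 := add_eq2 h1
  rw [add_zero] at h6
  exact h6.symm

/-- the number of the possible `q` -/
theorem cnt_q2 (h2 : S_LC) {B : ∀ i, EE (E0 i) I →ₗ[ZMod 2] EE (E0 i) I →ₗ[ZMod 2] ZMod 2}
    {sp : Fin n → Prop} {AX AY : ∀ i, Submodule (ZMod 2) (E0 i)}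
    {ν u : I → ZMod 2} {τ : Fin n → I → ZMod 2} {m : I → I → ZMod 2} {C C' : Type} [Fintype C]
    [Fintype C'] {F : ∀ i, EE (E0 i) I → C} {G : (I → ZMod 2) → C'}
    {Φ Ψ : ∀ i, I → E0 i → C → ZMod 2} {Θ : I → C' → ZMod 2}
    (hS : Shp2 B sp AX AY ν u τ m F G Φ Ψ Θ)
    (W : Finset (Fin n)) (R : Submodule (ZMod 2) (Lb n → ZMod 2)) (κ : Ty n) (r : Lb n → ZMod 2)
    (hr : r ∈ R) (hor : TT2 sp κ r ∉ R ∨ vc W r ≠ 0) :
    (univ.filter fun q : (I → ZMod 2) × (∀ i, EE (E0 i) I) × (∀ i, EE (E0 i) I) =>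
      Rl q.2.1 q.2.2 = R ∧ ∃ s, Cw2 B s sp AX AY W q.1 q.2.1 q.2.2).card *
      (2 ^ (univ.filter fun k => (u k, ν k, fun i => τ i k) = κ).card *
      2 ^ (finrank (ZMod 2) R * Fintype.card I)) ≤
      Fintype.card (DD E0 C C') * 2 ^ ((4 * n + 1) * Fintype.card I) := by
  have h3 : Fintype.card (Lb n) = 4 * n := by
    rw [Fintype.card_prod, Fintype.card_fin, Fintype.card_fin, mul_comm]
  let dat : (I → ZMod 2) × (∀ i, EE (E0 i) I) × (∀ i, EE (E0 i) I) → DD E0 C C' := fun q =>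
    (fun i => (q.2.1 i).1, fun i => (q.2.2 i).1, fun i => F i (q.2.1 i), fun i => F i (q.2.2 i),
      G (HH r q.2.1 q.2.2))
  rw [card_eq_sum_card_fiberwise (f := dat) (t := univ) (fun _ _ => mem_coe.2 (mem_univ _)),
    sum_mul]
  have h4 : ∀ d : DD E0 C C', ((univ.filter fun q : (I → ZMod 2) × (∀ i, EE (E0 i) I) ×
      (∀ i, EE (E0 i) I) => Rl q.2.1 q.2.2 = R ∧
        ∃ s, Cw2 B s sp AX AY W q.1 q.2.1 q.2.2).filter
        fun q => dat q = d).card * (2 ^ (univ.filter fun k => (u k, ν k, fun i => τ i k) = κ).card *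
      2 ^ (finrank (ZMod 2) R * Fintype.card I)) ≤ 2 ^ ((4 * n + 1) * Fintype.card I) := by
    intro d
    rw [← h3]
    refine lc_card h2 R (TT2 sp κ r) (vc W r)
      (univ.filter fun k => (u k, ν k, fun i => τ i k) = κ) (cc Φ Ψ Θ r d) hor _
      (fun q => vec q.2.1 q.2.2) (fun q => q.1) ?_ ?_
    · rintro ⟨h, z, z'⟩ hq ⟨g, w, w'⟩ hq' e1 e2
      have hq2 : dat (h, z, z') = d := (mem_filter.1 hq).2
      have hq2' : dat (g, w, w') = d := (mem_filter.1 hq').2
      have e1' : vec z z' = vec w w' := e1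
      have e2' : h = g := e2
      have e3 := hq2.trans hq2'.symm
      have e4 : (fun i => (z i).1) = fun i => (w i).1 := congrArg Prod.fst e3
      have e5 : (fun i => (z' i).1) = fun i => (w' i).1 :=
        congrArg (fun x => x.2.1) e3
      have e6 : z = w := by
        funext i
        have f0 : (z i).2.1 = (w i).2.1 := congrFun e1' (i, 0)
        have f1 : (z i).2.2 = (w i).2.2 := congrFun e1' (i, 1)
        exact Prod.ext (congrFun e4 i) (Prod.ext f0 f1)
      have e7 : z' = w' := by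
        funext i
        have f0 : (z' i).2.1 = (w' i).2.1 := congrFun e1' (i, 2)
        have f1 : (z' i).2.2 = (w' i).2.2 := congrFun e1' (i, 3)
        exact Prod.ext (congrFun e5 i) (Prod.ext f0 f1)
      rw [e2', e6, e7]
    · intro q hq
      obtain ⟨hq1, hq2⟩ := mem_filter.1 hq
      obtain ⟨-, hq3, s, hq4⟩ := mem_filter.1 hq1
      refine ⟨?_, ?_⟩
      · intro r' hr' k
        rw [← hq3] at hr'
        exact hr' k
      · intro k hk
        have h6 := loc2 hS hq4 (r := r) (by rw [hq3]; exact hr) k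
        have h7 := (mem_filter.1 hk).2
        rw [h7] at h6
        rw [← hq2]
        exact h6
  refine (sum_le_sum fun d _ => h4 d).trans ?_
  rw [sum_const, smul_eq_mul, card_univ]

end

theorem t_FR2' (h1 : S_CS) (h2 : S_LC) : S_FR2 := by
  intro n E0 _ _ _ I _ _ B sp AX AY ν u τ m C C' _ _ F G Φ Ψ Θ hS W R κ r V hV hr hor
  set K : Finset I := univ.filter fun k => (u k, ν k, fun i => τ i k) = κ with hK
  set Q : Finset ((I → ZMod 2) × (∀ i, EE (E0 i) I) × (∀ i, EE (E0 i) I)) :=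
    univ.filter fun q => Rl q.2.1 q.2.2 = R ∧ ∃ s, Cw2 B s sp AX AY W q.1 q.2.1 q.2.2 with hQ
  have hq : (Q.card : ℝ) * (2 ^ V * 2 ^ (finrank (ZMod 2) R * Fintype.card I)) ≤
      Fintype.card (DD E0 C C') * 2 ^ ((4 * n + 1) * Fintype.card I) := by
    have h3 := cnt_q2 h2 hS W R κ r hr hor
    have h4 : Q.card * (2 ^ V * 2 ^ (finrank (ZMod 2) R * Fintype.card I)) ≤
        Q.card * (2 ^ K.card * 2 ^ (finrank (ZMod 2) R * Fintype.card I)) :=
      Nat.mul_le_mul_left _ (Nat.mul_le_mul_right _ (Nat.pow_le_pow_right (by norm_num) hV))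
    exact_mod_cast h4.trans h3
  have hs : ∀ q ∈ Q, (((univ.filter fun s : Sy I =>
      Cw2 B s sp AX AY W q.1 q.2.1 q.2.2).card : ℕ) : ℝ) *
      2 ^ (4 * n * Fintype.card I) ≤
      2 ^ (16 * n ^ 2) * 2 ^ (finrank (ZMod 2) R * Fintype.card I) * Fintype.card (Sy I) := by
    intro q hq
    have h3 := cnt_s h1 hS.alt W q.1 q.2.1 q.2.2 R (mem_filter.1 hq).2.1
    have h4 : (univ.filter fun s : Sy I => Cw2 B s sp AX AY W q.1 q.2.1 q.2.2).card ≤
        (univ.filter fun s : Sy I => Cw B s W q.1 q.2.1 q.2.2).card := by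
      refine card_le_card fun s hs => ?_
      exact mem_filter.2 ⟨mem_univ _, (mem_filter.1 hs).2.1⟩
    exact_mod_cast (Nat.mul_le_mul_right _ h4).trans h3
  have hex : ∑ s : Sy I, ((univ.filter fun q : (I → ZMod 2) × (∀ i, EE (E0 i) I) ×
      (∀ i, EE (E0 i) I) => Cw2 B s sp AX AY W q.1 q.2.1 q.2.2 ∧ Rl q.2.1 q.2.2 = R).card : ℝ) =
      ∑ q ∈ Q, (((univ.filter fun s : Sy I =>
        Cw2 B s sp AX AY W q.1 q.2.1 q.2.2).card : ℕ) : ℝ) := by
    have h3 : ∀ s : Sy I, ((univ.filter fun q : (I → ZMod 2) × (∀ i, EE (E0 i) I) ×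
        (∀ i, EE (E0 i) I) =>
          Cw2 B s sp AX AY W q.1 q.2.1 q.2.2 ∧ Rl q.2.1 q.2.2 = R).card : ℝ) =
        ∑ q ∈ Q, if Cw2 B s sp AX AY W q.1 q.2.1 q.2.2 then (1 : ℝ) else 0 := by
      intro s
      rw [sum_boole, hQ, filter_filter]
      congr 2
      ext q
      rw [mem_filter, mem_filter]
      constructor
      · rintro ⟨-, h4, h5⟩
        exact ⟨mem_univ _, ⟨h5, s, h4⟩, h4⟩
      · rintro ⟨-, ⟨h5, -⟩, h4⟩
        exact ⟨mem_univ _, h4, h5⟩
    rw [sum_congr rfl fun s _ => h3 s, sum_comm]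
    refine sum_congr rfl fun q _ => ?_
    rw [sum_boole]
  rw [hex]
  obtain ⟨S, hS'⟩ : ∃ S : ℝ, S = ∑ q ∈ Q, (((univ.filter fun s : Sy I =>
    Cw2 B s sp AX AY W q.1 q.2.1 q.2.2).card : ℕ) : ℝ) := ⟨_, rfl⟩
  rw [← hS']
  have h5 : S * 2 ^ (4 * n * Fintype.card I) ≤ Q.card *
      (2 ^ (16 * n ^ 2) * 2 ^ (finrank (ZMod 2) R * Fintype.card I) * Fintype.card (Sy I)) := by
    rw [hS', sum_mul, ← nsmul_eq_mul]
    exact sum_le_card_nsmul _ _ _ hs
  have h6 : S * 2 ^ (4 * n * Fintype.card I) * 2 ^ V ≤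
      Fintype.card (DD E0 C C') * 2 ^ ((4 * n + 1) * Fintype.card I) *
        (2 ^ (16 * n ^ 2) * Fintype.card (Sy I)) := by
    calc S * 2 ^ (4 * n * Fintype.card I) * 2 ^ V ≤ Q.card *
        (2 ^ (16 * n ^ 2) * 2 ^ (finrank (ZMod 2) R * Fintype.card I) * Fintype.card (Sy I)) *
          2 ^ V := mul_le_mul_of_nonneg_right h5 (by positivity)
      _ = (Q.card : ℝ) * (2 ^ V * 2 ^ (finrank (ZMod 2) R * Fintype.card I)) *
          (2 ^ (16 * n ^ 2) * Fintype.card (Sy I)) := by ring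
      _ ≤ _ := mul_le_mul_of_nonneg_right hq (by positivity)
  have h7 : (2 : ℝ) ^ ((4 * n + 1) * Fintype.card I) =
      2 ^ (4 * n * Fintype.card I) * 2 ^ Fintype.card I := by
    rw [← pow_add]
    congr 1
    ring
  rw [h7, card_DD] at h6
  have h8 : (0 : ℝ) < 2 ^ (4 * n * Fintype.card I) := by positivity
  have h9 : S * 2 ^ V ≤ (∏ i, (Fintype.card (E0 i) : ℝ)) ^ 2 *
      (Fintype.card C : ℝ) ^ (2 * n) * Fintype.card C' * 2 ^ Fintype.card I *
        (2 ^ (16 * n ^ 2) * Fintype.card (Sy I)) := by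
    refine le_of_mul_le_mul_left ?_ h8
    refine le_trans (le_of_eq ?_) (h6.trans (le_of_eq ?_)) <;> ring
  have h10 : S ≤ ((∏ i, (Fintype.card (E0 i) : ℝ)) ^ 2 *
      (Fintype.card C : ℝ) ^ (2 * n) * Fintype.card C' * 2 ^ Fintype.card I *
        (2 ^ (16 * n ^ 2) * Fintype.card (Sy I))) / 2 ^ V := by
    rw [le_div_iff₀ (by positivity)]
    exact h9
  refine h10.trans (le_of_eq ?_)
  ring

theorem t_FR2 : S_FR2 := t_FR2' Pool.Agent.H348.JL.t_CS Pool.Agent.H348.JL.t_LC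

end Pool.Agent.H696.JXFR2
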