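import Pool.Agent.H743.JL.StmD
import Pool.Graph.R_pool_sql_team_seeded_63374d34.N916.AM.Low

/-!
# JL (helper696): HJ, closeness in all the types
-/

set_option autoImplicit false
set_option linter.all false

open scoped Classical

namespace Pool.Agent.H696.JL.HJ

open Finset Filter Topology
open Pool.Agent.Y703.CQ (c2)
open Pool.Agent.H743.X17 (Sys Rt)
open Pool.Agent.H743.JL
open Pool.Agent.N855.GF.Lc17 (Lc Loc KQ mem_KQ)
open Pool.Agent.N919.BS (NN NS HG)
open Pool.Agent.N916.AM (LAH dq)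

theorem rt_excl {x : ℤ} (h1 : Rt x) (h2 : Rt (-x)) : False := by
  have hj : jacobiSym (-x) 17 = jacobiSym x 17 := by
    rw [jacobiSym.neg x (by decide)]
    have : ZMod.χ₄ (17 : ℕ) = 1 := by decide
    rw [this, one_mul]
  rcases h1 with ⟨a, b⟩ | ⟨a, b⟩ <;> rcases h2 with ⟨c, d⟩ | ⟨c, d⟩
  · omega
  · exact d (by rw [hj]; exact b)
  · exact b (by rw [← hj]; exact d)
  · omega

theorem sq_u {s : ℤ} {k : ℕ} (hs : s = 1 ∨ s = -1) (hk : k = 1 ∨ k = 2) :
    Squarefree (s * (k : ℤ)) := by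
  have h2 : Squarefree (2 : ℤ) := Int.prime_two.squarefree
  rcases hs with rfl | rfl <;> rcases hk with rfl | rfl
  · norm_num
  · simpa using h2
  · have : Squarefree (-(1:ℤ)) := (Pool.Agent.N919.BS.sq_neg 1).2 squarefree_one
    simpa using this
  · have : Squarefree (-(2:ℤ)) := (Pool.Agent.N919.BS.sq_neg 2).2 h2
    simpa using this

theorem tw_cop {a b : ℤ} (h : Int.gcd a b = 1) : tw a b = a * b := by
  unfold tw
  rw [h]
  simp

theorem gcd_u {s : ℤ} {k M : ℕ} (hs : s = 1 ∨ s = -1) (hk : k = 1 ∨ k = 2) (hM : M % 2 = 1) :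
    Int.gcd (s * (k : ℤ)) (M : ℤ) = 1 := by
  have h1 : Nat.gcd k M = 1 := by
    rcases hk with rfl | rfl
    · simp
    · exact (Nat.coprime_two_left.2 (Nat.odd_iff.2 hM))
  unfold Int.gcd
  rw [Int.natAbs_mul]
  have : s.natAbs = 1 := by rcases hs with rfl | rfl <;> rfl
  rw [this, one_mul]
  simpa using h1

theorem tw_dvd {e u : ℤ} {m : ℕ} (he : Squarefree e) (hu : Squarefree u) (h1 : e ∣ m)
    (h2 : u ∣ m) : tw e u ∣ m := by
  obtain ⟨g, e', d', hg, h3, h4, h5, h6, -, -, -, -⟩ := Pool.Agent.N855.GF.Tw.split he hu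
  have h7 : tw e u = e' * d' := Pool.Agent.N855.GF.Tw.tw_eq hg h3 h4 h5
  rw [h7]
  have h8 : IsCoprime e' d' := Int.isCoprime_iff_gcd_eq_one.2 h6
  refine h8.mul_dvd ?_ ?_
  · exact (Dvd.intro_left _ h4.symm).trans h1
  · exact (Dvd.intro_left _ h5.symm).trans h2

/-- no condition -/
def Ct (_ : ℕ) : Prop := True

theorem count1 {s : ℤ} {k r m : ℕ} {K : Finset ℕ} (P : ℤ → Prop) (G : Finset ℕ → Prop)
    (h : ∀ x : ℕ, Squarefree x → ((x % 4 = r ∧ P (s * ((k * x : ℕ) : ℤ))) ↔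
      (x % m ∈ K ∧ G x.primeFactors))) (Y : ℕ) :
    NN P s k r Y = ((Icc 1 Y).filter fun x => Squarefree x ∧ x % m ∈ K ∧ G x.primeFactors).card := by
  unfold Pool.Agent.N919.BS.NN
  congr 1
  ext x
  rw [mem_filter, mem_filter]
  refine and_congr_right fun _ => ?_
  exact and_congr_right fun a => h x a

theorem count2 {s : ℤ} {k r m : ℕ} {K : Finset ℕ} (P : ℤ → Prop)
    (h : ∀ x : ℕ, Squarefree x → ((x % 4 = r ∧ P (s * ((k * x : ℕ) : ℤ))) ↔ x % m ∈ K)) (Y : ℕ) :
    NN P s k r Y = ((Icc 1 Y).filter fun x => Squarefree x ∧ x % m ∈ K).card := by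
  unfold Pool.Agent.N919.BS.NN
  congr 1
  ext x
  rw [mem_filter, mem_filter]
  refine and_congr_right fun _ => ?_
  exact and_congr_right fun a => h x a

theorem NN_zero {s : ℤ} {k r : ℕ} (P : ℤ → Prop)
    (h : ∀ x : ℕ, Squarefree x → x % 4 = r → ¬ P (s * ((k * x : ℕ) : ℤ))) (Y : ℕ) :
    NN P s k r Y = 0 := by
  unfold Pool.Agent.N919.BS.NN
  rw [card_eq_zero, filter_eq_empty_iff]
  intro M _ h2
  exact h M h2.1 h2.2.1 h2.2.2

theorem t_HJ (h : S_LV) (h1 : S_TT) : S_HJ := by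
  obtain ⟨tA, tC, -, -, tN, tI⟩ := h1
  intro n t m Q h136 hm ht hinj hQ hR s k r hs hk hr
  obtain ⟨u, hu⟩ : ∃ u : ℤ, u = s * (k : ℤ) := ⟨_, rfl⟩
  have hus : Squarefree u := by
    rw [hu]
    exact sq_u hs hk
  have hum : u ∣ (m : ℤ) := by
    have h2 : (2 : ℤ) ∣ m := by
      have : (2 : ℕ) ∣ m := Dvd.dvd.trans (by norm_num) h136
      exact_mod_cast this
    have h3 : u ∣ 2 := by
      rw [hu]
      rcases hs with rfl | rfl <;> rcases hk with rfl | rfl <;> norm_num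
    exact h3.trans h2
  have hcast : ∀ M : ℕ, s * ((k * M : ℕ) : ℤ) = u * (M : ℤ) := by
    intro M
    rw [hu]
    push_cast
    ring
  have hMu : ∀ M : ℕ, M % 2 = 1 → tw u (M : ℤ) = u * M := by
    intro M hM
    apply tw_cop
    rw [hu]
    exact gcd_u hs hk hM
  have hsq : ∀ M : ℕ, Squarefree M → M % 2 = 1 → Squarefree (s * ((k * M : ℕ) : ℤ)) := by
    intro M hM hM2
    rw [hcast, ← hMu M hM2]
    exact Pool.Agent.N855.GF.Tw.tw_sqf hus (Int.squarefree_natCast.2 hM)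
  -- the two cases
  by_cases hcase : ∃ i j, i ≠ j ∧ t i = - t j
  · obtain ⟨i, j, hij, htij⟩ := hcase
    have hno : ∀ d : ℤ, Squarefree d → ¬ Q d := by
      intro d hd hQd
      have h2 := hR d hd hQd i
      have h3 := hR d hd hQd j
      rw [htij, tN _ _ (ht j).1 hd] at h2
      exact rt_excl h3 h2
    have hzero : ∀ (P : ℤ → Prop), (∀ d, P d → Q d) → ∀ Y, NN P s k r Y = 0 := by
      intro P hP Y
      exact NN_zero P (fun x hx hx4 hPx => hno _ (hsq x hx (by omega)) (hP _ hPx)) Y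
    intro ε hε
    refine ⟨0, fun Y _ => ?_⟩
    rw [hzero _ (fun d hd => hd.1) Y, hzero Q (fun d hd => hd) Y]
    simp only [Nat.cast_zero, mul_zero, sub_zero, abs_zero]
    positivity
  · have hcase' : ∀ i j, i ≠ j → t i ≠ - t j := fun i j hij h2 => hcase ⟨i, j, hij, h2⟩
    obtain ⟨K, hK⟩ : ∃ K : Finset ℕ, K = KQ m Q s k r Ct := ⟨_, rfl⟩
    have hmem : ∀ {x : ℕ}, Squarefree x → (x % m ∈ K ↔ x % 4 = r ∧ Ct x ∧
        Q (s * ((k * x : ℕ) : ℤ))) := by
      intro x hx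
      rw [hK]
      exact mem_KQ h136 hm hQ hs hk hr (fun _ => Iff.rfl) hx
    have hodd : ∀ a ∈ K, a % 2 = 1 := by
      intro a ha
      rw [hK] at ha
      have := (mem_filter.1 ha).2.1
      omega
    have h8 : 8 ∣ m := Dvd.dvd.trans (by norm_num) h136
    have h17 : 17 ∣ m := Dvd.dvd.trans (by norm_num) h136
    have htw : ∀ (i : Fin n) (M : ℕ), Squarefree M → M % 2 = 1 →
        tw (t i) (s * ((k * M : ℕ) : ℤ)) = tw (tw (t i) u) M := by
      intro i M hM hM2
      rw [hcast, ← hMu M hM2]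
      exact tA _ _ _ (ht i).1 hus (Int.squarefree_natCast.2 hM)
    obtain ⟨G, hG⟩ : ∃ G : Finset ℕ → Prop, G = fun S : Finset ℕ => ∀ i, Sys (tw (tw (t i) u)
      (∏ p ∈ S, (p : ℤ))) := ⟨_, rfl⟩
    have hGx : ∀ x : ℕ, Squarefree x → (G x.primeFactors ↔ ∀ i, Sys (tw (tw (t i) u) x)) := by
      intro x hx
      have e : (∏ p ∈ x.primeFactors, (p : ℤ)) = x := by
        rw [← Nat.cast_prod, Nat.prod_primeFactors_of_squarefree hx]
      rw [hG]
      show (∀ i, Sys (tw (tw (t i) u) (∏ p ∈ x.primeFactors, (p : ℤ)))) ↔ _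
      rw [e]
    have hL : LAH m K G (c2 ^ n) := by
      rw [hG]
      refine h n (fun i => tw (t i) u) m K hm h8 h17 ?_ ?_ ?_
      · intro i
        exact ⟨Pool.Agent.N855.GF.Tw.tw_sqf (ht i).1 hus, tw_dvd (ht i).1 hus (ht i).2 hum⟩
      · intro i j hij
        constructor
        · intro h2
          exact hij (hinj (tI _ _ _ (ht i).1 (ht j).1 hus h2))
        · intro h2
          have h3 : tw (t i) u = tw (- t j) u := by
            rw [tN _ _ (ht j).1 hus]
            exact h2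
          exact hcase' i j hij (tI _ _ _ (ht i).1
            ((Pool.Agent.N919.BS.sq_neg (t j)).2 (ht j).1) hus h3)
      · intro x hx hxo hxK i
        have h2 := (hmem hx).1 hxK
        have hx2 : x % 2 = 1 := Nat.odd_iff.1 hxo
        have h3 := hR _ (hsq x hx hx2) h2.2.2 i
        rw [htw i x hx hx2] at h3
        exact h3
    have hc0 : (0:ℝ) ≤ c2 ^ n := pow_nonneg Pool.Agent.N916.MO.c201.1 n
    have hc1 : c2 ^ n ≤ (1:ℝ) := pow_le_one₀ Pool.Agent.N916.MO.c201.1 Pool.Agent.N916.MO.c201.2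
    intro ε hε
    obtain ⟨X₀, hX₀⟩ := dq h8 hm hc0 hc1 hL hodd ε hε
    refine ⟨X₀, fun Y hY => ?_⟩
    have h2 := hX₀ Y hY
    have e1 : NN (fun d => Q d ∧ ∀ i, Sys (tw (t i) d)) s k r Y = ((Icc 1 Y).filter fun x =>
        Squarefree x ∧ x % m ∈ K ∧ G x.primeFactors).card := by
      apply count1
      intro x a
      rw [hGx x a]
      constructor
      · rintro ⟨b, c, d⟩
        refine ⟨(hmem a).2 ⟨b, trivial, c⟩, fun i => ?_⟩
        have h3 := d i
        rw [htw i x a (by omega)] at h3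
        exact h3
      · rintro ⟨b, d⟩
        obtain ⟨b1, -, b3⟩ := (hmem a).1 b
        refine ⟨b1, b3, fun i => ?_⟩
        rw [htw i x a (by omega)]
        exact d i
    have e2 : NN Q s k r Y = ((Icc 1 Y).filter fun x => Squarefree x ∧ x % m ∈ K).card := by
      apply count2
      intro x a
      constructor
      · rintro ⟨b, c⟩
        exact (hmem a).2 ⟨b, trivial, c⟩
      · intro b
        obtain ⟨b1, -, b3⟩ := (hmem a).1 b
        exact ⟨b1, b3⟩
    rw [e1, e2]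
    exact h2

end Pool.Agent.H696.JL.HJ
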