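import Pool.Agent.H743.JL.StmX
import Pool.Agent.H743.JL.IV

/-! JX-IV2: invariant relation spaces for forms of two kinds (helper271 for helper743). -/

set_option autoImplicit false
set_option linter.all false

open scoped Classical

namespace Pool.Agent.H271.JX

open Finset Module Pool.Agent.H743.JL Pool.Agent.N916.MO
open Pool.Agent.H348.JL (Mf emb TT0 TT1 TT2 TT3 TTTT TT_emb emb_add)

variable {n : ℕ}

theorem T2sp (sp : Fin n → Prop) (κ : Ty n) (r : Lb n → ZMod 2) (i : Fin n) (a : Fin 4) (h : sp i) :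
    Pool.Agent.H743.JL.TT2 sp κ r (i, a) = ![0, κ.2.2 i * r (i, 1), (κ.1 + κ.2.2 i) * r (i, 2), 0] a :=
  if_pos h

theorem T2ns (sp : Fin n → Prop) (κ : Ty n) (r : Lb n → ZMod 2) (i : Fin n) (a : Fin 4) (h : ¬ sp i) :
    Pool.Agent.H743.JL.TT2 sp κ r (i, a) = TT κ r (i, a) :=
  if_neg h

theorem TT_congr (κ : Ty n) (r r' : Lb n → ZMod 2) (i : Fin n) (h : ∀ a, r (i, a) = r' (i, a))
    (a : Fin 4) : TT κ r (i, a) = TT κ r' (i, a) := by
  unfold TT
  simp only [h]

/-- the nilpotent operator on the blocks which are not split -/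
noncomputable def Nf (sp : Fin n → Prop) (r : Lb n → ZMod 2) : Lb n → ZMod 2 := fun p =>
  if sp p.1 then 0 else ![r (p.1, 1), 0, r (p.1, 3), 0] p.2

/-- the correction -/
noncomputable def Cf (sp : Fin n → Prop) (t : Fin n → ZMod 2) (r : Lb n → ZMod 2) : Lb n → ZMod 2 := fun p =>
  if sp p.1 then ![t p.1 * r (p.1, 0), 0, 0, t p.1 * r (p.1, 3)] p.2 else 0

theorem emb_same (i : Fin n) (v : Fin 4 → ZMod 2) (a : Fin 4) : emb i v (i, a) = v a := if_pos rfl
theorem emb_diff (i j : Fin n) (v : Fin 4 → ZMod 2) (a : Fin 4) (h : j ≠ i) : emb i v (j, a) = 0 := if_neg h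

theorem t_IV2 : S_IV2 := by
  intro n sp Γ hΓ R hu hR hr0
  obtain ⟨hs1, ⟨κ2, hκ2, hu2, hν2⟩, ⟨κ3, hκ3, hu3, hν3⟩⟩ := hΓ
  have hneg : ∀ t : ZMod 2, t + t = 0 := by decide
  -- sums of unit vectors
  have hgen : ∀ r : Lb n → ZMod 2, (∀ p, r p ≠ 0 → (Pi.single p 1 : Lb n → ZMod 2) ∈ R) → r ∈ R := by
    intro r hr
    have hsum : r = ∑ p : Lb n, r p • (Pi.single p 1 : Lb n → ZMod 2) := by
      funext q
      rw [Finset.sum_apply, Finset.sum_eq_single q]
      · simp
      · intro p _ hp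
        simp [Pi.single_apply, hp.symm]
      · intro h
        exact absurd (Finset.mem_univ q) h
    rw [hsum]
    refine R.sum_mem fun p _ => ?_
    by_cases h : r p = 0
    · rw [h, zero_smul]
      exact R.zero_mem
    · exact R.smul_mem _ (hr p h)
  have hC : ∀ t r, Cf sp t r ∈ R := by
    intro t r
    refine hgen _ fun p hp => ?_
    obtain ⟨i, a⟩ := p
    by_cases h : sp i
    · fin_cases a
      · exact (hu i h).1
      · exact absurd (by simp [Cf]) hp
      · exact absurd (by simp [Cf]) hp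
      · exact (hu i h).2
    · exact absurd (if_neg h) hp
  have hA : ∀ κ ∈ Γ, κ.1 = 0 → ∀ r ∈ R, Mf κ.2.2 r ∈ R := by
    intro κ hκ h r hr
    have h1 := hR κ hκ _ (hR κ hκ _ hr)
    have h2 : Mf κ.2.2 r = Pool.Agent.H743.JL.TT2 sp κ (Pool.Agent.H743.JL.TT2 sp κ r) + Cf sp κ.2.2 r := by
      funext p
      obtain ⟨i, a⟩ := p
      rw [Pi.add_apply]
      by_cases hi : sp i
      · rw [T2sp _ _ _ _ _ hi]
        have e1 := T2sp sp κ r i 1 hi
        have e2 := T2sp sp κ r i 2 hi
        rw [e1, e2, h]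
        have q1 : ∀ t a : ZMod 2, t * a = t * (t * a) := by decide
        have q2 : ∀ t a : ZMod 2, t * a = (0 + t) * ((0 + t) * a) := by decide
        fin_cases a
        · simp [Mf, Cf, hi]
        · simpa [Mf, Cf, hi] using q1 (κ.2.2 i) (r (i, 1))
        · simpa [Mf, Cf, hi] using q2 (κ.2.2 i) (r (i, 2))
        · simp [Mf, Cf, hi]
      · rw [T2ns _ _ _ _ _ hi, TT_congr κ _ (TT κ r) i (fun b => T2ns _ _ _ _ _ hi), TTTT κ h]
        have : Cf sp κ.2.2 r (i, a) = 0 := if_neg hi
        rw [this, add_zero]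
    rw [h2]
    exact R.add_mem h1 (hC _ _)
  have hN : ∀ r ∈ R, Nf sp r ∈ R := by
    intro r hr
    have h2 : Nf sp r = Pool.Agent.H743.JL.TT2 sp κ2 r + Mf κ2.2.2 r + Cf sp κ2.2.2 r := by
      funext p
      obtain ⟨i, a⟩ := p
      rw [Pi.add_apply, Pi.add_apply]
      by_cases hi : sp i
      · rw [T2sp _ _ _ _ _ hi, hu2]
        have e0 : Nf sp r (i, a) = 0 := if_pos hi
        rw [e0]
        fin_cases a
        · simp [Mf, Cf, hi, hneg]
        · simp [Mf, Cf, hi, hneg]
        · simp [Mf, Cf, hi, hneg]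
        · simp [Mf, Cf, hi, hneg]
      · rw [T2ns _ _ _ _ _ hi]
        have e1 : Cf sp κ2.2.2 r (i, a) = 0 := if_neg hi
        have e0 : Nf sp r (i, a) = ![r (i, 1), 0, r (i, 3), 0] a := if_neg hi
        rw [e1, e0, add_zero]
        have q1 : ∀ t a b : ZMod 2, b = (0 + t) * a + 1 * b + t * a := by decide
        have q2 : ∀ t a b : ZMod 2, 0 = 0 * a + t * b + t * b := by decide
        fin_cases a
        · change r (i, 1) = TT κ2 r (i, 0) + κ2.2.2 i * r (i, 0)
          rw [Pool.Agent.H348.JL.TT0, hu2, hν2]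
          exact q1 _ _ _
        · change 0 = TT κ2 r (i, 1) + κ2.2.2 i * r (i, 1)
          rw [Pool.Agent.H348.JL.TT1, hu2]
          exact q2 _ _ _
        · change r (i, 3) = TT κ2 r (i, 2) + κ2.2.2 i * r (i, 2)
          rw [Pool.Agent.H348.JL.TT2, hu2, hν2]
          exact q1 _ _ _
        · change 0 = TT κ2 r (i, 3) + κ2.2.2 i * r (i, 3)
          rw [Pool.Agent.H348.JL.TT3, hu2]
          exact q2 _ _ _
    rw [h2]
    exact R.add_mem (R.add_mem (hR κ2 hκ2 _ hr) (hA κ2 hκ2 hu2 r hr)) (hC _ _)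
  -- the classes
  set rel : Fin n → Fin n → Prop := fun i j => ∀ κ ∈ Γ, κ.1 = 0 → κ.2.2 i = κ.2.2 j with hrel
  have hcl : ∀ (i : Fin n) (s : Finset (Fin n)), (∀ j ∈ s, ¬ rel i j) →
      ∃ f : Fin n → ZMod 2, (∀ r ∈ R, Mf f r ∈ R) ∧ (∀ l, rel i l → f l = 1) ∧ ∀ j ∈ s, f j = 0 := by
    intro i s
    induction s using Finset.induction_on with
    | empty => exact fun _ => ⟨fun _ => 1, fun r hr => by
        have : Mf (fun _ => 1) r = r := by funext p; simp [Mf]
        rwa [this], fun l _ => rfl, fun j hj => absurd hj (Finset.notMem_empty j)⟩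
    | insert j s hj ih =>
      intro hi
      obtain ⟨f, hf1, hf2, hf3⟩ := ih (fun l hl => hi l (Finset.mem_insert_of_mem hl))
      have hj2 := hi j (Finset.mem_insert_self _ _)
      simp only [hrel] at hj2
      push Not at hj2
      obtain ⟨κ, hκ, h0, hne⟩ := hj2
      obtain ⟨g, hg1, hg2, hg3⟩ : ∃ g : Fin n → ZMod 2, (∀ r ∈ R, Mf g r ∈ R) ∧ (∀ l, rel i l → g l = 1) ∧
          g j = 0 := by
        have hcases : ∀ a b : ZMod 2, a ≠ b → (a = 1 ∧ b = 0) ∨ (a = 0 ∧ b = 1) := by decide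
        rcases hcases _ _ hne with ⟨h1, h2⟩ | ⟨h1, h2⟩
        · exact ⟨κ.2.2, hA κ hκ h0, fun l hl => by rw [← hl κ hκ h0]; exact h1, h2⟩
        · refine ⟨fun l => 1 + κ.2.2 l, fun r hr => ?_, ?_, ?_⟩
          · have : Mf (fun l => 1 + κ.2.2 l) r = r + Mf κ.2.2 r := by
              funext p
              simp [Mf, add_mul]
            rw [this]
            exact R.add_mem hr (hA κ hκ h0 r hr)
          · intro l hl
            change 1 + κ.2.2 l = 1
            rw [← hl κ hκ h0, h1, add_zero]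
          · change 1 + κ.2.2 j = 0
            rw [h2]; decide
      refine ⟨fun l => f l * g l, fun r hr => ?_, ?_, ?_⟩
      · have : Mf (fun l => f l * g l) r = Mf f (Mf g r) := by
          funext p
          simp [Mf, mul_assoc]
        rw [this]
        exact hf1 _ (hg1 _ hr)
      · intro l hl
        change f l * g l = 1
        rw [hf2 l hl, hg2 l hl]; decide
      · intro l hl
        rcases Finset.mem_insert.1 hl with h | h
        · change f l * g l = 0
          rw [h, hg3, mul_zero]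
        · change f l * g l = 0
          rw [hf3 l h, zero_mul]
  have hf : ∀ i : Fin n, ∃ f : Fin n → ZMod 2, (∀ r ∈ R, Mf f r ∈ R) ∧ f i = 1 ∧
      ∀ j, j ≠ i → f j ≠ 0 → ¬ (sp i ↔ sp j) := by
    intro i
    obtain ⟨f, h1, h2, h3⟩ := hcl i (univ.filter fun j => ¬ rel i j) (fun j hj => (mem_filter.1 hj).2)
    refine ⟨f, h1, h2 i (fun κ _ _ => rfl), fun j hj hfj => ?_⟩
    have hr : rel i j := by
      by_contra h
      exact hfj (h3 j (mem_filter.2 ⟨mem_univ _, h⟩))
    rcases hs1 i j (Ne.symm hj) with ⟨κ, hκ, h0, hne⟩ | h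
    · exact absurd (hr κ hκ h0) hne
    · exact h
  set v : Lb n → ZMod 2 := fun p => if p.2 = 1 ∨ p.2 = 2 then (1 : ZMod 2) else 0 with hv
  have hv0 : ∀ l, v (l, 0) = 0 := fun l => by simp [hv]
  have hv1 : ∀ l, v (l, 1) = 1 := fun l => by simp [hv]
  have hv2 : ∀ l, v (l, 2) = 1 := fun l => by simp [hv]
  have hv3 : ∀ l, v (l, 3) = 0 := fun l => by simp [hv]
  have hscal : ∀ (i : Fin n) (c : ZMod 2) (w : Fin 4 → ZMod 2), emb i w ∈ R → emb i (c • w) ∈ R := by
    intro i c w hw
    have : emb i (c • w) = c • emb i w := by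
      funext p
      by_cases h : p.1 = i <;> simp [emb, h]
    rw [this]
    exact R.smul_mem _ hw
  -- the action of the third type on one block
  have hT : ∀ (i : Fin n), ¬ sp i → ∀ w : Fin 4 → ZMod 2, emb i w ∈ R → emb i ![w 0, w 0, w 2, w 2] ∈ R := by
    intro i hi w hw
    have h1 := hR κ3 hκ3 _ hw
    have h2 : Pool.Agent.H743.JL.TT2 sp κ3 (emb i w) = TT κ3 (emb i w) := by
      funext p
      obtain ⟨j, a⟩ := p
      by_cases hj : j = i
      · subst hj
        exact T2ns _ _ _ _ _ hi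
      · have e : TT κ3 (emb i w) (j, a) = 0 := by
          rw [TT_emb]
          exact emb_diff _ _ _ _ hj
        rw [e]
        by_cases hs : sp j
        · rw [T2sp _ _ _ _ _ hs, emb_diff _ _ _ _ hj, emb_diff _ _ _ _ hj]
          fin_cases a <;> simp
        · rw [T2ns _ _ _ _ _ hs, e]
    rw [h2, TT_emb, hu3, hν3] at h1
    have h3 := R.add_mem h1 (hscal i (κ3.2.2 i) w hw)
    rw [emb_add] at h3
    have h4 : (![(1 + κ3.2.2 i) * w 0 + 0 * w 1, 1 * w 0 + κ3.2.2 i * w 1,
        (1 + κ3.2.2 i) * w 2 + 0 * w 3, 1 * w 2 + κ3.2.2 i * w 3] + (κ3.2.2 i) • w :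
        Fin 4 → ZMod 2) = ![w 0, w 0, w 2, w 2] := by
      have q1 : ∀ t a b : ZMod 2, (1 + t) * a + 0 * b + t * a = a := by decide
      have q2 : ∀ t a b : ZMod 2, 1 * a + t * b + t * b = a := by decide
      funext a
      fin_cases a
      · exact q1 _ _ _
      · exact q2 _ _ _
      · exact q1 _ _ _
      · exact q2 _ _ _
    rwa [h4] at h3
  -- the blocks which are not split
  have hns : ∀ i, ¬ sp i → ∀ a : Fin 4, emb i (Pi.single a 1) ∈ R := by
    intro i hi
    obtain ⟨f, hf1, hf2, hf3⟩ := hf i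
    have hspj : ∀ j, j ≠ i → f j ≠ 0 → sp j := fun j hj h => by
      have := hf3 j hj h
      by_contra h2
      exact this ⟨fun h3 => absurd h3 hi, fun h3 => absurd h3 h2⟩
    have w1 : Mf f v ∈ R := hf1 v hr0
    -- vectors whose non split part is in the block `i`
    have hNb : ∀ r : Lb n → ZMod 2, r ∈ R → (∀ j, j ≠ i → ¬ sp j → ∀ a, r (j, a) = 0) →
        emb i ![r (i, 1), 0, r (i, 3), 0] ∈ R := by
      intro r hr h0
      have h2 : emb i ![r (i, 1), 0, r (i, 3), 0] = Nf sp r := by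
        funext p
        obtain ⟨j, a⟩ := p
        by_cases hj : j = i
        · subst hj
          rw [emb_same]
          exact (if_neg hi).symm
        · rw [emb_diff _ _ _ _ hj]
          by_cases hs : sp j
          · exact (if_pos hs).symm
          · have : Nf sp r (j, a) = ![r (j, 1), 0, r (j, 3), 0] a := if_neg hs
            rw [this, h0 j hj hs, h0 j hj hs]
            fin_cases a <;> rfl
      rw [h2]
      exact hN r hr
    have hfv : ∀ j, j ≠ i → ¬ sp j → ∀ a, Mf f v (j, a) = 0 := by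
      intro j hj hs a
      have : f j = 0 := by
        by_contra h
        exact hs (hspj j hj h)
      change f j * v (j, a) = 0
      rw [this, zero_mul]
    have e0 : emb i ![1, 0, 0, 0] ∈ R := by
      have h1 := hNb _ w1 hfv
      have h2 : Mf f v (i, 1) = 1 := by
        change f i * v (i, 1) = 1
        rw [hf2]; rfl
      have h3 : Mf f v (i, 3) = 0 := by
        change f i * v (i, 3) = 0
        rw [hf2]; rfl
      rwa [h2, h3] at h1
    have e1 : emb i ![0, 1, 0, 0] ∈ R := by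
      have h1 := R.add_mem (hT i hi _ e0) e0
      rw [emb_add] at h1
      have h : (![(![1, 0, 0, 0] : Fin 4 → ZMod 2) 0, (![1, 0, 0, 0] : Fin 4 → ZMod 2) 0,
        (![1, 0, 0, 0] : Fin 4 → ZMod 2) 2, (![1, 0, 0, 0] : Fin 4 → ZMod 2) 2] + ![1, 0, 0, 0] :
        Fin 4 → ZMod 2) = ![0, 1, 0, 0] := by decide
      rwa [h] at h1
    have e2 : emb i ![0, 0, 1, 0] ∈ R := by
      have h1 := hR κ3 hκ3 _ (R.add_mem w1 e1)
      have h2 := hNb _ h1 (fun j hj hs a => by
        have h5 : ∀ b, (Mf f v + emb i ![0, 1, 0, 0]) (j, b) = (0 : Lb n → ZMod 2) (j, b) := by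
          intro b
          rw [Pi.add_apply, hfv j hj hs b, emb_diff _ _ _ _ hj]
          rfl
        rw [T2ns _ _ _ _ _ hs, TT_congr κ3 _ 0 j h5]
        unfold TT
        fin_cases a <;> simp)
      have h6 : Pool.Agent.H743.JL.TT2 sp κ3 (Mf f v + emb i ![0, 1, 0, 0]) (i, 1) = 0 := by
        rw [T2ns _ _ _ _ _ hi, Pool.Agent.H348.JL.TT1]
        have h7 : (Mf f v + emb i ![0, 1, 0, 0]) (i, 0) = 0 := by
          rw [Pi.add_apply, emb_same]
          change f i * v (i, 0) + _ = 0
          rw [hf2, hv0]; rfl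
        have h8 : (Mf f v + emb i ![0, 1, 0, 0]) (i, 1) = 0 := by
          rw [Pi.add_apply, emb_same]
          change f i * v (i, 1) + _ = 0
          rw [hf2, hv1, mul_one]; exact hneg 1
        rw [h7, h8, mul_zero, mul_zero, add_zero]
      have h9 : Pool.Agent.H743.JL.TT2 sp κ3 (Mf f v + emb i ![0, 1, 0, 0]) (i, 3) = 1 := by
        rw [T2ns _ _ _ _ _ hi, Pool.Agent.H348.JL.TT3]
        have h7 : (Mf f v + emb i ![0, 1, 0, 0]) (i, 2) = 1 := by
          rw [Pi.add_apply, emb_same]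
          change f i * v (i, 2) + _ = 1
          rw [hf2, hv2]; rfl
        have h8 : (Mf f v + emb i ![0, 1, 0, 0]) (i, 3) = 0 := by
          rw [Pi.add_apply, emb_same]
          change f i * v (i, 3) + _ = 0
          rw [hf2, hv3]; rfl
        rw [h7, h8, mul_zero, add_zero, hu3, mul_one]
      rwa [h6, h9] at h2
    have e3 : emb i ![0, 0, 0, 1] ∈ R := by
      have h1 := R.add_mem (hT i hi _ e2) e2
      rw [emb_add] at h1
      have h : (![(![0, 0, 1, 0] : Fin 4 → ZMod 2) 0, (![0, 0, 1, 0] : Fin 4 → ZMod 2) 0,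
        (![0, 0, 1, 0] : Fin 4 → ZMod 2) 2, (![0, 0, 1, 0] : Fin 4 → ZMod 2) 2] + ![0, 0, 1, 0] :
        Fin 4 → ZMod 2) = ![0, 0, 0, 1] := by decide
      rwa [h] at h1
    intro a
    fin_cases a
    · have h : (Pi.single (0 : Fin 4) 1 : Fin 4 → ZMod 2) = ![1, 0, 0, 0] := by decide
      exact h ▸ e0
    · have h : (Pi.single (1 : Fin 4) 1 : Fin 4 → ZMod 2) = ![0, 1, 0, 0] := by decide
      exact h ▸ e1
    · have h : (Pi.single (2 : Fin 4) 1 : Fin 4 → ZMod 2) = ![0, 0, 1, 0] := by decide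
      exact h ▸ e2
    · have h : (Pi.single (3 : Fin 4) 1 : Fin 4 → ZMod 2) = ![0, 0, 0, 1] := by decide
      exact h ▸ e3
  have hes : ∀ p : Lb n, emb p.1 (Pi.single p.2 1) = (Pi.single p 1 : Lb n → ZMod 2) := by
    intro p
    funext q
    obtain ⟨i, a⟩ := p
    obtain ⟨j, b⟩ := q
    by_cases hj : j = i
    · subst hj
      rw [emb_same]
      by_cases hb : b = a
      · subst hb
        rw [Pi.single_eq_same, Pi.single_eq_same]
      · rw [Pi.single_eq_of_ne hb, Pi.single_eq_of_ne (fun h => hb (congrArg Prod.snd h))]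
    · rw [emb_diff _ _ _ _ hj, Pi.single_eq_of_ne (fun h => hj (congrArg Prod.fst h))]
  -- the split blocks
  have hs : ∀ j, sp j → ∀ a : Fin 4, emb j (Pi.single a 1) ∈ R := by
    intro j hj
    obtain ⟨f, hf1, hf2, hf3⟩ := hf j
    have w1 : Mf f v ∈ R := hf1 v hr0
    have w2 : emb j ![0, 1, 1, 0] ∈ R := by
      have h1 : emb j ![0, 1, 1, 0] + Mf f v ∈ R := by
        refine hgen _ fun p hp => ?_
        rw [← hes]
        apply hns
        intro hsp
        apply hp
        obtain ⟨l, a⟩ := p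
        rw [Pi.add_apply]
        change emb j ![0, 1, 1, 0] (l, a) + f l * v (l, a) = 0
        by_cases hl : l = j
        · subst hl
          rw [emb_same, hf2, one_mul]
          fin_cases a
          · change 0 + v (l, 0) = 0
            rw [hv0, add_zero]
          · change 1 + v (l, 1) = 0
            rw [hv1]; exact hneg 1
          · change 1 + v (l, 2) = 0
            rw [hv2]; exact hneg 1
          · change 0 + v (l, 3) = 0
            rw [hv3, add_zero]
        · rw [emb_diff _ _ _ _ hl]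
          have : f l = 0 := by
            by_contra h
            exact hf3 l hl h ⟨fun _ => hsp, fun _ => hj⟩
          rw [this, zero_mul, add_zero]
      have h2 := R.add_mem h1 w1
      have h3 : emb j ![0, 1, 1, 0] + Mf f v + Mf f v = emb j ![0, 1, 1, 0] := by
        funext p
        simp only [Pi.add_apply]
        rw [add_assoc, hneg, add_zero]
      rwa [h3] at h2
    have w3 := hR κ3 hκ3 _ w2
    have w4 : Pool.Agent.H743.JL.TT2 sp κ3 (emb j ![0, 1, 1, 0]) =
        emb j ![0, κ3.2.2 j, 1 + κ3.2.2 j, 0] := by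
      funext p
      obtain ⟨l, a⟩ := p
      by_cases hl : l = j
      · subst hl
        rw [T2sp _ _ _ _ _ hj, emb_same, emb_same, emb_same, hu3]
        fin_cases a <;> simp
      · rw [emb_diff j l _ a hl]
        by_cases h : sp l
        · rw [T2sp _ _ _ _ _ h, emb_diff _ _ _ _ hl, emb_diff _ _ _ _ hl]
          fin_cases a <;> simp
        · rw [T2ns _ _ _ _ _ h, TT_emb]
          exact emb_diff _ _ _ _ hl
    rw [w4] at w3
    have w5 : emb j ![0, 1, 0, 0] ∈ R ∧ emb j ![0, 0, 1, 0] ∈ R := by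
      have hc : ∀ t : ZMod 2, t = 0 ∨ t = 1 := by decide
      have w6 := R.add_mem w2 w3
      rw [emb_add] at w6
      rcases hc (κ3.2.2 j) with h | h
      · rw [h] at w3 w6
        have h1 : (![0, 1, 1, 0] + ![0, 0, 1 + 0, 0] : Fin 4 → ZMod 2) = ![0, 1, 0, 0] := by decide
        have h2 : (![0, 0, 1 + 0, 0] : Fin 4 → ZMod 2) = ![0, 0, 1, 0] := by decide
        rw [h1] at w6
        rw [h2] at w3
        exact ⟨w6, w3⟩
      · rw [h] at w3 w6
        have h1 : (![0, 1, 1, 0] + ![0, 1, 1 + 1, 0] : Fin 4 → ZMod 2) = ![0, 0, 1, 0] := by decide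
        have h2 : (![0, 1, 1 + 1, 0] : Fin 4 → ZMod 2) = ![0, 1, 0, 0] := by decide
        rw [h1] at w6
        rw [h2] at w3
        exact ⟨w3, w6⟩
    intro a
    fin_cases a
    · have := (hu j hj).1
      rw [← hes] at this
      exact this
    · have h : (Pi.single (1 : Fin 4) 1 : Fin 4 → ZMod 2) = ![0, 1, 0, 0] := by decide
      exact h ▸ w5.1
    · have h : (Pi.single (2 : Fin 4) 1 : Fin 4 → ZMod 2) = ![0, 0, 1, 0] := by decide
      exact h ▸ w5.2
    · have := (hu j hj).2
      rw [← hes] at this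
      exact this
  rw [eq_top_iff]
  intro r _
  refine hgen r fun p _ => ?_
  rw [← hes]
  by_cases h : sp p.1
  · exact hs p.1 h p.2
  · exact hns p.1 h p.2

end Pool.Agent.H271.JX
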