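import Pool.Agent.H743.JL.Stm
import Pool.Agent.H743.JL.Str2W

/-!
# JL (helper743), part JT: the joint law from FM and CH (helper376; adapted to the weaker field `na`)
-/

set_option autoImplicit false
set_option linter.all false

open scoped Classical

namespace Pool.Agent.H376.JL

open Finset Module
open Pool.Agent.N916.MO
open Pool.Agent.H743.JL
open Pool.Agent.Y703.CQ (c2)

section
variable {I : Type} [Fintype I] [DecidableEq I]

variable {n : ℕ} {E0 : Fin n → Type} [∀ i, AddCommGroup (E0 i)] [∀ i, Module (ZMod 2) (E0 i)]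
  [∀ i, Fintype (E0 i)]

/-- the bounds for one form -/
theorem bd_of {B : ∀ i, EE (E0 i) I →ₗ[ZMod 2] EE (E0 i) I →ₗ[ZMod 2] ZMod 2}
    {ν u : I → ZMod 2} {τ : Fin n → I → ZMod 2} {m : I → I → ZMod 2} {C C' : Type} [Fintype C]
    [Fintype C'] {F : ∀ i, EE (E0 i) I → C} {G : (I → ZMod 2) → C'}
    {Φ Ψ : ∀ i, I → E0 i → C → ZMod 2} {Θ : I → C' → ZMod 2} (h : Shp B ν u τ m F G Φ Ψ Θ)
    {Γ : Finset (Ty n)} {V : ℕ} (hΓ : Sep Γ)
    (hV : ∀ κ ∈ Γ, V ≤ (univ.filter fun k => (u k, ν k, fun i => τ i k) = κ).card) {δ : ℝ}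
    (i : Fin n)
    (hδ : (Fintype.card (E0 i) * Fintype.card C : ℝ) ^ 2 * Fintype.card C' / 2 ^ V ≤ δ) :
    Bd (B i) univ δ := by
  have s1 : ∀ (k : I) (x : I → ZMod 2),
      ∑ l, (m k l + if k = l then τ i k else 0) * x l = ∑ l, m k l * x l + τ i k * x k := by
    intro k x
    have e : ∀ l, (m k l + if k = l then τ i k else 0) * x l =
        m k l * x l + if k = l then τ i k * x l else 0 := by
      intro l
      split_ifs
      · rw [add_mul]
      · rw [add_zero, add_zero]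
    rw [sum_congr rfl fun l _ => e l, sum_add_distrib, sum_ite_eq univ k, if_pos (mem_univ k)]
  have s2 : ∀ (k : I) (x : I → ZMod 2),
      ∑ l, (m l k + if l = k then τ i l else 0) * x l = ∑ l, m l k * x l + τ i k * x k := by
    intro k x
    have e : ∀ l, (m l k + if l = k then τ i l else 0) * x l =
        m l k * x l + if l = k then τ i l * x l else 0 := by
      intro l
      split_ifs
      · rw [add_mul]
      · rw [add_zero, add_zero]
    rw [sum_congr rfl fun l _ => e l, sum_add_distrib, sum_ite_eq' univ k, if_pos (mem_univ k)]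
  obtain ⟨-, ⟨κ1, hκ1, a1, a2⟩, κ2, hκ2, b1, b2⟩ := hΓ
  have hk1 : ∀ k, (u k, ν k, fun i => τ i k) = κ1 → u k = 0 ∧ ν k = 1 := by
    intro k hk
    rw [← hk] at a1 a2
    exact ⟨a1, a2⟩
  have hk2 : ∀ k, (u k, ν k, fun i => τ i k) = κ2 → u k = 1 ∧ ν k = 0 := by
    intro k hk
    rw [← hk] at b1 b2
    exact ⟨b1, b2⟩
  refine str2w (B := B i) (ν := ν) (u := u) (m := fun k l => m k l + if k = l then τ i k else 0)
    (F := F i) (G := G) (Φ := Φ i) (Ψ := Ψ i) (Θ := Θ) (A := univ) (V := V) ?_ ?_ ?_ ?_ ?_ ?_ ?_ hδ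
  · intro z k
    rw [h.hx i z k, s1 k z.2.2]
    ring
  · intro z k
    rw [h.hy i z k, s2 k z.2.1]
    ring
  · intro x k
    rw [s1 k x, s2 k x]
    have e1 := h.hm x k
    have e2 : ∀ a b c d : ZMod 2, a + b = d → a + c + (b + c) = d := by decide
    exact e2 _ _ _ _ e1
  · refine (hV κ1 hκ1).trans (card_le_card fun k hk => ?_)
    rw [mem_filter] at hk ⊢
    exact ⟨hk.1, (hk1 k hk.2).2⟩
  · refine (hV κ2 hκ2).trans (card_le_card fun k hk => ?_)
    rw [mem_filter] at hk ⊢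
    exact ⟨hk.1, (hk2 k hk.2).1⟩
  · refine (hV κ1 hκ1).trans (card_le_card fun k hk => ?_)
    rw [mem_filter] at hk ⊢
    refine ⟨hk.1, ?_⟩
    rw [(hk1 k hk.2).1, (hk1 k hk.2).2]
    decide
  · intro e h0 he
    exact h.na i e h0 fun k => he k (mem_univ k)

end

/-- a power of two above a given number -/
theorem exists_V (a δ : ℝ) (hδ : 0 < δ) : ∃ V : ℕ, a / 2 ^ V ≤ δ := by
  obtain ⟨V, hV⟩ := pow_unbounded_of_one_lt (a / δ) (one_lt_two (α := ℝ))
  refine ⟨V, ?_⟩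
  rw [div_lt_iff₀ hδ] at hV
  rw [div_le_iff₀ (by positivity)]
  linarith

/-- JT -/
theorem t_JT (h1 : S_FM) (h2 : S_CH) : S_JT := by
  intro n c ε hε
  obtain ⟨δ, hδ, hch⟩ := h2 n ε hε
  obtain ⟨c', hc', hfm⟩ := h1 n
  obtain ⟨a, ha⟩ : ∃ a : ℝ, a = c' * |c| ^ (2 * n + 1) + |c| ^ 3 := ⟨_, rfl⟩
  obtain ⟨V₀, hV₀⟩ := exists_V a δ hδ
  refine ⟨V₀, ?_⟩
  intro E0 _ _ _ I _ _ B ν u τ m C C' _ _ F G Φ Ψ Θ hS hE hC hC' Γ N hΓ hN hV
  have hCc : (Fintype.card C : ℝ) ≤ |c| := hC.trans (le_abs_self c)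
  have hCc' : (Fintype.card C' : ℝ) ≤ |c| := hC'.trans (le_abs_self c)
  have hC0 : (0 : ℝ) ≤ Fintype.card C := Nat.cast_nonneg _
  have hC0' : (0 : ℝ) ≤ Fintype.card C' := Nat.cast_nonneg _
  have hc0 : 0 ≤ |c| := abs_nonneg c
  -- the first estimate
  have k1 : c' * (∏ i, (Fintype.card (E0 i) : ℝ)) ^ 2 * (Fintype.card C : ℝ) ^ (2 * n) *
      Fintype.card C' / 2 ^ (2 * n * N + 2 * N + V₀) ≤ δ := by
    have e1 : (∏ i, (Fintype.card (E0 i) : ℝ)) ≤ 2 ^ (n * N) := by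
      calc (∏ i, (Fintype.card (E0 i) : ℝ)) ≤ ∏ i : Fin n, (2 : ℝ) ^ N :=
            prod_le_prod (fun i _ => Nat.cast_nonneg _) fun i _ => hN i
        _ = 2 ^ (n * N) := by
            rw [prod_const, card_univ, Fintype.card_fin, ← pow_mul, mul_comm]
    have e2 : (0 : ℝ) ≤ ∏ i, (Fintype.card (E0 i) : ℝ) := prod_nonneg fun i _ => Nat.cast_nonneg _
    have e3 : (∏ i, (Fintype.card (E0 i) : ℝ)) ^ 2 ≤ 2 ^ (2 * n * N) := by
      calc (∏ i, (Fintype.card (E0 i) : ℝ)) ^ 2 ≤ (2 ^ (n * N)) ^ 2 := pow_le_pow_left₀ e2 e1 2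
        _ = 2 ^ (2 * n * N) := by rw [← pow_mul]; ring_nf
    have e4 : (Fintype.card C : ℝ) ^ (2 * n) ≤ |c| ^ (2 * n) := pow_le_pow_left₀ hC0 hCc _
    have e5 : c' * (∏ i, (Fintype.card (E0 i) : ℝ)) ^ 2 * (Fintype.card C : ℝ) ^ (2 * n) *
        Fintype.card C' ≤ c' * 2 ^ (2 * n * N) * |c| ^ (2 * n) * |c| := by
      have f1 : c' * (∏ i, (Fintype.card (E0 i) : ℝ)) ^ 2 ≤ c' * 2 ^ (2 * n * N) :=
        mul_le_mul_of_nonneg_left e3 hc'.le
      have f2 := mul_le_mul f1 e4 (by positivity) (by positivity)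
      exact mul_le_mul f2 hCc' hC0' (by positivity)
    calc c' * (∏ i, (Fintype.card (E0 i) : ℝ)) ^ 2 * (Fintype.card C : ℝ) ^ (2 * n) *
          Fintype.card C' / 2 ^ (2 * n * N + 2 * N + V₀)
        ≤ c' * 2 ^ (2 * n * N) * |c| ^ (2 * n) * |c| / 2 ^ (2 * n * N + 2 * N + V₀) :=
          div_le_div_of_nonneg_right e5 (by positivity)
      _ = c' * |c| ^ (2 * n + 1) / (2 ^ (2 * N) * 2 ^ V₀) := by
          rw [pow_add, pow_add, pow_succ]
          field_simp
      _ ≤ c' * |c| ^ (2 * n + 1) / 2 ^ V₀ := by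
          refine div_le_div_of_nonneg_left (by positivity) (by positivity) ?_
          exact le_mul_of_one_le_left (by positivity) (one_le_pow₀ (by norm_num))
      _ ≤ a / 2 ^ V₀ := by
          refine div_le_div_of_nonneg_right ?_ (by positivity)
          rw [ha]
          have : 0 ≤ |c| ^ 3 := by positivity
          linarith
      _ ≤ δ := hV₀
  -- the second estimate
  have k2 : ∀ i, (Fintype.card (E0 i) * Fintype.card C : ℝ) ^ 2 * Fintype.card C' /
      2 ^ (2 * n * N + 2 * N + V₀) ≤ δ := by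
    intro i
    have e1 : (Fintype.card (E0 i) * Fintype.card C : ℝ) ≤ 2 ^ N * |c| :=
      mul_le_mul (hN i) hCc hC0 (by positivity)
    have e2 : (Fintype.card (E0 i) * Fintype.card C : ℝ) ^ 2 ≤ (2 ^ N * |c|) ^ 2 :=
      pow_le_pow_left₀ (by positivity) e1 2
    have e3 : (Fintype.card (E0 i) * Fintype.card C : ℝ) ^ 2 * Fintype.card C' ≤
        (2 ^ N * |c|) ^ 2 * |c| := mul_le_mul e2 hCc' hC0' (by positivity)
    calc (Fintype.card (E0 i) * Fintype.card C : ℝ) ^ 2 * Fintype.card C' /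
          2 ^ (2 * n * N + 2 * N + V₀)
        ≤ (2 ^ N * |c|) ^ 2 * |c| / 2 ^ (2 * n * N + 2 * N + V₀) :=
          div_le_div_of_nonneg_right e3 (by positivity)
      _ = |c| ^ 3 / (2 ^ (2 * n * N) * 2 ^ V₀) := by
          have : (2 : ℝ) ^ (2 * N) = (2 ^ N) ^ 2 := by rw [← pow_mul, mul_comm]
          rw [pow_add, pow_add, this]
          field_simp
      _ ≤ |c| ^ 3 / 2 ^ V₀ := by
          refine div_le_div_of_nonneg_left (by positivity) (by positivity) ?_
          exact le_mul_of_one_le_left (by positivity) (one_le_pow₀ (by norm_num))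
      _ ≤ a / 2 ^ V₀ := by
          refine div_le_div_of_nonneg_right ?_ (by positivity)
          rw [ha]
          have : 0 ≤ c' * |c| ^ (2 * n + 1) := by positivity
          linarith
      _ ≤ δ := hV₀
  have k3 := hfm E0 I B ν u τ m C C' F G Φ Ψ Θ hS Γ (2 * n * N + 2 * N + V₀) hΓ hV
  refine hch E0 I B hS.alt hE (fun i => bd_of hS hΓ hV i (k2 i)) ?_ ?_
  · refine (k3 ∅).trans ?_
    rw [if_pos rfl]
    refine mul_le_mul_of_nonneg_right (mul_le_mul_of_nonneg_right ?_ (by positivity))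
      (by positivity)
    linarith
  · intro W hW
    refine (k3 W).trans ?_
    rw [if_neg hW.ne_empty, zero_add]
    refine mul_le_mul_of_nonneg_right (mul_le_mul_of_nonneg_right k1 (by positivity))
      (by positivity)

end Pool.Agent.H376.JL
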