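import Pool.Agent.H743.JL.StmC

/-!
# JL (helper168 for helper743): (KS) the criterion in terms of a parametrization
-/

set_option autoImplicit false
set_option linter.all false

open scoped Classical

namespace Pool.Agent.H168.JL.KS

open Finset Module
open Pool.Agent.H743.JL
open Pool.Agent.H743.X17 (Sys Rt RS LL lS al nu pd lam)

theorem sum_RS {m : ℤ} {V : Type} [Fintype V] [DecidableEq V] {π : V → ℕ}
    (hπ : Function.Injective π) (hRS : ∀ x, x ∈ RS m ↔ ∃ v, π v = x) (f : ℕ → ZMod 2) :
    ∑ q ∈ RS m, f q = ∑ v, f (π v) := by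
  have h : RS m = univ.map ⟨π, hπ⟩ := by
    ext x
    rw [hRS x]
    simp [Finset.mem_map]
  rw [h, Finset.sum_map]
  rfl

theorem t_KS : S_KS := by
  intro m V _ _ π hm hπ hRS
  constructor
  · intro hS x y h0 h1 h2 i
    have hX : ∀ v, Function.extend π x 0 (π v) = x v := fun v => hπ.extend_apply x 0 v
    have hY : ∀ v, Function.extend π y 0 (π v) = y v := fun v => hπ.extend_apply y 0 v
    have h17 : Function.extend π x 0 17 = 0 := by
      by_cases hc : ∃ v, π v = 17
      · obtain ⟨v, hv⟩ := hc
        rw [← hv, hX]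
        exact h0 v (by simp [rA, hv])
      · rw [Function.extend_apply' _ _ _ hc]
        rfl
    have key := hS (Function.extend π x 0) (Function.extend π y 0) h17 ?_ ?_ (π i)
      ((hRS _).2 ⟨i, rfl⟩)
    · rwa [hX, hY] at key
    · intro p hp
      rw [Finset.mem_erase] at hp
      obtain ⟨v, rfl⟩ := (hRS p).1 hp.2
      rw [sum_RS hπ hRS, hX]
      simp only [hY]
      exact h1 v (by simp [rA, hp.1])
    · intro q hq
      obtain ⟨v, rfl⟩ := (hRS q).1 hq
      rw [sum_RS hπ hRS, hY]
      simp only [hX]
      exact h2 v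
  · intro hK x y h17 h1 h2 p hp
    obtain ⟨v, rfl⟩ := (hRS p).1 hp
    refine hK (fun v => x (π v)) (fun v => y (π v)) ?_ ?_ ?_ v
    · intro i hi
      have : π i = 17 := by
        by_contra hne
        simp [rA, hne] at hi
      show x (π i) = 0
      rw [this, h17]
    · intro i hi
      have hne : π i ≠ 17 := by
        intro h
        simp [rA, h] at hi
      have := h1 (π i) (Finset.mem_erase.2 ⟨hne, (hRS _).2 ⟨i, rfl⟩⟩)
      rw [sum_RS hπ hRS] at this
      exact this
    · intro j
      have := h2 (π j) ((hRS _).2 ⟨j, rfl⟩)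
      rw [sum_RS hπ hRS] at this
      exact this

end Pool.Agent.H168.JL.KS
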