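import Pool.Agent.H743.JL.StmY
import Pool.Agent.H743.JL.DT
import Pool.Agent.H743.X17.SYSB

/-!
# JX (helper236 for helper743): (KS2) the criterion in terms of a parametrization, the relations
-/

set_option autoImplicit false
set_option linter.all false

open scoped Classical

namespace Pool.Agent.H236.JX.KS2

open Finset Module
open Pool.Agent.H743.JL
open Pool.Agent.H743.X17 (Sys Rt RS LL lS al nu pd lam)
open Pool.Agent.H743.X17.QSYSB
open Pool.Agent.H183.JL.DT (sum_RS sum_al wt_eq)

theorem t_KS2 : S_KS2 := by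
  intro m V _ _ π hm hπ hRS
  have hV : ∀ v, π v ∈ RS m := fun v => (hRS _).2 ⟨v, rfl⟩
  refine ⟨⟨?_, ?_⟩, ?_, ?_, ?_⟩
  · intro hH y h1 i j
    have hY : ∀ v, Function.extend π y 0 (π v) = y v := fun v => hπ.extend_apply y 0 v
    have key := hH (Function.extend π y 0) ?_ (π i) (hV i) (π j) (hV j)
    · rwa [hY, hY] at key
    · intro p hp
      obtain ⟨v, rfl⟩ := (hRS p).1 hp
      rw [← sum_RS hπ hRS]
      simp only [hY]
      exact h1 v
  · intro hC y h1 p hp q hq
    obtain ⟨v, rfl⟩ := (hRS p).1 hp
    obtain ⟨v', rfl⟩ := (hRS q).1 hq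
    refine hC (fun v => y (π v)) ?_ v v'
    intro i
    have := h1 (π i) (hV i)
    rw [← sum_RS hπ hRS] at this
    exact this
  · intro i
    have h := sum_RS hπ hRS (fun q => LL m (π i) q)
    exact h.trans (row_zero (hV i))
  · intro i j hij
    have hne : π i ≠ π j := fun h => hij (hπ h)
    have h := rel hm (hV i) (hV j) hne
    show wt m (π i) * LL m (π i) (π j) + wt m (π j) * LL m (π j) (π i) = al m (π i) * al m (π j)
    rw [LL_off hne, LL_off (Ne.symm hne)]
    exact h
  · intro hneg j
    have h := sum_RS hπ hRS (fun p => w m p * LL m p (π j))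
    show ∑ i, w m (π i) * LL m (π i) (π j) = 0
    refine h.trans ?_
    rw [col_sum hm (hV j)]
    have h1 := sum_al hm
    rw [if_pos hneg] at h1
    have h2 := Finset.add_sum_erase (RS m) (fun p => al m p) (hV j)
    have h3 : ∑ p ∈ (RS m).erase (π j), al m p = 1 + al m (π j) := by
      have h4 : al m (π j) + ∑ p ∈ (RS m).erase (π j), al m p = 1 := h2.trans h1
      have h5 := z2_add_self (al m (π j))
      linear_combination h4 - h5
    rw [h3]
    have h6 := z2_mul_self (al m (π j))
    have h7 := z2_add_self (al m (π j))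
    linear_combination h6 + h7

end Pool.Agent.H236.JX.KS2
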