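import Pool.Agent.H743.JL.StmD

/-!
# JL (LR): the root number of a twist depends on the class
-/

set_option autoImplicit false
set_option linter.all false

open scoped Classical

namespace Pool.Agent.H721.JLLR

open Finset Filter Topology
open Pool.Agent.H743.JL
open Pool.Agent.H743.X17 (Sys Rt)
open Pool.Agent.N855.GF.Lc17 (Lc)

/-- the gcd depends only on the class modulo `t` -/
theorem gcd_dvd {t a b : ℤ} (h : t ∣ b - a) : Int.gcd t a ∣ Int.gcd t b := by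
  have h1 : ((Int.gcd t a : ℕ) : ℤ) ∣ t := Int.gcd_dvd_left ..
  have h2 : ((Int.gcd t a : ℕ) : ℤ) ∣ a := Int.gcd_dvd_right ..
  have h3 : ((Int.gcd t a : ℕ) : ℤ) ∣ b := by
    have h4 := dvd_add (h1.trans h) h2
    rwa [sub_add_cancel] at h4
  exact Int.natCast_dvd_natCast.1 (Int.dvd_coe_gcd h1 h3)

theorem gcd_eq {t a b : ℤ} (h : t ∣ b - a) : Int.gcd t a = Int.gcd t b :=
  Nat.dvd_antisymm (gcd_dvd h) (gcd_dvd (by
    rw [← neg_sub, dvd_neg]
    exact h))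

theorem rt_congr {u v : ℤ} (h : (17 : ℤ) ∣ u - v) (h1 : 0 < u ↔ 0 < v) (h2 : u < 0 ↔ v < 0) :
    Rt u ↔ Rt v := by
  have hj : jacobiSym u 17 = jacobiSym v 17 := by
    refine jacobiSym.mod_left' ?_
    exact Int.emod_eq_emod_iff_emod_sub_eq_zero.2 (Int.emod_eq_zero_of_dvd h)
  unfold Rt
  rw [hj, h1, h2]

theorem t_LR : S_LR := by
  intro t m ht hm s k M N hs hk hM hN hM2 hN2 h
  show Rt (tw t (s * ((k * M : ℕ) : ℤ))) ↔ Rt (tw t (s * ((k * N : ℕ) : ℤ)))
  have hM0 : 0 < M := Nat.pos_of_ne_zero hM.ne_zero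
  have hN0 : 0 < N := Nat.pos_of_ne_zero hN.ne_zero
  have hk0 : 0 < k := by omega
  have hkM : (0 : ℤ) < ((k * M : ℕ) : ℤ) := by exact_mod_cast Nat.mul_pos hk0 hM0
  have hkN : (0 : ℤ) < ((k * N : ℕ) : ℤ) := by exact_mod_cast Nat.mul_pos hk0 hN0
  obtain ⟨d, hd⟩ : ∃ d : ℤ, d = s * ((k * M : ℕ) : ℤ) := ⟨_, rfl⟩
  obtain ⟨e, he⟩ : ∃ e : ℤ, e = s * ((k * N : ℕ) : ℤ) := ⟨_, rfl⟩
  rw [← hd, ← he]
  have hmN : (m : ℤ) ∣ (N : ℤ) - M := Nat.modEq_iff_dvd.1 h
  have hde : e - d = s * k * ((N : ℤ) - M) := by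
    rw [hd, he]
    push_cast
    ring
  have h136 : 136 * t ∣ e - d := by
    rw [hde]
    exact dvd_mul_of_dvd_right (hm.trans hmN) _
  have hg1 : Int.gcd t d = Int.gcd t e := gcd_eq ((Dvd.intro_left _ rfl).trans h136)
  have hg : 0 < Int.gcd t d := Int.gcd_pos_of_ne_zero_left _ ht.ne_zero
  obtain ⟨g, hgg⟩ : ∃ g : ℕ, g = Int.gcd t d := ⟨_, rfl⟩
  rw [← hgg] at hg hg1
  have hgz : (0 : ℤ) < g := by exact_mod_cast hg
  obtain ⟨t', ht'⟩ : (g : ℤ) ∣ t := by
    rw [hgg]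
    exact Int.gcd_dvd_left ..
  obtain ⟨d', hd'⟩ : (g : ℤ) ∣ d := by
    rw [hgg]
    exact Int.gcd_dvd_right ..
  obtain ⟨e', he'⟩ : (g : ℤ) ∣ e := by
    rw [hg1]
    exact Int.gcd_dvd_right ..
  have td : tw t d = t' * d' := Pool.Agent.N855.GF.Tw.tw_eq hg hgg.symm ht' hd'
  have te : tw t e = t' * e' := Pool.Agent.N855.GF.Tw.tw_eq hg hg1.symm ht' he'
  rw [td, te]
  -- the residues modulo 17
  have h17 : (17 : ℤ) ∣ e' - d' := by
    have h1 : (g : ℤ) * 17 ∣ g * (e' - d') := by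
      have h2 : (g : ℤ) * (e' - d') = e - d := by
        rw [hd', he']
        ring
      rw [h2]
      refine dvd_trans ?_ h136
      rw [ht']
      exact ⟨8 * t', by ring⟩
    exact Int.dvd_of_mul_dvd_mul_left hgz.ne' h1
  -- the signs
  have hsign : ∀ x x' : ℤ, x = g * x' → ∀ n : ℤ, 0 < n → x = s * n →
      ((0 < t' * x' ↔ 0 < t' * s) ∧ (t' * x' < 0 ↔ t' * s < 0)) := by
    intro x x' hx n hn hxn
    have e1 : (g : ℤ) * (t' * x') = n * (t' * s) := by
      calc (g : ℤ) * (t' * x') = t' * (g * x') := by ring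
        _ = t' * (s * n) := by rw [← hx, hxn]
        _ = _ := by ring
    constructor
    · rw [← mul_pos_iff_of_pos_left hgz, e1, mul_pos_iff_of_pos_left hn]
    · constructor
      · intro hc
        have h1 : (g : ℤ) * (t' * x') < 0 := mul_neg_of_pos_of_neg hgz hc
        rw [e1] at h1
        by_contra hc'
        exact absurd h1 (not_lt.2 (mul_nonneg hn.le (not_lt.1 hc')))
      · intro hc
        have h1 : n * (t' * s) < 0 := mul_neg_of_pos_of_neg hn hc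
        rw [← e1] at h1
        by_contra hc'
        exact absurd h1 (not_lt.2 (mul_nonneg hgz.le (not_lt.1 hc')))
  have s1 := hsign d d' hd' _ hkM hd
  have s2 := hsign e e' he' _ hkN he
  refine rt_congr ?_ (s1.1.trans s2.1.symm) (s1.2.trans s2.2.symm)
  have h1 : t' * d' - t' * e' = -t' * (e' - d') := by ring
  rw [h1]
  exact dvd_mul_of_dvd_right h17 _

end Pool.Agent.H721.JLLR
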