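import Pool.Agent.H743.JL.StmC

/-!
# JL-LV: the hypothesis of the abstract machine (assembly)
-/

set_option autoImplicit false
set_option linter.all false

open scoped Classical

namespace Pool.Agent.H390.JL

open Finset Module
open Pool.Agent.H743.JL
open Pool.Agent.N916.MO
open Pool.Agent.N916.GB (pt ps sx Po)
open Pool.Agent.Y703.CQ (c2 nr)
open Pool.Agent.N973.ND (uu)
open Pool.Agent.N916.AM (Nd Rich LAV LAH Bs nr_mod uu_mod)
open Pool.Agent.H743.X17 (Sys Rt RS LL lS al nu pd lam)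

theorem sqf_prod {ι : Type} (S : Finset ι) (f : ι → ℕ) (hf : ∀ i ∈ S, (f i).Prime)
    (hi : Set.InjOn f S) : Squarefree (∏ i ∈ S, (f i : ℤ)) := by
  have h : Squarefree (∏ i ∈ S, f i) := by
    refine Finset.squarefree_prod_of_pairwise_isCoprime ?_ fun i hi => (hf i hi).squarefree
    intro i hi' j hj hij
    have := (Nat.coprime_primes (hf i hi') (hf j hj)).2 fun e => hij (hi hi' hj e)
    exact Nat.coprime_iff_isRelPrime.1 this
  have e : (∏ i ∈ S, (f i : ℤ)) = ((∏ i ∈ S, f i : ℕ) : ℤ) := by push_cast; rfl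
  rw [e, Int.squarefree_natCast]
  exact h

theorem al_uu {m : ℤ} {q : ℕ} (hq : q.Prime) (h2 : q ≠ 2) : al m q = uu q := by
  unfold al uu pd
  rw [if_neg h2]
  have ho : q % 2 = 1 := Nat.odd_iff.1 (hq.odd_of_ne_two h2)
  have hpos : 0 < (q : ℤ) := by exact_mod_cast hq.pos
  by_cases h4 : q % 4 = 1
  · rw [if_pos h4, if_neg (by omega), if_neg (by omega)]
  · rw [if_neg h4, if_pos (by omega), if_pos (by omega)]

theorem dvd_M {M u : ℕ} {t : ℤ} (htM : t ∣ (M : ℤ)) (h : (u : ℤ) ∣ t) : u ∣ M :=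
  Int.natCast_dvd_natCast.1 (h.trans htM)

theorem dvd_S {S : Finset ℕ} {u : ℕ} (hu : u.Prime) (hS : ∀ v ∈ S, Po v)
    (h : (u : ℤ) ∣ ∏ v ∈ S, (v : ℤ)) : u ∈ S := by
  obtain ⟨v, hv, h2⟩ := (Nat.prime_iff_prime_int.1 hu).exists_mem_finset_dvd h
  have h3 : u ∣ v := Int.natCast_dvd_natCast.1 h2
  rw [(Nat.prime_dvd_prime_iff_eq hu (hS v hv).1).1 h3]
  exact hv

section
variable {M : ℕ} {S₀ : Finset ℕ} {t : ℤ}

theorem sqf_S (hS : ∀ v ∈ S₀, Po v) : Squarefree (∏ v ∈ S₀, (v : ℤ)) :=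
  sqf_prod S₀ (fun v => v) (fun v hv => (hS v hv).1) fun a _ b _ h => h

theorem UF_sub (h9 : S_TW) (hM0 : 0 < M) (h8 : 8 ∣ M) (ht : Squarefree t) (htM : t ∣ (M : ℤ))
    (hS : ∀ v ∈ S₀, Po v) (m : ℤ) : UF m (tw t (∏ v ∈ S₀, (v : ℤ))) ⊆ Bs M S₀ := by
  intro u hu
  unfold UF at hu
  rw [mem_filter] at hu
  have hup : u.Prime := by
    have := hu.1
    unfold RS at this
    exact Nat.prime_of_mem_primeFactors this
  unfold Bs
  rw [mem_union]
  rcases hu.2 with h | h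
  · right
    rw [h, Nat.mem_primeFactors]
    exact ⟨Nat.prime_two, Dvd.dvd.trans (by norm_num) h8, hM0.ne'⟩
  · rcases ((h9 t ht).1 _ (sqf_S hS)).2 u hup h with h | h
    · right
      rw [Nat.mem_primeFactors]
      exact ⟨hup, dvd_M htM h, hM0.ne'⟩
    · left
      exact dvd_S hup hS h

variable {ι : Type} [Fintype ι] [LinearOrder ι] {p q : ι → ℕ}

/-- the conditions on the large primes -/
theorem lg (h9 : S_TW) (ht : Squarefree t) (htM : t ∣ (M : ℤ)) (h17 : 17 ∣ M)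
    (hS : ∀ v ∈ S₀, Po v) (hp : ∀ i, Po (p i) ∧ p i ∉ S₀ ∧ (p i).Coprime M)
    (hpi : Function.Injective p) : Lg (tw t (∏ v ∈ S₀, (v : ℤ))) p := by
  refine ⟨fun k => ⟨(hp k).1.1, (hp k).1.2, ?_, ?_⟩, hpi⟩
  · intro h
    have := (hp k).2.2
    rw [h] at this
    have := Nat.Coprime.eq_one_of_dvd this h17
    omega
  · intro h
    rcases ((h9 t ht).1 _ (sqf_S hS)).2 (p k) (hp k).1.1 h with h | h
    · have := Nat.Coprime.eq_one_of_dvd (hp k).2.2 (dvd_M htM h)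
      exact (hp k).1.1.one_lt.ne' this
    · exact (hp k).2.1 (dvd_S (hp k).1.1 hS h)

theorem copr (hq : ∀ i, (q i).Coprime M) (htM : t ∣ (M : ℤ)) :
    IsCoprime t (∏ k, (q k : ℤ)) := by
  refine IsCoprime.prod_right fun k _ => ?_
  have h : IsCoprime (M : ℤ) (q k : ℤ) := Nat.isCoprime_iff_coprime.2 (hq k).symm
  exact h.of_isCoprime_of_dvd_left htM

theorem equiv (h1 : S_NB) (h2 : S_NS) (h3 : S_DP) (h5 : S_KS) (h6 : S_DT) (h7 : S_CP)
    (h9 : S_TW) (k0 : ι) (hM0 : 0 < M) (h8 : 8 ∣ M) (h17 : 17 ∣ M) (ht : Squarefree t)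
    (htM : t ∣ (M : ℤ)) (hS : ∀ v ∈ S₀, Po v)
    (hp : ∀ i, Po (p i) ∧ p i ∉ S₀ ∧ (p i).Coprime M) (hpi : Function.Injective p)
    (hq : ∀ i, Po (q i) ∧ q i ∉ S₀ ∧ q i % M = p i % M ∧ ∀ v ∈ S₀, nr (q i) v = nr (p i) v)
    (hqi : Function.Injective q) (hR : Rt (tw t (∏ v ∈ S₀, (v : ℤ)) * ∏ k, (p k : ℤ))) :
    Sys (tw t (∏ v ∈ S₀, (v : ℤ)) * ∏ k, (q k : ℤ)) ↔
      Nde (BA (tw t (∏ v ∈ S₀, (v : ℤ)) * ∏ k, (p k : ℤ)) (tw t (∏ v ∈ S₀, (v : ℤ))) p k0)
        (Sg k0 fun e : ps ι => nr (q e.1.1) (q e.1.2) + nr (p e.1.1) (p e.1.2)) := by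
  have hqc : ∀ i, (q i).Coprime M := by
    intro i
    have h := (hp i).2.2
    rw [Nat.coprime_comm] at h ⊢
    unfold Nat.Coprime at h ⊢
    rw [Nat.gcd_rec] at h ⊢
    rw [(hq i).2.2.1]
    exact h
  have hq' : ∀ i, Po (q i) ∧ q i ∉ S₀ ∧ (q i).Coprime M := fun i =>
    ⟨(hq i).1, (hq i).2.1, hqc i⟩
  have hLp := lg h9 ht htM h17 hS hp hpi
  have hLq := lg h9 ht htM h17 hS hq' hqi
  have hs0 : Squarefree (tw t (∏ v ∈ S₀, (v : ℤ))) := ((h9 t ht).1 _ (sqf_S hS)).1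
  have hlab : ∀ k, q k % 8 = p k % 8 ∧ nr (q k) 17 = nr (p k) 17 ∧
      ∀ u : ℕ, u.Prime → u ≠ 2 → (u : ℤ) ∣ tw t (∏ v ∈ S₀, (v : ℤ)) →
        nr (q k) u = nr (p k) u := by
    intro k
    refine ⟨?_, ?_, ?_⟩
    · rw [← Nat.mod_mod_of_dvd (q k) h8, (hq k).2.2.1, Nat.mod_mod_of_dvd (p k) h8]
    · exact nr_mod h8 (hq k).1 (hp k).1 (hqc k) (hp k).2.2 (by norm_num) h17 (hq k).2.2.1
    · intro u hu _ hd
      rcases ((h9 t ht).1 _ (sqf_S hS)).2 u hu hd with h | h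
      · exact nr_mod h8 (hq k).1 (hp k).1 (hqc k) (hp k).2.2 hu (dvd_M htM h) (hq k).2.2.1
      · exact (hq k).2.2.2 u (dvd_S hu hS h)
  obtain ⟨c1, c2', c3, c4, c5, c6, c7, c8⟩ := h7 ι (tw t (∏ v ∈ S₀, (v : ℤ))) p q hs0 hLp hLq hlab
  obtain ⟨d1, d2, d3, -⟩ := h7 ι (tw t (∏ v ∈ S₀, (v : ℤ))) p p hs0 hLp hLp
    fun k => ⟨rfl, rfl, fun _ _ _ _ => rfl⟩
  rw [h5 _ _ _ c1 c3 c2', c4, c5, c7, c8]
  have hD := h6 _ _ _ d1 hR d3 d2
  have hD' := h3 (UF (tw t (∏ v ∈ S₀, (v : ℤ)) * ∏ k, (p k : ℤ)) (tw t (∏ v ∈ S₀, (v : ℤ)))) ι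
    _ _ _ _ _ _ (fun e : ps ι => nr (q e.1.1) (q e.1.2) + nr (p e.1.1) (p e.1.2)) ?_ hD
  · rw [(h1 _ _ _ _ _ _ _ hD').2]
    exact (h2 _ _ k0 _ _ _ _ _ fun k => if_neg (hLp.1 k).2.2.1).symm
  · intro k
    refine ⟨?_, if_neg (hLp.1 k).2.2.1⟩
    show wt _ (p k) = 1
    unfold wt
    rw [if_neg]
    intro h
    exact (hLp.1 k).2.1 h.1

end

/-- translation of the symbols -/
theorem card_tr {J : Type} [Fintype J] [LinearOrder J] {k0 : J} (P : Sy (Ix k0) → Prop)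
    (s0 : ps J → ZMod 2) :
    ((univ.filter fun s : ps J → ZMod 2 => P (Sg k0 fun e => s e + s0 e)).card : ℝ) /
      2 ^ (ps J).card = ((univ.filter P).card : ℝ) / Fintype.card (Sy (Ix k0)) := by
  rw [← card_Sg P]
  congr 2
  refine card_bij (fun s _ => fun e => s e + s0 e) ?_ ?_ ?_
  · intro s hs
    rw [mem_filter] at hs ⊢
    exact ⟨mem_univ _, hs.2⟩
  · intro s _ s' _ h
    funext e
    exact add_right_cancel (congrFun h e)
  · intro s hs
    rw [mem_filter] at hs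
    refine ⟨fun e => s e + s0 e, ?_, ?_⟩
    · rw [mem_filter]
      refine ⟨mem_univ _, ?_⟩
      have : (fun e => s e + s0 e + s0 e) = s := by
        funext e
        rw [add_assoc, CharTwo.add_self_eq_zero, add_zero]
      rw [this]
      exact hs.2
    · funext e
      rw [add_assoc, CharTwo.add_self_eq_zero, add_zero]

theorem card_E2 (U : Type) [Fintype U] [DecidableEq (Option U)] [Fintype (E2 (Option U))] :
    Fintype.card (E2 (Option U)) = 2 ^ (2 * (Fintype.card U + 1)) := by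
  rw [Fintype.card_eq_nat_card]
  show Nat.card ((Option U → ZMod 2) × (Option U → ZMod 2)) = _
  rw [Nat.card_prod, Nat.card_fun, Nat.card_eq_fintype_card, Nat.card_eq_fintype_card,
    Fintype.card_option, ZMod.card]
  ring

theorem nu_nr {p : ℕ} (hp : p.Prime) (h2 : p ≠ 2) (h17 : p ≠ 17) : nu p = nr p 17 := by
  haveI : Fact p.Prime := ⟨hp⟩
  have hne : ((17 : ℤ) : ZMod p) ≠ 0 := by
    intro h
    have h3 : ((17 : ℕ) : ZMod p) = 0 := by exact_mod_cast h
    rw [ZMod.natCast_eq_zero_iff] at h3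
    exact h17 ((Nat.prime_dvd_prime_iff_eq hp (by norm_num)).1 h3)
  have h := legendreSym.eq_one_iff p hne
  rw [jacobiSym.legendreSym.to_jacobiSym] at h
  unfold nu nr
  rw [if_neg h2]
  have e : ((17 : ℤ) : ZMod p) = ((17 : ℕ) : ZMod p) := by norm_cast
  rw [e] at h
  by_cases hs : IsSquare ((17 : ℕ) : ZMod p)
  · rw [if_pos hs, if_pos (h.2 hs)]
  · rw [if_neg hs, if_neg fun h' => hs (h.1 h')]

theorem filter_dec {α : Type} [Fintype α] (P : α → Prop) (D1 D2 : DecidablePred P) :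
    (@Finset.filter α P D1 univ).card = (@Finset.filter α P D2 univ).card := by
  rw [Subsingleton.elim D1 D2]

theorem card_Ix {J : Type} [Fintype J] [LinearOrder J] {k0 : J} (P : J → Prop) (R : Ix k0 → Prop)
    [DecidablePred P] [DecidablePred R] (h : ∀ k : Ix k0, P k → R k) :
    (univ.filter P).card ≤ (univ.filter R).card + 1 := by
  have h1 : univ.filter P ⊆ insert k0 ((univ.filter R).image Subtype.val) := by
    intro k hk
    rw [mem_filter] at hk
    rw [mem_insert]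
    by_cases hk0 : k = k0
    · exact Or.inl hk0
    · right
      exact mem_image.2 ⟨⟨k, hk0⟩, mem_filter.2 ⟨mem_univ _, h ⟨k, hk0⟩ hk.2⟩, rfl⟩
  refine (card_le_card h1).trans ((card_insert_le _ _).trans ?_)
  exact Nat.add_le_add_right card_image_le 1

theorem even_E2 (U : Type) [Fintype U] : Even (finrank (ZMod 2) (E2 (Option U))) := by
  rw [Module.finrank_prod]
  exact ⟨_, rfl⟩

theorem arith (n A V₀ s : ℕ) : 2 * n * (2 * (s + A + 1)) + 2 * (2 * (s + A + 1)) + V₀ + 1 ≤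
    ((2 * n + 2) * (2 * (A + 1)) + V₀ + 1) * (s + 1) := by
  nlinarith [Nat.zero_le (n * A * s), Nat.zero_le (n * A), Nat.zero_le (n * s),
    Nat.zero_le (A * s), Nat.zero_le (V₀ * s)]

theorem t_LV (h : S_JT) (h1 : S_NB) (h2 : S_NS) (h3 : S_DP) (h4 : S_SH) (h5 : S_KS) (h6 : S_DT)
    (h7 : S_CP) (h8 : S_TA) (h9 : S_TW) (h10 : S_SE) (h11 : S_K0) (h12 : S_NI) : S_LV := by
  intro n t M K hM0 h8M h17 ht htn hR ε hε
  obtain ⟨V₀, hJ⟩ := h n 2 ε hε
  set A := M.primeFactors.card with hA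
  refine ⟨(2 * n + 2) * (2 * (A + 1)) + V₀ + 1, ?_⟩
  intro ι _ _ S₀ p hS hp hpi hK hNd hRich
  have hM8 : 8 ≤ M := Nat.le_of_dvd hM0 h8M
  -- counting
  have hcnt : ∀ a < M, a.Coprime M →
      ((2 * n + 2) * (2 * (A + 1)) + V₀ + 1) * (S₀.card + 1) ≤
        (univ.filter fun k : ι => p k % M = a).card := by
    intro a ha hac
    refine (hRich a ha hac).trans ?_
    have e : (univ.image p).filter (fun x => x % M = a) =
        (univ.filter fun k : ι => p k % M = a).image p := by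
      ext x
      simp only [mem_filter, mem_image, mem_univ, true_and]
      constructor
      · rintro ⟨⟨k, rfl⟩, h⟩
        exact ⟨k, h, rfl⟩
      · rintro ⟨k, h, rfl⟩
        exact ⟨⟨k, rfl⟩, h⟩
    rw [e]
    exact card_image_le
  have hBs : (Bs M S₀).card ≤ S₀.card + A := card_union_le _ _
  have hι : (Bs M S₀).card + 1 < Fintype.card ι := by
    have h0 := hcnt 1 (by omega) (Nat.coprime_one_left M)
    have h00 : (univ.filter fun k : ι => p k % M = 1).card ≤ Fintype.card ι := card_le_univ _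
    have h01 := arith n A V₀ S₀.card
    have h02 : 2 * (2 * (S₀.card + A + 1)) ≤
      2 * n * (2 * (S₀.card + A + 1)) + 2 * (2 * (S₀.card + A + 1)) := Nat.le_add_left _ _
    omega
  obtain ⟨k0, hk0⟩ := h11 M S₀ ι p hpi hNd hι
  -- the integers
  set P0 : ℤ := ∏ v ∈ S₀, (v : ℤ) with hP0
  set t0 : Fin n → ℤ := fun i => tw (t i) P0 with ht0
  set m : Fin n → ℤ := fun i => t0 i * ∏ k, (p k : ℤ) with hm
  set x0 : ℕ := (∏ v ∈ S₀, v) * ∏ i, p i with hx0
  have hx0c : (x0 : ℤ) = P0 * ∏ k, (p k : ℤ) := by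
    rw [hx0, hP0]
    push_cast
    rfl
  have hcopP : ∀ i, IsCoprime (t i) (∏ k, (p k : ℤ)) := fun i =>
    copr (fun k => (hp k).2.2) (ht i).2
  have hmx : ∀ i, m i = tw (t i) (x0 : ℤ) := by
    intro i
    rw [hx0c, (h9 (t i) (ht i).1).2 P0 _ (sqf_S hS) (hcopP i)]
  have hdisj : Disjoint S₀ (univ.image p) := by
    rw [Finset.disjoint_left]
    intro v hv hv2
    obtain ⟨k, -, rfl⟩ := mem_image.1 hv2
    exact (hp k).2.1 hv
  have hx0s : Squarefree x0 := by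
    have e : x0 = ∏ v ∈ S₀ ∪ univ.image p, v := by
      rw [prod_union hdisj, prod_image fun a _ b _ h => hpi h]
    have h0 := sqf_prod (S₀ ∪ univ.image p) (fun v => v) (by
      intro v hv
      rcases mem_union.1 hv with hv | hv
      · exact (hS v hv).1
      · obtain ⟨k, -, rfl⟩ := mem_image.1 hv
        exact (hp k).1.1) fun a _ b _ h => h
    rw [← Int.squarefree_natCast, e]
    push_cast
    exact h0
  have hx0o : Odd x0 := by
    rw [hx0, Nat.odd_mul]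
    constructor
    · exact Finset.prod_induction _ Odd (fun a b ha hb => ha.mul hb) odd_one
        fun v hv => (hS v hv).1.odd_of_ne_two (hS v hv).2
    · exact Finset.prod_induction _ Odd (fun a b ha hb => ha.mul hb) odd_one
        fun k _ => (hp k).1.1.odd_of_ne_two (hp k).1.2
  have hRt : ∀ i, Rt (m i) := by
    intro i
    rw [hmx]
    exact hR x0 hx0s hx0o hK i
  have hLp : ∀ i, Lg (t0 i) p := fun i => lg h9 (ht i).1 (ht i).2 h17 hS hp hpi
  -- the form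
  have hdata : ∀ i k, rA (piU (m i) (t0 i) p) (Sum.inr k) = 0 ∧
      nA (piU (m i) (t0 i) p) (Sum.inr k) = nu (p k) ∧
      aA (m i) (piU (m i) (t0 i) p) (Sum.inr k) = uu (p k) := fun i k =>
    ⟨if_neg ((hLp i).1 k).2.2.1, rfl, al_uu (hp k).1.1 (hp k).1.2⟩
  have hoff : ∀ i k l, k ≠ l → LA (m i) (piU (m i) (t0 i) p) (Sum.inr k) (Sum.inr l) =
      (if k = l then lam (p k) (x0 : ℤ) + uu (p k) else LL 1 (p k) (p l)) := by
    intro i k l hkl
    rw [if_neg hkl]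
    exact h8.2.1 _ _ _ _ (hp l).1.2 fun e => hkl (hpi e)
  have hdiag : ∀ i k, LA (m i) (piU (m i) (t0 i) p) (Sum.inr k) (Sum.inr k) =
      (if k = k then lam (p k) (x0 : ℤ) + uu (p k) else LL 1 (p k) (p k)) + chi (t i) (p k) := by
    intro i k
    rw [if_pos rfl]
    show LL (m i) (p k) (p k) = _
    rw [hmx]
    refine h8.1 _ _ _ (ht i).1 (Int.squarefree_natCast.2 hx0s) ?_ (hp k).1.1 (hp k).1.2 ?_ ?_
    · exact_mod_cast hx0s.ne_zero.bot_lt
    · rw [hx0c]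
      exact (Finset.dvd_prod_of_mem (fun k => (p k : ℤ)) (mem_univ k)).mul_left _
    · intro h
      have := Nat.Coprime.eq_one_of_dvd (hp k).2.2 (dvd_M (ht i).2 h)
      exact (hp k).1.1.one_lt.ne' this
  have hrec : ∀ k l, k ≠ l →
      (if k = l then lam (p k) (x0 : ℤ) + uu (p k) else LL 1 (p k) (p l)) +
      (if l = k then lam (p l) (x0 : ℤ) + uu (p l) else LL 1 (p l) (p k)) =
        uu (p k) * uu (p l) := by
    intro k l hkl
    rw [if_neg hkl, if_neg (Ne.symm hkl)]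
    exact h8.2.2 _ _ _ (hp k).1.1 (hp l).1.1 (hp k).1.2 (hp l).1.2 fun e => hkl (hpi e)
  obtain ⟨F, G, Φ, Ψ, Θ, hShp⟩ := h4 n (fun i => UF (m i) (t0 i)) ι k0
    (fun i => rA (piU (m i) (t0 i) p)) (fun i => nA (piU (m i) (t0 i) p))
    (fun i => aA (m i) (piU (m i) (t0 i) p)) (fun i => LA (m i) (piU (m i) (t0 i) p))
    (fun k => nu (p k)) (fun k => uu (p k))
    (fun k l => if k = l then lam (p k) (x0 : ℤ) + uu (p k) else LL 1 (p k) (p l))
    (fun i k => chi (t i) (p k)) hdata hoff hdiag hrec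
    (fun i => h12 M S₀ (t i) ι p k0 (t0 i) (m i) hM0 h8M h17 hS (ht i).1 (ht i).2 hp hpi rfl rfl
      (hRt i) hk0)
  obtain ⟨hSep, hTy⟩ := h10 n t M hM0 h8M h17 ht htn
  have hcU : ∀ i, Fintype.card (UF (m i) (t0 i)) ≤ S₀.card + A := by
    intro i
    rw [Fintype.card_coe]
    exact (card_le_card (UF_sub h9 hM0 h8M (ht i).1 (ht i).2 hS (m i))).trans hBs
  have hmain := hJ (fun i => E2 (Option (UF (m i) (t0 i)))) (Ix k0)
    (fun i => BA (m i) (t0 i) p k0) _ _ _ _ (ZMod 2) (ZMod 2) F G Φ Ψ Θ hShp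
    (fun i => even_E2 _) (by rw [ZMod.card]; norm_num) (by rw [ZMod.card]; norm_num)
    (Gm t M) (2 * (S₀.card + A + 1)) hSep ?_ ?_
  · refine ⟨fun σ => ∀ i, Nde (BA (m i) (t0 i) p k0)
      (Sg k0 fun e => σ e + nr (p e.1.1) (p e.1.2)), ?_, ?_⟩
    · intro q hqi hq
      have hdq : Disjoint S₀ (univ.image q) := by
        rw [Finset.disjoint_left]
        intro v hv hv2
        obtain ⟨k, -, rfl⟩ := mem_image.1 hv2
        exact (hq k).2.1 hv
      have hprod : ∏ v ∈ S₀ ∪ univ.image q, (v : ℤ) = P0 * ∏ k, (q k : ℤ) := by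
        rw [prod_union hdq, prod_image fun a _ b _ h => hqi h]
      have hqc : ∀ i, (q i).Coprime M := by
        intro i
        have h := (hp i).2.2
        rw [Nat.coprime_comm] at h ⊢
        unfold Nat.Coprime at h ⊢
        rw [Nat.gcd_rec] at h ⊢
        rw [(hq i).2.2.1]
        exact h
      refine forall_congr' fun i => ?_
      rw [hprod, (h9 (t i) (ht i).1).2 P0 _ (sqf_S hS) (copr hqc (ht i).2)]
      exact equiv h1 h2 h3 h5 h6 h7 h9 k0 hM0 h8M h17 (ht i).1 (ht i).2 hS hp hpi hq hqi (hRt i)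
    · rw [card_tr (fun s => ∀ i, Nde (BA (m i) (t0 i) p k0) s)
        (fun e : ps ι => nr (p e.1.1) (p e.1.2))]
      refine le_of_eq_of_le ?_ hmain
      rw [filter_dec (fun s : Sy (Ix k0) => ∀ i, Nde (BA (m i) (t0 i) p k0) s)
        (fun _ => Classical.propDecidable _) _]
  · intro i
    rw [card_E2]
    have h0 := hcU i
    have h1 : (2 : ℝ) ^ (2 * (Fintype.card (UF (m i) (t0 i)) + 1)) ≤
        2 ^ (2 * (S₀.card + A + 1)) := pow_le_pow_right₀ one_le_two (by omega)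
    exact_mod_cast h1
  · intro κ hκ
    unfold Gm at hκ
    rw [mem_filter] at hκ
    obtain ⟨-, p1, hp1, hp1M, rfl⟩ := hκ
    have hcop : (p1 % M).Coprime M := by
      unfold Nat.Coprime
      rw [← Nat.gcd_rec, Nat.gcd_comm]
      exact hp1M
    have h0 := hcnt (p1 % M) (Nat.mod_lt _ hM0) hcop
    have h01 := arith n A V₀ S₀.card
    have h02 : (univ.filter fun k : ι => p k % M = p1 % M).card ≤
        (univ.filter fun k : Ix k0 => (uu (p k), nu (p k), fun i => chi (t i) (p k)) = ty t p1).card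
          + 1 := by
      refine card_Ix (k0 := k0) (fun k => p k % M = p1 % M)
        (fun k : Ix k0 => (uu (p k), nu (p k), fun i => chi (t i) (p k)) = ty t p1) fun k hk => ?_
      rw [nu_nr (hp k).1.1 (hp k).1.2 ?_]
      · refine hTy _ _ (hp k).1.1 hp1 (hp k).2.2 hp1M hk
      · intro h
        have h0 := (hp k).2.2
        rw [h] at h0
        have := Nat.Coprime.eq_one_of_dvd h0 h17
        omega
    have h03 := (h01.trans h0).trans h02
    refine (Nat.le_of_add_le_add_right h03).trans (le_of_eq ?_)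
    exact filter_dec _ _ _

end Pool.Agent.H390.JL
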