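import Pool.Agent.H743.JL.StmY
import Pool.Agent.H743.JL.NS

/-!
# Project JX (helper743), NA2: the fixed part of a split form is not degenerate
-/

set_option autoImplicit false
set_option linter.all false

open scoped Classical

namespace Pool.Agent.H662.JL

open Finset Module
open Pool.Agent.H743.JL
open Pool.Agent.N916.MO
open Pool.Agent.N916.GB (pt ps sx)
open Pool.Agent.H71.JL (co_fst_inl co_fst_inr co_snd_inl co_snd_inr co_inj co_fx co_fy)

section
variable {V : Type} [Fintype V] [DecidableEq V]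

theorem Bh_apply (v0 : V) (L : V → V → ZMod 2) (z w : (V → ZMod 2) × (V → ZMod 2)) :
    Bh v0 L z w = SL (fun _ => 0) (fun _ => 0) L z w + z.1 v0 * w.2 v0 + z.2 v0 * w.1 v0 := rfl

theorem Bh_lin (v0 : V) (L : V → V → ZMod 2) (z w : (V → ZMod 2) × (V → ZMod 2)) :
    Bh v0 L z w = ∑ i, w.1 i * ∑ j, L i j * z.2 j + ∑ j, w.2 j * ∑ i, L i j * z.1 i +
      z.1 v0 * w.2 v0 + z.2 v0 * w.1 v0 := by
  rw [Bh_apply, SL_lin]
  simp only [zero_mul, zero_add, add_zero]

theorem Bh_x (v0 : V) (L : V → V → ZMod 2) (z : (V → ZMod 2) × (V → ZMod 2)) (i : V)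
    (hi : i ≠ v0) : Bh v0 L z (Pi.single i 1, 0) = ∑ j, L i j * z.2 j := by
  rw [Bh_apply, SL_x]
  have h1 : (Pi.single i 1 : V → ZMod 2) v0 = 0 := Pi.single_eq_of_ne (Ne.symm hi) _
  show 0 * z.1 i + ∑ j, L i j * z.2 j + z.1 v0 * 0 + z.2 v0 * (Pi.single i 1 : V → ZMod 2) v0 = _
  rw [h1]
  ring

theorem Bh_y (v0 : V) (L : V → V → ZMod 2) (z : (V → ZMod 2) × (V → ZMod 2)) (j : V)
    (hj : j ≠ v0) : Bh v0 L z (0, Pi.single j 1) = ∑ i, L i j * z.1 i := by
  rw [Bh_apply, SL_y]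
  have h1 : (Pi.single j 1 : V → ZMod 2) v0 = 0 := Pi.single_eq_of_ne (Ne.symm hj) _
  show ∑ i, L i j * z.1 i + 0 * z.2 j + z.1 v0 * (Pi.single j 1 : V → ZMod 2) v0 + z.2 v0 * 0 = _
  rw [h1]
  ring

end

theorem t_NA2 : S_NA2 := by
  intro U J _ _ _ _ k0 w α L hrow hcol hrc hwJ hU hind e he1 he2
  obtain ⟨x, hx⟩ : ∃ x : U ⊕ J → ZMod 2, x = (co k0 (e, 0, 0)).1 := ⟨_, rfl⟩
  obtain ⟨y, hy⟩ : ∃ y : U ⊕ J → ZMod 2, y = (co k0 (e, 0, 0)).2 := ⟨_, rfl⟩
  obtain ⟨x0, hx0⟩ : ∃ x0, x0 = e.1 none := ⟨_, rfl⟩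
  obtain ⟨y0, hy0⟩ : ∃ y0, y0 = e.2 none := ⟨_, rfl⟩
  have hz : co k0 (e, 0, 0) = (x, y) := by rw [hx, hy]
  have z0 : ∀ l : J, xt k0 (0 : Ix k0 → ZMod 2) l = 0 := by
    intro l
    unfold xt
    split_ifs <;> simp
  have hxJ : ∀ k, x (Sum.inr k) = x0 := by
    intro k
    rw [hx, hx0, co_fst_inr]
    show e.1 none + xt k0 (0 : Ix k0 → ZMod 2) k = _
    rw [z0, add_zero]
  have hyJ : ∀ k, y (Sum.inr k) = y0 := by
    intro k
    rw [hy, hy0, co_snd_inr]
    show e.2 none + xt k0 (0 : Ix k0 → ZMod 2) k = _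
    rw [z0, add_zero]
  have two : ∀ b : ZMod 2, b + b = 0 := by decide
  have eqz : ∀ b c : ZMod 2, b + c = 0 → b = c := by decide
  have swap : ∀ b c e : ZMod 2, b + c = e → b = c + e := by decide
  have w01 : ∀ b : ZMod 2, b = 0 ∨ b = 1 := by decide
  have hkne : ∀ k : Ix k0, (Sum.inr (k : J) : U ⊕ J) ≠ Sum.inr k0 := fun k h =>
    k.2 (Sum.inr_injective h)
  -- the equations
  have p1 : ∀ k : Ix k0, ∑ j, L (Sum.inr (k : J)) j * y j = 0 := by
    intro k
    have h : Bh (Sum.inr k0) L (co k0 (e, 0, 0)) (co k0 (fx k)) = 0 := (he2 k).1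
    rw [co_fx, hz, Bh_x _ _ _ _ (hkne k)] at h
    exact h
  have p2 : ∀ k : Ix k0, ∑ i, L i (Sum.inr (k : J)) * x i = 0 := by
    intro k
    have h : Bh (Sum.inr k0) L (co k0 (e, 0, 0)) (co k0 (fy k)) = 0 := (he2 k).2
    rw [co_fy, hz, Bh_y _ _ _ _ (hkne k)] at h
    exact h
  -- the first family
  have q1 : ∀ k : Ix k0, ∑ u, (w (Sum.inl u) * (y (Sum.inl u) + y0)) * L (Sum.inl u) (Sum.inr k) +
      (∑ u, α (Sum.inl u) * (y (Sum.inl u) + y0)) * α (Sum.inr k) = 0 := by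
    intro k
    have h := p1 k
    have hr := hrow (Sum.inr (k : J))
    rw [Fintype.sum_sum_type] at h hr
    have e1 : ∑ l, L (Sum.inr (k : J)) (Sum.inr l) * y (Sum.inr l) =
        (∑ l, L (Sum.inr (k : J)) (Sum.inr l)) * y0 := by
      rw [sum_mul]
      exact sum_congr rfl fun l _ => by rw [hyJ]
    have e2 : ∑ l, L (Sum.inr (k : J)) (Sum.inr l) = ∑ u, L (Sum.inr (k : J)) (Sum.inl u) := by
      rw [add_comm] at hr
      exact eqz _ _ hr
    rw [e1, e2, sum_mul, ← sum_add_distrib] at h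
    rw [sum_mul, ← sum_add_distrib]
    refine Eq.trans (sum_congr rfl fun u _ => ?_) h
    have hc := hrc (Sum.inr (k : J)) (Sum.inl u) (by simp)
    rw [hwJ, one_mul] at hc
    rw [swap _ _ _ hc]
    ring
  obtain ⟨b1, b2⟩ := hind (fun u => w (Sum.inl u) * (y (Sum.inl u) + y0))
    (∑ u, α (Sum.inl u) * (y (Sum.inl u) + y0)) q1
  have hyu : ∀ u, y (Sum.inl u) = y0 := by
    intro u
    refine eqz _ _ ?_
    rcases w01 (w (Sum.inl u)) with hw | hw
    · have a3 : ∑ v, α (Sum.inl v) * (y (Sum.inl v) + y0) =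
          α (Sum.inl u) * (y (Sum.inl u) + y0) := by
        refine sum_eq_single u (fun v _ hv => ?_) (fun h => absurd (mem_univ u) h)
        rcases w01 (w (Sum.inl v)) with hw' | hw'
        · exact absurd ((hU v hw').2 u hw) hv
        · have := b1 v
          simp only [hw', one_mul] at this
          rw [this, mul_zero]
      rw [a3, (hU u hw).1, one_mul] at b2
      exact b2
    · have := b1 u
      simp only [hw, one_mul] at this
      exact this
  have hyi : ∀ i, y i = y0 := by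
    rintro (u | k)
    · exact hyu u
    · exact hyJ k
  -- the second family
  have q2 : ∀ k : Ix k0, ∑ u, (x (Sum.inl u) + x0 * w (Sum.inl u)) * L (Sum.inl u) (Sum.inr k) +
      0 * α (Sum.inr k) = 0 := by
    intro k
    have h := p2 k
    have hc := hcol (Sum.inr (k : J))
    rw [Fintype.sum_sum_type] at h hc
    have e1 : ∑ l, L (Sum.inr l) (Sum.inr (k : J)) * x (Sum.inr l) =
        (∑ l, L (Sum.inr l) (Sum.inr (k : J))) * x0 := by
      rw [sum_mul]
      exact sum_congr rfl fun l _ => by rw [hxJ]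
    have e2 : ∑ l, L (Sum.inr l) (Sum.inr (k : J)) =
        ∑ u, w (Sum.inl u) * L (Sum.inl u) (Sum.inr (k : J)) := by
      have h1 : ∑ l, w (Sum.inr l) * L (Sum.inr l) (Sum.inr (k : J)) =
          ∑ l, L (Sum.inr l) (Sum.inr (k : J)) :=
        sum_congr rfl fun l _ => by rw [hwJ, one_mul]
      rw [h1, add_comm] at hc
      exact eqz _ _ hc
    rw [e1, e2, sum_mul, ← sum_add_distrib] at h
    rw [zero_mul, add_zero]
    refine Eq.trans (sum_congr rfl fun u _ => ?_) h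
    ring
  obtain ⟨c1, -⟩ := hind (fun u => x (Sum.inl u) + x0 * w (Sum.inl u)) 0 q2
  have hxi : ∀ i, x i = x0 * w i := by
    rintro (u | k)
    · exact eqz _ _ (c1 u)
    · rw [hxJ, hwJ, mul_one]
  have sL1 : ∀ j, ∑ i, L i j * x i = 0 := by
    intro j
    have h1 : ∑ i, L i j * x i = x0 * ∑ i, w i * L i j := by
      rw [mul_sum]
      exact sum_congr rfl fun i _ => by rw [hxi]; ring
    rw [h1, hcol, mul_zero]
  have sL2 : ∀ i, ∑ j, L i j * y j = 0 := by
    intro i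
    have h1 : ∑ j, L i j * y j = (∑ j, L i j) * y0 := by
      rw [sum_mul]
      exact sum_congr rfl fun j _ => by rw [hyi]
    rw [h1, hrow, zero_mul]
  have hform : ∀ w', Bh (Sum.inr k0) L (x, y) w' = x0 * w'.2 (Sum.inr k0) +
      y0 * w'.1 (Sum.inr k0) := by
    intro w'
    rw [Bh_lin]
    have s1 : ∑ i, w'.1 i * ∑ j, L i j * (x, y).2 j = 0 :=
      sum_eq_zero fun i _ => by
        have : ∑ j, L i j * (x, y).2 j = 0 := sL2 i
        rw [this, mul_zero]
    have s2 : ∑ j, w'.2 j * ∑ i, L i j * (x, y).1 i = 0 :=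
      sum_eq_zero fun j _ => by
        have : ∑ i, L i j * (x, y).1 i = 0 := sL1 j
        rw [this, mul_zero]
    rw [s1, s2]
    show 0 + 0 + x (Sum.inr k0) * _ + y (Sum.inr k0) * _ = _
    rw [hxJ, hyJ]
    ring
  have hx00 : x0 = 0 := by
    have h : Bh (Sum.inr k0) L (co k0 (e, 0, 0))
        (co k0 ((((0 : Option U → ZMod 2), Pi.single none 1), 0, 0) :
          EE (E2 (Option U)) (Ix k0))) = 0 := he1 ((0 : Option U → ZMod 2), Pi.single none 1)
    rw [hz, hform, co_fst_inr, co_snd_inr, xt_k0] at h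
    have a1 : (Pi.single none 1 : Option U → ZMod 2) none = 1 := Pi.single_eq_same _ _
    have h2 : x0 * ((Pi.single none 1 : Option U → ZMod 2) none + 0) + y0 * (0 + 0) = 0 := h
    rw [a1] at h2
    simpa using h2
  have hy00 : y0 = 0 := by
    have h : Bh (Sum.inr k0) L (co k0 (e, 0, 0))
        (co k0 (((Pi.single none 1, (0 : Option U → ZMod 2)), 0, 0) :
          EE (E2 (Option U)) (Ix k0))) = 0 := he1 (Pi.single none 1, (0 : Option U → ZMod 2))
    rw [hz, hform, co_fst_inr, co_snd_inr, xt_k0] at h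
    have a1 : (Pi.single none 1 : Option U → ZMod 2) none = 1 := Pi.single_eq_same _ _
    have h2 : x0 * (0 + 0) + y0 * ((Pi.single none 1 : Option U → ZMod 2) none + 0) = 0 := h
    rw [a1] at h2
    simpa using h2
  refine Prod.ext (funext fun o => ?_) (funext fun o => ?_)
  · rcases o with _ | u
    · exact hx0.symm.trans hx00
    · have := hxi (Sum.inl u)
      rw [hx00, zero_mul, hx] at this
      exact this
  · rcases o with _ | u
    · exact hy0.symm.trans hy00
    · have := hyu u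
      rw [hy00, hy] at this
      exact this

end Pool.Agent.H662.JL
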