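import Pool.Agent.H743.JL.StmY
import Pool.Agent.H743.JL.SH

/-!
# JX, part SH2 (for helper743): the shape of the forms of two kinds
-/

set_option autoImplicit false
set_option linter.all false

open scoped Classical

namespace Pool.Agent.H190.JX.SH2

open Finset Module
open Pool.Agent.N916.MO
open Pool.Agent.H743.JL
open Pool.Agent.H385.JLSH

section
variable {U J : Type} [Fintype U] [DecidableEq U] [Fintype J] [LinearOrder J]

theorem Bhp_apply (k0 : J) (L : U ⊕ J → U ⊕ J → ZMod 2) (z w : EE (E2 (Option U)) (Ix k0)) :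
    Bhp k0 L z w = SL (fun _ => 0) (fun _ => 0) L (co k0 z) (co k0 w) +
      (co k0 z).1 (Sum.inr k0) * (co k0 w).2 (Sum.inr k0) +
      (co k0 z).2 (Sum.inr k0) * (co k0 w).1 (Sum.inr k0) := rfl

theorem Bhp_alt (k0 : J) (L : U ⊕ J → U ⊕ J → ZMod 2) (z : EE (E2 (Option U)) (Ix k0)) :
    Bhp k0 L z z = 0 := by
  rw [Bhp_apply, SL_self]
  simp only [zero_mul, sum_const_zero, add_zero, zero_add]
  rw [mul_comm ((co k0 z).2 (Sum.inr k0)), aa]

theorem sg0 (k0 : J) (k : Ix k0) :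
    (Pi.single (Sum.inr (k : J)) 1 : U ⊕ J → ZMod 2) (Sum.inr k0) = 0 :=
  Pi.single_eq_of_ne (fun h => k.2 (Sum.inr.inj h).symm) 1

theorem Bhp_fx (k0 : J) (L : U ⊕ J → U ⊕ J → ZMod 2) (z : EE (E2 (Option U)) (Ix k0))
    (k : Ix k0) : Bhp k0 L z (fx k) =
      ∑ u, L (Sum.inr (k : J)) (Sum.inl u) * z.1.2 (some u) +
        z.1.2 none * ∑ l, L (Sum.inr (k : J)) (Sum.inr l) +
        ∑ l : Ix k0, L (Sum.inr (k : J)) (Sum.inr (l : J)) * z.2.2 l := by
  rw [Bhp_apply, co_fx, SL_x, ← sum_co2]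
  show 0 * (co k0 z).1 (Sum.inr (k : J)) + ∑ j, L (Sum.inr (k : J)) j * (co k0 z).2 j +
    (co k0 z).1 (Sum.inr k0) * 0 +
    (co k0 z).2 (Sum.inr k0) * (Pi.single (Sum.inr (k : J)) 1 : U ⊕ J → ZMod 2) (Sum.inr k0) = _
  rw [sg0, zero_mul, zero_add, mul_zero, mul_zero, add_zero, add_zero]

theorem Bhp_fy (k0 : J) (L : U ⊕ J → U ⊕ J → ZMod 2) (z : EE (E2 (Option U)) (Ix k0))
    (k : Ix k0) : Bhp k0 L z (fy k) =
      ∑ u, L (Sum.inl u) (Sum.inr (k : J)) * z.1.1 (some u) +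
        z.1.1 none * ∑ l, L (Sum.inr l) (Sum.inr (k : J)) +
        ∑ l : Ix k0, L (Sum.inr (l : J)) (Sum.inr (k : J)) * z.2.1 l := by
  rw [Bhp_apply, co_fy, SL_y]
  have h0 := sum_co1 k0 (fun i => L i (Sum.inr (k : J))) z
  rw [h0]
  show _ + 0 * (co k0 z).2 (Sum.inr (k : J)) +
    (co k0 z).1 (Sum.inr k0) * (Pi.single (Sum.inr (k : J)) 1 : U ⊕ J → ZMod 2) (Sum.inr k0) +
    (co k0 z).2 (Sum.inr k0) * 0 = _
  rw [sg0, zero_mul, mul_zero, mul_zero, add_zero, add_zero, add_zero]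

theorem co_2 (k0 : J) {z : EE (E2 (Option U)) (Ix k0)} (h1 : z.1.2 = 0) (h2 : z.2.2 = 0) :
    (co k0 z).2 = 0 := by
  funext v
  rcases v with u | k
  · show z.1.2 (some u) = 0
    rw [h1]
    rfl
  · show z.1.2 none + xt k0 z.2.2 k = 0
    rw [h1, h2]
    exact x0 k0 k

theorem co_1 (k0 : J) {z : EE (E2 (Option U)) (Ix k0)} (h1 : z.1.1 = 0) (h2 : z.2.1 = 0) :
    (co k0 z).1 = 0 := by
  funext v
  rcases v with u | k
  · show z.1.1 (some u) = 0
    rw [h1]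
    rfl
  · show z.1.1 none + xt k0 z.2.1 k = 0
    rw [h1, h2]
    exact x0 k0 k

theorem Bhp_xx (k0 : J) (L : U ⊕ J → U ⊕ J → ZMod 2) {z w : EE (E2 (Option U)) (Ix k0)}
    (h1 : z.1.2 = 0) (h2 : z.2.2 = 0) (h3 : w.1.2 = 0) (h4 : w.2.2 = 0) : Bhp k0 L z w = 0 := by
  rw [Bhp_apply, SL_apply, co_2 k0 h1 h2, co_2 k0 h3 h4]
  simp only [Pi.zero_apply, mul_zero, zero_mul, add_zero, sum_const_zero]

theorem Bhp_yy (k0 : J) (L : U ⊕ J → U ⊕ J → ZMod 2) {z w : EE (E2 (Option U)) (Ix k0)}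
    (h1 : z.1.1 = 0) (h2 : z.2.1 = 0) (h3 : w.1.1 = 0) (h4 : w.2.1 = 0) : Bhp k0 L z w = 0 := by
  rw [Bhp_apply, SL_apply, co_1 k0 h1 h2, co_1 k0 h3 h4]
  simp only [Pi.zero_apply, mul_zero, zero_mul, add_zero, sum_const_zero]

theorem mem_AX {e : E2 (Option U)} : e ∈ AXc U ↔ e.2 = 0 := Iff.rfl

theorem mem_AY {e : E2 (Option U)} : e ∈ AYc U ↔ e.1 = 0 := Iff.rfl

theorem cplc : IsCompl (AXc U) (AYc U) := by
  rw [isCompl_iff, disjoint_iff, codisjoint_iff]
  constructor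
  · rw [eq_bot_iff]
    rintro z ⟨h1, h2⟩
    rw [Submodule.mem_bot]
    exact Prod.ext h2 h1
  · rw [eq_top_iff]
    intro z _
    exact Submodule.mem_sup.2 ⟨(z.1, 0), rfl, (0, z.2), rfl,
      Prod.ext (add_zero _) (zero_add _)⟩

theorem dimc : finrank (ZMod 2) (AXc U) = finrank (ZMod 2) (AYc U) :=
  LinearEquiv.finrank_eq
    { toFun := fun z => ⟨(0, z.1.1), rfl⟩
      map_add' := fun a b => Subtype.ext (Prod.ext (add_zero _).symm rfl)
      map_smul' := fun c a => Subtype.ext (Prod.ext (smul_zero _).symm rfl)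
      invFun := fun z => ⟨(z.1.2, 0), rfl⟩
      left_inv := fun z => Subtype.ext (Prod.ext rfl (mem_AX.1 z.2).symm)
      right_inv := fun z => Subtype.ext (Prod.ext (mem_AY.1 z.2).symm rfl) }

theorem splc (k0 : J) (L : U ⊕ J → U ⊕ J → ZMod 2) : Spl (Bhp k0 L) (AXc U) (AYc U) where
  cpl := cplc
  dim := dimc
  xx := fun z hz w hw => Bhp_xx k0 L (mem_AX.1 (hz trivial).1) (hz trivial).2
    (mem_AX.1 (hw trivial).1) (hw trivial).2
  yy := fun z hz w hw => Bhp_yy k0 L (mem_AY.1 (hz trivial).1) (hz trivial).2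
    (mem_AY.1 (hw trivial).1) (hw trivial).2

theorem Bk_pos {sp : Prop} (h : sp) (k0 : J) (r ν α : U ⊕ J → ZMod 2)
    (L : U ⊕ J → U ⊕ J → ZMod 2) : Bk sp k0 r ν α L = Bhp k0 L := if_pos h

theorem Bk_neg {sp : Prop} (h : ¬ sp) (k0 : J) (r ν α : U ⊕ J → ZMod 2)
    (L : U ⊕ J → U ⊕ J → ZMod 2) : Bk sp k0 r ν α L = Bp k0 r ν α L := if_neg h

end

theorem t_SH2' : S_SH2 := by
  intro n sp U _ _ J _ _ k0 r ν α L νJ αJ LJ τ h1 h2 h3 h4 h5
  have e1 : ∀ i (k : Ix k0) (z : EE (E2 (Option (U i))) (Ix k0)),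
      ∑ l : Ix k0, L i (Sum.inr (k : J)) (Sum.inr (l : J)) * z.2.2 l =
        ∑ l : Ix k0, LJ k l * z.2.2 l + τ i k * z.2.2 k := by
    intro i k z
    have e2 : ∀ l : Ix k0, L i (Sum.inr (k : J)) (Sum.inr (l : J)) * z.2.2 l =
        LJ k l * z.2.2 l + if l = k then τ i k * z.2.2 k else 0 := by
      intro l
      split_ifs with h
      · rw [h, h3]
        ring
      · rw [h2 i k l (fun h' => h (Subtype.ext h'.symm)), add_zero]
    rw [sum_congr rfl fun l _ => e2 l, sum_add_distrib, sum_ite_eq' univ k, if_pos (mem_univ k)]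
  have e1' : ∀ i (k : Ix k0) (z : EE (E2 (Option (U i))) (Ix k0)),
      ∑ l : Ix k0, L i (Sum.inr (l : J)) (Sum.inr (k : J)) * z.2.1 l =
        ∑ l : Ix k0, LJ l k * z.2.1 l + τ i k * z.2.1 k := by
    intro i k z
    have e2 : ∀ l : Ix k0, L i (Sum.inr (l : J)) (Sum.inr (k : J)) * z.2.1 l =
        LJ l k * z.2.1 l + if l = k then τ i k * z.2.1 k else 0 := by
      intro l
      split_ifs with h
      · rw [h, h3]
        ring
      · rw [h2 i l k (fun h' => h (Subtype.ext h')), add_zero]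
    rw [sum_congr rfl fun l _ => e2 l, sum_add_distrib, sum_ite_eq' univ k, if_pos (mem_univ k)]
  refine ⟨fun i z => dF (r i) (ν i) (α i) (co k0 z) + rF (r i) (co k0 z),
    fun x => ∑ l : Ix k0, αJ l * x l,
    fun i k e c => if sp i then (∑ u, L i (Sum.inr (k : J)) (Sum.inl u) * e.2 (some u) +
      e.2 none * ∑ l, L i (Sum.inr (k : J)) (Sum.inr l)) else
      νJ k * e.1 none + (∑ u, L i (Sum.inr (k : J)) (Sum.inl u) * e.2 (some u) +
      e.2 none * ∑ l, L i (Sum.inr (k : J)) (Sum.inr l)) + c * νJ k,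
    fun i k e c => if sp i then (∑ u, L i (Sum.inl u) (Sum.inr (k : J)) *
        e.1 (some u) + e.1 none * ∑ l, L i (Sum.inr l) (Sum.inr (k : J))) else
      (∑ u, (1 + r i (Sum.inl u)) * L i (Sum.inl u) (Sum.inr (k : J)) *
        e.1 (some u) + e.1 none * ∑ l, L i (Sum.inr l) (Sum.inr (k : J))) +
        αJ k * e.2 none + c * αJ k,
    fun k g => αJ k * g, ?_, ?_, ?_, ?_, ?_, ?_⟩
  · intro i z
    show Bk (sp i) k0 (r i) (ν i) (α i) (L i) z z = 0
    by_cases hs : sp i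
    · rw [Bk_pos hs]
      exact Bhp_alt k0 _ z
    · rw [Bk_neg hs]
      exact Bp_alt k0 _ _ _ _ z
  · intro i hs
    show Spl (Bk (sp i) k0 (r i) (ν i) (α i) (L i)) (AXc (U i)) (AYc (U i))
    rw [Bk_pos hs]
    exact splc k0 (L i)
  · intro i z k
    show Bk (sp i) k0 (r i) (ν i) (α i) (L i) z (fx k) = _
    by_cases hs : sp i
    · rw [Bk_pos hs, Bhp_fx, e1]
      simp only [if_pos hs]
      ring
    · rw [Bk_neg hs, Bp_fx k0 (r i) (ν i) (α i) (L i) z k (h1 i k).1, (h1 i k).2.1, e1]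
      simp only [if_neg hs]
      ring
  · intro i z k
    show Bk (sp i) k0 (r i) (ν i) (α i) (L i) z (fy k) = _
    by_cases hs : sp i
    · rw [Bk_pos hs, Bhp_fy, e1']
      simp only [if_pos hs]
      ring
    · rw [Bk_neg hs, Bp_fy k0 (r i) (ν i) (α i) (L i) z k (fun l => (h1 i l).1), (h1 i k).2.2,
        e1']
      simp only [if_neg hs]
      ring
  · intro x k
    show ∑ l : Ix k0, LJ k l * x l + ∑ l : Ix k0, LJ l k * x l =
      αJ k * x k + αJ k * ∑ l : Ix k0, αJ l * x l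
    rw [← sum_add_distrib]
    have e2 : ∀ l : Ix k0, LJ k l * x l + LJ l k * x l =
        αJ k * (αJ l * x l) + if l = k then αJ k * x k else 0 := by
      intro l
      split_ifs with h
      · rw [h]
        generalize LJ k k = a
        generalize αJ k = b
        generalize x k = c
        revert a b c
        decide
      · rw [← add_mul, h4 k l (fun h' => h (Subtype.ext h'.symm)), add_zero]
        ring
    rw [sum_congr rfl fun l _ => e2 l, sum_add_distrib, sum_ite_eq' univ k, if_pos (mem_univ k),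
      ← mul_sum]
    ring
  · intro i e
    exact h5 i e

theorem t_SH2 (h : S_SH) : S_SH2 := t_SH2'

end Pool.Agent.H190.JX.SH2
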