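import Pool.Agent.H743.JL.StmX

/-!
# JX, part SR (for helper743): the radical of a split form
-/

set_option autoImplicit false
set_option linter.all false

open scoped Classical

namespace Pool.Agent.H190.JX.SR

open Finset Module
open Pool.Agent.H743.JL Pool.Agent.N916.MO

section
variable {V : Type} [AddCommGroup V] [Module (ZMod 2) V] [FiniteDimensional (ZMod 2) V]

/-- the rank of a pairing and of its transpose -/
theorem ker_eq (b : V →ₗ[ZMod 2] V →ₗ[ZMod 2] ZMod 2) (hs : ∀ z w, b z w = b w z)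
    (X Y : Submodule (ZMod 2) V) (hd : finrank (ZMod 2) X = finrank (ZMod 2) Y) :
    finrank (ZMod 2) (LinearMap.ker (b.domRestrict₁₂ X Y)) =
      finrank (ZMod 2) (LinearMap.ker (b.domRestrict₁₂ Y X)) := by
  have h1 := LinearMap.finrank_range_add_finrank_ker (b.domRestrict₁₂ X Y)
  have h2 := LinearMap.finrank_range_add_finrank_ker (b.domRestrict₁₂ Y X)
  have h3 : finrank (ZMod 2) (LinearMap.range (b.domRestrict₁₂ Y X)) =
      finrank (ZMod 2) (LinearMap.range (b.domRestrict₁₂ X Y)) := by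
    rw [← LinearMap.finrank_range_dualMap_eq_finrank_range (b.domRestrict₁₂ X Y)]
    have e : b.domRestrict₁₂ Y X =
        (b.domRestrict₁₂ X Y).dualMap ∘ₗ (Module.evalEquiv (ZMod 2) Y).toLinearMap := by
      refine LinearMap.ext fun y => LinearMap.ext fun x => ?_
      exact hs y.1 x.1
    rw [e, LinearMap.range_comp_of_range_eq_top]
    exact LinearEquiv.range _
  omega

/-- the kernel of the pairing -/
theorem ker_fr (b : V →ₗ[ZMod 2] V →ₗ[ZMod 2] ZMod 2) (X Y : Submodule (ZMod 2) V)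
    (hc : IsCompl X Y) (hX : ∀ z ∈ X, ∀ w ∈ X, b z w = 0) :
    finrank (ZMod 2) (LinearMap.ker (b.domRestrict₁₂ X Y)) =
      finrank (ZMod 2) (Rad b ⊤ ⊓ X : Submodule (ZMod 2) V) := by
  refine LinearEquiv.finrank_eq
    { toFun := fun x => ⟨x.1.1, ⟨trivial, fun w _ => ?_⟩, x.1.2⟩
      map_add' := fun _ _ => rfl
      map_smul' := fun _ _ => rfl
      invFun := fun x => ⟨⟨x.1, x.2.2⟩, ?_⟩
      left_inv := fun _ => rfl
      right_inv := fun _ => rfl }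
  · have hw : w ∈ X ⊔ Y := by rw [hc.sup_eq_top]; trivial
    obtain ⟨u, hu, v, hv, rfl⟩ := Submodule.mem_sup.1 hw
    rw [map_add, hX _ x.1.2 _ hu, zero_add]
    exact congrArg (fun f => f ⟨v, hv⟩) (LinearMap.mem_ker.1 x.2)
  · rw [LinearMap.mem_ker]
    refine LinearMap.ext fun y => ?_
    exact x.2.1.2 y.1 trivial

/-- the decomposition of the radical -/
theorem dec (b : V →ₗ[ZMod 2] V →ₗ[ZMod 2] ZMod 2) (X Y : Submodule (ZMod 2) V)
    (hc : IsCompl X Y) (hX : ∀ z ∈ X, ∀ w ∈ X, b z w = 0) (hY : ∀ z ∈ Y, ∀ w ∈ Y, b z w = 0)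
    (z : V) (hz : z ∈ Rad b ⊤) :
    ∃ x ∈ Rad b ⊤ ⊓ X, ∃ y ∈ Rad b ⊤ ⊓ Y, z = x + y := by
  have hz' : z ∈ X ⊔ Y := by rw [hc.sup_eq_top]; trivial
  obtain ⟨x, hx, y, hy, rfl⟩ := Submodule.mem_sup.1 hz'
  refine ⟨x, ⟨⟨trivial, fun w _ => ?_⟩, hx⟩, y, ⟨⟨trivial, fun w _ => ?_⟩, hy⟩, rfl⟩
  · have hw : w ∈ X ⊔ Y := by rw [hc.sup_eq_top]; trivial
    obtain ⟨u, hu, v, hv, rfl⟩ := Submodule.mem_sup.1 hw
    have h1 := hz.2 v trivial
    rw [map_add, LinearMap.add_apply, hY y hy v hv, add_zero] at h1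
    rw [map_add, hX x hx u hu, h1, add_zero]
  · have hw : w ∈ X ⊔ Y := by rw [hc.sup_eq_top]; trivial
    obtain ⟨u, hu, v, hv, rfl⟩ := Submodule.mem_sup.1 hw
    have h1 := hz.2 u trivial
    rw [map_add, LinearMap.add_apply, hX x hx u hu, zero_add] at h1
    rw [map_add, hY y hy v hv, h1, add_zero]

/-- the dimension of the radical -/
theorem fr_rad (b : V →ₗ[ZMod 2] V →ₗ[ZMod 2] ZMod 2) (X Y : Submodule (ZMod 2) V)
    (hc : IsCompl X Y) (hX : ∀ z ∈ X, ∀ w ∈ X, b z w = 0) (hY : ∀ z ∈ Y, ∀ w ∈ Y, b z w = 0) :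
    finrank (ZMod 2) (Rad b ⊤) = finrank (ZMod 2) (Rad b ⊤ ⊓ X : Submodule (ZMod 2) V) +
      finrank (ZMod 2) (Rad b ⊤ ⊓ Y : Submodule (ZMod 2) V) := by
  have h1 : Rad b ⊤ = (Rad b ⊤ ⊓ X) ⊔ (Rad b ⊤ ⊓ Y) := by
    apply le_antisymm
    · intro z hz
      obtain ⟨x, hx, y, hy, rfl⟩ := dec b X Y hc hX hY z hz
      exact Submodule.mem_sup.2 ⟨x, hx, y, hy, rfl⟩
    · exact sup_le inf_le_left inf_le_left
  have h2 : (Rad b ⊤ ⊓ X) ⊓ (Rad b ⊤ ⊓ Y) = ⊥ := by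
    rw [eq_bot_iff]
    rintro z ⟨⟨-, h3⟩, ⟨-, h4⟩⟩
    rw [← hc.inf_eq_bot]
    exact ⟨h3, h4⟩
  have h3 := Submodule.finrank_sup_add_finrank_inf_eq (Rad b ⊤ ⊓ X) (Rad b ⊤ ⊓ Y)
  rw [h2, finrank_bot, add_zero, ← h1] at h3
  exact h3

end

section
variable {E0 I : Type} [AddCommGroup E0] [Module (ZMod 2) E0] [Fintype E0] [Fintype I]
  [DecidableEq I]

theorem fr_XP (AX : Submodule (ZMod 2) E0) : finrank (ZMod 2) (XP I True AX) =
    finrank (ZMod 2) AX + finrank (ZMod 2) (I → ZMod 2) := by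
  rw [← finrank_prod]
  exact LinearEquiv.finrank_eq
    { toFun := fun z => (⟨z.1.1, (z.2 trivial).1⟩, z.1.2.1)
      map_add' := fun _ _ => rfl
      map_smul' := fun _ _ => rfl
      invFun := fun p => ⟨(p.1.1, p.2, 0), fun _ => ⟨p.1.2, rfl⟩⟩
      left_inv := fun z => Subtype.ext (Prod.ext rfl (Prod.ext rfl (z.2 trivial).2.symm))
      right_inv := fun p => rfl }

theorem fr_YP (AY : Submodule (ZMod 2) E0) : finrank (ZMod 2) (YP I True AY) =
    finrank (ZMod 2) AY + finrank (ZMod 2) (I → ZMod 2) := by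
  rw [← finrank_prod]
  exact LinearEquiv.finrank_eq
    { toFun := fun z => (⟨z.1.1, (z.2 trivial).1⟩, z.1.2.2)
      map_add' := fun _ _ => rfl
      map_smul' := fun _ _ => rfl
      invFun := fun p => ⟨(p.1.1, 0, p.2), fun _ => ⟨p.1.2, rfl⟩⟩
      left_inv := fun z => Subtype.ext (Prod.ext rfl (Prod.ext (z.2 trivial).2.symm rfl))
      right_inv := fun p => rfl }

theorem cpl_P {AX AY : Submodule (ZMod 2) E0} (h : IsCompl AX AY) :
    IsCompl (XP I True AX) (YP I True AY) := by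
  rw [isCompl_iff, disjoint_iff, codisjoint_iff]
  constructor
  · rw [eq_bot_iff]
    rintro z ⟨h1, h2⟩
    rw [Submodule.mem_bot]
    have h3 : z.1 ∈ AX ⊓ AY := ⟨(h1 trivial).1, (h2 trivial).1⟩
    rw [h.inf_eq_bot, Submodule.mem_bot] at h3
    exact Prod.ext h3 (Prod.ext (h2 trivial).2 (h1 trivial).2)
  · rw [eq_top_iff]
    intro z _
    have hz : z.1 ∈ AX ⊔ AY := by rw [h.sup_eq_top]; trivial
    obtain ⟨x, hx, y, hy, hxy⟩ := Submodule.mem_sup.1 hz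
    refine Submodule.mem_sup.2 ⟨(x, z.2.1, 0), fun _ => ⟨hx, rfl⟩, (y, 0, z.2.2),
      fun _ => ⟨hy, rfl⟩, ?_⟩
    exact Prod.ext hxy (Prod.ext (add_zero _) (zero_add _))

theorem sB_xx (s : I → I → ZMod 2) {z w : EE E0 I} (hz : z.2.2 = 0) (hw : w.2.2 = 0) :
    sB s z w = 0 := by
  rw [sB_apply]
  refine sum_eq_zero fun k _ => sum_eq_zero fun l _ => ?_
  rw [hz, hw, Pi.zero_apply, mul_zero, mul_zero, add_zero, mul_zero]

theorem sB_yy (s : I → I → ZMod 2) {z w : EE E0 I} (hz : z.2.1 = 0) (hw : w.2.1 = 0) :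
    sB s z w = 0 := by
  rw [sB_apply]
  refine sum_eq_zero fun k _ => sum_eq_zero fun l _ => ?_
  rw [hz, hw, Pi.zero_apply, zero_mul, zero_mul, add_zero, mul_zero]

end

theorem t_SR : S_SR := by
  intro E0 _ _ _ I _ _ B AX AY s hB hS
  have hA : Rd B s = Rad (B + sB s.1) ⊤ := by
    unfold Rd
    rw [EA_univ]
  have halt : ∀ z, (B + sB s.1 : EE E0 I →ₗ[ZMod 2] EE E0 I →ₗ[ZMod 2] ZMod 2) z z = 0 := by
    intro z
    rw [LinearMap.add_apply, LinearMap.add_apply, sB_alt, add_zero, hB]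
  have hX : ∀ z ∈ XP I True AX, ∀ w ∈ XP I True AX,
      (B + sB s.1 : EE E0 I →ₗ[ZMod 2] EE E0 I →ₗ[ZMod 2] ZMod 2) z w = 0 := by
    intro z hz w hw
    rw [LinearMap.add_apply, LinearMap.add_apply, hS.xx z hz w hw,
      sB_xx _ (hz trivial).2 (hw trivial).2, add_zero]
  have hY : ∀ z ∈ YP I True AY, ∀ w ∈ YP I True AY,
      (B + sB s.1 : EE E0 I →ₗ[ZMod 2] EE E0 I →ₗ[ZMod 2] ZMod 2) z w = 0 := by
    intro z hz w hw
    rw [LinearMap.add_apply, LinearMap.add_apply, hS.yy z hz w hw,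
      sB_yy _ (hz trivial).2 (hw trivial).2, add_zero]
  have hc : IsCompl (XP I True AX) (YP I True AY) := cpl_P hS.cpl
  have hd : finrank (ZMod 2) (XP I True AX) = finrank (ZMod 2) (YP I True AY) := by
    rw [fr_XP, fr_YP, hS.dim]
  have h1 := ker_eq (B + sB s.1 : EE E0 I →ₗ[ZMod 2] EE E0 I →ₗ[ZMod 2] ZMod 2)
    (fun z w => symB halt z w) _ _ hd
  rw [ker_fr _ _ _ hc hX, ker_fr _ _ _ hc.symm hY] at h1
  have h2 := fr_rad (B + sB s.1 : EE E0 I →ₗ[ZMod 2] EE E0 I →ₗ[ZMod 2] ZMod 2) _ _ hc hX hY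
  have h3 : dR B s univ = finrank (ZMod 2) (Rad (B + sB s.1) (⊤ : Submodule (ZMod 2) (EE E0 I))) := by
    unfold dR
    rw [EA_univ]
  unfold KX KY
  rw [hA, h3]
  refine ⟨dec _ _ _ hc hX hY, ?_, ?_⟩
  · omega
  · omega

end Pool.Agent.H190.JX.SR
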