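import Pool.Agent.H743.JL.Stm

/-!
# JL (helper743), T1: the transitions for `s + v vᵀ`
-/

set_option autoImplicit false

open scoped Classical

namespace Pool.Agent.H328.JLT1

open Finset Module
open Pool.Agent.H743.JL Pool.Agent.N916.MO

section
variable {E : Type} [AddCommGroup E] [Module (ZMod 2) E]

/-- a functional vanishing on the radical is represented -/
theorem rep' [Finite E] {b : E →ₗ[ZMod 2] E →ₗ[ZMod 2] ZMod 2} {X : E →ₗ[ZMod 2] ZMod 2}
    (h : ∀ z ∈ Rad b ⊤, X z = 0) : ∃ w, ∀ z, b z w = X z := by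
  let T : E →ₗ[ZMod 2] Module.Dual (ZMod 2) E := b
  have hT : ∀ v w : E, T v w = b v w := fun v w => rfl
  let φ : Module.Dual (ZMod 2) E := X
  have h1 : φ ∈ (LinearMap.ker T).dualAnnihilator := by
    rw [Submodule.mem_dualAnnihilator]
    intro v hv
    refine h v ⟨Submodule.mem_top, fun w _ => ?_⟩
    exact LinearMap.congr_fun (LinearMap.mem_ker.1 hv) w
  rw [← LinearMap.range_dualMap_eq_dualAnnihilator_ker] at h1
  obtain ⟨ψ, hψ⟩ := h1
  obtain ⟨w, hw⟩ := (Module.evalEquiv (ZMod 2) E).surjective ψ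
  refine ⟨w, fun v => ?_⟩
  have h2 := LinearMap.congr_fun hψ v
  rw [LinearMap.dualMap_apply, ← hw] at h2
  have h3 : (Module.evalEquiv (ZMod 2) E) w (T v) = T v w := rfl
  rw [h3, hT] at h2
  exact h2

end

section
variable {I : Type} [Fintype I] [DecidableEq I]

/-- the scalar product as a functional -/
def dtL (v : I → ZMod 2) : (I → ZMod 2) →ₗ[ZMod 2] ZMod 2 where
  toFun x := dt v x
  map_add' x y := by
    unfold dt
    rw [← sum_add_distrib]
    exact sum_congr rfl fun k _ => by rw [Pi.add_apply, mul_add]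
  map_smul' c x := by
    unfold dt
    rw [smul_eq_mul, mul_sum]
    exact sum_congr rfl fun k _ => by
      rw [Pi.smul_apply, smul_eq_mul, RingHom.id_apply]
      ring

variable {E0 : Type} [AddCommGroup E0] [Module (ZMod 2) E0]

/-- the first functional -/
def XL (v : I → ZMod 2) : EE E0 I →ₗ[ZMod 2] ZMod 2 :=
  (dtL v).comp ((LinearMap.fst (ZMod 2) (I → ZMod 2) (I → ZMod 2)).comp
    (LinearMap.snd (ZMod 2) E0 ((I → ZMod 2) × (I → ZMod 2))))

/-- the second functional -/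
def YL (v : I → ZMod 2) : EE E0 I →ₗ[ZMod 2] ZMod 2 :=
  (dtL v).comp ((LinearMap.snd (ZMod 2) (I → ZMod 2) (I → ZMod 2)).comp
    (LinearMap.snd (ZMod 2) E0 ((I → ZMod 2) × (I → ZMod 2))))

theorem XL_apply (v : I → ZMod 2) (z : EE E0 I) : XL v z = dt v z.2.1 := rfl

theorem YL_apply (v : I → ZMod 2) (z : EE E0 I) : YL v z = dt v z.2.2 := rfl

theorem sB_vv (v : I → ZMod 2) (z w : EE E0 I) :
    sB (vv v).1 z w = XL v z * YL v w + XL v w * YL v z := by
  rw [sB_apply, XL_apply, XL_apply, YL_apply, YL_apply]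
  have h1 : ∀ k l, (vv v).1 k l * (z.2.1 k * w.2.2 l + w.2.1 k * z.2.2 l) =
      (v k * z.2.1 k) * (v l * w.2.2 l) + (v k * w.2.1 k) * (v l * z.2.2 l) := by
    intro k l
    change (v k * v l) * _ = _
    ring
  rw [sum_congr rfl fun k _ => sum_congr rfl fun l _ => h1 k l]
  unfold dt
  rw [sum_mul_sum, sum_mul_sum, ← sum_add_distrib]
  exact sum_congr rfl fun k _ => sum_add_distrib

end

/-- (T1) the transitions -/
theorem t_T1 (h : S_TR) : S_T1 := by
  intro E0 _ _ _ I _ _ B s v hB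
  set b : EE E0 I →ₗ[ZMod 2] EE E0 I →ₗ[ZMod 2] ZMod 2 := B + sB s.1 with hb
  set b' : EE E0 I →ₗ[ZMod 2] EE E0 I →ₗ[ZMod 2] ZMod 2 := B + sB (s + vv v).1 with hb'
  have hbb : ∀ z w, b' z w = b z w + XL v z * YL v w + XL v w * YL v z := by
    intro z w
    have h1 : (s + vv v).1 = s.1 + (vv v).1 := rfl
    rw [hb', h1, sB_add, ← add_assoc, ← hb, LinearMap.add_apply, LinearMap.add_apply, sB_vv,
      add_assoc]
  have halt : ∀ z, b z z = 0 := by
    intro z
    rw [hb, LinearMap.add_apply, LinearMap.add_apply, sB_alt, hB, add_zero]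
  have hfin : Finite (EE E0 I) := inferInstance
  obtain ⟨h1, h2, h3⟩ := h (EE E0 I) b b' (XL v) (YL v) halt hbb
  have hRd : Rd B s = Rad b ⊤ := by
    unfold Rd
    rw [EA_univ]
  have hd : dR B s univ = finrank (ZMod 2) (Rad b ⊤) := by
    unfold dR
    rw [EA_univ]
  have hd' : dR B (s + vv v) univ = finrank (ZMod 2) (Rad b' ⊤) := by
    unfold dR
    rw [EA_univ]
  rw [hRd, hd, hd']
  refine ⟨?_, h2, h3⟩
  intro h0
  obtain ⟨w, hw⟩ := rep' (b := b) (X := XL v) (fun z hz => (h0 z hz).1)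
  have hex : ∃ w : EE E0 I, ∀ z, (B + sB s.1 : EE E0 I →ₗ[ZMod 2] EE E0 I →ₗ[ZMod 2] ZMod 2) z w =
      dt v z.2.1 := ⟨w, hw⟩
  have hq : qq B s v = YL v hex.choose := by
    unfold qq
    rw [dif_pos hex]
    rfl
  rw [hq]
  exact h1 hex.choose hex.choose_spec (fun z hz => (h0 z hz).2)

end Pool.Agent.H328.JLT1
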