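import Pool.Agent.H743.JL.Stm

/-!
# JL-T2 (helper289): for a generic system all families of functionals occur
-/

set_option autoImplicit false
set_option linter.all false

open scoped Classical

namespace H289.JLT2

open Finset Module
open Pool.Agent.H743.JL Pool.Agent.N916.MO

theorem t_T2 : S_T2 := by
  intro n E0 _ _ _ I _ _ B s hJG f g
  -- the transpose
  let P := (∀ i, Rd (B i) s) × (∀ i, Rd (B i) s)
  let M : P →ₗ[ZMod 2] (I → ZMod 2) :=
    { toFun := fun p k => ∑ i, ((p.2 i).1.2.2 k + (p.1 i).1.2.1 k)
      map_add' := by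
        intro p q
        funext k
        show ∑ i, (((p.2 i).1.2.2 k + (q.2 i).1.2.2 k) + ((p.1 i).1.2.1 k + (q.1 i).1.2.1 k)) =
          ∑ i, ((p.2 i).1.2.2 k + (p.1 i).1.2.1 k) + ∑ i, ((q.2 i).1.2.2 k + (q.1 i).1.2.1 k)
        rw [← sum_add_distrib]
        exact sum_congr rfl fun i _ => by ring
      map_smul' := by
        intro c p
        funext k
        show ∑ i, (c * (p.2 i).1.2.2 k + c * (p.1 i).1.2.1 k) =
          c * ∑ i, ((p.2 i).1.2.2 k + (p.1 i).1.2.1 k)
        rw [mul_sum]
        exact sum_congr rfl fun i _ => by ring }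
  have hM : Function.Injective M := by
    rw [← LinearMap.ker_eq_bot, LinearMap.ker_eq_bot']
    intro p hp
    have h1 := hJG (fun i => (p.2 i).1) (fun i => (p.1 i).1) (fun i => (p.2 i).2)
      (fun i => (p.1 i).2) (fun k => by
        have := congrFun hp k
        exact this)
    refine Prod.ext ?_ ?_
    · funext i
      exact Subtype.ext (h1.2 i)
    · funext i
      exact Subtype.ext (h1.1 i)
  obtain ⟨Φ, hΦ⟩ := LinearMap.exists_leftInverse_of_injective M (LinearMap.ker_eq_bot.2 hM)
  let φ : P →ₗ[ZMod 2] ZMod 2 :=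
    { toFun := fun p => ∑ i, (f i (p.1 i) + g i (p.2 i))
      map_add' := by
        intro p q
        show ∑ i, (f i (p.1 i + q.1 i) + g i (p.2 i + q.2 i)) =
          ∑ i, (f i (p.1 i) + g i (p.2 i)) + ∑ i, (f i (q.1 i) + g i (q.2 i))
        rw [← sum_add_distrib]
        exact sum_congr rfl fun i _ => by rw [map_add, map_add]; ring
      map_smul' := by
        intro c p
        show ∑ i, (f i (c • p.1 i) + g i (c • p.2 i)) = c * ∑ i, (f i (p.1 i) + g i (p.2 i))
        rw [mul_sum]
        exact sum_congr rfl fun i _ => by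
          rw [map_smul, map_smul, smul_eq_mul, smul_eq_mul]; ring }
  let ψ : (I → ZMod 2) →ₗ[ZMod 2] ZMod 2 := φ ∘ₗ Φ
  have hψ : ∀ p : P, ψ (M p) = φ p := by
    intro p
    have := LinearMap.congr_fun hΦ p
    simp only [LinearMap.comp_apply, LinearMap.id_apply] at this
    show φ (Φ (M p)) = φ p
    rw [this]
  have hv : ∀ x : I → ZMod 2, ψ x = dt (fun k => ψ (Pi.single k 1)) x := by
    intro x
    unfold dt
    conv_lhs => rw [LinearMap.pi_apply_eq_sum_univ ψ x]
    apply sum_congr rfl
    intro k _
    rw [smul_eq_mul, mul_comm]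
    congr 2
    funext l
    rw [Pi.single_apply]
    simp only [eq_comm]
  refine ⟨fun k => ψ (Pi.single k 1), ?_⟩
  intro i z
  constructor
  · have h1 := hψ (Pi.single i z, 0)
    rw [hv] at h1
    have h2 : M (Pi.single i z, 0) = z.1.2.1 := by
      funext k
      show ∑ j, (((0 : ∀ i, Rd (B i) s) j).1.2.2 k + ((Pi.single i z : ∀ i, Rd (B i) s) j).1.2.1 k) = _
      rw [sum_eq_single i]
      · rw [Pi.single_eq_same]
        simp
      · intro j _ hj
        rw [Pi.single_eq_of_ne hj]
        simp
      · intro h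
        exact absurd (mem_univ _) h
    have h3 : φ (Pi.single i z, 0) = f i z := by
      show ∑ j, (f j ((Pi.single i z : ∀ i, Rd (B i) s) j) + g j ((0 : ∀ i, Rd (B i) s) j)) = _
      rw [sum_eq_single i]
      · rw [Pi.single_eq_same]
        simp
      · intro j _ hj
        rw [Pi.single_eq_of_ne hj]
        simp
      · intro h
        exact absurd (mem_univ _) h
    rw [h2, h3] at h1
    exact h1.symm
  · have h1 := hψ (0, Pi.single i z)
    rw [hv] at h1
    have h2 : M (0, Pi.single i z) = z.1.2.2 := by
      funext k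
      show ∑ j, (((Pi.single i z : ∀ i, Rd (B i) s) j).1.2.2 k + ((0 : ∀ i, Rd (B i) s) j).1.2.1 k) = _
      rw [sum_eq_single i]
      · rw [Pi.single_eq_same]
        simp
      · intro j _ hj
        rw [Pi.single_eq_of_ne hj]
        simp
      · intro h
        exact absurd (mem_univ _) h
    have h3 : φ (0, Pi.single i z) = g i z := by
      show ∑ j, (f j ((0 : ∀ i, Rd (B i) s) j) + g j ((Pi.single i z : ∀ i, Rd (B i) s) j)) = _
      rw [sum_eq_single i]
      · rw [Pi.single_eq_same]
        simp
      · intro j _ hj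
        rw [Pi.single_eq_of_ne hj]
        simp
      · intro h
        exact absurd (mem_univ _) h
    rw [h2, h3] at h1
    exact h1.symm

end H289.JLT2
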