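import Pool.Agent.H743.JL.Stm

/-!
# JL (TR): the radical after a change of rank one
-/

set_option autoImplicit false
set_option linter.all false

open scoped Classical

namespace Pool.Agent.H721.JLTR

open Finset Module
open Pool.Agent.H743.JL Pool.Agent.N916.MO

section
variable {E : Type} [AddCommGroup E] [Module (ZMod 2) E]

theorem memR {b : E →ₗ[ZMod 2] E →ₗ[ZMod 2] ZMod 2} {z : E} :
    z ∈ Rad b ⊤ ↔ ∀ v, b z v = 0 :=
  ⟨fun h v => h.2 v Submodule.mem_top, fun h => ⟨Submodule.mem_top, fun v _ => h v⟩⟩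

theorem repX [Finite E] {b : E →ₗ[ZMod 2] E →ₗ[ZMod 2] ZMod 2} {φ : E →ₗ[ZMod 2] ZMod 2}
    (h : ∀ z ∈ Rad b ⊤, φ z = 0) : ∃ w, ∀ v, b v w = φ v := by
  have h1 : φ ∈ (LinearMap.ker b).dualAnnihilator := by
    rw [Submodule.mem_dualAnnihilator]
    intro v hv
    refine h v (memR.2 fun w => ?_)
    rw [LinearMap.mem_ker.1 hv]
    rfl
  rw [← LinearMap.range_dualMap_eq_dualAnnihilator_ker] at h1
  obtain ⟨ψ, hψ⟩ := h1
  obtain ⟨w, hw⟩ := (Module.evalEquiv (ZMod 2) E).surjective ψ
  refine ⟨w, fun v => ?_⟩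
  have h2 := LinearMap.congr_fun hψ v
  rw [LinearMap.dualMap_apply, ← hw] at h2
  exact h2

theorem ee (x : E) : x + x = 0 := by
  rw [← two_nsmul, ← Nat.cast_smul_eq_nsmul (ZMod 2)]
  exact zero_smul _ _

/-- both functionals vanish on the radical -/
theorem tr1 [Finite E] {b b' : E →ₗ[ZMod 2] E →ₗ[ZMod 2] ZMod 2} {X Y : E →ₗ[ZMod 2] ZMod 2}
    (hb : ∀ z, b z z = 0) (hb' : ∀ z w, b' z w = b z w + X z * Y w + X w * Y z) {w : E}
    (hw : ∀ z, b z w = X z) (hY : ∀ z ∈ Rad b ⊤, Y z = 0) :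
    finrank (ZMod 2) (Rad b' ⊤) = finrank (ZMod 2) (Rad b ⊤) + if Y w = 0 then 0 else 2 := by
  obtain ⟨w2, hw2⟩ := repX hY
  have hs := symB hb
  have hX : ∀ z ∈ Rad b ⊤, X z = 0 := fun z hz => by rw [← hw, memR.1 hz]
  have hXw : X w = 0 := by rw [← hw, hb]
  have hYw2 : Y w2 = 0 := by rw [← hw2, hb]
  have hXw2 : X w2 = Y w := by rw [← hw, ← hw2, hs]
  -- the characterization
  have key : ∀ z v, b' z v = b (z + X z • w2 + Y z • w) v := by
    intro z v
    rw [hb', map_add, map_add, map_smul, map_smul, LinearMap.add_apply, LinearMap.add_apply,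
      LinearMap.smul_apply, LinearMap.smul_apply, hs w2 v, hs w v, hw2, hw, smul_eq_mul,
      smul_eq_mul, mul_comm (X v)]
  have key2 : ∀ z, z ∈ Rad b' ⊤ ↔ z + X z • w2 + Y z • w ∈ Rad b ⊤ := by
    intro z
    rw [memR, memR]
    exact forall_congr' fun v => by rw [key]
  by_cases hq : Y w = 0
  · rw [if_pos hq, add_zero]
    have : Rad b' ⊤ = Rad b ⊤ := by
      ext z
      rw [key2]
      constructor
      · intro h
        have e1 := hX _ h
        have e2 := hY _ h
        rw [map_add, map_add, map_smul, map_smul, hXw2, hq, hXw, smul_zero, smul_zero, add_zero,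
          add_zero] at e1
        rw [map_add, map_add, map_smul, map_smul, hYw2, hq, smul_zero, smul_zero, add_zero,
          add_zero] at e2
        rwa [e1, e2, zero_smul, zero_smul, add_zero, add_zero] at h
      · intro h
        rwa [hX z h, hY z h, zero_smul, zero_smul, add_zero, add_zero]
    rw [this]
  · rw [if_neg hq]
    have hq1 : Y w = 1 := (zz _).resolve_left hq
    have hR : Rad b' ⊤ = Rad b ⊤ ⊔ Submodule.span (ZMod 2) {w} ⊔ Submodule.span (ZMod 2) {w2} := by
      apply le_antisymm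
      · intro z hz
        have h := (key2 z).1 hz
        have e : z = (z + X z • w2 + Y z • w) + Y z • w + X z • w2 := by
          have e1 := ee (X z • w2)
          have e2 := ee (Y z • w)
          calc z = z + (X z • w2 + X z • w2) + (Y z • w + Y z • w) := by
                rw [e1, e2, add_zero, add_zero]
            _ = _ := by abel
        rw [e]
        exact Submodule.add_mem_sup (Submodule.add_mem_sup h
          (Submodule.smul_mem _ _ (Submodule.mem_span_singleton_self _)))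
          (Submodule.smul_mem _ _ (Submodule.mem_span_singleton_self _))
      · refine sup_le (sup_le ?_ ?_) ?_
        · intro z h
          rw [key2]
          rwa [hX z h, hY z h, zero_smul, zero_smul, add_zero, add_zero]
        · rw [Submodule.span_singleton_le_iff_mem, key2, hXw, hq1, zero_smul, add_zero, one_smul,
            ee]
          exact Submodule.zero_mem _
        · rw [Submodule.span_singleton_le_iff_mem, key2, hXw2, hq1, hYw2, zero_smul, add_zero,
            one_smul, ee]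
          exact Submodule.zero_mem _
    have h1 : w ∉ Rad b ⊤ := fun h => hq (hY w h)
    have h2 : w2 ∉ Rad b ⊤ ⊔ Submodule.span (ZMod 2) {w} := by
      intro h
      obtain ⟨r, hr, v, hv, e⟩ := Submodule.mem_sup.1 h
      obtain ⟨a, rfl⟩ := Submodule.mem_span_singleton.1 hv
      have := hXw2
      rw [← e, map_add, map_smul, hXw, smul_zero, add_zero, hX r hr, hq1] at this
      exact absurd this (by decide)
    rw [hR, fr2 h2, fr2 h1]

/-- exactly one functional vanishes on the radical -/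
theorem tr2 [Finite E] {b b' : E →ₗ[ZMod 2] E →ₗ[ZMod 2] ZMod 2} {X Y : E →ₗ[ZMod 2] ZMod 2}
    (hb : ∀ z, b z z = 0) (hb' : ∀ z w, b' z w = b z w + X z * Y w + X w * Y z)
    (hX : ∀ z ∈ Rad b ⊤, X z = 0) (hY : ∃ z ∈ Rad b ⊤, Y z ≠ 0) :
    finrank (ZMod 2) (Rad b' ⊤) = finrank (ZMod 2) (Rad b ⊤) := by
  obtain ⟨w, hw⟩ := repX hX
  obtain ⟨z0, hz0, h0⟩ := hY
  have h1 : Y z0 = 1 := (zz _).resolve_left h0
  have hs := symB hb
  have hXw : X w = 0 := by rw [← hw, hb]
  have key : ∀ z, z ∈ Rad b' ⊤ ↔ X z = 0 ∧ z + Y z • w ∈ Rad b ⊤ := by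
    intro z
    rw [memR, memR]
    have e : ∀ v, b (z + Y z • w) v = b z v + X v * Y z := by
      intro v
      rw [map_add, map_smul, LinearMap.add_apply, LinearMap.smul_apply, hs w v, hw, smul_eq_mul,
        mul_comm]
    constructor
    · intro h
      have hx : X z = 0 := by
        have := h z0
        rwa [hb', hs z z0, memR.1 hz0, hX z0 hz0, h1, zero_mul, add_zero, zero_add, mul_one]
          at this
      refine ⟨hx, fun v => ?_⟩
      have := h v
      rw [hb', hx, zero_mul, add_zero] at this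
      rw [e, this]
    · rintro ⟨hx, h⟩ v
      rw [hb', hx, zero_mul, add_zero, ← e, h]
  have hw' : ∃ z ∈ Rad b' ⊤, Y z ≠ 0 := by
    rcases zz (Y w) with hq | hq
    · refine ⟨w + z0, (key _).2 ⟨?_, ?_⟩, ?_⟩
      · rw [map_add, hXw, hX z0 hz0, add_zero]
      · rw [map_add, hq, h1, zero_add, one_smul, add_comm w z0, add_assoc, ee, add_zero]
        exact hz0
      · rw [map_add, hq, h1]
        decide
    · refine ⟨w, (key _).2 ⟨hXw, ?_⟩, ?_⟩
      · rw [hq, one_smul, ee]
        exact Submodule.zero_mem _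
      · rw [hq]
        decide
  have f1 := fr1 (R := Rad b ⊤) (R' := Rad b ⊤ ⊓ LinearMap.ker Y) (φ := Y) ⟨z0, hz0, h0⟩
    fun z => by rw [Submodule.mem_inf, LinearMap.mem_ker]
  have f2 := fr1 (R := Rad b' ⊤) (R' := Rad b ⊤ ⊓ LinearMap.ker Y) (φ := Y) hw' fun z => by
    rw [Submodule.mem_inf, LinearMap.mem_ker, key]
    constructor
    · rintro ⟨h, h'⟩
      refine ⟨⟨hX z h, ?_⟩, h'⟩
      rwa [h', zero_smul, add_zero]
    · rintro ⟨⟨h, h''⟩, h'⟩
      rw [h', zero_smul, add_zero] at h''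
      exact ⟨h'', h'⟩
  omega

/-- the functionals are independent on the radical -/
theorem tr3 [Finite E] {b b' : E →ₗ[ZMod 2] E →ₗ[ZMod 2] ZMod 2} {X Y : E →ₗ[ZMod 2] ZMod 2}
    (hb : ∀ z, b z z = 0) (hb' : ∀ z w, b' z w = b z w + X z * Y w + X w * Y z)
    (hX : ∃ z ∈ Rad b ⊤, X z ≠ 0) (hY : ∃ z ∈ Rad b ⊤, Y z ≠ 0)
    (hXY : ∃ z ∈ Rad b ⊤, X z ≠ Y z) :
    finrank (ZMod 2) (Rad b' ⊤) + 2 = finrank (ZMod 2) (Rad b ⊤) := by
  have hs := symB hb
  -- vectors with the values (1, 0) and (0, 1)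
  have h01 : ∃ z ∈ Rad b ⊤, X z = 0 ∧ Y z = 1 := by
    obtain ⟨v1, h1, e1⟩ := hY
    obtain ⟨v2, h2, e2⟩ := hXY
    have e1' := (zz _).resolve_left e1
    rcases zz (X v2) with a | a <;> rcases zz (Y v2) with c | c
    · rw [a, c] at e2
      exact absurd rfl e2
    · exact ⟨v2, h2, a, c⟩
    · rcases zz (X v1) with d | d
      · exact ⟨v1, h1, d, e1'⟩
      · refine ⟨v1 + v2, Submodule.add_mem _ h1 h2, ?_, ?_⟩
        · rw [map_add, a, d]
          rfl
        · rw [map_add, c, e1', add_zero]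
    · rw [a, c] at e2
      exact absurd rfl e2
  have h10 : ∃ z ∈ Rad b ⊤, X z = 1 ∧ Y z = 0 := by
    obtain ⟨v1, h1, e1⟩ := hX
    obtain ⟨v2, h2, e2, e3⟩ := h01
    have e1' := (zz _).resolve_left e1
    rcases zz (Y v1) with d | d
    · exact ⟨v1, h1, e1', d⟩
    · refine ⟨v1 + v2, Submodule.add_mem _ h1 h2, ?_, ?_⟩
      · rw [map_add, e2, e1', add_zero]
      · rw [map_add, e3, d]
        rfl
  obtain ⟨v1, h1, e1, e1'⟩ := h10
  obtain ⟨v2, h2, e2, e2'⟩ := h01
  have key : ∀ z, z ∈ Rad b' ⊤ ↔ z ∈ Rad b ⊤ ⊓ LinearMap.ker X ∧ Y z = 0 := by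
    intro z
    rw [Submodule.mem_inf, LinearMap.mem_ker, memR, memR]
    constructor
    · intro h
      have a1 : Y z = 0 := by
        have := h v1
        rwa [hb', hs z v1, memR.1 h1, e1, e1', mul_zero, zero_add, zero_add, one_mul] at this
      have a2 : X z = 0 := by
        have := h v2
        rwa [hb', hs z v2, memR.1 h2, e2, e2', zero_mul, add_zero, zero_add, mul_one] at this
      refine ⟨⟨fun v => ?_, a2⟩, a1⟩
      have := h v
      rwa [hb', a1, a2, zero_mul, mul_zero, add_zero, add_zero] at this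
    · rintro ⟨⟨h, a2⟩, a1⟩ v
      rw [hb', a1, a2, zero_mul, mul_zero, add_zero, add_zero, h]
  have f1 := fr1 (R := Rad b ⊤) (R' := Rad b ⊤ ⊓ LinearMap.ker X) (φ := X)
    ⟨v1, h1, by rw [e1]; decide⟩ fun z => by rw [Submodule.mem_inf, LinearMap.mem_ker]
  have f2 := fr1 (R := Rad b ⊤ ⊓ LinearMap.ker X) (R' := Rad b' ⊤) (φ := Y)
    ⟨v2, Submodule.mem_inf.2 ⟨h2, LinearMap.mem_ker.2 e2⟩, by rw [e2']; decide⟩ key
  omega

end

theorem t_TR : S_TR := by
  intro E _ _ _ b b' X Y hb hb'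
  refine ⟨fun w hw hY => tr1 hb hb' hw hY, ?_, fun h1 h2 h3 => tr3 hb hb' h1 h2 h3⟩
  intro h1 h2
  by_cases hX : ∀ z ∈ Rad b ⊤, X z = 0
  · obtain ⟨z, hz, h⟩ := h1
    exact tr2 hb hb' hX ⟨z, hz, h.resolve_left fun h => h (hX z hz)⟩
  · have hX' : ∃ z ∈ Rad b ⊤, X z ≠ 0 := by
      by_contra hc
      exact hX fun z hz => by
        by_contra hc'
        exact hc ⟨z, hz, hc'⟩
    rcases h2.resolve_left hX with h3 | h3
    · refine tr2 (X := Y) (Y := X) hb (fun z w => ?_) h3 hX'
      rw [hb']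
      ring
    · -- replace the pair by the sum and the first functional
      refine tr2 (X := X + Y) (Y := X) hb (fun z w => ?_) (fun z hz => ?_) hX'
      · rw [hb', LinearMap.add_apply, LinearMap.add_apply]
        have e : X z * X w + X w * X z = 0 := by
          rw [mul_comm (X w)]
          exact aa _
        calc b z w + X z * Y w + X w * Y z
            = b z w + X z * Y w + X w * Y z + (X z * X w + X w * X z) := by rw [e, add_zero]
          _ = _ := by ring
      · rw [LinearMap.add_apply, h3 z hz]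
        exact aa _

end Pool.Agent.H721.JLTR
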