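import Pool.Agent.H743.JL.StmD

/-! Project JL (helper743), task TT: the group of the squarefree integers. -/

set_option autoImplicit false

namespace Pool.Agent.H955.JL.TT

open Pool.Agent.H743.JL

theorem tw_mul (a b : ℤ) : tw a b * (Int.gcd a b : ℤ) ^ 2 = a * b := by
  unfold tw
  rw [pow_two]
  exact Int.ediv_mul_cancel (mul_dvd_mul (Int.gcd_dvd_left ..) (Int.gcd_dvd_right ..))

theorem gpos {a : ℤ} (b : ℤ) (ha : a ≠ 0) : (Int.gcd a b : ℤ) ≠ 0 := by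
  exact_mod_cast (Int.gcd_pos_of_ne_zero_left _ ha).ne'

/-- two squarefree integers whose product is a square are equal -/
theorem sq_eq {x y z : ℤ} (hx : Squarefree x) (hy : Squarefree y) (h : x * y = z ^ 2) : x = y := by
  have h1 : x ∣ z := (hx.dvd_pow_iff_dvd two_ne_zero).1 (h ▸ dvd_mul_right x y)
  obtain ⟨k, rfl⟩ := h1
  have h2 : y = x * (k * k) := by
    apply mul_left_cancel₀ hx.ne_zero
    rw [h]
    ring
  have h3 : IsUnit k := hy k (by rw [h2]; exact dvd_mul_left _ _)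
  rcases Int.isUnit_iff.1 h3 with rfl | rfl
  · rw [h2]
    ring
  · rw [h2]
    ring

theorem sq_eq' {x y u v N : ℤ} (hx : Squarefree x) (hy : Squarefree y) (hu : u ≠ 0) (hv : v ≠ 0)
    (h1 : x * u ^ 2 = N) (h2 : y * v ^ 2 = N) : x = y := by
  have h3 : x * y * (u * v) ^ 2 = N ^ 2 := by
    have e : x * y * (u * v) ^ 2 = (x * u ^ 2) * (y * v ^ 2) := by ring
    rw [e, h1, h2]
    ring
  have h4 : u * v ∣ N := by
    have h5 : (u * v) ^ 2 ∣ N ^ 2 := ⟨x * y, by rw [← h3]; ring⟩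
    exact (Int.pow_dvd_pow_iff two_ne_zero).1 h5
  obtain ⟨q, hq⟩ := h4
  refine sq_eq (z := q) hx hy ?_
  have h6 : (u * v) ^ 2 ≠ 0 := pow_ne_zero 2 (mul_ne_zero hu hv)
  apply mul_right_cancel₀ h6
  rw [h3, hq]
  ring

theorem sqf_tw {a b : ℤ} (ha : Squarefree a) (hb : Squarefree b) : Squarefree (tw a b) := by
  rw [tw_lib]
  exact Pool.Agent.N855.GF.Tw.tw_sqf ha hb

theorem tw_comm (a b : ℤ) : tw a b = tw b a := by
  unfold tw
  rw [mul_comm, Int.gcd_comm]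

theorem t_TT : S_TT := by
  refine ⟨fun a b c ha hb hc => ?_, tw_comm, fun a ha => ?_, fun a => ?_, fun a b ha hb => ?_,
    fun a b c ha hb hc h => ?_⟩
  · refine sq_eq' (u := (Int.gcd a (tw b c) : ℤ) * Int.gcd b c)
      (v := (Int.gcd (tw a b) c : ℤ) * Int.gcd a b) (N := a * b * c) (sqf_tw ha (sqf_tw hb hc))
      (sqf_tw (sqf_tw ha hb) hc) (mul_ne_zero (gpos _ ha.ne_zero) (gpos _ hb.ne_zero))
      (mul_ne_zero (gpos _ (sqf_tw ha hb).ne_zero) (gpos _ ha.ne_zero)) ?_ ?_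
    · rw [mul_pow, ← mul_assoc, tw_mul, mul_assoc, tw_mul, mul_assoc]
    · rw [mul_pow, ← mul_assoc, tw_mul, mul_assoc, mul_comm c, ← mul_assoc, tw_mul]
  · refine sq_eq' (u := (Int.gcd a a : ℤ)) (v := a) (N := a * a) (sqf_tw ha ha) squarefree_one
      (gpos _ ha.ne_zero) ha.ne_zero (tw_mul a a) (by ring)
  · unfold tw
    rw [Int.one_gcd, one_mul]
    simp
  · rw [tw_comm (-a), tw_comm a, tw_lib]
    exact Pool.Agent.N855.GF.Tw.tw_neg hb ha
  · have h1 := tw_mul a c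
    have h2 := tw_mul b c
    rw [h] at h1
    refine sq_eq' (u := (Int.gcd b c : ℤ)) (v := (Int.gcd a c : ℤ)) (N := a * (Int.gcd b c : ℤ) ^ 2)
      ha hb (gpos _ hb.ne_zero) (gpos _ ha.ne_zero) rfl ?_
    apply mul_left_cancel₀ hc.ne_zero
    have e1 : c * (b * (Int.gcd a c : ℤ) ^ 2) = (b * c) * (Int.gcd a c : ℤ) ^ 2 := by ring
    have e2 : c * (a * (Int.gcd b c : ℤ) ^ 2) = (a * c) * (Int.gcd b c : ℤ) ^ 2 := by ring
    rw [e1, e2, ← h1, ← h2]
    ring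

end Pool.Agent.H955.JL.TT
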