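import Pool.Agent.H743.X17.All
import Pool.Agent.H743.JL.TR
import Pool.Agent.H743.JL.AV
import Pool.Agent.H743.JL.QS
import Pool.Agent.H743.JL.T1
import Pool.Agent.H743.JL.T2
import Pool.Agent.H743.JL.T3
import Pool.Agent.H743.JL.ST
import Pool.Agent.H743.JL.CH
import Pool.Agent.H743.JL.IV
import Pool.Agent.H743.JL.CS
import Pool.Agent.H743.JL.LC
import Pool.Agent.H743.JL.FR
import Pool.Agent.H743.JL.FM
import Pool.Agent.H743.JL.JT
import Pool.Agent.H743.JL.NB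
import Pool.Agent.H743.JL.NS
import Pool.Agent.H743.JL.DP
import Pool.Agent.H743.JL.SH
import Pool.Agent.H743.JL.KS
import Pool.Agent.H743.JL.DT
import Pool.Agent.H743.JL.CP
import Pool.Agent.H743.JL.TA
import Pool.Agent.H743.JL.TW
import Pool.Agent.H743.JL.SE
import Pool.Agent.H743.JL.K0
import Pool.Agent.H743.JL.NI
import Pool.Agent.H743.JL.LV
import Pool.Agent.H743.JL.TT
import Pool.Agent.H743.JL.LR
import Pool.Agent.H743.JL.HJ
import Pool.Agent.H743.JL.PT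
import Pool.Agent.H743.JL.FI
import Pool.Agent.H743.JL.HE
import Pool.Agent.H743.JL.A2
import Pool.Agent.H743.JL.SR
import Pool.Agent.H743.JL.T22
import Pool.Agent.H743.JL.T32
import Pool.Agent.H743.JL.ST2
import Pool.Agent.H743.JL.CH2
import Pool.Agent.H743.JL.IV2
import Pool.Agent.H743.JL.FR2
import Pool.Agent.H743.JL.FM2
import Pool.Agent.H743.JL.MO2
import Pool.Agent.H743.JL.JT2
import Pool.Agent.H743.JL.NB2
import Pool.Agent.H743.JL.NS2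
import Pool.Agent.H743.JL.SH2
import Pool.Agent.H743.JL.NA2
import Pool.Agent.H743.JL.KS2
import Pool.Agent.H743.JL.NI2
import Pool.Agent.H743.JL.SE2
import Pool.Agent.H743.JL.LV2
import Pool.Agent.H743.JL.HJ2
import Pool.Agent.H743.JL.FI2

/-!
# JL and JX: all the parts together: the joint laws

Parts by helper17, 71, 122, 167, 168, 181, 183, 190, 199, 218, 225, 236, 271, 289, 295, 307, 328, 339,
348, 376, 385, 390, 551, 627, 628, 662, 685, 696, 721, 734, 738, 955, 980.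
-/

set_option autoImplicit false

namespace Pool.Agent.H743.JL

theorem st : S_ST := Pool.Agent.H17.JL.t_ST (Pool.Agent.H328.JLT1.t_T1 Pool.Agent.H721.JLTR.t_TR)
  H289.JLT2.t_T2 (Pool.Agent.H295.JLT3.t_T3 Pool.Agent.H348.JL.t_QS) Pool.Agent.H721.JLAV.t_AV

theorem jt : S_JT := Pool.Agent.H376.JL.t_JT
  (Pool.Agent.H225.JL.t_FM Pool.Agent.H348.JL.t_IV
    (Pool.Agent.H627.JLFR.t_FR Pool.Agent.H348.JL.t_CS Pool.Agent.H348.JL.t_LC))
  (Pool.Agent.H218.JL.t_CH st)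

theorem ni : S_NI := Pool.Agent.H734.JL.NI.t_NI Pool.Agent.H71.JL.t_NA Pool.Agent.H183.JL.DT.t_DT
    Pool.Agent.H348.JL.t_TW

theorem lv (hSE : S_SE) : S_LV := Pool.Agent.H390.JL.t_LV jt Pool.Agent.H743.JL.NB.t_NB
  Pool.Agent.H71.JL.t_NS
  Pool.Agent.H199.JL.t_DP Pool.Agent.H385.JLSH.t_SH Pool.Agent.H168.JL.KS.t_KS
  Pool.Agent.H183.JL.DT.t_DT Pool.Agent.H980.JL.CP.t_CP Pool.Agent.H551.JLTA.t_TA
  Pool.Agent.H348.JL.t_TW hSE Pool.Agent.H348.JL.t_K0 ni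

theorem hj (hSE : S_SE) : S_HJ :=
  Pool.Agent.H696.JL.HJ.t_HJ (lv hSE) Pool.Agent.H955.JL.TT.t_TT

theorem pt' (hSE : S_SE) : S_PT := Pool.Agent.H307.JLPT.t_PT (hj hSE)

/-- **the joint law for the twists of the curves of conductor 17** -/
theorem fi' (hSE : S_SE) : S_FI := Pool.Agent.H181.JL.t_FI (pt' hSE) Pool.Agent.H721.JLLR.t_LR
  Pool.Agent.H743.X17.QPARITY.t_PARITY Pool.Agent.H955.JL.TT.t_TT

theorem st2 : S_ST2 := Pool.Agent.H328.JX.t_ST2 (Pool.Agent.H328.JLT1.t_T1 Pool.Agent.H721.JLTR.t_TR)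
  H183.JXT22.t_T22 Pool.Agent.H122.JXT32.t_T32 Pool.Agent.H721.JLAV.t_AV
  (Pool.Agent.H738.JXA2.t_A2 Pool.Agent.H295.JX.HE.t_HE) Pool.Agent.H190.JX.SR.t_SR
  Pool.Agent.H295.JX.HE.t_HE

theorem jt2 : S_JT2 := Pool.Agent.H339.JX.t_JT2
  (Pool.Agent.H17.JX.t_FM2 Pool.Agent.H271.JX.t_IV2 Pool.Agent.H696.JXFR2.t_FR2)
  (Pool.Agent.H167.JX.t_CH2 st2 Pool.Agent.H295.JX.HE.t_HE)
  (Pool.Agent.H339.JX.t_MO2 Pool.Agent.H190.JX.SR.t_SR)

theorem lv2 (hSE : S_SE) : S_LV2 := Pool.Agent.H685.JX.t_LV2 jt2 Pool.Agent.H743.JL.NB.t_NB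
  Pool.Agent.H71.JL.t_NS
  Pool.Agent.H199.JL.t_DP Pool.Agent.H190.JX.SH2.t_SH2' Pool.Agent.H168.JL.KS.t_KS
  Pool.Agent.H183.JL.DT.t_DT Pool.Agent.H980.JL.CP.t_CP Pool.Agent.H551.JLTA.t_TA
  Pool.Agent.H348.JL.t_TW hSE Pool.Agent.H348.JL.t_K0
  (Pool.Agent.H628.JX.NI2.t_NI2 ni Pool.Agent.H662.JL.t_NA2 Pool.Agent.H236.JX.KS2.t_KS2
    Pool.Agent.H348.JL.t_TW)
  Pool.Agent.H307.JXNB2.t_NB2 Pool.Agent.H295.JX.NS2.t_NS2 Pool.Agent.H236.JX.KS2.t_KS2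
  (Pool.Agent.H628.JX.SE2.t_SE2 hSE)

/-- **the joint law for the class groups and the twists of the curves of conductor 17** -/
theorem fi2' (hSE : S_SE) : S_FI2 := Pool.Agent.H225.JX.t_FI2
  (Pool.Agent.H628.JX.HJ2.t_HJ2 (lv2 hSE) Pool.Agent.H955.JL.TT.t_TT) Pool.Agent.H721.JLLR.t_LR
  Pool.Agent.H743.X17.QPARITY.t_PARITY Pool.Agent.H955.JL.TT.t_TT

/-- **the joint law for the twists of the curves of conductor 17** -/
theorem fi : S_FI := fi' Pool.Agent.H348.JL.t_SE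

/-- **the joint law for the class groups and the twists of the curves of conductor 17** -/
theorem fi2 : S_FI2 := fi2' Pool.Agent.H348.JL.t_SE

end Pool.Agent.H743.JL
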