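import Pool.Agent.H743.JL.StmC

/-!
# JL (helper743): (NB) the symmetric system and the alternating form
-/

set_option autoImplicit false
set_option linter.all false

open scoped Classical

namespace Pool.Agent.H743.JL.NB

open Finset Module
open Pool.Agent.N916.MO Pool.Agent.H743.JL

theorem a2 : ∀ a : ZMod 2, a + a = 0 := by decide
theorem sq : ∀ a : ZMod 2, a * a = a := by decide
theorem ne0 : ∀ a : ZMod 2, a ≠ 0 → a = 1 := by decide
theorem two0 : (2 : ZMod 2) = 0 := by decide
theorem eqa : ∀ a b : ZMod 2, a + b = 0 → a = b := by decide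

section
variable {V : Type} [Fintype V] [DecidableEq V] {r w ν α : V → ZMod 2} {L : V → V → ZMod 2}
  {a : ZMod 2}

/-- the symmetric form -/
def S (r ν α : V → ZMod 2) (L : V → V → ZMod 2) :
    ((V → ZMod 2) × (V → ZMod 2)) →ₗ[ZMod 2] ((V → ZMod 2) × (V → ZMod 2)) →ₗ[ZMod 2] ZMod 2 :=
  SL (fun i => (1 + r i) * ν i) α (fun i j => (1 + r i) * L i j)

theorem bf (z z' : (V → ZMod 2) × (V → ZMod 2)) : Bf r ν α L z z' =
    S r ν α L z z' + dF r ν α z * dF r ν α z' + rF r z * dF r ν α z' + dF r ν α z * rF r z' := rfl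

theorem S_symm (z z' : (V → ZMod 2) × (V → ZMod 2)) : S r ν α L z z' = S r ν α L z' z := by
  unfold S
  rw [SL_apply, SL_apply]
  congr 1
  · congr 1
    · exact sum_congr rfl fun i _ => by ring
    · exact sum_congr rfl fun i _ => sum_congr rfl fun j _ => by ring
  · exact sum_congr rfl fun i _ => by ring

theorem S_self (z : (V → ZMod 2) × (V → ZMod 2)) : S r ν α L z z = dF r ν α z := by
  unfold S
  rw [SL_self]
  rfl

theorem d_app (z : (V → ZMod 2) × (V → ZMod 2)) :
    dF r ν α z = ∑ i, (1 + r i) * ν i * z.1 i + ∑ j, α j * z.2 j := rfl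

theorem r_app (z : (V → ZMod 2) × (V → ZMod 2)) : rF r z = ∑ i, r i * z.1 i := rfl

theorem alt (z : (V → ZMod 2) × (V → ZMod 2)) : Bf r ν α L z z = 0 := by
  rw [bf, S_self]
  have h : ∀ a b : ZMod 2, a + a * a + b * a + a * b = 0 := by decide
  exact h _ _

/-- the kernel of the symmetric form, for the vectors without the omitted row -/
theorem ker_iff {z : (V → ZMod 2) × (V → ZMod 2)} (hz : ∀ i, r i = 1 → z.1 i = 0) :
    (∀ z', S r ν α L z z' = 0) ↔ ((∀ i, r i = 0 → ν i * z.1 i + ∑ j, L i j * z.2 j = 0) ∧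
      (∀ j, ∑ i, L i j * z.1 i + α j * z.2 j = 0)) := by
  have e1 : ∀ i j, (1 + r i) * L i j * z.1 i = L i j * z.1 i := by
    intro i j
    by_cases h : r i = 0
    · rw [h]; ring
    · rw [hz i (ne0 _ h)]; ring
  constructor
  · intro h
    refine ⟨fun i hi => ?_, fun j => ?_⟩
    · have h1 := h (Pi.single i 1, 0)
      unfold S at h1
      rw [SL_x] at h1
      simpa only [hi, add_zero, one_mul] using h1
    · have h1 := h (0, Pi.single j 1)
      unfold S at h1
      rw [SL_y] at h1
      simpa only [e1] using h1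
  · rintro ⟨h1, h2⟩ z'
    unfold S
    rw [SL_lin]
    have e2 : ∑ i, z'.1 i * ((1 + r i) * ν i * z.1 i + ∑ j, (1 + r i) * L i j * z.2 j) = 0 := by
      refine sum_eq_zero fun i _ => ?_
      by_cases h : r i = 0
      · simp only [h, add_zero, one_mul]
        rw [h1 i h, mul_zero]
      · rw [ne0 _ h]
        simp only [a2, zero_mul, sum_const_zero, add_zero, mul_zero]
    have e3 : ∑ j, z'.2 j * (∑ i, (1 + r i) * L i j * z.1 i + α j * z.2 j) = 0 := by
      refine sum_eq_zero fun j _ => ?_
      simp only [e1]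
      rw [h2 j, mul_zero]
    rw [e2, e3, add_zero]

/-- the criterion is the nondegeneracy of the symmetric form -/
theorem ks_iff : Ks r ν α L ↔ ∀ z : (V → ZMod 2) × (V → ZMod 2), (∀ i, r i = 1 → z.1 i = 0) →
    (∀ z', S r ν α L z z' = 0) → z = 0 := by
  constructor
  · intro h z hz hS
    obtain ⟨h1, h2⟩ := (ker_iff hz).1 hS
    have := h z.1 z.2 hz h1 h2
    exact Prod.ext (funext fun i => (this i).1) (funext fun i => (this i).2)
  · intro h x y hx h1 h2 i
    have := h (x, y) hx ((ker_iff (z := (x, y)) hx).2 ⟨h1, h2⟩)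
    exact ⟨congrFun (congrArg Prod.fst this) i, congrFun (congrArg Prod.snd this) i⟩

/-- the easy direction -/
theorem easy (h : ∀ z, (∀ z', Bf r ν α L z z' = 0) → z = 0) : Ks r ν α L := by
  rw [ks_iff]
  intro z hz hS
  refine h z fun z' => ?_
  have e1 : dF r ν α z = 0 := by rw [← S_self (L := L)]; exact hS z
  have e2 : rF r z = 0 := by
    rw [r_app]
    refine sum_eq_zero fun i _ => ?_
    by_cases h : r i = 0
    · rw [h, zero_mul]
    · rw [hz i (ne0 _ h), mul_zero]
  rw [bf, hS, e1, e2]
  ring

theorem swap (f : V → V → ZMod 2) (u : V → ZMod 2) (v : V → ZMod 2) :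
    ∑ i, u i * ∑ j, f i j * v j = ∑ j, (∑ i, u i * f i j) * v j := by
  simp only [mul_sum, sum_mul]
  rw [sum_comm]
  exact sum_congr rfl fun i _ => sum_congr rfl fun j _ => by ring

/-- no omitted row -/
theorem caseA (D : Dat r w ν α L a) (hr : ∀ i, r i = 0) (h : Ks r ν α L) :
    ∀ z, (∀ z', Bf r ν α L z z' = 0) → z = 0 := by
  rw [ks_iff] at h
  have eS : ∀ z : (V → ZMod 2) × (V → ZMod 2), S r ν α L z (w, fun _ => a) = dF r ν α z := by
    intro z
    unfold S
    rw [SL_lin, d_app]
    simp only [hr, add_zero, one_mul]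
    have e1 : ∑ i, w i * (ν i * z.1 i + ∑ j, L i j * z.2 j) =
        ∑ i, ν i * z.1 i + ∑ j, (α j * (a + 1)) * z.2 j := by
      simp only [mul_add, sum_add_distrib]
      congr 1
      · refine sum_congr rfl fun i _ => ?_
        rw [← mul_assoc, mul_comm (w i), D.nw]
      · rw [swap]
        refine sum_congr rfl fun j _ => ?_
        congr 1
        have h1 : ∀ i, w i * L i j = w j * L j i + α i * α j + (if i = j then α j else 0) := by
          intro i
          by_cases hij : i = j
          · subst hij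
            rw [if_pos rfl, sq, add_assoc, a2, add_zero]
          · rw [if_neg hij, add_zero, ← D.rc i j hij]
            have : ∀ x y : ZMod 2, x = y + (x + y) := by decide
            exact this _ _
        simp only [h1, sum_add_distrib]
        rw [← mul_sum, D.row, mul_zero, zero_add, ← sum_mul, D.sa, sum_ite_eq' univ j,
          if_pos (mem_univ j)]
        ring
    have e2 : ∑ j, a * (∑ i, L i j * z.1 i + α j * z.2 j) = ∑ j, (α j * a) * z.2 j := by
      simp only [mul_add, sum_add_distrib]
      have e3 : ∑ j, a * ∑ i, L i j * z.1 i = 0 := by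
        rw [← mul_sum, sum_comm]
        have : ∑ i, ∑ j, L i j * z.1 i = 0 := by
          refine sum_eq_zero fun i _ => ?_
          rw [← sum_mul, D.row, zero_mul]
        rw [this, mul_zero]
      rw [e3, zero_add]
      exact sum_congr rfl fun j _ => by ring
    show ∑ i, w i * (ν i * z.1 i + ∑ j, L i j * z.2 j) +
      ∑ j, a * (∑ i, L i j * z.1 i + α j * z.2 j) = _
    rw [e1, e2, add_assoc, ← sum_add_distrib]
    congr 1
    refine sum_congr rfl fun j _ => ?_
    have : ∀ x a t : ZMod 2, x * (a + 1) * t + x * a * t = x * t := by decide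
    exact this _ _ _
  have ed : dF r ν α (w, fun _ => a) = 0 := by
    rw [d_app]
    simp only [hr, add_zero, one_mul]
    have e1 : ∑ i, ν i * w i = a := by
      rw [← D.r0 hr]
      exact sum_congr rfl fun i _ => D.nw i
    rw [e1, ← sum_mul, D.sa, sq, a2]
  have er : ∀ z : (V → ZMod 2) × (V → ZMod 2), rF r z = 0 := by
    intro z
    rw [r_app]
    exact sum_eq_zero fun i _ => by rw [hr, zero_mul]
  intro z hz
  have e1 : ∀ z', S r ν α L (z + dF r ν α z • (w, fun _ => a)) z' = 0 := by
    intro z'
    have h1 := hz z'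
    rw [bf, er, er, zero_mul, mul_zero, add_zero, add_zero] at h1
    rw [map_add, map_smul, LinearMap.add_apply, LinearMap.smul_apply, smul_eq_mul,
      S_symm (w, fun _ => a) z', eS]
    exact h1
  have e2 := h _ (fun i hi => absurd hi (by rw [hr]; decide)) e1
  have e3 : z = dF r ν α z • (w, fun _ => a) := by
    have h1 : ∀ v : (V → ZMod 2) × (V → ZMod 2), v + v = 0 := by
      intro v
      exact Prod.ext (funext fun i => a2 _) (funext fun i => a2 _)
    calc z = z + (dF r ν α z • (w, fun _ => a) + dF r ν α z • (w, fun _ => a)) := by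
          rw [h1, add_zero]
      _ = _ := by rw [← add_assoc, e2, zero_add]
  have e4 : dF r ν α z = 0 := by
    rw [e3, map_smul, ed, smul_zero]
  rw [e3, e4, zero_smul]

/-- one omitted row -/
theorem caseB (D : Dat r w ν α L a) (v0 : V) (hr : r v0 = 1) (h : Ks r ν α L) :
    ∀ z, (∀ z', Bf r ν α L z z' = 0) → z = 0 := by
  rw [ks_iff] at h
  obtain ⟨ha, hα, -, hj⟩ := D.r1 v0 hr
  have r0 : ∀ j, j ≠ v0 → r j = 0 := fun j hj' => (hj j hj').2
  have er : ∀ z : (V → ZMod 2) × (V → ZMod 2), rF r z = z.1 v0 := by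
    intro z
    rw [r_app, sum_eq_single v0]
    · rw [hr, one_mul]
    · intro j _ hj'
      rw [r0 j hj', zero_mul]
    · intro h1
      exact absurd (mem_univ _) h1
  let c : (V → ZMod 2) × (V → ZMod 2) := (0, fun j => if j = v0 then 0 else 1)
  have eS : ∀ z : (V → ZMod 2) × (V → ZMod 2), S r ν α L z c = dF r ν α z := by
    intro z
    unfold S
    rw [SL_lin, d_app]
    have e1 : ∑ i, c.1 i * ((1 + r i) * ν i * z.1 i + ∑ j, (1 + r i) * L i j * z.2 j) = 0 :=
      sum_eq_zero fun i _ => zero_mul _
    rw [e1, zero_add]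
    have e2 : ∀ j, c.2 j * (∑ i, (1 + r i) * L i j * z.1 i + α j * z.2 j) =
        (∑ i, (1 + r i) * L i j * z.1 i + (if j = v0 then ∑ i, (1 + r i) * L i j * z.1 i else 0))
          + α j * z.2 j := by
      intro j
      show (if j = v0 then (0 : ZMod 2) else 1) * _ = _
      by_cases hj' : j = v0
      · rw [if_pos hj', if_pos hj', zero_mul, hj', hα, zero_mul, add_zero, a2]
      · rw [if_neg hj', if_neg hj', one_mul, add_zero]
    simp only [e2, sum_add_distrib]
    congr 1
    rw [sum_ite_eq' univ v0, if_pos (mem_univ v0), sum_comm]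
    have e3 : ∑ i, ∑ j, (1 + r i) * L i j * z.1 i = 0 := by
      refine sum_eq_zero fun i _ => ?_
      rw [← sum_mul, ← mul_sum, D.row, mul_zero, zero_mul]
    rw [e3, zero_add]
    refine sum_congr rfl fun i _ => ?_
    by_cases hi : i = v0
    · rw [hi, hr]
      simp only [a2, zero_mul]
    · rw [(hj i hi).1]
  have ed : dF r ν α c = 1 := by
    rw [d_app]
    have e1 : ∑ i, (1 + r i) * ν i * c.1 i = 0 := sum_eq_zero fun i _ => mul_zero _
    rw [e1, zero_add]
    have e2 : ∀ j, α j * c.2 j = α j := by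
      intro j
      show α j * (if j = v0 then (0 : ZMod 2) else 1) = _
      by_cases hj' : j = v0
      · rw [if_pos hj', hj', hα, mul_zero]
      · rw [if_neg hj', mul_one]
    simp only [e2]
    rw [D.sa, ha]
  intro z hz
  -- the vector of the omitted row
  have d0 : dF r ν α z = 0 := by
    have h1 := hz (Pi.single v0 1, 0)
    have e1 : dF r ν α ((Pi.single v0 1, 0) : (V → ZMod 2) × (V → ZMod 2)) = 0 := by
      rw [d_app]
      have e1 : ∑ j, α j * ((Pi.single v0 1, 0) : (V → ZMod 2) × (V → ZMod 2)).2 j = 0 :=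
        sum_eq_zero fun i _ => mul_zero _
      rw [e1, add_zero]
      refine sum_eq_zero fun i _ => ?_
      show (1 + r i) * ν i * (Pi.single v0 1 : V → ZMod 2) i = 0
      by_cases hi : i = v0
      · rw [hi, hr]
        simp only [a2, zero_mul]
      · rw [Pi.single_eq_of_ne hi, mul_zero]
    have e2 : S r ν α L z (Pi.single v0 1, 0) = 0 := by
      unfold S
      rw [SL_x, hr]
      simp only [a2, zero_mul, sum_const_zero, add_zero]
    have e3 : rF r ((Pi.single v0 1, 0) : (V → ZMod 2) × (V → ZMod 2)) = 1 := by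
      rw [er]
      exact Pi.single_eq_same v0 1
    rw [bf, e1, e2, e3] at h1
    simpa using h1
  -- the projection
  let p : (V → ZMod 2) × (V → ZMod 2) := (fun i => if i = v0 then 0 else z.1 i, z.2)
  have hp : ∀ z', S r ν α L p z' = S r ν α L z z' := by
    intro z'
    unfold S
    rw [SL_apply, SL_apply]
    congr 1
    congr 1
    · refine sum_congr rfl fun i _ => ?_
      show (1 + r i) * ν i * ((if i = v0 then 0 else z.1 i) * z'.1 i) = _
      by_cases hi : i = v0
      · rw [hi, hr]
        simp only [a2, zero_mul]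
      · rw [if_neg hi]
    · refine sum_congr rfl fun i _ => sum_congr rfl fun j _ => ?_
      show (1 + r i) * L i j * (z'.1 i * z.2 j + (if i = v0 then 0 else z.1 i) * z'.2 j) = _
      by_cases hi : i = v0
      · rw [hi, hr]
        simp only [a2, zero_mul]
      · rw [if_neg hi]
  have e1 : ∀ z', S r ν α L (p + z.1 v0 • c) z' = 0 := by
    intro z'
    have h1 := hz z'
    rw [bf, d0, er, er, zero_mul, zero_mul, add_zero, add_zero] at h1
    rw [map_add, map_smul, LinearMap.add_apply, LinearMap.smul_apply, smul_eq_mul,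
      S_symm c z', eS, hp]
    exact h1
  have e2 := h (p + z.1 v0 • c) (fun i hi => by
    have hi' : i = v0 := by
      by_contra hne
      rw [r0 i hne] at hi
      exact absurd hi (by decide)
    show (if i = v0 then 0 else z.1 i) + z.1 v0 * 0 = 0
    rw [if_pos hi', mul_zero, add_zero]) e1
  have dp : dF r ν α p = dF r ν α z := by
    rw [d_app, d_app]
    congr 1
    refine sum_congr rfl fun i _ => ?_
    show (1 + r i) * ν i * (if i = v0 then 0 else z.1 i) = _
    by_cases hi : i = v0
    · rw [hi, hr]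
      simp only [a2, zero_mul]
    · rw [if_neg hi]
  have x0 : z.1 v0 = 0 := by
    have h1 := congrArg (dF r ν α) e2
    rw [map_add, map_smul, ed, dp, d0, zero_add, map_zero, smul_eq_mul, mul_one] at h1
    exact h1
  rw [x0, zero_smul, add_zero] at e2
  refine Prod.ext (funext fun i => ?_) (funext fun i => ?_)
  · by_cases hi : i = v0
    · rw [hi]
      exact x0
    · have h1 := congrFun (congrArg Prod.fst e2) i
      have h2 : p.1 i = z.1 i := if_neg hi
      rw [h2] at h1
      exact h1
  · exact congrFun (congrArg Prod.snd e2) i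

end

/-- (NB) the symmetric system and the alternating form -/
theorem t_NB : S_NB := by
  intro V _ _ r w ν α L a D
  refine ⟨alt, ⟨fun h => ?_, easy⟩⟩
  by_cases hr : ∀ i, r i = 0
  · exact caseA D hr h
  · obtain ⟨v0, hv⟩ := not_forall.1 hr
    exact caseB D v0 (ne0 _ hv) h

end Pool.Agent.H743.JL.NB
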