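import Pool.Graph.R_pool_sql_team_seeded_63374d34.N916.MO.Gen2

/-!
# JL (helper743): the joint law of several random alternating forms with the same random part

Statements of the abstract part. `n` forms `B i` on the spaces `EE (E0 i) I`, all with the same
random symmetric matrix `s`.
-/

set_option autoImplicit false
set_option linter.all false

open scoped Classical

namespace Pool.Agent.H743.JL

open Finset Module
open Pool.Agent.N916.MO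
open Pool.Agent.Y703.CQ (c2)

/-- the character of the field with two elements -/
noncomputable def sgn (a : ZMod 2) : ℝ := if a = 0 then 1 else -1

section
variable {I : Type} [Fintype I] [DecidableEq I]

/-- the symmetric matrices of rank one -/
def vv (v : I → ZMod 2) : Sy I := ⟨fun k l => v k * v l, fun k l => mul_comm _ _⟩

/-- the scalar product -/
def dt (v x : I → ZMod 2) : ZMod 2 := ∑ k, v k * x k

/-- the radical -/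
def Rd {E0 : Type} [AddCommGroup E0] [Module (ZMod 2) E0]
    (B : EE E0 I →ₗ[ZMod 2] EE E0 I →ₗ[ZMod 2] ZMod 2) (s : Sy I) :
    Submodule (ZMod 2) (EE E0 I) := Rad (B + sB s.1) (EA univ)

variable {n : ℕ} {E0 : Fin n → Type} [∀ i, AddCommGroup (E0 i)] [∀ i, Module (ZMod 2) (E0 i)]
  [∀ i, Fintype (E0 i)]

/-- joint genericity -/
def JG (B : ∀ i, EE (E0 i) I →ₗ[ZMod 2] EE (E0 i) I →ₗ[ZMod 2] ZMod 2) (s : Sy I) : Prop :=
  ∀ z z' : ∀ i, EE (E0 i) I, (∀ i, z i ∈ Rd (B i) s) → (∀ i, z' i ∈ Rd (B i) s) →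
    (∀ k, ∑ i, ((z i).2.2 k + (z' i).2.1 k) = 0) → (∀ i, z i = 0) ∧ ∀ i, z' i = 0

/-- the conditions on `(h, z, z')` for the system `s` and the set `W` -/
def Cw (B : ∀ i, EE (E0 i) I →ₗ[ZMod 2] EE (E0 i) I →ₗ[ZMod 2] ZMod 2) (s : Sy I)
    (W : Finset (Fin n)) (h : I → ZMod 2) (z z' : ∀ i, EE (E0 i) I) : Prop :=
  (∀ i w, (B i + sB s.1 : EE (E0 i) I →ₗ[ZMod 2] EE (E0 i) I →ₗ[ZMod 2] ZMod 2) w (z i) =
    (if i ∈ W then 1 else 0) * dt h w.2.1) ∧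
  (∀ i w, (B i + sB s.1 : EE (E0 i) I →ₗ[ZMod 2] EE (E0 i) I →ₗ[ZMod 2] ZMod 2) w (z' i) =
    (if i ∈ W then 1 else 0) * dt h w.2.2) ∧
  ∀ k, ∑ i, ((z i).2.2 k + (z' i).2.1 k) = 0

/-- the number of the solutions -/
noncomputable def NW (B : ∀ i, EE (E0 i) I →ₗ[ZMod 2] EE (E0 i) I →ₗ[ZMod 2] ZMod 2) (s : Sy I)
    (W : Finset (Fin n)) : ℕ :=
  (univ.filter fun q : (I → ZMod 2) × (∀ i, EE (E0 i) I) × (∀ i, EE (E0 i) I) =>
    Cw B s W q.1 q.2.1 q.2.2).card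

/-- the value of the quadratic form on `v` (for `v` whose functionals vanish on the radical) -/
noncomputable def qq {E0 : Type} [AddCommGroup E0] [Module (ZMod 2) E0]
    (B : EE E0 I →ₗ[ZMod 2] EE E0 I →ₗ[ZMod 2] ZMod 2) (s : Sy I) (v : I → ZMod 2) : ZMod 2 :=
  if h : ∃ w : EE E0 I, ∀ z, (B + sB s.1 : EE E0 I →ₗ[ZMod 2] EE E0 I →ₗ[ZMod 2] ZMod 2) z w =
    dt v z.2.1 then dt v h.choose.2.2 else 0

/-- the vectors whose functionals vanish on the radicals with index in `W` -/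
def Vn (B : ∀ i, EE (E0 i) I →ₗ[ZMod 2] EE (E0 i) I →ₗ[ZMod 2] ZMod 2) (s : Sy I)
    (W : Finset (Fin n)) : Submodule (ZMod 2) (I → ZMod 2) where
  carrier := {v | ∀ i ∈ W, ∀ z ∈ Rd (B i) s, dt v z.2.1 = 0 ∧ dt v z.2.2 = 0}
  add_mem' := by
    intro a b ha hb i hi z hz
    have e : ∀ x : I → ZMod 2, dt (a + b) x = dt a x + dt b x := by
      intro x
      unfold dt
      rw [← sum_add_distrib]
      exact sum_congr rfl fun k _ => by rw [Pi.add_apply, add_mul]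
    rw [e, e, (ha i hi z hz).1, (ha i hi z hz).2, (hb i hi z hz).1, (hb i hi z hz).2]
    exact ⟨add_zero _, add_zero _⟩
  zero_mem' := by
    intro i _ z _
    exact ⟨sum_eq_zero fun k _ => by rw [Pi.zero_apply, zero_mul],
      sum_eq_zero fun k _ => by rw [Pi.zero_apply, zero_mul]⟩
  smul_mem' := by
    intro c a ha i hi z hz
    have e : ∀ x : I → ZMod 2, dt (c • a) x = c * dt a x := by
      intro x
      unfold dt
      rw [mul_sum]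
      exact sum_congr rfl fun k _ => by rw [Pi.smul_apply, smul_eq_mul, mul_assoc]
    rw [e, e, (ha i hi z hz).1, (ha i hi z hz).2]
    exact ⟨mul_zero _, mul_zero _⟩

/-- half the dimension of the radical -/
noncomputable def rr (B : ∀ i, EE (E0 i) I →ₗ[ZMod 2] EE (E0 i) I →ₗ[ZMod 2] ZMod 2) (s : Sy I)
    (i : Fin n) : ℕ := dR (B i) s univ / 2

/-- the shape of the fixed parts -/
structure Shp (B : ∀ i, EE (E0 i) I →ₗ[ZMod 2] EE (E0 i) I →ₗ[ZMod 2] ZMod 2)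
    (ν u : I → ZMod 2) (τ : Fin n → I → ZMod 2) (m : I → I → ZMod 2) {C C' : Type}
    (F : ∀ i, EE (E0 i) I → C) (G : (I → ZMod 2) → C') (Φ Ψ : ∀ i, I → E0 i → C → ZMod 2)
    (Θ : I → C' → ZMod 2) : Prop where
  alt : ∀ i z, B i z z = 0
  hx : ∀ i z k, B i z (fx k) = ν k * z.2.1 k + ∑ l, m k l * z.2.2 l + τ i k * z.2.2 k +
    Φ i k z.1 (F i z)
  hy : ∀ i z k, B i z (fy k) = u k * z.2.2 k + ∑ l, m l k * z.2.1 l + τ i k * z.2.1 k +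
    Ψ i k z.1 (F i z)
  hm : ∀ (x : I → ZMod 2) k, ∑ l, m k l * x l + ∑ l, m l k * x l = u k * x k + Θ k (G x)
  na : ∀ i (e : E0 i), (∀ w : E0 i, B i (e, 0, 0) (w, 0, 0) = 0) →
    (∀ k, B i (e, 0, 0) (fx k) = 0 ∧ B i (e, 0, 0) (fy k) = 0) → e = 0

end

/-- the types of the indices: `(u, ν, τ)` -/
abbrev Ty (n : ℕ) : Type := ZMod 2 × ZMod 2 × (Fin n → ZMod 2)

/-- the set of types separates -/
def Sep {n : ℕ} (Γ : Finset (Ty n)) : Prop :=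
  (∀ i j, i ≠ j → ∃ κ ∈ Γ, κ.1 = 0 ∧ κ.2.2 i ≠ κ.2.2 j) ∧ (∃ κ ∈ Γ, κ.1 = 0 ∧ κ.2.1 = 1) ∧
    ∃ κ ∈ Γ, κ.1 = 1 ∧ κ.2.1 = 0

/-- the labels of the vectors: `0, 1` for `x(z i), y(z i)`; `2, 3` for `x(z' i), y(z' i)` -/
abbrev Lb (n : ℕ) : Type := Fin n × Fin 4

/-- the local operator of a type -/
def TT {n : ℕ} (κ : Ty n) (r : Lb n → ZMod 2) : Lb n → ZMod 2 := fun p =>
  ![(κ.1 + κ.2.2 p.1) * r (p.1, 0) + κ.2.1 * r (p.1, 1),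
    κ.1 * r (p.1, 0) + κ.2.2 p.1 * r (p.1, 1),
    (κ.1 + κ.2.2 p.1) * r (p.1, 2) + κ.2.1 * r (p.1, 3),
    κ.1 * r (p.1, 2) + κ.2.2 p.1 * r (p.1, 3)] p.2

/-- the coefficient of `h` -/
def vc {n : ℕ} (W : Finset (Fin n)) (r : Lb n → ZMod 2) : ZMod 2 :=
  ∑ i ∈ W, (r (i, 1) + r (i, 2))

/-- the vectors -/
def vec {n : ℕ} {E0 : Fin n → Type} {I : Type} (z z' : ∀ i, EE (E0 i) I) (p : Lb n) : I → ZMod 2 :=
  ![(z p.1).2.1, (z p.1).2.2, (z' p.1).2.1, (z' p.1).2.2] p.2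

/-- the relation space -/
def Rl {n : ℕ} {E0 : Fin n → Type} {I : Type} (z z' : ∀ i, EE (E0 i) I) :
    Submodule (ZMod 2) (Lb n → ZMod 2) where
  carrier := {r | ∀ k, ∑ p, r p * vec z z' p k = 0}
  add_mem' := by
    intro a b ha hb k
    have : ∀ p, (a + b) p * vec z z' p k = a p * vec z z' p k + b p * vec z z' p k := by
      intro p
      rw [Pi.add_apply, add_mul]
    rw [sum_congr rfl fun p _ => this p, sum_add_distrib, ha k, hb k, add_zero]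
  zero_mem' := by
    intro k
    exact sum_eq_zero fun p _ => by rw [Pi.zero_apply, zero_mul]
  smul_mem' := by
    intro c a ha k
    have : ∀ p, (c • a) p * vec z z' p k = c * (a p * vec z z' p k) := by
      intro p
      rw [Pi.smul_apply, smul_eq_mul, mul_assoc]
    rw [sum_congr rfl fun p _ => this p, ← mul_sum, ha k, mul_zero]

/-! ## the statements -/

/-- (TR) the radical after a change of rank one -/
def S_TR : Prop := ∀ (E : Type) [AddCommGroup E] [Module (ZMod 2) E] [Finite E]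
  (b b' : E →ₗ[ZMod 2] E →ₗ[ZMod 2] ZMod 2) (X Y : E →ₗ[ZMod 2] ZMod 2), (∀ z, b z z = 0) →
  (∀ z w, b' z w = b z w + X z * Y w + X w * Y z) →
  (∀ w, (∀ z, b z w = X z) → (∀ z ∈ Rad b ⊤, Y z = 0) →
    finrank (ZMod 2) (Rad b' ⊤) = finrank (ZMod 2) (Rad b ⊤) + if Y w = 0 then 0 else 2) ∧
  ((∃ z ∈ Rad b ⊤, X z ≠ 0 ∨ Y z ≠ 0) →
    ((∀ z ∈ Rad b ⊤, X z = 0) ∨ (∀ z ∈ Rad b ⊤, Y z = 0) ∨ ∀ z ∈ Rad b ⊤, X z = Y z) →
    finrank (ZMod 2) (Rad b' ⊤) = finrank (ZMod 2) (Rad b ⊤)) ∧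
  ((∃ z ∈ Rad b ⊤, X z ≠ 0) → (∃ z ∈ Rad b ⊤, Y z ≠ 0) → (∃ z ∈ Rad b ⊤, X z ≠ Y z) →
    finrank (ZMod 2) (Rad b' ⊤) + 2 = finrank (ZMod 2) (Rad b ⊤))

/-- (AV) the average over the pairs of functionals -/
def S_AV : Prop := ∀ (R : Type) [AddCommGroup R] [Module (ZMod 2) R] [Finite R]
  [Fintype (Module.Dual (ZMod 2) R)] (r t : ℕ), finrank (ZMod 2) R = 2 * r →
  ∑ f : Module.Dual (ZMod 2) R, ∑ g : Module.Dual (ZMod 2) R,
    (if f = 0 ∧ g = 0 then (hh t r + hh t (r + 1)) / 2 else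
      if f = 0 ∨ g = 0 ∨ f = g then hh t r else hh t (r - 1)) = (16 : ℝ) ^ r * hh (t + 1) r

/-- (QS) the quadratic sums over a coset -/
def S_QS : Prop := ∀ (V : Type) [AddCommGroup V] [Module (ZMod 2) V] [Fintype V]
  (q : V → ZMod 2) (β : V →ₗ[ZMod 2] V →ₗ[ZMod 2] ZMod 2),
  (∀ v w, q (v + w) = q v + q w + β v w) → ∀ (V1 : Submodule (ZMod 2) V) (a : V),
  (∑ h : V1, sgn (q (a + h))) ^ 2 ≤ (Fintype.card V1 : ℝ) *
    ((univ.filter fun h : V1 => ∀ h' : V1, β h' h = 0).card : ℝ)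

/-- (T1) the transitions -/
def S_T1 : Prop := ∀ (E0 : Type) [AddCommGroup E0] [Module (ZMod 2) E0] [Fintype E0] (I : Type)
  [Fintype I] [DecidableEq I] (B : EE E0 I →ₗ[ZMod 2] EE E0 I →ₗ[ZMod 2] ZMod 2) (s : Sy I)
  (v : I → ZMod 2), (∀ z, B z z = 0) →
  ((∀ z ∈ Rd B s, dt v z.2.1 = 0 ∧ dt v z.2.2 = 0) →
    dR B (s + vv v) univ = dR B s univ + if qq B s v = 0 then 0 else 2) ∧
  ((∃ z ∈ Rd B s, dt v z.2.1 ≠ 0 ∨ dt v z.2.2 ≠ 0) →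
    ((∀ z ∈ Rd B s, dt v z.2.1 = 0) ∨ (∀ z ∈ Rd B s, dt v z.2.2 = 0) ∨
      ∀ z ∈ Rd B s, dt v z.2.1 = dt v z.2.2) → dR B (s + vv v) univ = dR B s univ) ∧
  ((∃ z ∈ Rd B s, dt v z.2.1 ≠ 0) → (∃ z ∈ Rd B s, dt v z.2.2 ≠ 0) →
    (∃ z ∈ Rd B s, dt v z.2.1 ≠ dt v z.2.2) → dR B (s + vv v) univ + 2 = dR B s univ)

/-- (T2) for a generic system all families of functionals occur -/
def S_T2 : Prop := ∀ (n : ℕ) (E0 : Fin n → Type) [∀ i, AddCommGroup (E0 i)]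
  [∀ i, Module (ZMod 2) (E0 i)] [∀ i, Fintype (E0 i)] (I : Type) [Fintype I] [DecidableEq I]
  (B : ∀ i, EE (E0 i) I →ₗ[ZMod 2] EE (E0 i) I →ₗ[ZMod 2] ZMod 2) (s : Sy I), JG B s →
  ∀ (f g : ∀ i, Rd (B i) s →ₗ[ZMod 2] ZMod 2), ∃ v : I → ZMod 2, ∀ i (z : Rd (B i) s),
    f i z = dt v z.1.2.1 ∧ g i z = dt v z.1.2.2

/-- (T3) the sums over the cosets -/
def S_T3 : Prop := ∀ (n : ℕ) (E0 : Fin n → Type) [∀ i, AddCommGroup (E0 i)]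
  [∀ i, Module (ZMod 2) (E0 i)] [∀ i, Fintype (E0 i)] (I : Type) [Fintype I] [DecidableEq I]
  (B : ∀ i, EE (E0 i) I →ₗ[ZMod 2] EE (E0 i) I →ₗ[ZMod 2] ZMod 2) (s : Sy I)
  (W : Finset (Fin n)) (a : I → ZMod 2), (∀ i z, B i z z = 0) → W.Nonempty → a ∈ Vn B s W →
  (∑ h : Vn B s univ, ∏ i ∈ W, sgn (qq (B i) s (a + h))) ^ 2 ≤
    (Fintype.card (Vn B s univ) : ℝ) * NW B s W

/-- (ST) the average over the rank one changes for a generic system -/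
def S_ST : Prop := ∀ (n : ℕ) (E0 : Fin n → Type) [∀ i, AddCommGroup (E0 i)]
  [∀ i, Module (ZMod 2) (E0 i)] [∀ i, Fintype (E0 i)] (I : Type) [Fintype I] [DecidableEq I]
  (B : ∀ i, EE (E0 i) I →ₗ[ZMod 2] EE (E0 i) I →ₗ[ZMod 2] ZMod 2) (s : Sy I) (t : ℕ) (η : ℝ),
  (∀ i z, B i z z = 0) → (∀ i, dR (B i) s univ = 2 * rr B s i) → JG B s → 0 ≤ η →
  (∀ W : Finset (Fin n), W.Nonempty → (NW B s W : ℝ) * 16 ^ (∑ i, rr B s i) ≤
    η ^ 2 * 2 ^ Fintype.card I) →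
  |∑ v : I → ZMod 2, ∏ i, hh t (rr B (s + vv v) i) -
    2 ^ Fintype.card I * ∏ i, hh (t + 1) (rr B s i)| ≤ 2 ^ n * η * 2 ^ Fintype.card I

/-- (CH) the chain -/
def S_CH : Prop := ∀ (n : ℕ) (ε : ℝ), 0 < ε → ∃ δ : ℝ, 0 < δ ∧
  ∀ (E0 : Fin n → Type) [∀ i, AddCommGroup (E0 i)]
  [∀ i, Module (ZMod 2) (E0 i)] [∀ i, Fintype (E0 i)] (I : Type) [Fintype I] [DecidableEq I]
  (B : ∀ i, EE (E0 i) I →ₗ[ZMod 2] EE (E0 i) I →ₗ[ZMod 2] ZMod 2),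
  (∀ i z, B i z z = 0) → (∀ i, Even (finrank (ZMod 2) (E0 i))) →
  (∀ i, Bd (B i) univ δ) →
  (∑ s : Sy I, (NW B s ∅ : ℝ) ≤ (1 + δ) * 2 ^ Fintype.card I * Fintype.card (Sy I)) →
  (∀ W : Finset (Fin n), W.Nonempty →
    ∑ s : Sy I, (NW B s W : ℝ) ≤ δ * 2 ^ Fintype.card I * Fintype.card (Sy I)) →
  |((univ.filter fun s : Sy I => ∀ i, Nde (B i) s).card : ℝ) / Fintype.card (Sy I) - c2 ^ n| ≤ ε

/-- (IV) the invariant relation spaces -/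
def S_IV : Prop := ∀ (n : ℕ) (Γ : Finset (Ty n)), Sep Γ →
  ∀ R : Submodule (ZMod 2) (Lb n → ZMod 2), (∀ κ ∈ Γ, ∀ r ∈ R, TT κ r ∈ R) →
  (fun p : Lb n => if p.2 = 1 ∨ p.2 = 2 then (1 : ZMod 2) else 0) ∈ R → R = ⊤

/-- (CS) the number of the symmetric matrices with given products -/
def S_CS : Prop := ∀ (Λ I : Type) [Fintype Λ] [Fintype I] [DecidableEq I]
  (x : Λ → I → ZMod 2) (g : Λ → I → ZMod 2) (R : Submodule (ZMod 2) (Λ → ZMod 2)),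
  (∀ r, r ∈ R ↔ ∀ k, ∑ p, r p * x p k = 0) →
  (univ.filter fun s : Sy I => ∀ p k, ∑ l, s.1 k l * x p l = g p k).card *
    2 ^ (Fintype.card Λ * Fintype.card I) ≤
    2 ^ (Fintype.card Λ * Fintype.card Λ) * 2 ^ (finrank (ZMod 2) R * Fintype.card I) *
      Fintype.card (Sy I)

/-- (LC) the local count -/
def S_LC : Prop := ∀ (Λ I : Type) [Fintype Λ] [Fintype I] [DecidableEq I]
  (R : Submodule (ZMod 2) (Λ → ZMod 2)) (ρ : Λ → ZMod 2) (γ : ZMod 2) (K : Finset I)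
  (c : I → ZMod 2), (ρ ∉ R ∨ γ ≠ 0) →
  (univ.filter fun q : (Λ → I → ZMod 2) × (I → ZMod 2) =>
    (∀ r ∈ R, ∀ k, ∑ p, r p * q.1 p k = 0) ∧
      ∀ k ∈ K, ∑ p, ρ p * q.1 p k + γ * q.2 k = c k).card * 2 ^ K.card *
    2 ^ (finrank (ZMod 2) R * Fintype.card I) ≤ 2 ^ ((Fintype.card Λ + 1) * Fintype.card I)

/-- (FR) the first moment for a given relation space -/
def S_FR : Prop := ∀ (n : ℕ) (E0 : Fin n → Type) [∀ i, AddCommGroup (E0 i)]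
  [∀ i, Module (ZMod 2) (E0 i)] [∀ i, Fintype (E0 i)] (I : Type) [Fintype I] [DecidableEq I]
  (B : ∀ i, EE (E0 i) I →ₗ[ZMod 2] EE (E0 i) I →ₗ[ZMod 2] ZMod 2)
  (ν u : I → ZMod 2) (τ : Fin n → I → ZMod 2) (m : I → I → ZMod 2) (C C' : Type) [Fintype C]
  [Fintype C'] (F : ∀ i, EE (E0 i) I → C) (G : (I → ZMod 2) → C')
  (Φ Ψ : ∀ i, I → E0 i → C → ZMod 2) (Θ : I → C' → ZMod 2), Shp B ν u τ m F G Φ Ψ Θ →
  ∀ (W : Finset (Fin n)) (R : Submodule (ZMod 2) (Lb n → ZMod 2)) (κ : Ty n) (r : Lb n → ZMod 2)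
  (V : ℕ), V ≤ (univ.filter fun k => (u k, ν k, fun i => τ i k) = κ).card → r ∈ R →
  (TT κ r ∉ R ∨ vc W r ≠ 0) →
  ∑ s : Sy I, ((univ.filter fun q : (I → ZMod 2) × (∀ i, EE (E0 i) I) × (∀ i, EE (E0 i) I) =>
    Cw B s W q.1 q.2.1 q.2.2 ∧ Rl q.2.1 q.2.2 = R).card : ℝ) ≤
    2 ^ (16 * n ^ 2) * (∏ i, (Fintype.card (E0 i) : ℝ)) ^ 2 * (Fintype.card C : ℝ) ^ (2 * n) *
      Fintype.card C' / 2 ^ V * 2 ^ Fintype.card I * Fintype.card (Sy I)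

/-- (FM) the first moment -/
def S_FM : Prop := ∀ n : ℕ, ∃ c : ℝ, 0 < c ∧ ∀ (E0 : Fin n → Type) [∀ i, AddCommGroup (E0 i)]
  [∀ i, Module (ZMod 2) (E0 i)] [∀ i, Fintype (E0 i)] (I : Type) [Fintype I] [DecidableEq I]
  (B : ∀ i, EE (E0 i) I →ₗ[ZMod 2] EE (E0 i) I →ₗ[ZMod 2] ZMod 2)
  (ν u : I → ZMod 2) (τ : Fin n → I → ZMod 2) (m : I → I → ZMod 2) (C C' : Type) [Fintype C]
  [Fintype C'] (F : ∀ i, EE (E0 i) I → C) (G : (I → ZMod 2) → C')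
  (Φ Ψ : ∀ i, I → E0 i → C → ZMod 2) (Θ : I → C' → ZMod 2), Shp B ν u τ m F G Φ Ψ Θ →
  ∀ (Γ : Finset (Ty n)) (V : ℕ), Sep Γ →
  (∀ κ ∈ Γ, V ≤ (univ.filter fun k => (u k, ν k, fun i => τ i k) = κ).card) →
  ∀ W : Finset (Fin n), ∑ s : Sy I, (NW B s W : ℝ) ≤
    ((if W = ∅ then 1 else 0) + c * (∏ i, (Fintype.card (E0 i) : ℝ)) ^ 2 *
      (Fintype.card C : ℝ) ^ (2 * n) * Fintype.card C' / 2 ^ V) * 2 ^ Fintype.card I *
      Fintype.card (Sy I)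

/-- (JT) **the joint law** -/
def S_JT : Prop := ∀ (n : ℕ) (c ε : ℝ), 0 < ε → ∃ V₀ : ℕ, ∀ (E0 : Fin n → Type)
  [∀ i, AddCommGroup (E0 i)] [∀ i, Module (ZMod 2) (E0 i)] [∀ i, Fintype (E0 i)] (I : Type)
  [Fintype I] [DecidableEq I] (B : ∀ i, EE (E0 i) I →ₗ[ZMod 2] EE (E0 i) I →ₗ[ZMod 2] ZMod 2)
  (ν u : I → ZMod 2) (τ : Fin n → I → ZMod 2) (m : I → I → ZMod 2) (C C' : Type) [Fintype C]
  [Fintype C'] (F : ∀ i, EE (E0 i) I → C) (G : (I → ZMod 2) → C')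
  (Φ Ψ : ∀ i, I → E0 i → C → ZMod 2) (Θ : I → C' → ZMod 2), Shp B ν u τ m F G Φ Ψ Θ →
  (∀ i, Even (finrank (ZMod 2) (E0 i))) → (Fintype.card C : ℝ) ≤ c → (Fintype.card C' : ℝ) ≤ c →
  ∀ (Γ : Finset (Ty n)) (N : ℕ), Sep Γ →
  (∀ i, (Fintype.card (E0 i) : ℝ) ≤ 2 ^ N) →
  (∀ κ ∈ Γ, 2 * n * N + 2 * N + V₀ ≤ (univ.filter fun k => (u k, ν k, fun i => τ i k) = κ).card) →
  |((univ.filter fun s : Sy I => ∀ i, Nde (B i) s).card : ℝ) / Fintype.card (Sy I) - c2 ^ n| ≤ ε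

end Pool.Agent.H743.JL
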