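import Pool.Agent.H743.JL.Stm
import Pool.Agent.H743.X17.Defs
import Pool.Graph.R_pool_sql_team_seeded_63374d34.N916.AM.Asy

/-!
# JL (helper743): the joint law; the arithmetic part

The symmetric system of `E_m` (`Sys m`) is turned into an alternating form on the whole space, the
large primes are the random indices.
-/

set_option autoImplicit false
set_option linter.all false

open scoped Classical

namespace Pool.Agent.H743.JL

open Finset Module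
open Pool.Agent.N916.MO
open Pool.Agent.N916.GB (pt ps sx Po)
open Pool.Agent.Y703.CQ (c2 nr)
open Pool.Agent.N973.ND (uu)
open Pool.Agent.N916.AM (Nd Rich LAV LAH Bs)
open Pool.Agent.H743.X17 (Sys Rt RS LL lS al nu pd lam)

/-! ### the alternating form of a system -/

section
variable {V : Type} [Fintype V] [DecidableEq V]

/-- the diagonal functional -/
def dF (r ν α : V → ZMod 2) : ((V → ZMod 2) × (V → ZMod 2)) →ₗ[ZMod 2] ZMod 2 where
  toFun z := ∑ i, (1 + r i) * ν i * z.1 i + ∑ j, α j * z.2 j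
  map_add' z w := by
    simp only [Prod.fst_add, Prod.snd_add, Pi.add_apply, mul_add, sum_add_distrib]
    ring
  map_smul' c z := by
    simp only [Prod.smul_fst, Prod.smul_snd, Pi.smul_apply, smul_eq_mul, RingHom.id_apply, mul_add,
      mul_sum]
    congr 1
    · exact sum_congr rfl fun i _ => by ring
    · exact sum_congr rfl fun i _ => by ring

/-- the coordinate of the omitted row -/
def rF (r : V → ZMod 2) : ((V → ZMod 2) × (V → ZMod 2)) →ₗ[ZMod 2] ZMod 2 where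
  toFun z := ∑ i, r i * z.1 i
  map_add' z w := by
    simp only [Prod.fst_add, Pi.add_apply, mul_add, sum_add_distrib]
  map_smul' c z := by
    simp only [Prod.smul_fst, Pi.smul_apply, smul_eq_mul, RingHom.id_apply, mul_sum]
    exact sum_congr rfl fun i _ => by ring

/-- the alternating form of the system; `r` is the indicator of the omitted row and column -/
def Bf (r ν α : V → ZMod 2) (L : V → V → ZMod 2) :
    ((V → ZMod 2) × (V → ZMod 2)) →ₗ[ZMod 2] ((V → ZMod 2) × (V → ZMod 2)) →ₗ[ZMod 2] ZMod 2 :=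
  SL (fun i => (1 + r i) * ν i) α (fun i j => (1 + r i) * L i j) +
    (dF r ν α).smulRight (dF r ν α) + (rF r).smulRight (dF r ν α) + (dF r ν α).smulRight (rF r)

/-- the criterion -/
def Ks (r ν α : V → ZMod 2) (L : V → V → ZMod 2) : Prop :=
  ∀ x y : V → ZMod 2, (∀ i, r i = 1 → x i = 0) →
    (∀ i, r i = 0 → ν i * x i + ∑ j, L i j * y j = 0) →
    (∀ j, ∑ i, L i j * x i + α j * y j = 0) → ∀ i, x i = 0 ∧ y i = 0

/-- the relations between the data; `a = 1` for `m < 0` and `a = 0` for `m > 0` -/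
structure Dat (r w ν α : V → ZMod 2) (L : V → V → ZMod 2) (a : ZMod 2) : Prop where
  row : ∀ i, ∑ j, L i j = 0
  rc : ∀ i j, i ≠ j → w i * L i j + w j * L j i = α i * α j
  sa : ∑ i, α i = a
  nw : ∀ i, ν i * w i = ν i
  r0 : (∀ i, r i = 0) → ∑ i, ν i = a
  r1 : ∀ i, r i = 1 → a = 1 ∧ α i = 0 ∧ w i = 1 ∧ ∀ j, j ≠ i → L j i = ν j ∧ r j = 0

end

section
variable {U J : Type} [Fintype U] [DecidableEq U] [Fintype J] [LinearOrder J]

/-- the coordinates: the vectors constant on `J` are in the first summand -/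
def co (k0 : J) : EE (E2 (Option U)) (Ix k0) →ₗ[ZMod 2] ((U ⊕ J → ZMod 2) × (U ⊕ J → ZMod 2)) where
  toFun z := (Sum.elim (fun u => z.1.1 (some u)) (fun k => z.1.1 none + xt k0 z.2.1 k),
    Sum.elim (fun u => z.1.2 (some u)) (fun k => z.1.2 none + xt k0 z.2.2 k))
  map_add' z w := by
    refine Prod.ext (funext fun v => ?_) (funext fun v => ?_)
    · rcases v with u | k
      · rfl
      · show (z + w).1.1 none + xt k0 (z + w).2.1 k =
          (z.1.1 none + xt k0 z.2.1 k) + (w.1.1 none + xt k0 w.2.1 k)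
        have h := xt_add (k0 := k0) z.2.1 w.2.1 k
        have h1 : (z + w).2.1 = z.2.1 + w.2.1 := rfl
        have h2 : (z + w).1.1 none = z.1.1 none + w.1.1 none := rfl
        rw [h1, h, h2]
        ring
    · rcases v with u | k
      · rfl
      · show (z + w).1.2 none + xt k0 (z + w).2.2 k =
          (z.1.2 none + xt k0 z.2.2 k) + (w.1.2 none + xt k0 w.2.2 k)
        have h := xt_add (k0 := k0) z.2.2 w.2.2 k
        have h1 : (z + w).2.2 = z.2.2 + w.2.2 := rfl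
        have h2 : (z + w).1.2 none = z.1.2 none + w.1.2 none := rfl
        rw [h1, h, h2]
        ring
  map_smul' c z := by
    refine Prod.ext (funext fun v => ?_) (funext fun v => ?_)
    · rcases v with u | k
      · rfl
      · show (c • z).1.1 none + xt k0 (c • z).2.1 k = c * (z.1.1 none + xt k0 z.2.1 k)
        have h := xt_smul (k0 := k0) c z.2.1 k
        have h1 : (c • z).2.1 = c • z.2.1 := rfl
        have h2 : (c • z).1.1 none = c * z.1.1 none := rfl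
        rw [h1, h, h2]
        ring
    · rcases v with u | k
      · rfl
      · show (c • z).1.2 none + xt k0 (c • z).2.2 k = c * (z.1.2 none + xt k0 z.2.2 k)
        have h := xt_smul (k0 := k0) c z.2.2 k
        have h1 : (c • z).2.2 = c • z.2.2 := rfl
        have h2 : (c • z).1.2 none = c * z.1.2 none := rfl
        rw [h1, h, h2]
        ring

/-- the form in the coordinates -/
def Bp (k0 : J) (r ν α : U ⊕ J → ZMod 2) (L : U ⊕ J → U ⊕ J → ZMod 2) :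
    EE (E2 (Option U)) (Ix k0) →ₗ[ZMod 2] EE (E2 (Option U)) (Ix k0) →ₗ[ZMod 2] ZMod 2 :=
  (Bf r ν α L).compl₁₂ (co k0) (co k0)

end

/-- (NB) the symmetric system and the alternating form -/
def S_NB : Prop := ∀ (V : Type) [Fintype V] [DecidableEq V] (r w ν α : V → ZMod 2)
  (L : V → V → ZMod 2) (a : ZMod 2), Dat r w ν α L a →
  ((∀ z, Bf r ν α L z z = 0) ∧ (Ks r ν α L ↔ ∀ z, (∀ z', Bf r ν α L z z' = 0) → z = 0))

/-- (NS) the random part in the coordinates -/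
def S_NS : Prop := ∀ (U J : Type) [Fintype U] [DecidableEq U] [Fintype J] [LinearOrder J] (k0 : J)
  (r ν α : U ⊕ J → ZMod 2) (L : U ⊕ J → U ⊕ J → ZMod 2) (σ : ps J → ZMod 2),
  (∀ k, r (Sum.inr k) = 0) → (Nde (Bp k0 r ν α L) (Sg k0 σ) ↔
    ∀ z, (∀ z', Bf r ν α (pt L (Lm (sx σ))) z z' = 0) → z = 0)

/-- (DP) the relations are stable -/
def S_DP : Prop := ∀ (U J : Type) [Fintype U] [DecidableEq U] [Fintype J] [LinearOrder J]
  (r w ν α : U ⊕ J → ZMod 2) (L : U ⊕ J → U ⊕ J → ZMod 2) (a : ZMod 2) (σ : ps J → ZMod 2),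
  (∀ k, w (Sum.inr k) = 1 ∧ r (Sum.inr k) = 0) → Dat r w ν α L a →
  Dat r w ν α (pt L (Lm (sx σ))) a

/-- (SH) the shape of the forms -/
def S_SH : Prop := ∀ (n : ℕ) (U : Fin n → Type) [∀ i, Fintype (U i)] [∀ i, DecidableEq (U i)]
  (J : Type) [Fintype J] [LinearOrder J] (k0 : J) (r ν α : ∀ i, U i ⊕ J → ZMod 2)
  (L : ∀ i, U i ⊕ J → U i ⊕ J → ZMod 2) (νJ αJ : J → ZMod 2) (LJ : J → J → ZMod 2)
  (τ : Fin n → J → ZMod 2),
  (∀ i k, r i (Sum.inr k) = 0 ∧ ν i (Sum.inr k) = νJ k ∧ α i (Sum.inr k) = αJ k) →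
  (∀ i k l, k ≠ l → L i (Sum.inr k) (Sum.inr l) = LJ k l) →
  (∀ i k, L i (Sum.inr k) (Sum.inr k) = LJ k k + τ i k) →
  (∀ k l, k ≠ l → LJ k l + LJ l k = αJ k * αJ l) →
  (∀ i (e : E2 (Option (U i))),
    (∀ w' : E2 (Option (U i)), Bp k0 (r i) (ν i) (α i) (L i) (e, 0, 0) (w', 0, 0) = 0) →
    (∀ k : Ix k0, Bp k0 (r i) (ν i) (α i) (L i) (e, 0, 0) (fx k) = 0 ∧
      Bp k0 (r i) (ν i) (α i) (L i) (e, 0, 0) (fy k) = 0) → e = 0) →
  ∃ (F : ∀ i, EE (E2 (Option (U i))) (Ix k0) → ZMod 2) (G : (Ix k0 → ZMod 2) → ZMod 2)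
    (Φ Ψ : ∀ i, Ix k0 → E2 (Option (U i)) → ZMod 2 → ZMod 2) (Θ : Ix k0 → ZMod 2 → ZMod 2),
    Shp (E0 := fun i => E2 (Option (U i))) (fun i => Bp k0 (r i) (ν i) (α i) (L i))
      (fun k : Ix k0 => νJ k) (fun k : Ix k0 => αJ k) (fun i (k : Ix k0) => τ i k)
      (fun k l : Ix k0 => LJ k l) F G Φ Ψ Θ

/-- (NA) the fixed part is not degenerate -/
def S_NA : Prop := ∀ (U J : Type) [Fintype U] [DecidableEq U] [Fintype J] [LinearOrder J] (k0 : J)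
  (r w ν α : U ⊕ J → ZMod 2) (L : U ⊕ J → U ⊕ J → ZMod 2) (a : ZMod 2), Dat r w ν α L a →
  (∀ k, w (Sum.inr k) = 1 ∧ r (Sum.inr k) = 0) →
  (∀ v, w (Sum.inl v) = 0 → α (Sum.inl v) = 1 ∧ ∀ v', w (Sum.inl v') = 0 → v = v') →
  ((∀ i, r i = 0) → ∀ (b : U → ZMod 2) (s t : ZMod 2),
    (∀ k : Ix k0, ∑ v, b v * L (Sum.inl v) (Sum.inr k) + s * α (Sum.inr k) +
      t * ν (Sum.inr k) = 0) → (∀ v, b v = 0) ∧ s = 0 ∧ t = 0) →
  (∀ v0, r (Sum.inl v0) = 1 → (∀ k, ν (Sum.inr k) = L (Sum.inl v0) (Sum.inr k)) ∧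
    ∀ (b : U → ZMod 2) (s : ZMod 2),
    (∀ k : Ix k0, ∑ v, b v * L (Sum.inl v) (Sum.inr k) + s * α (Sum.inr k) = 0) →
      (∀ v, b v = 0) ∧ s = 0) →
  ∀ e : E2 (Option U), (∀ w' : E2 (Option U), Bp k0 r ν α L (e, 0, 0) (w', 0, 0) = 0) →
    (∀ k : Ix k0, Bp k0 r ν α L (e, 0, 0) (fx k) = 0 ∧ Bp k0 r ν α L (e, 0, 0) (fy k) = 0) → e = 0

/-! ### the data of an integer -/

/-- the squarefree part of the product of two squarefree integers -/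
def tw (t n : ℤ) : ℤ := t * n / (Int.gcd t n : ℤ) ^ 2

/-- the additive symbol -/
def chi (t : ℤ) (p : ℕ) : ZMod 2 := if jacobiSym t p = 1 then 0 else 1

/-- the weight -/
def wt (m : ℤ) (p : ℕ) : ZMod 2 := if p = 2 ∧ m % 4 = 3 then 0 else 1

section
variable {V : Type}

def rA (π : V → ℕ) (v : V) : ZMod 2 := if π v = 17 then 1 else 0

def nA (π : V → ℕ) (v : V) : ZMod 2 := nu (π v)

def aA (m : ℤ) (π : V → ℕ) (v : V) : ZMod 2 := al m (π v)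

def wA (m : ℤ) (π : V → ℕ) (v : V) : ZMod 2 := wt m (π v)

def LA (m : ℤ) (π : V → ℕ) (v v' : V) : ZMod 2 := LL m (π v) (π v')

end

/-- the small ramified primes -/
def UF (m t₀ : ℤ) : Finset ℕ := (RS m).filter fun u => u = 2 ∨ (u : ℤ) ∣ t₀

/-- the ramified primes -/
def piU (m t₀ : ℤ) {ι : Type} (q : ι → ℕ) : UF m t₀ ⊕ ι → ℕ := Sum.elim (fun u => u.1) q

/-- (KS) the criterion -/
def S_KS : Prop := ∀ (m : ℤ) (V : Type) [Fintype V] [DecidableEq V] (π : V → ℕ), Squarefree m →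
  Function.Injective π → (∀ x, x ∈ RS m ↔ ∃ v, π v = x) →
  (Sys m ↔ Ks (rA π) (nA π) (aA m π) (LA m π))

/-- (DT) the relations -/
def S_DT : Prop := ∀ (m : ℤ) (V : Type) [Fintype V] [DecidableEq V] (π : V → ℕ), Squarefree m →
  Rt m → Function.Injective π → (∀ x, x ∈ RS m ↔ ∃ v, π v = x) →
  Dat (rA π) (wA m π) (nA π) (aA m π) (LA m π) (if m < 0 then 1 else 0)

/-- the conditions on the large primes -/
def Lg {ι : Type} (t₀ : ℤ) (p : ι → ℕ) : Prop :=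
  (∀ k, (p k).Prime ∧ p k ≠ 2 ∧ p k ≠ 17 ∧ ¬ (p k : ℤ) ∣ t₀) ∧ Function.Injective p

/-- (CP) the data for two systems of large primes with the same labels -/
def S_CP : Prop := ∀ (ι : Type) [Fintype ι] [LinearOrder ι] (t₀ : ℤ) (p q : ι → ℕ),
  Squarefree t₀ → Lg t₀ p → Lg t₀ q →
  (∀ k, q k % 8 = p k % 8 ∧ nr (q k) 17 = nr (p k) 17 ∧
    ∀ u : ℕ, u.Prime → u ≠ 2 → (u : ℤ) ∣ t₀ → nr (q k) u = nr (p k) u) →
  Squarefree (t₀ * ∏ k, (q k : ℤ)) ∧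
  (∀ x, x ∈ RS (t₀ * ∏ k, (q k : ℤ)) ↔ ∃ v, piU (t₀ * ∏ k, (p k : ℤ)) t₀ q v = x) ∧
  Function.Injective (piU (t₀ * ∏ k, (p k : ℤ)) t₀ q) ∧
  rA (piU (t₀ * ∏ k, (p k : ℤ)) t₀ q) = rA (piU (t₀ * ∏ k, (p k : ℤ)) t₀ p) ∧
  nA (piU (t₀ * ∏ k, (p k : ℤ)) t₀ q) = nA (piU (t₀ * ∏ k, (p k : ℤ)) t₀ p) ∧
  wA (t₀ * ∏ k, (q k : ℤ)) (piU (t₀ * ∏ k, (p k : ℤ)) t₀ q) =
    wA (t₀ * ∏ k, (p k : ℤ)) (piU (t₀ * ∏ k, (p k : ℤ)) t₀ p) ∧
  aA (t₀ * ∏ k, (q k : ℤ)) (piU (t₀ * ∏ k, (p k : ℤ)) t₀ q) =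
    aA (t₀ * ∏ k, (p k : ℤ)) (piU (t₀ * ∏ k, (p k : ℤ)) t₀ p) ∧
  LA (t₀ * ∏ k, (q k : ℤ)) (piU (t₀ * ∏ k, (p k : ℤ)) t₀ q) =
    pt (LA (t₀ * ∏ k, (p k : ℤ)) (piU (t₀ * ∏ k, (p k : ℤ)) t₀ p))
      (Lm (sx fun e : ps ι => nr (q e.1.1) (q e.1.2) + nr (p e.1.1) (p e.1.2)))

/-- (TA) the entries between large primes -/
def S_TA : Prop := (∀ (t n : ℤ) (p : ℕ), Squarefree t → Squarefree n → 0 < n → p.Prime → p ≠ 2 →
    (p : ℤ) ∣ n → ¬ (p : ℤ) ∣ t → LL (tw t n) p p = (lam p n + uu p) + chi t p) ∧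
  (∀ (m m' : ℤ) (p q : ℕ), q ≠ 2 → p ≠ q → LL m p q = LL m' p q) ∧
  ∀ (m : ℤ) (p q : ℕ), p.Prime → q.Prime → p ≠ 2 → q ≠ 2 → p ≠ q →
    LL m p q + LL m q p = uu p * uu q

/-- (TW) the squarefree part -/
def S_TW : Prop := ∀ (t : ℤ), Squarefree t → (∀ n : ℤ, Squarefree n → Squarefree (tw t n) ∧
    ∀ p : ℕ, p.Prime → (p : ℤ) ∣ tw t n → (p : ℤ) ∣ t ∨ (p : ℤ) ∣ n) ∧
  ∀ n P : ℤ, Squarefree n → IsCoprime t P → tw t (n * P) = tw t n * P

/-- the type of a prime -/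
noncomputable def ty {n : ℕ} (t : Fin n → ℤ) (p : ℕ) : Ty n := (uu p, nr p 17, fun i => chi (t i) p)

/-- the set of the types -/
noncomputable def Gm {n : ℕ} (t : Fin n → ℤ) (M : ℕ) : Finset (Ty n) :=
  univ.filter fun κ => ∃ p : ℕ, p.Prime ∧ p.Coprime M ∧ ty t p = κ

/-- (SE) the types -/
def S_SE : Prop := ∀ (n : ℕ) (t : Fin n → ℤ) (M : ℕ), 0 < M → 8 ∣ M → 17 ∣ M →
  (∀ i, Squarefree (t i) ∧ t i ∣ M) → (∀ i j, i ≠ j → t i ≠ t j ∧ t i ≠ - t j) →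
  Sep (Gm t M) ∧ ∀ p q : ℕ, p.Prime → q.Prime → p.Coprime M → q.Coprime M → p % M = q % M →
    ty t p = ty t q

/-- (K0) the choice of the index `k0` -/
def S_K0 : Prop := ∀ (M : ℕ) (S₀ : Finset ℕ) (ι : Type) [Fintype ι] [LinearOrder ι] (p : ι → ℕ),
  Function.Injective p → Nd M S₀ (univ.image p) → (Bs M S₀).card + 1 < Fintype.card ι →
  ∃ k0 : ι, Nd M S₀ ((univ.image p).erase (p k0))

/-- the form of an integer -/
noncomputable def BA (m t₀ : ℤ) {ι : Type} [Fintype ι] [LinearOrder ι] (p : ι → ℕ) (k0 : ι) :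
    EE (E2 (Option (UF m t₀))) (Ix k0) →ₗ[ZMod 2] EE (E2 (Option (UF m t₀))) (Ix k0) →ₗ[ZMod 2]
      ZMod 2 :=
  Bp k0 (rA (piU m t₀ p)) (nA (piU m t₀ p)) (aA m (piU m t₀ p)) (LA m (piU m t₀ p))

/-- (NI) the fixed part is not degenerate, arithmetic form -/
def S_NI : Prop := ∀ (M : ℕ) (S₀ : Finset ℕ) (t : ℤ) (ι : Type) [Fintype ι] [LinearOrder ι]
  (p : ι → ℕ) (k0 : ι) (t₀ m : ℤ), 0 < M → 8 ∣ M → 17 ∣ M → (∀ v ∈ S₀, Po v) → Squarefree t →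
  t ∣ M → (∀ k, Po (p k) ∧ p k ∉ S₀ ∧ (p k).Coprime M) → Function.Injective p →
  t₀ = tw t (∏ v ∈ S₀, (v : ℤ)) → m = t₀ * ∏ k, (p k : ℤ) → Rt m →
  Nd M S₀ ((univ.image p).erase (p k0)) →
  ∀ e : E2 (Option (UF m t₀)), (∀ w' : E2 (Option (UF m t₀)),
    BA m t₀ p k0 (e, 0, 0) (w', 0, 0) = 0) →
    (∀ k : Ix k0, BA m t₀ p k0 (e, 0, 0) (fx k) = 0 ∧ BA m t₀ p k0 (e, 0, 0) (fy k) = 0) → e = 0

/-- (LV) **the hypothesis of the abstract machine** -/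
def S_LV : Prop := ∀ (n : ℕ) (t : Fin n → ℤ) (M : ℕ) (K : Finset ℕ), 0 < M → 8 ∣ M → 17 ∣ M →
  (∀ i, Squarefree (t i) ∧ t i ∣ M) → (∀ i j, i ≠ j → t i ≠ t j ∧ t i ≠ - t j) →
  (∀ x : ℕ, Squarefree x → Odd x → x % M ∈ K → ∀ i, Rt (tw (t i) x)) →
  LAH M K (fun S => ∀ i, Sys (tw (t i) (∏ p ∈ S, (p : ℤ)))) (c2 ^ n)

end Pool.Agent.H743.JL
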