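import Pool.Agent.H743.JL.StmC
import Pool.Graph.R_pool_sql_team_seeded_63374d34.N855.GF.LocQ
import Pool.Graph.R_pool_sql_team_seeded_63374d34.N855.GF.Tw

/-!
# JL (helper743): the joint law; the densities
-/

set_option autoImplicit false
set_option linter.all false

open scoped Classical

namespace Pool.Agent.H743.JL

open Finset Filter Topology
open Pool.Agent.Y703.CQ (c2)
open Pool.Agent.H743.X17 (Sys Rt)
open Pool.Agent.N855.GF.Lc17 (Lc Loc)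
open Pool.Agent.N919.BS (NN NS HG)

theorem tw_lib : tw = Pool.Agent.N855.GF.Tw.tw := rfl

/-- (TT) the group of the squarefree integers -/
def S_TT : Prop :=
  (∀ a b c : ℤ, Squarefree a → Squarefree b → Squarefree c → tw a (tw b c) = tw (tw a b) c) ∧
  (∀ a b : ℤ, tw a b = tw b a) ∧ (∀ a : ℤ, Squarefree a → tw a a = 1) ∧ (∀ a : ℤ, tw 1 a = a) ∧
  (∀ a b : ℤ, Squarefree a → Squarefree b → tw (-a) b = - tw a b) ∧
  ∀ a b c : ℤ, Squarefree a → Squarefree b → Squarefree c → tw a c = tw b c → a = b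

/-- (LR) the root number of a twist depends on the class -/
def S_LR : Prop := ∀ (t : ℤ) (m : ℕ), Squarefree t → 136 * t ∣ (m : ℤ) →
  Lc m (fun d => Rt (tw t d))

/-- (HJ) closeness in all the types -/
def S_HJ : Prop := ∀ (n : ℕ) (t : Fin n → ℤ) (m : ℕ) (Q : ℤ → Prop), 136 ∣ m → 0 < m →
  (∀ i, Squarefree (t i) ∧ t i ∣ m) → Function.Injective t → Lc m Q →
  (∀ d, Squarefree d → Q d → ∀ i, Rt (tw (t i) d)) →
  HG Q (fun d => ∀ i, Sys (tw (t i) d)) (c2 ^ n)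

/-- (PT) the patterns -/
def S_PT : Prop := ∀ (T : Finset ℤ) (m : ℕ) (Q : ℤ → Prop), 136 ∣ m → 0 < m →
  (∀ t ∈ T, Squarefree t ∧ t ∣ m) → Lc m Q →
  (∀ d, Squarefree d → Q d → ∀ t ∈ T, Rt (tw t d)) → ∀ A ⊆ T,
  HG Q (fun d => ∀ t ∈ T, (Sys (tw t d) ↔ t ∈ A)) (c2 ^ A.card * (1 - c2) ^ (T \ A).card)

/-- the class of `d₀` -/
def Qc (T : Finset ℤ) (inf : Prop) (S : Finset ℕ) (d₀ d : ℤ) : Prop :=
  (∀ t ∈ T, (Rt (tw t d) ↔ Rt (tw t d₀))) ∧ Loc inf S d₀ d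

/-- (FI) **the joint law** -/
def S_FI : Prop := ∀ (T : Finset ℤ) (inf : Prop) (S : Finset ℕ) (d₀ : ℤ), (∀ t ∈ T, Squarefree t) →
  (∀ p ∈ S, p.Prime) → Squarefree d₀ →
  (∃ (c : ℝ) (X₀ : ℕ), 0 < c ∧ ∀ X : ℕ, X₀ ≤ X → c * X ≤ (NS (Qc T inf S d₀) X : ℝ)) ∧
  ∀ A ⊆ T.filter (fun t => Rt (tw t d₀)),
    Tendsto (fun X : ℕ => (NS (fun d => Qc T inf S d₀ d ∧ ∀ t ∈ T, (Sys (tw t d) ↔ t ∈ A)) X : ℝ) /
      (NS (Qc T inf S d₀) X : ℝ)) atTop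
      (𝓝 (c2 ^ A.card * (1 - c2) ^ (T.filter (fun t => Rt (tw t d₀)) \ A).card))

end Pool.Agent.H743.JL
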