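import Pool.Agent.H743.JL.Stm

/-!
# JX (helper743): the joint law for forms of two kinds

The forms `B i` with `sp i` are split: `E = X ⊕ Y` with totally isotropic `X`, `Y` (a square matrix
`L` and its transpose, Rédei matrices); the others are as in `JL/Stm.lean`. All with the same random
symmetric matrix `s`.
-/

set_option autoImplicit false
set_option linter.all false

open scoped Classical

namespace Pool.Agent.H743.JL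

open Finset Module
open Pool.Agent.N916.MO
open Pool.Agent.N916.GB (eta)
open Pool.Agent.Y703.CQ (c2)

/-- the product for the nonsingular square matrices -/
noncomputable def Ge (t : ℕ) : ℝ := ∏ i ∈ range t, (1 - (1 / 2 : ℝ) ^ (i + 1))

/-- the probability to arrive at the zero kernel after `t` steps from a kernel of dimension `r` -/
noncomputable def he (t r : ℕ) : ℝ := Ge t * ∏ i ∈ range r, (1 - (2 : ℝ) ^ i / 2 ^ t)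

/-- the function of the kind -/
noncomputable def hk (sp : Prop) (t r : ℕ) : ℝ := if sp then he t r else hh t r

/-- the constant of the kind -/
noncomputable def ck (sp : Prop) : ℝ := if sp then eta else c2

section
variable {E0 I : Type} [AddCommGroup E0] [Module (ZMod 2) E0] [Fintype I] [DecidableEq I]

/-- the first half (everything if not `sp`) -/
def XP (I : Type) (sp : Prop) (AX : Submodule (ZMod 2) E0) : Submodule (ZMod 2) (EE E0 I) where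
  carrier := {z | sp → z.1 ∈ AX ∧ z.2.2 = 0}
  add_mem' := by
    intro a b ha hb h
    refine ⟨AX.add_mem (ha h).1 (hb h).1, ?_⟩
    show a.2.2 + b.2.2 = 0
    rw [(ha h).2, (hb h).2, add_zero]
  zero_mem' := fun _ => ⟨AX.zero_mem, rfl⟩
  smul_mem' := by
    intro c a ha h
    refine ⟨AX.smul_mem c (ha h).1, ?_⟩
    show c • a.2.2 = 0
    rw [(ha h).2, smul_zero]

/-- the second half (everything if not `sp`) -/
def YP (I : Type) (sp : Prop) (AY : Submodule (ZMod 2) E0) : Submodule (ZMod 2) (EE E0 I) where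
  carrier := {z | sp → z.1 ∈ AY ∧ z.2.1 = 0}
  add_mem' := by
    intro a b ha hb h
    refine ⟨AY.add_mem (ha h).1 (hb h).1, ?_⟩
    show a.2.1 + b.2.1 = 0
    rw [(ha h).2, (hb h).2, add_zero]
  zero_mem' := fun _ => ⟨AY.zero_mem, rfl⟩
  smul_mem' := by
    intro c a ha h
    refine ⟨AY.smul_mem c (ha h).1, ?_⟩
    show c • a.2.1 = 0
    rw [(ha h).2, smul_zero]

/-- `B` is split -/
structure Spl (B : EE E0 I →ₗ[ZMod 2] EE E0 I →ₗ[ZMod 2] ZMod 2) (AX AY : Submodule (ZMod 2) E0) :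
    Prop where
  cpl : IsCompl AX AY
  dim : finrank (ZMod 2) AX = finrank (ZMod 2) AY
  xx : ∀ z ∈ XP I True AX, ∀ w ∈ XP I True AX, B z w = 0
  yy : ∀ z ∈ YP I True AY, ∀ w ∈ YP I True AY, B z w = 0

/-- the part of the radical in the first half -/
def KX (B : EE E0 I →ₗ[ZMod 2] EE E0 I →ₗ[ZMod 2] ZMod 2) (s : Sy I) (sp : Prop)
    (AX : Submodule (ZMod 2) E0) : Submodule (ZMod 2) (EE E0 I) := Rd B s ⊓ XP I sp AX

/-- the part of the radical in the second half -/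
def KY (B : EE E0 I →ₗ[ZMod 2] EE E0 I →ₗ[ZMod 2] ZMod 2) (s : Sy I) (sp : Prop)
    (AY : Submodule (ZMod 2) E0) : Submodule (ZMod 2) (EE E0 I) := Rd B s ⊓ YP I sp AY

end

section
variable {I : Type} [Fintype I] [DecidableEq I] {n : ℕ} {E0 : Fin n → Type}
  [∀ i, AddCommGroup (E0 i)] [∀ i, Module (ZMod 2) (E0 i)] [∀ i, Fintype (E0 i)]

/-- joint genericity -/
def JG2 (B : ∀ i, EE (E0 i) I →ₗ[ZMod 2] EE (E0 i) I →ₗ[ZMod 2] ZMod 2) (s : Sy I)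
    (sp : Fin n → Prop) (AX AY : ∀ i, Submodule (ZMod 2) (E0 i)) : Prop :=
  ∀ z z' : ∀ i, EE (E0 i) I, (∀ i, z i ∈ KY (B i) s (sp i) (AY i)) →
    (∀ i, z' i ∈ KX (B i) s (sp i) (AX i)) →
    (∀ k, ∑ i, ((z i).2.2 k + (z' i).2.1 k) = 0) → (∀ i, z i = 0) ∧ ∀ i, z' i = 0

/-- the conditions on `(h, z, z')` -/
def Cw2 (B : ∀ i, EE (E0 i) I →ₗ[ZMod 2] EE (E0 i) I →ₗ[ZMod 2] ZMod 2) (s : Sy I)
    (sp : Fin n → Prop) (AX AY : ∀ i, Submodule (ZMod 2) (E0 i))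
    (W : Finset (Fin n)) (h : I → ZMod 2) (z z' : ∀ i, EE (E0 i) I) : Prop :=
  Cw B s W h z z' ∧ (∀ i, z i ∈ YP I (sp i) (AY i)) ∧ ∀ i, z' i ∈ XP I (sp i) (AX i)

/-- the number of the solutions -/
noncomputable def NW2 (B : ∀ i, EE (E0 i) I →ₗ[ZMod 2] EE (E0 i) I →ₗ[ZMod 2] ZMod 2) (s : Sy I)
    (sp : Fin n → Prop) (AX AY : ∀ i, Submodule (ZMod 2) (E0 i)) (W : Finset (Fin n)) : ℕ :=
  (univ.filter fun q : (I → ZMod 2) × (∀ i, EE (E0 i) I) × (∀ i, EE (E0 i) I) =>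
    Cw2 B s sp AX AY W q.1 q.2.1 q.2.2).card

/-- the shape of the fixed parts -/
structure Shp2 (B : ∀ i, EE (E0 i) I →ₗ[ZMod 2] EE (E0 i) I →ₗ[ZMod 2] ZMod 2)
    (sp : Fin n → Prop) (AX AY : ∀ i, Submodule (ZMod 2) (E0 i))
    (ν u : I → ZMod 2) (τ : Fin n → I → ZMod 2) (m : I → I → ZMod 2) {C C' : Type}
    (F : ∀ i, EE (E0 i) I → C) (G : (I → ZMod 2) → C') (Φ Ψ : ∀ i, I → E0 i → C → ZMod 2)
    (Θ : I → C' → ZMod 2) : Prop where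
  alt : ∀ i z, B i z z = 0
  spl : ∀ i, sp i → Spl (B i) (AX i) (AY i)
  hx : ∀ i z k, B i z (fx k) = (if sp i then 0 else ν k) * z.2.1 k + ∑ l, m k l * z.2.2 l +
    τ i k * z.2.2 k + Φ i k z.1 (F i z)
  hy : ∀ i z k, B i z (fy k) = (if sp i then 0 else u k) * z.2.2 k + ∑ l, m l k * z.2.1 l +
    τ i k * z.2.1 k + Ψ i k z.1 (F i z)
  hm : ∀ (x : I → ZMod 2) k, ∑ l, m k l * x l + ∑ l, m l k * x l = u k * x k + Θ k (G x)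
  na : ∀ i (e : E0 i), (∀ w : E0 i, B i (e, 0, 0) (w, 0, 0) = 0) →
    (∀ k, B i (e, 0, 0) (fx k) = 0 ∧ B i (e, 0, 0) (fy k) = 0) → e = 0

end

/-- the set of types separates -/
def Sep2 {n : ℕ} (sp : Fin n → Prop) (Γ : Finset (Ty n)) : Prop :=
  (∀ i j, i ≠ j → (∃ κ ∈ Γ, κ.1 = 0 ∧ κ.2.2 i ≠ κ.2.2 j) ∨ ¬ (sp i ↔ sp j)) ∧
    (∃ κ ∈ Γ, κ.1 = 0 ∧ κ.2.1 = 1) ∧ ∃ κ ∈ Γ, κ.1 = 1 ∧ κ.2.1 = 0

/-- the local operator of a type -/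
noncomputable def TT2 {n : ℕ} (sp : Fin n → Prop) (κ : Ty n) (r : Lb n → ZMod 2) :
    Lb n → ZMod 2 := fun p =>
  if sp p.1 then ![0, κ.2.2 p.1 * r (p.1, 1), (κ.1 + κ.2.2 p.1) * r (p.1, 2), 0] p.2
  else TT κ r p

/-! ## the statements -/

/-- (HE) the function `he` -/
def S_HE : Prop := (∀ t r, 0 ≤ he t r ∧ he t r ≤ 1) ∧ (∀ r, he 0 r = if r = 0 then 1 else 0) ∧
  (∀ t r : ℕ, |he t r - eta| ≤ ((2 : ℝ) ^ r + 1) / 2 ^ t) ∧ (0 ≤ eta ∧ eta ≤ 1) ∧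
  (∀ t, he (t + 1) 0 = (he t 0 + he t 1) / 2) ∧
  ∀ t r : ℕ, ((2 : ℝ) ^ (r + 1)) ^ 2 * he (t + 1) (r + 1) = ((2 : ℝ) ^ (r + 1) - 1) ^ 2 * he t r +
    2 * ((2 : ℝ) ^ (r + 1) - 1) * he t (r + 1) + (he t (r + 1) + he t (r + 2)) / 2

/-- (A2) the average over the pairs of functionals -/
def S_A2 : Prop := ∀ (R R' : Type) [AddCommGroup R] [Module (ZMod 2) R] [Finite R]
  [AddCommGroup R'] [Module (ZMod 2) R'] [Finite R']
  [Fintype (Module.Dual (ZMod 2) R)] [Fintype (Module.Dual (ZMod 2) R')] (r t : ℕ),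
  finrank (ZMod 2) R = r → finrank (ZMod 2) R' = r →
  ∑ f : Module.Dual (ZMod 2) R, ∑ g : Module.Dual (ZMod 2) R',
    (if f = 0 ∧ g = 0 then (he t r + he t (r + 1)) / 2 else
      if f = 0 ∨ g = 0 then he t r else he t (r - 1)) = (4 : ℝ) ^ r * he (t + 1) r

/-- (SR) the radical of a split form -/
def S_SR : Prop := ∀ (E0 : Type) [AddCommGroup E0] [Module (ZMod 2) E0] [Fintype E0] (I : Type)
  [Fintype I] [DecidableEq I] (B : EE E0 I →ₗ[ZMod 2] EE E0 I →ₗ[ZMod 2] ZMod 2)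
  (AX AY : Submodule (ZMod 2) E0) (s : Sy I), (∀ z, B z z = 0) → Spl B AX AY →
  (∀ z ∈ Rd B s, ∃ x ∈ KX B s True AX, ∃ y ∈ KY B s True AY, z = x + y) ∧
  2 * finrank (ZMod 2) (KX B s True AX) = dR B s univ ∧
  2 * finrank (ZMod 2) (KY B s True AY) = dR B s univ

/-- (T22) for a generic system all families of functionals occur -/
def S_T22 : Prop := ∀ (n : ℕ) (E0 : Fin n → Type) [∀ i, AddCommGroup (E0 i)]
  [∀ i, Module (ZMod 2) (E0 i)] [∀ i, Fintype (E0 i)] (I : Type) [Fintype I] [DecidableEq I]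
  (B : ∀ i, EE (E0 i) I →ₗ[ZMod 2] EE (E0 i) I →ₗ[ZMod 2] ZMod 2) (s : Sy I) (sp : Fin n → Prop)
  (AX AY : ∀ i, Submodule (ZMod 2) (E0 i)), JG2 B s sp AX AY →
  ∀ (f : ∀ i, KX (B i) s (sp i) (AX i) →ₗ[ZMod 2] ZMod 2)
    (g : ∀ i, KY (B i) s (sp i) (AY i) →ₗ[ZMod 2] ZMod 2), ∃ v : I → ZMod 2,
    ∀ i, (∀ z : KX (B i) s (sp i) (AX i), f i z = dt v z.1.2.1) ∧
      ∀ z : KY (B i) s (sp i) (AY i), g i z = dt v z.1.2.2

/-- (T32) the sums over the cosets -/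
def S_T32 : Prop := ∀ (n : ℕ) (E0 : Fin n → Type) [∀ i, AddCommGroup (E0 i)]
  [∀ i, Module (ZMod 2) (E0 i)] [∀ i, Fintype (E0 i)] (I : Type) [Fintype I] [DecidableEq I]
  (B : ∀ i, EE (E0 i) I →ₗ[ZMod 2] EE (E0 i) I →ₗ[ZMod 2] ZMod 2) (s : Sy I) (sp : Fin n → Prop)
  (AX AY : ∀ i, Submodule (ZMod 2) (E0 i)) (W : Finset (Fin n)) (a : I → ZMod 2),
  (∀ i z, B i z z = 0) → (∀ i, sp i → Spl (B i) (AX i) (AY i)) → W.Nonempty → a ∈ Vn B s W →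
  (∑ h : Vn B s univ, ∏ i ∈ W, sgn (qq (B i) s (a + h))) ^ 2 ≤
    (Fintype.card (Vn B s univ) : ℝ) * NW2 B s sp AX AY W

/-- (ST2) the average over the rank one changes for a generic system -/
def S_ST2 : Prop := ∀ (n : ℕ) (E0 : Fin n → Type) [∀ i, AddCommGroup (E0 i)]
  [∀ i, Module (ZMod 2) (E0 i)] [∀ i, Fintype (E0 i)] (I : Type) [Fintype I] [DecidableEq I]
  (B : ∀ i, EE (E0 i) I →ₗ[ZMod 2] EE (E0 i) I →ₗ[ZMod 2] ZMod 2) (s : Sy I) (sp : Fin n → Prop)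
  (AX AY : ∀ i, Submodule (ZMod 2) (E0 i)) (t : ℕ) (η : ℝ),
  (∀ i z, B i z z = 0) → (∀ i, sp i → Spl (B i) (AX i) (AY i)) →
  (∀ i, dR (B i) s univ = 2 * rr B s i) → JG2 B s sp AX AY → 0 ≤ η →
  (∀ W : Finset (Fin n), W.Nonempty → (NW2 B s sp AX AY W : ℝ) * 16 ^ (∑ i, rr B s i) ≤
    η ^ 2 * 2 ^ Fintype.card I) →
  |∑ v : I → ZMod 2, ∏ i, hk (sp i) t (rr B (s + vv v) i) -
    2 ^ Fintype.card I * ∏ i, hk (sp i) (t + 1) (rr B s i)| ≤ 2 ^ n * η * 2 ^ Fintype.card I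

/-- (CH2) the chain -/
def S_CH2 : Prop := ∀ (n : ℕ) (ε : ℝ), 0 < ε → ∃ δ : ℝ, 0 < δ ∧
  ∀ (E0 : Fin n → Type) [∀ i, AddCommGroup (E0 i)]
  [∀ i, Module (ZMod 2) (E0 i)] [∀ i, Fintype (E0 i)] (I : Type) [Fintype I] [DecidableEq I]
  (B : ∀ i, EE (E0 i) I →ₗ[ZMod 2] EE (E0 i) I →ₗ[ZMod 2] ZMod 2) (sp : Fin n → Prop)
  (AX AY : ∀ i, Submodule (ZMod 2) (E0 i)),
  (∀ i z, B i z z = 0) → (∀ i, sp i → Spl (B i) (AX i) (AY i)) →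
  (∀ i, Even (finrank (ZMod 2) (E0 i))) →
  (∀ i, ∑ s : Sy I, (2 : ℝ) ^ rr B s i ≤ 30 * Fintype.card (Sy I)) →
  (∑ s : Sy I, (NW2 B s sp AX AY ∅ : ℝ) ≤ (1 + δ) * 2 ^ Fintype.card I * Fintype.card (Sy I)) →
  (∀ W : Finset (Fin n), W.Nonempty →
    ∑ s : Sy I, (NW2 B s sp AX AY W : ℝ) ≤ δ * 2 ^ Fintype.card I * Fintype.card (Sy I)) →
  |((univ.filter fun s : Sy I => ∀ i, Nde (B i) s).card : ℝ) / Fintype.card (Sy I) -
    ∏ i, ck (sp i)| ≤ ε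

/-- (IV2) the invariant relation spaces -/
def S_IV2 : Prop := ∀ (n : ℕ) (sp : Fin n → Prop) (Γ : Finset (Ty n)), Sep2 sp Γ →
  ∀ R : Submodule (ZMod 2) (Lb n → ZMod 2),
  (∀ i, sp i → (Pi.single (i, 0) 1 : Lb n → ZMod 2) ∈ R ∧
    (Pi.single (i, 3) 1 : Lb n → ZMod 2) ∈ R) → (∀ κ ∈ Γ, ∀ r ∈ R, TT2 sp κ r ∈ R) →
  (fun p : Lb n => if p.2 = 1 ∨ p.2 = 2 then (1 : ZMod 2) else 0) ∈ R → R = ⊤

/-- (FR2) the first moment for a given relation space -/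
def S_FR2 : Prop := ∀ (n : ℕ) (E0 : Fin n → Type) [∀ i, AddCommGroup (E0 i)]
  [∀ i, Module (ZMod 2) (E0 i)] [∀ i, Fintype (E0 i)] (I : Type) [Fintype I] [DecidableEq I]
  (B : ∀ i, EE (E0 i) I →ₗ[ZMod 2] EE (E0 i) I →ₗ[ZMod 2] ZMod 2) (sp : Fin n → Prop)
  (AX AY : ∀ i, Submodule (ZMod 2) (E0 i))
  (ν u : I → ZMod 2) (τ : Fin n → I → ZMod 2) (m : I → I → ZMod 2) (C C' : Type) [Fintype C]
  [Fintype C'] (F : ∀ i, EE (E0 i) I → C) (G : (I → ZMod 2) → C')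
  (Φ Ψ : ∀ i, I → E0 i → C → ZMod 2) (Θ : I → C' → ZMod 2),
  Shp2 B sp AX AY ν u τ m F G Φ Ψ Θ →
  ∀ (W : Finset (Fin n)) (R : Submodule (ZMod 2) (Lb n → ZMod 2)) (κ : Ty n) (r : Lb n → ZMod 2)
  (V : ℕ), V ≤ (univ.filter fun k => (u k, ν k, fun i => τ i k) = κ).card → r ∈ R →
  (TT2 sp κ r ∉ R ∨ vc W r ≠ 0) →
  ∑ s : Sy I, ((univ.filter fun q : (I → ZMod 2) × (∀ i, EE (E0 i) I) × (∀ i, EE (E0 i) I) =>
    Cw2 B s sp AX AY W q.1 q.2.1 q.2.2 ∧ Rl q.2.1 q.2.2 = R).card : ℝ) ≤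
    2 ^ (16 * n ^ 2) * (∏ i, (Fintype.card (E0 i) : ℝ)) ^ 2 * (Fintype.card C : ℝ) ^ (2 * n) *
      Fintype.card C' / 2 ^ V * 2 ^ Fintype.card I * Fintype.card (Sy I)

/-- (FM2) the first moment -/
def S_FM2 : Prop := ∀ n : ℕ, ∃ c : ℝ, 0 < c ∧ ∀ (E0 : Fin n → Type) [∀ i, AddCommGroup (E0 i)]
  [∀ i, Module (ZMod 2) (E0 i)] [∀ i, Fintype (E0 i)] (I : Type) [Fintype I] [DecidableEq I]
  (B : ∀ i, EE (E0 i) I →ₗ[ZMod 2] EE (E0 i) I →ₗ[ZMod 2] ZMod 2) (sp : Fin n → Prop)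
  (AX AY : ∀ i, Submodule (ZMod 2) (E0 i))
  (ν u : I → ZMod 2) (τ : Fin n → I → ZMod 2) (m : I → I → ZMod 2) (C C' : Type) [Fintype C]
  [Fintype C'] (F : ∀ i, EE (E0 i) I → C) (G : (I → ZMod 2) → C')
  (Φ Ψ : ∀ i, I → E0 i → C → ZMod 2) (Θ : I → C' → ZMod 2),
  Shp2 B sp AX AY ν u τ m F G Φ Ψ Θ →
  ∀ (Γ : Finset (Ty n)) (V : ℕ), Sep2 sp Γ →
  (∀ κ ∈ Γ, V ≤ (univ.filter fun k => (u k, ν k, fun i => τ i k) = κ).card) →
  ∀ W : Finset (Fin n), ∑ s : Sy I, (NW2 B s sp AX AY W : ℝ) ≤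
    ((if W = ∅ then 1 else 0) + c * (∏ i, (Fintype.card (E0 i) : ℝ)) ^ 2 *
      (Fintype.card C : ℝ) ^ (2 * n) * Fintype.card C' / 2 ^ V) * 2 ^ Fintype.card I *
      Fintype.card (Sy I)

/-- (MO2) the moment of a split form -/
def S_MO2 : Prop := ∀ (E0 : Type) [AddCommGroup E0] [Module (ZMod 2) E0] [Fintype E0] (I : Type)
  [Fintype I] [DecidableEq I] (B : EE E0 I →ₗ[ZMod 2] EE E0 I →ₗ[ZMod 2] ZMod 2)
  (AX AY : Submodule (ZMod 2) E0), (∀ z, B z z = 0) → Spl B AX AY →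
  (∀ e : E0, (∀ w : E0, B (e, 0, 0) (w, 0, 0) = 0) →
    (∀ k, B (e, 0, 0) (fx k) = 0 ∧ B (e, 0, 0) (fy k) = 0) → e = 0) →
  ∑ s : Sy I, (2 : ℝ) ^ (dR B s univ / 2) ≤ 30 * Fintype.card (Sy I)

/-- (JT2) **the joint law** -/
def S_JT2 : Prop := ∀ (n : ℕ) (c ε : ℝ), 0 < ε → ∃ V₀ : ℕ, ∀ (E0 : Fin n → Type)
  [∀ i, AddCommGroup (E0 i)] [∀ i, Module (ZMod 2) (E0 i)] [∀ i, Fintype (E0 i)] (I : Type)
  [Fintype I] [DecidableEq I] (B : ∀ i, EE (E0 i) I →ₗ[ZMod 2] EE (E0 i) I →ₗ[ZMod 2] ZMod 2)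
  (sp : Fin n → Prop) (AX AY : ∀ i, Submodule (ZMod 2) (E0 i))
  (ν u : I → ZMod 2) (τ : Fin n → I → ZMod 2) (m : I → I → ZMod 2) (C C' : Type) [Fintype C]
  [Fintype C'] (F : ∀ i, EE (E0 i) I → C) (G : (I → ZMod 2) → C')
  (Φ Ψ : ∀ i, I → E0 i → C → ZMod 2) (Θ : I → C' → ZMod 2),
  Shp2 B sp AX AY ν u τ m F G Φ Ψ Θ →
  (∀ i, Even (finrank (ZMod 2) (E0 i))) → (Fintype.card C : ℝ) ≤ c → (Fintype.card C' : ℝ) ≤ c →
  ∀ (Γ : Finset (Ty n)) (N : ℕ), Sep2 sp Γ →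
  (∀ i, (Fintype.card (E0 i) : ℝ) ≤ 2 ^ N) →
  (∀ κ ∈ Γ, 2 * n * N + 2 * N + V₀ ≤ (univ.filter fun k => (u k, ν k, fun i => τ i k) = κ).card) →
  |((univ.filter fun s : Sy I => ∀ i, Nde (B i) s).card : ℝ) / Fintype.card (Sy I) -
    ∏ i, ck (sp i)| ≤ ε

end Pool.Agent.H743.JL
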