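import Pool.Agent.H743.JL.StmX
import Pool.Agent.H743.JL.StmD

/-!
# JX (helper743): the joint law of the Rédei matrices of `ℚ(√(tm))` and of the systems of `E_{t'm}`;
# the arithmetic part
-/

set_option autoImplicit false
set_option linter.all false

open scoped Classical

namespace Pool.Agent.H743.JL

open Finset Module Filter Topology
open Pool.Agent.N916.MO
open Pool.Agent.N916.GB (pt ps sx Po eta)
open Pool.Agent.Y703.CQ (c2 nr)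
open Pool.Agent.N973.ND (uu)
open Pool.Agent.N916.AM (Nd Rich LAV LAH Bs)
open Pool.Agent.H743.X17 (Sys Rt RS LL lS al nu pd lam)
open Pool.Agent.N855.GF.Lc17 (Lc Loc)
open Pool.Agent.N919.BS (NN NS HG)

section
variable {V : Type} [Fintype V] [DecidableEq V]

/-- the coordinate `x v0` -/
def fC (v0 : V) : ((V → ZMod 2) × (V → ZMod 2)) →ₗ[ZMod 2] ZMod 2 where
  toFun z := z.1 v0
  map_add' _ _ := rfl
  map_smul' _ _ := rfl

/-- the coordinate `y v0` -/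
def gC (v0 : V) : ((V → ZMod 2) × (V → ZMod 2)) →ₗ[ZMod 2] ZMod 2 where
  toFun z := z.2 v0
  map_add' _ _ := rfl
  map_smul' _ _ := rfl

/-- the split form of the matrix `L + f ⊗ g` -/
def Bh (v0 : V) (L : V → V → ZMod 2) :
    ((V → ZMod 2) × (V → ZMod 2)) →ₗ[ZMod 2] ((V → ZMod 2) × (V → ZMod 2)) →ₗ[ZMod 2] ZMod 2 :=
  SL (fun _ => 0) (fun _ => 0) L + (fC v0).smulRight (gC v0) + (gC v0).smulRight (fC v0)

/-- all the solutions are constant -/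
def Ck (L : V → V → ZMod 2) : Prop :=
  ∀ y : V → ZMod 2, (∀ i, ∑ j, L i j * y j = 0) → ∀ i j, y i = y j

end

section
variable {U J : Type} [Fintype U] [DecidableEq U] [Fintype J] [LinearOrder J]

/-- the split form in the coordinates -/
def Bhp (k0 : J) (L : U ⊕ J → U ⊕ J → ZMod 2) :
    EE (E2 (Option U)) (Ix k0) →ₗ[ZMod 2] EE (E2 (Option U)) (Ix k0) →ₗ[ZMod 2] ZMod 2 :=
  (Bh (Sum.inr k0) L).compl₁₂ (co k0) (co k0)

/-- the form of the kind -/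
noncomputable def Bk (sp : Prop) (k0 : J) (r ν α : U ⊕ J → ZMod 2) (L : U ⊕ J → U ⊕ J → ZMod 2) :
    EE (E2 (Option U)) (Ix k0) →ₗ[ZMod 2] EE (E2 (Option U)) (Ix k0) →ₗ[ZMod 2] ZMod 2 :=
  if sp then Bhp k0 L else Bp k0 r ν α L

end

/-- the first component -/
def AXc (U : Type) : Submodule (ZMod 2) (E2 (Option U)) where
  carrier := {e | e.2 = 0}
  add_mem' := by
    intro a b ha hb
    show a.2 + b.2 = 0
    rw [show a.2 = 0 from ha, show b.2 = 0 from hb, add_zero]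
  zero_mem' := rfl
  smul_mem' := by
    intro c a ha
    show c • a.2 = 0
    rw [show a.2 = 0 from ha, smul_zero]

/-- the second component -/
def AYc (U : Type) : Submodule (ZMod 2) (E2 (Option U)) where
  carrier := {e | e.1 = 0}
  add_mem' := by
    intro a b ha hb
    show a.1 + b.1 = 0
    rw [show a.1 = 0 from ha, show b.1 = 0 from hb, add_zero]
  zero_mem' := rfl
  smul_mem' := by
    intro c a ha
    show c • a.1 = 0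
    rw [show a.1 = 0 from ha, smul_zero]

/-- (NB2) the matrix and the split form -/
def S_NB2 : Prop := ∀ (V : Type) [Fintype V] [DecidableEq V] (w : V → ZMod 2) (L : V → V → ZMod 2)
  (v0 : V), (∀ i, ∑ j, L i j = 0) → (∀ j, ∑ i, w i * L i j = 0) → w v0 = 1 →
  (Ck L ↔ ∀ z, (∀ z', Bh v0 L z z' = 0) → z = 0)

/-- (NS2) the random part in the coordinates -/
def S_NS2 : Prop := ∀ (U J : Type) [Fintype U] [DecidableEq U] [Fintype J] [LinearOrder J] (k0 : J)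
  (L : U ⊕ J → U ⊕ J → ZMod 2) (σ : ps J → ZMod 2), (Nde (Bhp k0 L) (Sg k0 σ) ↔
    ∀ z, (∀ z', Bh (Sum.inr k0) (pt L (Lm (sx σ))) z z' = 0) → z = 0)

/-- (SH2) the shape of the forms -/
def S_SH2 : Prop := ∀ (n : ℕ) (sp : Fin n → Prop) (U : Fin n → Type) [∀ i, Fintype (U i)]
  [∀ i, DecidableEq (U i)]
  (J : Type) [Fintype J] [LinearOrder J] (k0 : J) (r ν α : ∀ i, U i ⊕ J → ZMod 2)
  (L : ∀ i, U i ⊕ J → U i ⊕ J → ZMod 2) (νJ αJ : J → ZMod 2) (LJ : J → J → ZMod 2)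
  (τ : Fin n → J → ZMod 2),
  (∀ i k, r i (Sum.inr k) = 0 ∧ ν i (Sum.inr k) = νJ k ∧ α i (Sum.inr k) = αJ k) →
  (∀ i k l, k ≠ l → L i (Sum.inr k) (Sum.inr l) = LJ k l) →
  (∀ i k, L i (Sum.inr k) (Sum.inr k) = LJ k k + τ i k) →
  (∀ k l, k ≠ l → LJ k l + LJ l k = αJ k * αJ l) →
  (∀ i (e : E2 (Option (U i))),
    (∀ w' : E2 (Option (U i)), Bk (sp i) k0 (r i) (ν i) (α i) (L i) (e, 0, 0) (w', 0, 0) = 0) →
    (∀ k : Ix k0, Bk (sp i) k0 (r i) (ν i) (α i) (L i) (e, 0, 0) (fx k) = 0 ∧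
      Bk (sp i) k0 (r i) (ν i) (α i) (L i) (e, 0, 0) (fy k) = 0) → e = 0) →
  ∃ (F : ∀ i, EE (E2 (Option (U i))) (Ix k0) → ZMod 2) (G : (Ix k0 → ZMod 2) → ZMod 2)
    (Φ Ψ : ∀ i, Ix k0 → E2 (Option (U i)) → ZMod 2 → ZMod 2) (Θ : Ix k0 → ZMod 2 → ZMod 2),
    Shp2 (E0 := fun i => E2 (Option (U i))) (fun i => Bk (sp i) k0 (r i) (ν i) (α i) (L i))
      sp (fun i => AXc (U i)) (fun i => AYc (U i))
      (fun k : Ix k0 => νJ k) (fun k : Ix k0 => αJ k) (fun i (k : Ix k0) => τ i k)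
      (fun k l : Ix k0 => LJ k l) F G Φ Ψ Θ

/-- (NA2) the fixed part of a split form is not degenerate -/
def S_NA2 : Prop := ∀ (U J : Type) [Fintype U] [DecidableEq U] [Fintype J] [LinearOrder J] (k0 : J)
  (w α : U ⊕ J → ZMod 2) (L : U ⊕ J → U ⊕ J → ZMod 2),
  (∀ i, ∑ j, L i j = 0) → (∀ j, ∑ i, w i * L i j = 0) →
  (∀ i j, i ≠ j → w i * L i j + w j * L j i = α i * α j) →
  (∀ k, w (Sum.inr k) = 1) →
  (∀ v, w (Sum.inl v) = 0 → α (Sum.inl v) = 1 ∧ ∀ v', w (Sum.inl v') = 0 → v = v') →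
  (∀ (b : U → ZMod 2) (s : ZMod 2),
    (∀ k : Ix k0, ∑ v, b v * L (Sum.inl v) (Sum.inr k) + s * α (Sum.inr k) = 0) →
      (∀ v, b v = 0) ∧ s = 0) →
  ∀ e : E2 (Option U), (∀ w' : E2 (Option U), Bhp k0 L (e, 0, 0) (w', 0, 0) = 0) →
    (∀ k : Ix k0, Bhp k0 L (e, 0, 0) (fx k) = 0 ∧ Bhp k0 L (e, 0, 0) (fy k) = 0) → e = 0

/-- `Cl(ℚ(√m))` has no element of order four (`m < 0`, Rédei): all the solutions are constant -/
def H4 (m : ℤ) : Prop := ∀ y : ℕ → ZMod 2, (∀ p ∈ RS m, ∑ q ∈ RS m, LL m p q * y q = 0) →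
  ∀ p ∈ RS m, ∀ q ∈ RS m, y p = y q

/-- the criterion of the kind -/
def Kd (sp : Prop) (m : ℤ) : Prop := (sp → H4 m) ∧ (¬ sp → Sys m)

/-- the condition of the kind -/
def Ro (sp : Prop) (m : ℤ) : Prop := (sp → m < 0) ∧ (¬ sp → Rt m)

/-- (KS2) the criterion in terms of a parametrization; the relations for `m < 0` -/
def S_KS2 : Prop := ∀ (m : ℤ) (V : Type) [Fintype V] [DecidableEq V] (π : V → ℕ), Squarefree m →
  Function.Injective π → (∀ x, x ∈ RS m ↔ ∃ v, π v = x) →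
  (H4 m ↔ Ck (LA m π)) ∧ (∀ i, ∑ j, LA m π i j = 0) ∧
  (∀ i j, i ≠ j → wA m π i * LA m π i j + wA m π j * LA m π j i = aA m π i * aA m π j) ∧
  (m < 0 → ∀ j, ∑ i, wA m π i * LA m π i j = 0)

/-- the form of an integer -/
noncomputable def BK (sp : Prop) (m t₀ : ℤ) {ι : Type} [Fintype ι] [LinearOrder ι] (p : ι → ℕ)
    (k0 : ι) :
    EE (E2 (Option (UF m t₀))) (Ix k0) →ₗ[ZMod 2] EE (E2 (Option (UF m t₀))) (Ix k0) →ₗ[ZMod 2]
      ZMod 2 :=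
  Bk sp k0 (rA (piU m t₀ p)) (nA (piU m t₀ p)) (aA m (piU m t₀ p)) (LA m (piU m t₀ p))

/-- (NI2) the fixed part is not degenerate, arithmetic form -/
def S_NI2 : Prop := ∀ (sp : Prop) (M : ℕ) (S₀ : Finset ℕ) (t : ℤ) (ι : Type) [Fintype ι]
  [LinearOrder ι] (p : ι → ℕ) (k0 : ι) (t₀ m : ℤ), 0 < M → 8 ∣ M → 17 ∣ M → (∀ v ∈ S₀, Po v) →
  Squarefree t → t ∣ M → (∀ k, Po (p k) ∧ p k ∉ S₀ ∧ (p k).Coprime M) → Function.Injective p →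
  t₀ = tw t (∏ v ∈ S₀, (v : ℤ)) → m = t₀ * ∏ k, (p k : ℤ) → Ro sp m →
  Nd M S₀ ((univ.image p).erase (p k0)) →
  ∀ e : E2 (Option (UF m t₀)), (∀ w' : E2 (Option (UF m t₀)),
    BK sp m t₀ p k0 (e, 0, 0) (w', 0, 0) = 0) →
    (∀ k : Ix k0, BK sp m t₀ p k0 (e, 0, 0) (fx k) = 0 ∧ BK sp m t₀ p k0 (e, 0, 0) (fy k) = 0) →
    e = 0

/-- (SE2) the types -/
def S_SE2 : Prop := ∀ (n : ℕ) (sp : Fin n → Prop) (t : Fin n → ℤ) (M : ℕ), 0 < M → 8 ∣ M → 17 ∣ M →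
  (∀ i, Squarefree (t i) ∧ t i ∣ M) →
  (∀ i j, i ≠ j → (t i ≠ t j ∧ t i ≠ - t j) ∨ ¬ (sp i ↔ sp j)) → Sep2 sp (Gm t M)

/-- (LV2) **the hypothesis of the abstract machine** -/
def S_LV2 : Prop := ∀ (n : ℕ) (sp : Fin n → Prop) (t : Fin n → ℤ) (M : ℕ) (K : Finset ℕ), 0 < M →
  8 ∣ M → 17 ∣ M → (∀ i, Squarefree (t i) ∧ t i ∣ M) →
  (∀ i j, i ≠ j → (t i ≠ t j ∧ t i ≠ - t j) ∨ ¬ (sp i ↔ sp j)) →
  (∀ x : ℕ, Squarefree x → Odd x → x % M ∈ K → ∀ i, Ro (sp i) (tw (t i) x)) →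
  LAH M K (fun S => ∀ i, Kd (sp i) (tw (t i) (∏ p ∈ S, (p : ℤ)))) (∏ i, ck (sp i))

/-- (HJ2) closeness in all the types -/
def S_HJ2 : Prop := ∀ (n : ℕ) (sp : Fin n → Prop) (t : Fin n → ℤ) (m : ℕ) (Q : ℤ → Prop), 136 ∣ m →
  0 < m → (∀ i, Squarefree (t i) ∧ t i ∣ m) → (∀ i j, t i = t j → (sp i ↔ sp j) → i = j) →
  Lc m Q → (∀ d, Squarefree d → Q d → ∀ i, Ro (sp i) (tw (t i) d)) →
  HG Q (fun d => ∀ i, Kd (sp i) (tw (t i) d)) (∏ i, ck (sp i))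

/-- the class of `d₀` -/
def Qc2 (T T' : Finset ℤ) (inf : Prop) (S : Finset ℕ) (d₀ d : ℤ) : Prop :=
  ((∀ t ∈ T, (Rt (tw t d) ↔ Rt (tw t d₀))) ∧ ∀ t ∈ T', (tw t d < 0 ↔ tw t d₀ < 0)) ∧ Loc inf S d₀ d

/-- (FI2) **the joint law**: `T` for the twists of `X_0(17)`, `T'` for the class groups -/
def S_FI2 : Prop := ∀ (T T' : Finset ℤ) (inf : Prop) (S : Finset ℕ) (d₀ : ℤ),
  (∀ t ∈ T, Squarefree t) → (∀ t ∈ T', Squarefree t ∧ tw t d₀ < 0) →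
  (∀ p ∈ S, p.Prime) → Squarefree d₀ →
  (∃ (c : ℝ) (X₀ : ℕ), 0 < c ∧ ∀ X : ℕ, X₀ ≤ X → c * X ≤ (NS (Qc2 T T' inf S d₀) X : ℝ)) ∧
  ∀ A ⊆ T.filter (fun t => Rt (tw t d₀)), ∀ A' ⊆ T',
    Tendsto (fun X : ℕ => (NS (fun d => Qc2 T T' inf S d₀ d ∧ (∀ t ∈ T, (Sys (tw t d) ↔ t ∈ A)) ∧
        ∀ t ∈ T', (H4 (tw t d) ↔ t ∈ A')) X : ℝ) /
      (NS (Qc2 T T' inf S d₀) X : ℝ)) atTop
      (𝓝 (c2 ^ A.card * (1 - c2) ^ (T.filter (fun t => Rt (tw t d₀)) \ A).card *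
        (eta ^ A'.card * (1 - eta) ^ (T' \ A').card)))

end Pool.Agent.H743.JL
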