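import Pool.Agent.H743.JL.StmY
import Pool.Agent.H743.X17.RK4
import Pool.Agent.H114.X21.Defs

/-!
# JZ (helper743): from the joint law to the rank form for the twists of `X_0(15)`, `X_0(17)`, `X_0(21)`,
# `X_0(24)`

`H4 m` (StmY): the kernel of Rédei's matrix `LL m` of `ℚ(√m)` consists of the constant vectors.
`Pool.Agent.H114.X21.Gm m`: the criterion of helper114 (in terms of Legendre symbols).
`Pool.Agent.H743.X17.RK.IsI a b F`: the (incomplete) L-function of `y² = x³ + a x + b`.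
`Pool.Agent.Y700.IsL W Λ`: `Λ` is entire and the complete Hasse-Weil L-function of `W`.
-/

set_option autoImplicit false
set_option linter.all false

open scoped Classical

namespace Pool.Agent.H743.JL

open Finset Module Filter Topology NumberField
open Pool.Agent.Y703.CQ (c2)
open Pool.Agent.N916.GB (eta)
open Pool.Agent.H743.X17 (Sys Rt RS LL FinSha)
open Pool.Agent.H743.X17.RK (IsI cA cB)
open Pool.Agent.N855.GF.Lc17 (Lc Loc)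
open Pool.Agent.N919.BS (NN NS HG)
open Pool.Agent.Y700 (IsL VR)
open Pool.Agent.W97.MT (affCount)
open Pool.Agent.TH841.SH.D (Sha)

/-! ### the criterion -/

/-- (GM) helper114's criterion and the kernel of Rédei's matrix -/
def S_GM : Prop := ∀ m : ℤ, m < 0 → m ≠ -1 → Squarefree m → (Pool.Agent.H114.X21.Gm m ↔ H4 m)

/-- the divisors in the kernel of Rédei's matrix -/
def Redei (n d : ℕ) : Prop := d ∣ n ∧
  (∀ p : ℕ, p.Prime → p ∣ n → ¬ p ∣ d → jacobiSym d p = 1) ∧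
  (∀ p : ℕ, p.Prime → p ∣ d → jacobiSym ((n / d : ℕ) : ℤ) p = 1)

/-- (RD) the criterion in terms of divisors -/
def S_RD : Prop := ∀ n : ℕ, Squarefree n → n % 4 = 3 →
  ((∀ d : ℕ, Redei n d → d = 1 ∨ d = n) ↔ Pool.Agent.H114.X21.Gm (-(n : ℤ)))

/-- no ideal class of order four in `ℚ(√m)` -/
def NoFour (m : ℤ) : Prop := ∀ (K : Type) [Field K] [NumberField K], Module.finrank ℚ K = 2 →
  (∃ s : K, s ^ 2 = (m : K)) → ∀ c : ClassGroup (𝓞 K), c ^ 4 = 1 → c ^ 2 = 1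

/-- (NF) the criterion in terms of the class group -/
def S_NF : Prop := ∀ m : ℤ, m < 0 → m ≠ -1 → Squarefree m → (NoFour m ↔ H4 m)

/-! ### the L-functions -/

/-- (IN) **from the complete to the incomplete L-function**: `y² = x³ + a x + b` is isomorphic over `ℚ`
to `W`, with the factor `6 u` -/
def S_IN : Prop := ∀ (W : WeierstrassCurve ℤ) (Λ : ℂ → ℂ) (a b : ℤ) (u : ℚ), IsL W Λ → u ≠ 0 →
  W.Δ ≠ 0 → (3 : ℤ) ∣ W.Δ → (∀ p : ℕ, p.Prime → p ≠ 2 → ¬ (p : ℤ) ^ 12 ∣ W.Δ) →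
  (a : ℚ) = -27 * (W.c₄ : ℚ) * u ^ 4 → (b : ℚ) = -54 * (W.c₆ : ℚ) * u ^ 6 →
  (∀ p : ℕ, p.Prime → 0 < affCount W p) → ∃ F : ℂ → ℂ, IsI a b F ∧ (F 1 = 0 ↔ Λ 1 = 0)

/-- `y² = x³ + a x + b` -/
abbrev Sh (a b : ℤ) : WeierstrassCurve ℚ := ⟨0, 0, 0, (a : ℚ), (b : ℚ)⟩

/-- finitely many points and no element of order two in `Ш` -/
def TR (a b : ℤ) : Prop :=
  Finite (Sh a b).toAffine.Point ∧ ∀ x : Sha (Sh a b), x + x = 0 → x = 0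

/-- (SF) **the short form** -/
def S_SF : Prop := ∀ (W : WeierstrassCurve ℤ) (a b : ℤ) (u : ℚ), u ≠ 0 → W.Δ ≠ 0 →
  (a : ℚ) = -27 * (W.c₄ : ℚ) * u ^ 4 → (b : ℚ) = -54 * (W.c₆ : ℚ) * u ^ 6 →
  (TR a b ↔ FinSha (W.map (Int.castRingHom ℚ)))

/-! ### the curves -/

/-- the data of a curve: `c₄ = α N²`, `c₆ = β N³`, `N = m` or `4 m` -/
def Data (α β m : ℤ) : Prop := ∃ (W : WeierstrassCurve ℤ) (Λ : ℂ → ℂ) (N : ℤ), IsL W Λ ∧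
  (N = m ∨ N = 4 * m) ∧ W.Δ ≠ 0 ∧ W.c₄ = α * N ^ 2 ∧ W.c₆ = β * N ^ 3 ∧
  (3 : ℤ) ∣ W.Δ ∧ (∀ p : ℕ, p.Prime → p ≠ 2 → ¬ (p : ℤ) ^ 12 ∣ W.Δ) ∧
  (∀ p : ℕ, p.Prime → 0 < affCount W p) ∧
  (FinSha (W.map (Int.castRingHom ℚ)) ↔ H4 m) ∧ (H4 m → Λ 1 ≠ 0)

/-- the families of `X_0(15)`, `X_0(21)`, `X_0(24)` -/
def Fam (j : Fin 3) (m : ℤ) : Prop := match j with
  | 0 => m < 0 ∧ (m % 60 = 13 ∨ m % 60 = 37)
  | 1 => m < 0 ∧ m % 3 ≠ 1 ∧ (m % 7 = 0 ∨ m % 7 = 1 ∨ m % 7 = 2 ∨ m % 7 = 4)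
  | 2 => m < 0 ∧ m % 24 = 13

/-- `c₄` -/
def al3 (j : Fin 3) : ℤ := match j with | 0 => 481 | 1 => 193 | 2 => 13

/-- `c₆` -/
def be3 (j : Fin 3) : ℤ := match j with | 0 => 4879 | 1 => 575 | 2 => -35

/-- (D15) `X_0(15)` -/
def S_D15 : Prop := ∀ m : ℤ, Squarefree m → Fam 0 m → Data 481 4879 m

/-- (D21) `X_0(21)` -/
def S_D21 : Prop := ∀ m : ℤ, Squarefree m → Fam 1 m → Data 193 575 m

/-- (D24) `X_0(24)` -/
def S_D24 : Prop := ∀ m : ℤ, Squarefree m → Fam 2 m → Data 13 (-35) m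

/-- (CV) **all the integral equations** -/
def S_CV : Prop := ∀ (j : Fin 3) (m a b : ℤ) (g : ℚ), Squarefree m → Fam j m → g ≠ 0 →
  (a : ℚ) = -27 * (al3 j : ℚ) * (g ^ 2 * m) ^ 2 → (b : ℚ) = -54 * (be3 j : ℚ) * (g ^ 2 * m) ^ 3 →
  (TR a b ↔ H4 m) ∧ ∃ F : ℂ → ℂ, IsI a b F ∧ (H4 m → F 1 ≠ 0)

/-- (SL) the scaling factors for the conductor `17` are integral -/
def S_SL : Prop := ∀ (j : Fin 4) (m a b : ℤ) (g : ℚ), Squarefree m → g ≠ 0 →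
  (a : ℚ) = (cA j : ℚ) * (g ^ 2 * m) ^ 2 → (b : ℚ) = (cB j : ℚ) * (g ^ 2 * m) ^ 3 →
  ∃ g : ℕ, g ≠ 0 ∧ a = cA j * ((g : ℤ) ^ 2 * m) ^ 2 ∧ b = cB j * ((g : ℤ) ^ 2 * m) ^ 3

/-- (JI) the equations with a given j-invariant are twists -/
def S_JI : Prop := ∀ A B a b : ℤ, A ≠ 0 → B ≠ 0 → 4 * a ^ 3 + 27 * b ^ 2 ≠ 0 →
  a ^ 3 * B ^ 2 = A ^ 3 * b ^ 2 →
  ∃ (m : ℤ) (g : ℚ), Squarefree m ∧ g ≠ 0 ∧ (a : ℚ) = (A : ℚ) * (g ^ 2 * m) ^ 2 ∧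
    (b : ℚ) = (B : ℚ) * (g ^ 2 * m) ^ 3

/-! ### the densities -/

/-- (TF) **the joint law for predicates which differ at one integer** -/
def S_TF : Prop := ∀ (P G : ℤ → Prop), (∀ d, Squarefree d → d ≠ 1 → (P d ↔ Sys d)) →
  (∀ d, d < 0 → Squarefree d → d ≠ -1 → (G d ↔ H4 d)) →
  ∀ (T T' : Finset ℤ) (inf : Prop) (S : Finset ℕ) (d₀ : ℤ),
  (∀ t ∈ T, Squarefree t) → (∀ t ∈ T', Squarefree t ∧ tw t d₀ < 0) →
  (∀ p ∈ S, p.Prime) → Squarefree d₀ →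
  ∀ A ⊆ T.filter (fun t => Rt (tw t d₀)), ∀ A' ⊆ T',
    Tendsto (fun X : ℕ => (NS (fun d => Qc2 T T' inf S d₀ d ∧ (∀ t ∈ T, (P (tw t d) ↔ t ∈ A)) ∧
        ∀ t ∈ T', (G (tw t d) ↔ t ∈ A')) X : ℝ) /
      (NS (Qc2 T T' inf S d₀) X : ℝ)) atTop
      (𝓝 (c2 ^ A.card * (1 - c2) ^ (T.filter (fun t => Rt (tw t d₀)) \ A).card *
        (eta ^ A'.card * (1 - eta) ^ (T' \ A').card)))

/-- (HU) **density one**: for every infinite set `T` and every `N`, the `d` for which infinitely many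
`t ∈ T` have root number `1` but fewer than `N` satisfy the criterion have density `0` -/
def S_HU : Prop := ∀ (T : Set ℤ) (N : ℕ), (∀ t ∈ T, Squarefree t) →
  Tendsto (fun X : ℕ => (NS (fun d => {t | t ∈ T ∧ Rt (tw t d)}.Infinite ∧
    ¬ ∃ F : Finset ℤ, (∀ t ∈ F, t ∈ T) ∧ F.card = N ∧ ∀ t ∈ F, Sys (tw t d)) X : ℝ) /
      (NS (fun _ => True) X : ℝ)) atTop (𝓝 0)

end Pool.Agent.H743.JL
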