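import Pool.Agent.H743.JL.AllZ

/-!
# The joint law for predicates which differ from the criteria on a set of density zero
-/

set_option autoImplicit false
set_option linter.all false

open scoped Classical

namespace Pool.Agent.H743.JL

open Finset Filter Topology
open Pool.Agent.H743.X17 (Sys Rt)
open Pool.Agent.N919.BS (NS)
open Pool.Agent.Y703.CQ (c2)

theorem NS_mem {P : ℤ → Prop} {X : ℕ} {d : ℤ} :
    d ∈ ((Icc (-(X : ℤ)) X).filter fun d => Squarefree d ∧ P d) ↔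
      (-(X : ℤ) ≤ d ∧ d ≤ X) ∧ Squarefree d ∧ P d := by
  rw [mem_filter, mem_Icc]

theorem NS_monoZ {P Q : ℤ → Prop} (h : ∀ m, Squarefree m → P m → Q m) (X : ℕ) : NS P X ≤ NS Q X := by
  unfold NS
  refine card_le_card fun m hm => ?_
  rw [NS_mem] at hm ⊢
  exact ⟨hm.1, hm.2.1, h m hm.2.1 hm.2.2⟩

/-- close predicates -/
theorem closeZ {P Q Z : ℤ → Prop} (h : ∀ d, Squarefree d → ¬ Z d → P d → Q d) (X : ℕ) :
    NS P X ≤ NS Q X + NS Z X := by
  unfold NS
  refine le_trans (card_le_card ?_) (card_union_le _ _)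
  intro d hd
  obtain ⟨h2, h3, h4⟩ := NS_mem.1 hd
  by_cases hE : Z d
  · exact mem_union_right _ (NS_mem.2 ⟨h2, h3, hE⟩)
  · exact mem_union_left _ (NS_mem.2 ⟨h2, h3, h d h3 hE h4⟩)

/-- null sets -/
def Null (Z : ℤ → Prop) : Prop := Tendsto (fun X : ℕ => (NS Z X : ℝ) / X) atTop (𝓝 0)

theorem limZ {P Q Z : ℤ → Prop} (hZ : Null Z) (h : ∀ d, Squarefree d → ¬ Z d → (P d ↔ Q d))
    {T : ℕ → ℕ} {c δ : ℝ} {X₀ : ℕ} (hδ : 0 < δ) (hT : ∀ X : ℕ, X₀ ≤ X → δ * X ≤ (T X : ℝ))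
    (hQ : Tendsto (fun X => (NS Q X : ℝ) / (T X : ℝ)) atTop (𝓝 c)) :
    Tendsto (fun X => (NS P X : ℝ) / (T X : ℝ)) atTop (𝓝 c) := by
  have h1 : Tendsto (fun X => (NS P X : ℝ) / (T X : ℝ) - (NS Q X : ℝ) / (T X : ℝ)) atTop (𝓝 0) := by
    have h2 : Tendsto (fun X : ℕ => δ⁻¹ * ((NS Z X : ℝ) / X)) atTop (𝓝 0) := by
      have := hZ.const_mul δ⁻¹
      rwa [mul_zero] at this
    refine squeeze_zero_norm' ?_ h2
    filter_upwards [eventually_ge_atTop (max X₀ 1)] with X hX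
    have a1 : X₀ ≤ X := (le_max_left _ _).trans hX
    have a2 : 1 ≤ X := (le_max_right _ _).trans hX
    have hX0 : (0 : ℝ) < X := by exact_mod_cast a2
    have b1 := hT X a1
    have hT0 : (0 : ℝ) < (T X : ℝ) := lt_of_lt_of_le (by positivity) b1
    rw [← sub_div, Real.norm_eq_abs, abs_div, abs_of_nonneg hT0.le]
    have h3 : (NS P X : ℝ) ≤ NS Q X + NS Z X := by
      exact_mod_cast closeZ (fun d hd hE => (h d hd hE).1) X
    have h4 : (NS Q X : ℝ) ≤ NS P X + NS Z X := by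
      exact_mod_cast closeZ (fun d hd hE => (h d hd hE).2) X
    have h5 : |(NS P X : ℝ) - NS Q X| ≤ NS Z X := abs_le.2 ⟨by linarith, by linarith⟩
    have h6 : (0 : ℝ) ≤ NS Z X := Nat.cast_nonneg _
    calc |(NS P X : ℝ) - NS Q X| / (T X : ℝ) ≤ (NS Z X : ℝ) / (T X : ℝ) :=
          div_le_div_of_nonneg_right h5 hT0.le
      _ ≤ (NS Z X : ℝ) / (δ * X) := div_le_div_of_nonneg_left h6 (by positivity) b1
      _ = δ⁻¹ * ((NS Z X : ℝ) / X) := by
        field_simp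
  have h6 := h1.add hQ
  rw [zero_add] at h6
  refine h6.congr (fun X => ?_)
  ring

theorem null_zero {Z : ℤ → Prop} (N : ℕ) (h : ∀ X, NS Z X ≤ N) : Null Z := by
  have h2 : Tendsto (fun X : ℕ => (N : ℝ) / (X : ℝ)) atTop (𝓝 0) :=
    tendsto_const_nhds.div_atTop tendsto_natCast_atTop_atTop
  refine squeeze_zero (fun X => by positivity) (fun X => ?_) h2
  exact div_le_div_of_nonneg_right (Nat.cast_le.2 (h X)) (Nat.cast_nonneg _)

theorem null_fin (E : Finset ℤ) : Null (fun d => d ∈ E) := by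
  refine null_zero E.card fun X => ?_
  unfold NS
  refine card_le_card fun d hd => ?_
  exact (NS_mem (P := fun d => d ∈ E).1 hd).2.2

theorem null_or {Z Z' : ℤ → Prop} (h : Null Z) (h' : Null Z') : Null (fun d => Z d ∨ Z' d) := by
  have h2 := h.add h'
  rw [zero_add] at h2
  refine squeeze_zero (fun X => by positivity) (fun X => ?_) h2
  rw [← add_div]
  refine div_le_div_of_nonneg_right ?_ (Nat.cast_nonneg _)
  have : NS (fun d => Z d ∨ Z' d) X ≤ NS Z X + NS Z' X :=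
    closeZ (fun d _ hn hor => hor.resolve_right hn) X
  exact_mod_cast this

theorem null_mono {Z Z' : ℤ → Prop} (h : Null Z) (hi : ∀ d, Squarefree d → Z' d → Z d) : Null Z' := by
  refine squeeze_zero (fun X => by positivity) (fun X => ?_) h
  exact div_le_div_of_nonneg_right (Nat.cast_le.2 (NS_monoZ hi X)) (Nat.cast_nonneg _)

theorem tw_inj {t d d' : ℤ} (ht : Squarefree t) (hd : Squarefree d) (hd' : Squarefree d')
    (h : tw t d = tw t d') : d = d' := by
  obtain ⟨_, h2, _, _, _, h6⟩ := Pool.Agent.H955.JL.TT.t_TT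
  exact h6 d d' t hd hd' ht (by rw [h2 d t, h2 d' t, h])

theorem tw_abs (t d : ℤ) (ht : t ≠ 0) : |tw t d| ≤ |t| * |d| := by
  unfold tw
  have hg : 0 < (Int.gcd t d : ℤ) ^ 2 := by
    have := Int.gcd_pos_of_ne_zero_left d ht
    positivity
  rw [← abs_mul]
  exact Int.abs_ediv_le_abs _ _

/-- the twist of a null set -/
theorem null_tw {Z : ℤ → Prop} (h : Null Z) {t : ℤ} (ht : Squarefree t) : Null (fun d => Z (tw t d)) := by
  have ht0 := ht.ne_zero
  set k : ℕ := t.natAbs with hk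
  have hk0 : 0 < k := Int.natAbs_pos.2 ht0
  have h1 : Tendsto (fun X : ℕ => (NS Z (k * X) : ℝ) / ((k * X : ℕ) : ℝ)) atTop (𝓝 0) :=
    h.comp (tendsto_id.const_mul_atTop' hk0)
  have h2 : Tendsto (fun X : ℕ => (k : ℝ) * ((NS Z (k * X) : ℝ) / ((k * X : ℕ) : ℝ))) atTop (𝓝 0) := by
    have := h1.const_mul (k : ℝ)
    rwa [mul_zero] at this
  refine squeeze_zero' (Eventually.of_forall fun X => by positivity) ?_ h2
  filter_upwards [eventually_ge_atTop 1] with X hX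
  have hX0 : (0 : ℝ) < X := by exact_mod_cast hX
  have hkr : (0 : ℝ) < k := by exact_mod_cast hk0
  have h3 : NS (fun d => Z (tw t d)) X ≤ NS Z (k * X) := by
    unfold NS
    refine card_le_card_of_injOn (fun d => tw t d) ?_ ?_
    · intro d hd
      have hd' := (NS_mem (P := fun d => Z (tw t d))).1 hd
      obtain ⟨⟨h4, h5⟩, h6, h7⟩ := hd'
      refine NS_mem.2 ⟨?_, Pool.Agent.H955.JL.TT.sqf_tw ht h6, h7⟩
      have h8 := tw_abs t d ht0
      have h9 : |d| ≤ X := abs_le.2 ⟨h4, h5⟩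
      have h10 : |t| * |d| ≤ ((k * X : ℕ) : ℤ) := by
        push_cast
        have : |t| = (k : ℤ) := by rw [hk, Int.natCast_natAbs]
        rw [this]
        exact mul_le_mul_of_nonneg_left h9 (Int.natCast_nonneg _)
      exact abs_le.1 (h8.trans h10)
    · intro d hd d' hd' he
      have a1 := (NS_mem (P := fun d => Z (tw t d))).1 hd
      have a2 := (NS_mem (P := fun d => Z (tw t d))).1 hd'
      exact tw_inj ht a1.2.1 a2.2.1 he
  have h4 : (NS (fun d => Z (tw t d)) X : ℝ) ≤ NS Z (k * X) := by exact_mod_cast h3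
  have e : (k : ℝ) * ((NS Z (k * X) : ℝ) / ((k * X : ℕ) : ℝ)) = (NS Z (k * X) : ℝ) / X := by
    push_cast
    field_simp
  rw [e]
  exact div_le_div_of_nonneg_right h4 hX0.le

theorem null_ex {Z : ℤ → Prop} (h : Null Z) (T : Finset ℤ) (hT : ∀ t ∈ T, Squarefree t) :
    Null (fun d => ∃ t ∈ T, Z (tw t d)) := by
  induction T using Finset.induction_on with
  | empty =>
    refine null_mono (null_fin ∅) ?_
    rintro d - ⟨t, ht, -⟩
    exact absurd ht (notMem_empty t)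
  | insert a s ha ih =>
    have h1 := null_or (null_tw h (hT a (mem_insert_self a s)))
      (ih fun t ht => hT t (mem_insert_of_mem ht))
    refine null_mono h1 ?_
    rintro d - ⟨t, ht, hz⟩
    rcases mem_insert.1 ht with rfl | ht
    · exact Or.inl hz
    · exact Or.inr ⟨t, ht, hz⟩

/-- **the joint law for predicates which differ from the criteria on null sets** -/
theorem tfz (P G Z : ℤ → Prop) (hZ : Null Z) (hP : ∀ d, Squarefree d → ¬ Z d → (P d ↔ Sys d))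
    (hG : ∀ d, d < 0 → Squarefree d → d ≠ -1 → (G d ↔ H4 d))
    (T T' : Finset ℤ) (inf : Prop) (S : Finset ℕ) (d₀ : ℤ)
    (hT : ∀ t ∈ T, Squarefree t) (hT' : ∀ t ∈ T', Squarefree t ∧ tw t d₀ < 0)
    (hS : ∀ p ∈ S, p.Prime) (hd₀ : Squarefree d₀)
    (A : Finset ℤ) (hA : A ⊆ T.filter (fun t => Rt (tw t d₀))) (A' : Finset ℤ) (hA' : A' ⊆ T') :
    Tendsto (fun X : ℕ => (NS (fun d => Qc2 T T' inf S d₀ d ∧ (∀ t ∈ T, (P (tw t d) ↔ t ∈ A)) ∧
        ∀ t ∈ T', (G (tw t d) ↔ t ∈ A')) X : ℝ) /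
      (NS (Qc2 T T' inf S d₀) X : ℝ)) atTop
      (𝓝 (c2 ^ A.card * (1 - c2) ^ (T.filter (fun t => Rt (tw t d₀)) \ A).card *
        (Pool.Agent.N916.GB.eta ^ A'.card * (1 - Pool.Agent.N916.GB.eta) ^ (T' \ A').card))) := by
  obtain ⟨⟨c, X₀, hc, hlow⟩, hlim⟩ := fi2 T T' inf S d₀ hT hT' hS hd₀
  have hZ' := null_or (null_ex hZ T hT) (null_fin (T'.image (fun t => -t)))
  refine limZ hZ' (fun d hd hE => ?_) hc hlow (hlim A hA A' hA')
  rw [not_or] at hE
  have h1 : ∀ t ∈ T, (P (tw t d) ↔ Sys (tw t d)) := by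
    intro t ht
    exact hP _ (Pool.Agent.H955.JL.TT.sqf_tw (hT t ht) hd) fun hz => hE.1 ⟨t, ht, hz⟩
  have h2 : Qc2 T T' inf S d₀ d → ∀ t ∈ T', (G (tw t d) ↔ H4 (tw t d)) := by
    intro hq t ht
    apply hG _ ((hq.1.2 t ht).2 (hT' t ht).2) (Pool.Agent.H955.JL.TT.sqf_tw (hT' t ht).1 hd)
    intro h3
    apply hE.2
    rw [mem_image]
    have hn : Squarefree (-t) := fun x hx => (hT' t ht).1 x ((dvd_neg).1 hx)
    have h4 : tw (-t) d = 1 := by
      rw [Pool.Agent.H955.JL.TT.t_TT.2.2.2.2.1 t d (hT' t ht).1 hd, h3]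
      norm_num
    exact ⟨t, ht, (Pool.Agent.H628.JZ.TF.tw_one hn hd h4).symm⟩
  constructor
  · rintro ⟨hq, h3, h4⟩
    exact ⟨hq, fun t ht => (h1 t ht).symm.trans (h3 t ht), fun t ht => (h2 hq t ht).symm.trans (h4 t ht)⟩
  · rintro ⟨hq, h3, h4⟩
    exact ⟨hq, fun t ht => (h1 t ht).trans (h3 t ht), fun t ht => (h2 hq t ht).trans (h4 t ht)⟩

end Pool.Agent.H743.JL
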