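import Pool.Agent.H743.JL.TFZ

/-!
# The full 2-part data of the twists of `X_0(15)`, `X_0(21)`, `X_0(24)`

The lemmas about `X_0(24)` (`omega_eq`, `value`) are adapted from `MP_9c97e9_nt/TwistsOfX024` (helper345), those about
`X_0(15)` from `MP_92892c_nt/TwoPartImaginaryX15` (helper464), and those about `X_0(21)` from
`MP_92892c_nt/TwistsX21ClassGroup` (helper114).
-/

set_option autoImplicit false
set_option linter.all false

open scoped Classical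

namespace Pool.Agent.H743.JL.TP

open Filter Topology MeasureTheory
open Pool.Agent.H743.JL
open Pool.Agent.H743.X17 (FinSha TamProd)
open Pool.Agent.Y700 (IsL Omega)
open Pool.Agent.TH841.SH.D (Sha)

/-- the minimal equations -/
def W3 (i : Fin 3) (m : ℤ) : WeierstrassCurve ℤ := match i with
  | 0 => ⟨1, (5 * m - 1) / 4, 1, -((19 * m ^ 2 + 1) / 2), -((39 * m ^ 3 + 1) / 4)⟩
  | 1 => if m % 4 = 1 then ⟨1, (25 * m - 1) / 4, 0, 9 * m ^ 2, 0⟩ else ⟨0, 25 * m, 0, 144 * m ^ 2, 0⟩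
  | 2 => ⟨0, 2 * m, 0, -(3 * m ^ 2), 0⟩

/-- the equation is minimal -/
def IsMinimal (V : WeierstrassCurve ℤ) : Prop :=
  V.Δ ≠ 0 ∧ ∀ (V' : WeierstrassCurve ℤ) (C : WeierstrassCurve.VariableChange ℚ),
    C • (V.map (Int.castRingHom ℚ)) = V'.map (Int.castRingHom ℚ) → |V.Δ| ≤ |V'.Δ|

/-- the Tamagawa product -/
def tm (i : Fin 3) (m : ℤ) : ℕ := match i with
  | 0 => 4 ^ (m.natAbs.primeFactors.card + 1)
  | 1 => 4 ^ ((if m % 4 = 1 then m.natAbs else 4 * m.natAbs).primeFactors).card *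
      (if (3 : ℤ) ∣ m then 1 else 2) * (if (7 : ℤ) ∣ m then 1 else 2)
  | 2 => 4 ^ (m.natAbs.primeFactors.card + 1)

/-- the data -/
def Dt (V : WeierstrassCurve ℤ) (m : ℤ) (t : ℕ) : Prop :=
  IsMinimal V ∧ Nat.card (AddCommGroup.torsion (V.map (Int.castRingHom ℚ)).toAffine.Point) = 4 ∧
    TamProd V = t ∧ 0 < Omega V ∧ (FinSha (V.map (Int.castRingHom ℚ)) ↔ H4 m) ∧
    ∃ (Λ : ℂ → ℂ) (y : ℕ), IsL V Λ ∧
      Λ 1 = (((y : ℝ) ^ 2 * (TamProd V : ℝ) / 16 * Omega V : ℝ) : ℂ) ∧ (Odd y ↔ H4 m)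

/-! ### `X_0(15)` -/

section X15
open Pool.Agent.H464.XB

theorem d15 {m : ℤ} (hs : Squarefree m) (hF : Fam 0 m) : Dt (W3 0 m) m (tm 0 m) := by
  have hN : T.Neg m := ⟨hF.1, hs, hF.2⟩
  have hm0 : m < 0 := hF.1
  have h60 : m % 60 = 13 ∨ m % 60 = 37 := hF.2
  have hsn : Squarefree m.natAbs := Int.squarefree_natAbs.2 hs
  have hn4 : m.natAbs % 4 = 3 := by omega
  have hn1 : 1 < m.natAbs := by omega
  have hgood : (∀ d : ℕ, Redei m.natAbs d → d = 1 ∨ d = m.natAbs) ↔ H4 m := by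
    rw [Pool.Agent.H628.JZ.RD.t_RD m.natAbs hsn hn4]
    have e : (-((m.natAbs : ℕ) : ℤ)) = m := by omega
    rw [e]
    exact gm m hm0 (by omega) hs
  have hkr : Pool.Agent.XV.Kr m.natAbs.primeFactors ↔ H4 m := by
    rw [← hgood]
    exact kr_red hsn
  have hfin : T.FinSha (T.EQ m) ↔ H4 m := by
    rw [T.finSha_iff hN, nx_eq hsn hn4, ← card_red hsn (by omega), card_two hsn hn1, ← hgood]
    exact Iff.rfl
  obtain ⟨f, hf, hO, y, hv, hy⟩ := lval hN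
  have hT : TamProd (W3 0 m) = 2 ^ (2 * m.natAbs.primeFactors.card + 2) := T.tamProd_eq hN
  have hT2 : TamProd (W3 0 m) = tm 0 m := by
    rw [hT]
    show _ = 4 ^ (m.natAbs.primeFactors.card + 1)
    rw [show (4 : ℕ) = 2 ^ 2 by norm_num, ← pow_mul]
    congr 1
  refine ⟨T.minimal_WD hN, T.tors_WD hN, hT2, hO, hfin, f, y, hf, ?_, hy.trans hkr⟩
  rw [hv, hT]
  congr 1
  push_cast
  have e : (Omega (Pool.Agent.H757_X15.WD m)) = Omega (W3 0 m) := rfl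
  rw [e, pow_add, pow_mul]
  norm_num
  ring

end X15

/-! ### `X_0(21)` -/

section X21
open Pool.Agent.H114.X21 (K21 parts)

theorem d21 {m : ℤ} (hs : Squarefree m) (hF : Fam 1 m) : Dt (W3 1 m) m (tm 1 m) := by
  have hK : K21 m := ⟨hF.1, hs, hF.2.1, hF.2.2⟩
  have hg : Pool.Agent.H114.X21.Gm m ↔ H4 m := gm m hF.1 hK.ne_one hs
  obtain ⟨hO, f, y, hf, hy, -, hv⟩ := Pool.Agent.H114.X21.main parts hK
  have hfs := Pool.Agent.H114.X21.finSha_iff parts hK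
  refine ⟨parts.min m hs, Pool.Agent.H114.X21.tors_EM parts hK,
    Pool.Agent.H114.X21.tamProd_eq parts hK, hO, hfs.trans hg, f, y, hf, hv, ?_⟩
  exact hy.trans (hfs.trans hg)

end X21

/-! ### `X_0(24)` -/

section X24
open Pool.Agent.H345.X24
open Pool.Agent.H464.XB (nx_eq card_red card_two law)
open Pool.Agent.H701.JZ24 (Family twn_of good_iff fin_iff qc_iff W)

lemma omega_eq (n : ℕ) : Omega (W n) = 2 * ∫ x in {x : ℝ | 0 < Pool.Agent.N971.MF.cubic (W n) x},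
    1 / √(Pool.Agent.N971.MF.cubic (W n) x) := by
  rw [← integral_const_mul]
  unfold Omega
  refine integral_congr_ae (Eventually.of_forall fun x => ?_)
  show 2 / √(Pool.Agent.Y700.psi (W n) x) = 2 * (1 / √(Pool.Agent.N971.MF.cubic (W n) x))
  rw [mul_one_div]
  rfl

/-- the value at `1` -/
lemma value {n : ℕ} (hn : Family n) : ∃ Λ : ℂ → ℂ, IsL (W n) Λ ∧ 0 < Omega (W n) ∧
    ∃ y : ℕ, Λ 1 = ((((y : ℝ) ^ 2 * 4 ^ n.primeFactors.card / 4 * Omega (W n) : ℝ)) : ℂ) ∧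
      (Odd y ↔ Pool.Agent.H701.JZ24.Good n) := by
  obtain ⟨f, hf, -, h1, h2, h3⟩ := Pool.Agent.N877.P24.value24 hn.1 hn.2
  obtain ⟨y, hy, hodd⟩ := Pool.Agent.N878.P24.t_PAR Pool.Agent.N877.P24.t_R n ⟨hn.1, hn.2⟩
  have hO := omega_eq n
  have hO' : 0 < Omega (W n) := by
    rw [hO]
    exact mul_pos two_pos h2
  refine ⟨f, ⟨hf, fun s hs => Pool.Agent.N877.P24.euler_W hn.2 (h3 s hs)⟩, hO', y.natAbs, ?_, ?_⟩
  · have e1 : f 1 = (((Pool.Agent.N877.P24.cc n : ℝ) ^ 2 / 576 * Omega (W n) : ℝ) : ℂ) := by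
      rw [hO]
      exact h1
    have e2 : ((y.natAbs : ℕ) : ℝ) ^ 2 = (y : ℝ) ^ 2 := by
      have h5 : ((y.natAbs : ℕ) : ℝ) = |(y : ℝ)| := by
        rw [Nat.cast_natAbs, Int.cast_abs]
      rw [h5, sq_abs]
    have e3 : ((Pool.Agent.N877.P24.cc n : ℤ) : ℝ) = 12 * 2 ^ n.primeFactors.card * y := by
      rw [hy]
      push_cast
      ring
    rw [e1, e2]
    congr 1
    rw [e3]
    have e4 : (4 : ℝ) ^ n.primeFactors.card = (2 ^ n.primeFactors.card) ^ 2 := by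
      rw [← pow_mul, mul_comm, pow_mul]
      norm_num
    rw [e4]
    ring
  · rw [Int.natAbs_odd, hodd]
    exact qc_iff hn

theorem d24 {m : ℤ} (hs : Squarefree m) (hF : Fam 2 m) : Dt (W3 2 m) m (tm 2 m) := by
  obtain ⟨hneg, h24⟩ : m < 0 ∧ m % 24 = 13 := hF
  have hm' : ((m.natAbs : ℕ) : ℤ) = -m := by omega
  have hn : Family m.natAbs := ⟨Int.squarefree_natAbs.2 hs, by omega⟩
  have hG : Pool.Agent.H701.JZ24.Good m.natAbs ↔ H4 m := by
    rw [← gm m hneg (by omega) hs]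
    have := Pool.Agent.H628.JZ.RD.t_RD m.natAbs hn.1 (by omega)
    rw [hm', neg_neg] at this
    exact this
  have hW : W3 2 m = W m.natAbs := by
    show (⟨0, 2 * m, 0, -(3 * m ^ 2), 0⟩ : WeierstrassCurve ℤ) =
      ⟨0, -(2 * ((m.natAbs : ℕ) : ℤ)), 0, -(3 * ((m.natAbs : ℕ) : ℤ) ^ 2), 0⟩
    rw [hm']
    congr 1
    · ring
    · ring
  obtain ⟨Λ, hL, hO, y, hv, hy⟩ := value hn
  have hT : Pool.Agent.H743.X17.TamProd (W m.natAbs) = 4 ^ (m.natAbs.primeFactors.card + 1) := tamProd_eq (twn_of hn)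
  rw [hW]
  refine ⟨minimal_W (twn_of hn), tors_card (twn_of hn).m8, hT, hO, (fin_iff hn).trans hG, Λ, y, hL,
    ?_, hy.trans hG⟩
  rw [hv, hT]
  congr 1
  push_cast
  rw [pow_succ]
  ring

end X24

theorem data (i : Fin 3) {m : ℤ} (hs : Squarefree m) (hF : Fam i m) : Dt (W3 i m) m (tm i m) := by
  have h3 : ∀ i : Fin 3, i = 0 ∨ i = 1 ∨ i = 2 := by decide
  rcases h3 i with rfl | rfl | rfl
  · exact d15 hs hF
  · exact d21 hs hF
  · exact d24 hs hF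

end Pool.Agent.H743.JL.TP
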